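import Pool.Agent.Lib.MP_b71113_an.OT.Base

/-! The Cauchy-Pompeiu formula. -/

namespace Pool.Agent.NapOT

open MeasureTheory Set Metric Complex ComplexConjugate Filter Topology
open scoped NNReal ENNReal Pointwise

variable {h : ℂ → ℂ}

/-- the point of the unit circle with argument `θ` -/
noncomputable def cp_e (θ : ℝ) : ℂ := Real.cos θ + Real.sin θ * I

theorem cp_e_cont : Continuous cp_e := by unfold cp_e; fun_prop

theorem cp_e_norm (θ : ℝ) : ‖cp_e θ‖ = 1 := by
  have := Complex.norm_exp_ofReal_mul_I θ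
  rwa [exp_mul_I, ← ofReal_cos, ← ofReal_sin] at this

theorem cp_e_deriv (θ : ℝ) : HasDerivAt cp_e (I * cp_e θ) θ := by
  have h := ((Real.hasDerivAt_cos θ).ofReal_comp).add
    (((Real.hasDerivAt_sin θ).ofReal_comp).mul_const I)
  refine (h.congr_deriv ?_ :)
  unfold cp_e
  push_cast
  linear_combination (-Complex.sin θ) * I_mul_I

theorem cp_alg (D : ℂ →L[ℝ] ℂ) {r : ℝ} (hr : 0 < r) (θ : ℝ) :
    r • ((D 1 + I * D I) / 2 / (r * cp_e θ)) = (1 / 2 : ℂ) * (D (cp_e θ) + I * D (I * cp_e θ)) := by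
  have h1 : D (cp_e θ) = (Real.cos θ : ℂ) * D 1 + (Real.sin θ : ℂ) * D I := by
    rw [← real_smul, ← real_smul, ← map_smul, ← map_smul, ← map_add]
    congr 1
    simp [cp_e]
  have h2 : D (I * cp_e θ) = (Real.cos θ : ℂ) * D I - (Real.sin θ : ℂ) * D 1 := by
    rw [← real_smul, ← real_smul, ← map_smul, ← map_smul, ← map_sub]
    congr 1
    simp only [cp_e, real_smul, mul_one]
    linear_combination (Real.sin θ : ℂ) * I_mul_I
  have h3 : (cp_e θ)⁻¹ = Real.cos θ - Real.sin θ * I := by
    refine inv_eq_of_mul_eq_one_right ?_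
    have h := congrArg (fun t : ℝ => (t : ℂ)) (Real.cos_sq_add_sin_sq θ)
    simp only [ofReal_add, ofReal_pow, ofReal_one] at h
    unfold cp_e
    linear_combination h - (Real.sin θ : ℂ) ^ 2 * I_mul_I
  have hr' : (r : ℂ) ≠ 0 := by exact_mod_cast hr.ne'
  rw [h1, h2, real_smul, div_eq_mul_inv _ ((r : ℂ) * cp_e θ), mul_inv, h3]
  field_simp
  linear_combination (-(Real.sin θ : ℂ) * D I) * I_mul_I

theorem cp_int {G : ℝ × ℝ → ℂ} (hG : Continuous G) {R : ℝ}
    (h0 : ∀ p : ℝ × ℝ, R < p.1 → G p = 0) :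
    IntegrableOn G (Ioi (0 : ℝ) ×ˢ Ioo (-Real.pi) Real.pi) := by
  have h1 : IntegrableOn G (Icc (0 : ℝ) R ×ˢ Icc (-Real.pi) Real.pi) :=
    hG.continuousOn.integrableOn_compact (isCompact_Icc.prod isCompact_Icc)
  refine h1.of_forall_sdiff_eq_zero (measurableSet_Ioi.prod measurableSet_Ioo) fun p hp => ?_
  refine h0 p (lt_of_not_ge fun hc => hp.2 ⟨⟨hp.1.1.le, hc⟩, Ioo_subset_Icc_self hp.1.2⟩)

theorem cp_radius (hc : HasCompactSupport h) :
    ∃ R : ℝ, ∀ z, R < ‖z‖ → h z = 0 ∧ fderiv ℝ h z = 0 := by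
  obtain ⟨R, hR⟩ := hc.isCompact.isBounded.exists_norm_le
  refine ⟨R, fun z hz => ?_⟩
  have h1 : h =ᶠ[𝓝 z] 0 := notMem_tsupport_iff_eventuallyEq.1 fun h2 => not_le.2 hz (hR z h2)
  exact ⟨h1.self_of_nhds, by rw [h1.fderiv_eq]; simp⟩

theorem cp_smooth (hh : ContDiff ℝ 1 h) (hc : HasCompactSupport h) (ξ : ℂ) :
    CT (db h) ξ = h ξ := by
  obtain ⟨R, hR⟩ := cp_radius hc
  have hd : Differentiable ℝ h := hh.differentiable (by simp)
  have hD : Continuous (fderiv ℝ h) := hh.continuous_fderiv (by simp)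
  have hfar : ∀ (r θ : ℝ), ‖ξ‖ + |R| < r → R < ‖ξ - r * cp_e θ‖ := fun r θ hr => by
    have h1 : ‖(r : ℂ) * cp_e θ‖ = r := by
      rw [norm_mul, cp_e_norm, mul_one, norm_real, Real.norm_of_nonneg]
      linarith [norm_nonneg ξ, abs_nonneg R]
    have h2 := norm_sub_norm_le ((r : ℂ) * cp_e θ) ξ
    rw [norm_sub_rev] at h2
    linarith [le_abs_self R]
  set A : ℝ × ℝ → ℂ := fun p => fderiv ℝ h (ξ - p.1 * cp_e p.2) (cp_e p.2) with hA
  set B : ℝ × ℝ → ℂ := fun p => fderiv ℝ h (ξ - p.1 * cp_e p.2) (I * cp_e p.2) with hB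
  have hc' : Continuous fun p : ℝ × ℝ => fderiv ℝ h (ξ - p.1 * cp_e p.2) :=
    hD.comp (continuous_const.sub
      ((continuous_ofReal.comp continuous_fst).mul (cp_e_cont.comp continuous_snd)))
  have hAc : Continuous A := hc'.clm_apply (cp_e_cont.comp continuous_snd)
  have hBc : Continuous B := hc'.clm_apply (continuous_const.mul (cp_e_cont.comp continuous_snd))
  have hA0 : ∀ p : ℝ × ℝ, ‖ξ‖ + |R| < p.1 → A p = 0 := fun p hp => by
    simp only [hA, (hR _ (hfar p.1 p.2 hp)).2, zero_apply]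
  have hB0 : ∀ p : ℝ × ℝ, ‖ξ‖ + |R| < p.1 → B p = 0 := fun p hp => by
    simp only [hB, (hR _ (hfar p.1 p.2 hp)).2, zero_apply]
  have hAi := cp_int hAc hA0
  have hBi := cp_int hBc hB0
  have iA : ∀ θ : ℝ, ∫ r in Ioi (0 : ℝ), A (r, θ) = h ξ := fun θ => by
    have h1 : ∀ r : ℝ, HasDerivAt (fun r : ℝ => -h (ξ - r * cp_e θ)) (A (r, θ)) r := fun r => by
      have h2 : HasDerivAt (fun r : ℝ => ξ - r * cp_e θ) (-cp_e θ) r := by
        simpa using ((hasDerivAt_id r).ofReal_comp.mul_const (cp_e θ)).const_sub ξ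
      have h3 := ((hd _).hasFDerivAt.comp_hasDerivAt r h2).neg
      rw [map_neg, neg_neg] at h3
      exact h3
    have h4 : IntegrableOn (fun r : ℝ => A (r, θ)) (Ioi 0) := by
      have h5 : IntegrableOn (fun r : ℝ => A (r, θ)) (Icc 0 (‖ξ‖ + |R|)) :=
        (hAc.comp (Continuous.prodMk_left θ)).continuousOn.integrableOn_compact isCompact_Icc
      exact h5.of_forall_sdiff_eq_zero measurableSet_Ioi fun r hr =>
        hA0 (r, θ) (lt_of_not_ge fun hc => hr.2 ⟨hr.1.le, hc⟩)
    have h6 : Tendsto (fun r : ℝ => -h (ξ - r * cp_e θ)) atTop (𝓝 0) := by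
      refine tendsto_const_nhds.congr' ?_
      filter_upwards [eventually_gt_atTop (‖ξ‖ + |R|)] with r hr
      rw [(hR _ (hfar r θ hr)).1, neg_zero]
    rw [integral_Ioi_of_hasDerivAt_of_tendsto' (fun r _ => h1 r) h4 h6]
    simp
  have iB : ∀ r ∈ Ioi (0 : ℝ), ∫ θ in Ioo (-Real.pi) Real.pi, B (r, θ) = 0 := fun r hr => by
    have hr0 : r ≠ 0 := (mem_Ioi.mp hr).ne'
    have h1 : ∀ θ : ℝ, HasDerivAt (fun θ : ℝ => (-r⁻¹) • h (ξ - r * cp_e θ)) (B (r, θ)) θ :=
      fun θ => by
        have h2 : HasDerivAt (fun θ : ℝ => ξ - r * cp_e θ) ((-r) • (I * cp_e θ)) θ := by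
          simpa using ((cp_e_deriv θ).const_mul (r : ℂ)).const_sub ξ
        have h3 := ((hd _).hasFDerivAt.comp_hasDerivAt θ h2).const_smul (-r⁻¹)
        rw [map_smul, smul_smul, neg_mul_neg, inv_mul_cancel₀ hr0, one_smul] at h3
        exact h3
    rw [← integral_Ioc_eq_integral_Ioo,
      ← intervalIntegral.integral_of_le (by linarith [Real.pi_pos]),
      intervalIntegral.integral_eq_sub_of_hasDerivAt (fun θ _ => h1 θ)
        ((hBc.comp (Continuous.prodMk_right r)).intervalIntegrable _ _)]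
    simp [cp_e]
  have jA : ∫ p in Ioi (0 : ℝ) ×ˢ Ioo (-Real.pi) Real.pi, A p = (2 * Real.pi) • h ξ := by
    have h1 := hAi
    rw [IntegrableOn, Measure.volume_eq_prod, ← Measure.prod_restrict] at h1
    rw [Measure.volume_eq_prod, ← Measure.prod_restrict, integral_prod_symm _ h1]
    simp only [iA]
    rw [setIntegral_const, Real.volume_real_Ioo_of_le (by linarith [Real.pi_pos])]
    congr 1
    ring
  have jB : ∫ p in Ioi (0 : ℝ) ×ˢ Ioo (-Real.pi) Real.pi, B p = 0 := by
    rw [Measure.volume_eq_prod, setIntegral_prod _ hBi, setIntegral_congr_fun measurableSet_Ioi iB]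
    simp
  have hp : (Real.pi : ℂ) ≠ 0 := by exact_mod_cast Real.pi_ne_zero
  have hsw : ∫ s, db h s / (ξ - s) = ∫ w, db h (ξ - w) / w := by
    rw [← integral_sub_left_eq_self (fun w => db h (ξ - w) / w) volume ξ]
    simp only [sub_sub_cancel]
  unfold CT
  rw [hsw, ← Complex.integral_comp_polarCoord_symm]
  change _ * ∫ p in Ioi (0 : ℝ) ×ˢ Ioo (-Real.pi) Real.pi, _ = _
  rw [setIntegral_congr_fun (measurableSet_Ioi.prod measurableSet_Ioo)
    (g := fun p => (1 / 2 : ℂ) * (A p + I * B p)) fun p hp => by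
      simp only [Complex.polarCoord_symm_apply]
      exact cp_alg _ hp.1 p.2]
  rw [integral_const_mul, integral_add (g := fun p => I * B p) hAi (hBi.const_mul I),
    integral_const_mul, jA, jB, mul_zero, add_zero, real_smul]
  push_cast
  field_simp

/-- the bumps of radius `1 / (n + 1)` -/
noncomputable def cp_bump (n : ℕ) : ContDiffBump (0 : ℂ) :=
  ⟨1 / ((n : ℝ) + 1) / 2, 1 / ((n : ℝ) + 1), by positivity,
    half_lt_self (by positivity)⟩

/-- the mollified function -/
noncomputable def cp_mol (n : ℕ) (g : ℂ → ℂ) : ℂ → ℂ :=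
  convolution ((cp_bump n).normed volume) g (ContinuousLinearMap.lsmul ℝ ℝ) volume

theorem cp_mol_eq (n : ℕ) (g : ℂ → ℂ) (s : ℂ) :
    cp_mol n g s = ∫ t, (cp_bump n).normed volume t • g (s - t) := rfl

theorem cp_mol_zero (n : ℕ) {g : ℂ → ℂ} {R : ℝ} (hg : ∀ z, R < ‖z‖ → g z = 0) {s : ℂ}
    (hs : R + 1 < ‖s‖) : cp_mol n g s = 0 := by
  rw [cp_mol_eq]
  refine integral_eq_zero_of_ae (Eventually.of_forall fun t => ?_)
  by_cases ht : t ∈ ball (0 : ℂ) (cp_bump n).rOut
  · have h1 : ‖t‖ < 1 / ((n : ℝ) + 1) := mem_ball_zero_iff.1 ht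
    have h2 : 1 / ((n : ℝ) + 1) ≤ 1 := by
      rw [div_le_one (by positivity)]
      linarith [(Nat.cast_nonneg n : (0 : ℝ) ≤ n)]
    have h3 := norm_sub_norm_le s t
    simp only [hg (s - t) (by linarith), smul_zero, Pi.zero_apply]
  · rw [← (cp_bump n).support_normed_eq (μ := volume), Function.notMem_support] at ht
    simp only [ht, zero_smul, Pi.zero_apply]

theorem cp_mol_le (n : ℕ) {g : ℂ → ℂ} {M : ℝ} (hg : ∀ z, ‖g z‖ ≤ M) (s : ℂ) :
    ‖cp_mol n g s‖ ≤ M := by
  rw [cp_mol_eq]
  refine (norm_integral_le_of_norm_le ((cp_bump n).integrable_normed.mul_const M)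
    (Eventually.of_forall fun t => ?_)).trans (le_of_eq ?_)
  · rw [norm_smul, Real.norm_of_nonneg ((cp_bump n).nonneg_normed t)]
    exact mul_le_mul_of_nonneg_left (hg _) ((cp_bump n).nonneg_normed t)
  · rw [integral_mul_const, (cp_bump n).integral_normed, one_mul]

theorem cp_db_le {L : ℝ≥0} (hh : LipschitzWith L h) (s : ℂ) : ‖db h s‖ ≤ L := by
  have h1 : ‖fderiv ℝ h s‖ ≤ L := norm_fderiv_le_of_lipschitz ℝ hh
  have h2 := (fderiv ℝ h s).le_opNorm 1
  have h3 := (fderiv ℝ h s).le_opNorm I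
  rw [norm_one, mul_one] at h2
  rw [norm_I, mul_one] at h3
  have h4 := norm_add_le (fderiv ℝ h s 1) (I * fderiv ℝ h s I)
  rw [norm_mul, norm_I, one_mul] at h4
  rw [db, norm_div, Complex.norm_two]
  linarith

theorem cp_db_meas (h : ℂ → ℂ) : Measurable (db h) :=
  ((measurable_fderiv_apply_const ℝ h 1).add
    (measurable_const.mul (measurable_fderiv_apply_const ℝ h I))).div_const 2

theorem cp_db_mol {L : ℝ≥0} (hh : LipschitzWith L h) (n : ℕ) (s : ℂ) :
    db (cp_mol n h) s = cp_mol n (db h) s := by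
  have hφ : Continuous ((cp_bump n).normed volume) := (cp_bump n).continuous_normed
  have hcont : ∀ x : ℂ, Continuous fun t => (cp_bump n).normed volume t • h (x - t) := fun x =>
    hφ.smul (hh.continuous.comp (continuous_const.sub continuous_id))
  have hae : ∀ᵐ t : ℂ, DifferentiableAt ℝ h (s - t) :=
    (Measure.measurePreserving_sub_left volume s).quasiMeasurePreserving.ae hh.ae_differentiableAt
  obtain ⟨hi, hd⟩ := hasFDerivAt_integral_of_dominated_loc_of_lip (𝕜 := ℝ) (μ := volume)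
    (F := fun x t => (cp_bump n).normed volume t • h (x - t)) (x₀ := s) (s := univ)
    (bound := fun t => (cp_bump n).normed volume t * L)
    (F' := fun t => (cp_bump n).normed volume t • fderiv ℝ h (s - t)) univ_mem
    (Eventually.of_forall fun x => (hcont x).aestronglyMeasurable)
    ((hcont s).integrable_of_hasCompactSupport (cp_bump n).hasCompactSupport_normed.smul_right)
    (hφ.aestronglyMeasurable.smul
      ((measurable_fderiv ℝ h).comp (measurable_const.sub measurable_id)).aestronglyMeasurable)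
    (Eventually.of_forall fun t => by
      refine LipschitzWith.lipschitzOnWith (LipschitzWith.of_dist_le_mul fun x y => ?_)
      have h0 := (cp_bump n).nonneg_normed (μ := volume) t
      rw [dist_smul₀, Real.norm_of_nonneg h0, Real.coe_nnabs,
        abs_of_nonneg (mul_nonneg h0 L.coe_nonneg), mul_assoc]
      refine mul_le_mul_of_nonneg_left ((hh.dist_le_mul _ _).trans (le_of_eq ?_)) h0
      rw [dist_sub_right])
    ((cp_bump n).integrable_normed.mul_const _)
    (hae.mono fun t ht => by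
      have h1 := (ht.hasFDerivAt.comp s ((hasFDerivAt_id s).sub_const t)).const_smul
        ((cp_bump n).normed volume t)
      rw [ContinuousLinearMap.comp_id] at h1
      exact h1)
  have hf : fderiv ℝ (cp_mol n h) s = ∫ t, (cp_bump n).normed volume t • fderiv ℝ h (s - t) :=
    hd.fderiv
  rw [db, hf, ContinuousLinearMap.integral_apply hi, ContinuousLinearMap.integral_apply hi,
    ← integral_const_mul, ← integral_add (hi.apply_continuousLinearMap 1)
      ((hi.apply_continuousLinearMap I).const_mul I), ← integral_div, cp_mol_eq]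
  refine integral_congr_ae (Eventually.of_forall fun t => ?_)
  simp only [db, smul_apply, real_smul]
  ring

theorem cp_lip {L : ℝ≥0} (hh : LipschitzWith L h) (hc : HasCompactSupport h) (ξ : ℂ) :
    CT (db h) ξ = h ξ := by
  obtain ⟨R, hR⟩ := cp_radius hc
  have hout : Tendsto (fun n => (cp_bump n).rOut) atTop (𝓝 0) :=
    tendsto_one_div_add_atTop_nhds_zero_nat
  have h1 : Tendsto (fun n => cp_mol n h ξ) atTop (𝓝 (h ξ)) :=
    ContDiffBump.convolution_tendsto_right_of_continuous hout hh.continuous ξ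
  have h2 : ∀ n, CT (cp_mol n (db h)) ξ = cp_mol n h ξ := fun n => by
    rw [← funext (cp_db_mol hh n)]
    refine cp_smooth ?_ ?_ ξ
    · exact (cp_bump n).hasCompactSupport_normed.contDiff_convolution_left (n := 1) _
        (cp_bump n).contDiff_normed hh.continuous.locallyIntegrable
    · exact HasCompactSupport.intro (isCompact_closedBall (0 : ℂ) (R + 1)) fun z hz =>
        cp_mol_zero n (fun z hz => (hR z hz).1) (not_le.1 fun h => hz (mem_closedBall_zero_iff.2 h))
  have hg0 : ∀ z, R < ‖z‖ → db h z = 0 := fun z hz => by simp [db, (hR z hz).2]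
  have hloc : LocallyIntegrable (db h) volume :=
    (locallyIntegrable_const (L : ℝ)).mono (cp_db_meas h).aestronglyMeasurable
      (Eventually.of_forall fun s => (cp_db_le hh s).trans (le_abs_self _))
  have hae : ∀ᵐ s : ℂ, Tendsto (fun n => cp_mol n (db h) s) atTop (𝓝 (db h s)) :=
    ContDiffBump.ae_convolution_tendsto_right_of_locallyIntegrable (K := 2) hout
      (Eventually.of_forall fun n => le_of_eq (by simp only [cp_bump]; ring)) hloc
  have hker : LocallyIntegrable (fun w : ℂ => ‖w‖⁻¹) volume := by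
    refine locallyIntegrable_of_norm_le_rpow (C := 1) (α := 1) (by simp) (by simp)
      (Eventually.of_forall fun w => ?_) measurable_norm.inv.aestronglyMeasurable
    rw [one_mul, Real.rpow_neg_one, norm_inv, norm_norm]
  have hb : Integrable ((closedBall (0 : ℂ) (‖ξ‖ + (R + 1))).indicator fun w : ℂ => ‖w‖⁻¹) :=
    (integrable_indicator_iff measurableSet_closedBall).2
      (hker.integrableOn_isCompact (isCompact_closedBall _ _))
  have h3 : Tendsto (fun n => ∫ s, cp_mol n (db h) s / (ξ - s)) atTop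
      (𝓝 (∫ s, db h s / (ξ - s))) := by
    refine tendsto_integral_of_dominated_convergence _ (fun n => ?_)
      ((hb.comp_sub_left ξ).const_mul L) (fun n => Eventually.of_forall fun s => ?_)
      (hae.mono fun s hs => hs.div_const _)
    · rw [← funext (cp_db_mol hh n)]
      exact ((cp_db_meas _).div (measurable_const.sub measurable_id)).aestronglyMeasurable
    · by_cases hs : R + 1 < ‖s‖
      · rw [cp_mol_zero n hg0 hs, zero_div, norm_zero]
        exact mul_nonneg L.coe_nonneg (indicator_nonneg (fun _ _ => by positivity) _)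
      · rw [indicator_of_mem (mem_closedBall_zero_iff.2
          ((norm_sub_le ξ s).trans (by linarith [not_lt.1 hs]))), norm_div, div_eq_mul_inv]
        exact mul_le_mul_of_nonneg_right (cp_mol_le n (cp_db_le hh) s) (by positivity)
  have h4 : Tendsto (fun n => CT (cp_mol n (db h)) ξ) atTop (𝓝 (CT (db h) ξ)) := h3.const_mul _
  simp only [h2] at h4
  exact tendsto_nhds_unique h4 h1

end Pool.Agent.NapOT
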