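import Pool.Agent.Lib.MP_b71113_an.OT.Base
import Pool.Agent.Lib.MP_b71113_an.Osgood

/-! Integrals that depend on a parameter. -/

namespace Pool.Agent.NapOT

open MeasureTheory Set Metric Complex ComplexConjugate Filter Topology
open scoped NNReal ENNReal Pointwise

variable {g : ℂ → ℂ} {M R : ℝ}

theorem measurable_db (h : ℂ → ℂ) : Measurable (db h) := by
  exact ((measurable_fderiv_apply_const ℝ h 1).add
    ((measurable_fderiv_apply_const ℝ h I).const_mul I)).div_const 2

/-- a majorant of the kernel with bounded support -/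
noncomputable def par_maj (ρ : ℝ) (w : ℂ) : ℝ := max (ρ + 1 - ‖w‖) 0 * ‖w‖⁻¹

theorem par_maj_int (ρ : ℝ) : Integrable (par_maj ρ) := by
  have h1 : LocallyIntegrable (par_maj ρ) := by
    refine locallyIntegrable_of_norm_le_rpow (C := |ρ + 1|) (α := 1) (by simp) (by simp)
      (Eventually.of_forall fun w => ?_) ?_
    · rw [Real.rpow_neg_one, par_maj, Real.norm_of_nonneg (by positivity)]
      refine mul_le_mul_of_nonneg_right (max_le ?_ (abs_nonneg _)) (by positivity)
      linarith [le_abs_self (ρ + 1), norm_nonneg w]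
    · exact (((measurable_const.sub measurable_norm).max measurable_const).mul
        measurable_norm.inv).aestronglyMeasurable
  refine (integrableOn_iff_integrable_of_support_subset (s := closedBall 0 (ρ + 1)) ?_).1
    (h1.integrableOn_isCompact (isCompact_closedBall _ _))
  intro w hw
  by_contra h
  rw [mem_closedBall_zero_iff, not_le] at h
  exact hw (by rw [par_maj, max_eq_right (by linarith), zero_mul])

theorem par_le (h : Bd M R g) {ξ : ℂ} {ρ : ℝ} (hρ : R + ‖ξ‖ ≤ ρ) (s : ℂ) :
    ‖g s / (ξ - s)‖ ≤ M * par_maj ρ (ξ - s) := by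
  have hM : 0 ≤ M := (norm_nonneg _).trans (h.le 0)
  by_cases hs : R < ‖s‖
  · rw [h.out s hs, zero_div, norm_zero, par_maj]
    positivity
  · have h1 := norm_sub_le ξ s
    rw [norm_div, div_eq_mul_inv, par_maj]
    refine mul_le_mul (h.le s) (le_mul_of_one_le_left (by positivity) (le_max_of_le_left ?_))
      (by positivity) hM
    linarith [not_lt.1 hs]

theorem par_meas (h : AEStronglyMeasurable g volume) (ξ : ℂ) :
    AEStronglyMeasurable (fun s => g s / (ξ - s)) volume :=
  (h.aemeasurable.div (measurable_const.sub measurable_id).aemeasurable).aestronglyMeasurable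

theorem Bd.integrable (h : Bd M R g) (ξ : ℂ) : Integrable fun s => g s / (ξ - s) := by
  exact (((par_maj_int (R + ‖ξ‖)).comp_sub_left ξ).const_mul M).mono' (par_meas h.meas ξ)
    (Eventually.of_forall (par_le h le_rfl))

theorem CT_congr {g' : ℂ → ℂ} (h : ∀ᵐ s, g s = g' s) : CT g = CT g' := by
  funext ξ
  exact congrArg _ (integral_congr_ae (h.mono fun s hs => by simp only [hs]))

theorem CT_add {g' : ℂ → ℂ} {ξ : ℂ} (h : Integrable fun s => g s / (ξ - s))
    (h' : Integrable fun s => g' s / (ξ - s)) :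
    CT (fun s => g s + g' s) ξ = CT g ξ + CT g' ξ := by
  simp only [CT, add_div]
  rw [integral_add h h', mul_add]

theorem CT_const_mul (a : ℂ) (g : ℂ → ℂ) (ξ : ℂ) : CT (fun s => a * g s) ξ = a * CT g ξ := by
  simp only [CT, mul_div_assoc]
  rw [integral_const_mul]
  ring

/-- a dominated integral of holomorphic functions is holomorphic -/
theorem hol_param {U : Set ℂ} (hU : IsOpen U) {k : ℂ → ℂ → ℂ}
    (hm : ∀ ξ ∈ U, AEStronglyMeasurable (k ξ) volume)
    (hd : ∀ᵐ s, DifferentiableOn ℂ (fun ξ => k ξ s) U) {G : ℂ → ℝ} (hG : Integrable G)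
    (hb : ∀ᵐ s, ∀ ξ ∈ U, ‖k ξ s‖ ≤ G s) : DifferentiableOn ℂ (fun ξ => ∫ s, k ξ s) U := by
  intro x hx
  obtain ⟨r, hr, hrU⟩ := Metric.isOpen_iff.1 hU x hx
  have hsub : ∀ y ∈ ball x (r / 2), ball y (r / 2) ⊆ U := fun y hy z hz => hrU (by
    rw [mem_ball] at hy hz ⊢
    have := dist_triangle z y x
    linarith)
  have hmd : AEStronglyMeasurable (fun s => deriv (fun ξ => k ξ s) x) volume := by
    classical
    refine aestronglyMeasurable_of_tendsto_ae (𝓝[≠] x)
      (f := fun ξ s => if ξ ∈ U then (ξ - x)⁻¹ • (k ξ s - k x s) else 0) (fun ξ => ?_) ?_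
    · by_cases hξ : ξ ∈ U
      · simp only [if_pos hξ]
        exact ((hm ξ hξ).sub (hm x hx)).const_smul (ξ - x)⁻¹
      · simp only [if_neg hξ]
        exact aestronglyMeasurable_const
    · filter_upwards [hd] with s hs
      have h1 := hasDerivAt_iff_tendsto_slope.1 (hs.differentiableAt (hU.mem_nhds hx)).hasDerivAt
      refine h1.congr' ?_
      filter_upwards [mem_nhdsWithin_of_mem_nhds (hU.mem_nhds hx)] with ξ hξ
      rw [if_pos hξ, slope_def_module]
  refine (hasDerivAt_integral_of_dominated_loc_of_deriv_le (μ := volume) (F := k)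
    (F' := fun y s => deriv (fun ξ => k ξ s) y) (bound := fun s => 2 * G s / (r / 2))
    (ball_mem_nhds x (half_pos hr)) ?_ ?_ hmd ?_ ((hG.const_mul 2).div_const _)
    ?_).2.differentiableAt.differentiableWithinAt
  · filter_upwards [hU.mem_nhds hx] with y hy using hm y hy
  · exact hG.mono' (hm x hx) (hb.mono fun s hs => hs x hx)
  · filter_upwards [hd, hb] with s h1 h2 y hy
    rw [norm_deriv_eq_norm_fderiv]
    exact Pool.Agent.Lib.MP_b71113_an.norm_fderiv_le_of_ball (half_pos hr) (h1.mono (hsub y hy))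
      fun z hz => h2 z (hsub y hy hz)
  · filter_upwards [hd] with s h1 y hy
    exact (h1.differentiableAt (hU.mem_nhds (hsub y hy (mem_ball_self (half_pos hr))))).hasDerivAt

/-- dominated convergence with moving majorants -/
theorem par_pratt {ι : Type} {l : Filter ι} [l.IsCountablyGenerated] {f : ι → ℂ → ℂ} {f₀ : ℂ → ℂ}
    {G : ι → ℂ → ℝ} {G₀ : ℂ → ℝ}
    (h : ∀ᶠ i in l, AEStronglyMeasurable (f i) volume ∧ Integrable (G i) ∧
      ∫ s, G i s = ∫ s, G₀ s ∧ ∀ s, ‖f i s‖ ≤ G i s)
    (m₀ : AEStronglyMeasurable f₀ volume) (i₀ : Integrable G₀) (b₀ : ∀ s, ‖f₀ s‖ ≤ G₀ s)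
    (hf : ∀ᵐ s, Tendsto (fun i => f i s) l (𝓝 (f₀ s)))
    (hG : ∀ᵐ s, Tendsto (fun i => G i s) l (𝓝 (G₀ s))) :
    Tendsto (fun i => ∫ s, f i s) l (𝓝 (∫ s, f₀ s)) := by
  have p₀ : ∀ s, 0 ≤ G₀ s := fun s => (norm_nonneg _).trans (b₀ s)
  have hA : Tendsto (fun i => ∫ s, min ‖f i s - f₀ s‖ (2 * G₀ s)) l (𝓝 (∫ _ : ℂ, (0 : ℝ))) := by
    refine tendsto_integral_filter_of_dominated_convergence (fun s => 2 * G₀ s) ?_ ?_
      (i₀.const_mul 2) ?_
    · filter_upwards [h] with i hi
      exact (((hi.1.sub m₀).norm.aemeasurable).min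
        (i₀.const_mul 2).aestronglyMeasurable.aemeasurable).aestronglyMeasurable
    · refine Eventually.of_forall fun i => Eventually.of_forall fun s => ?_
      rw [Real.norm_of_nonneg (le_min (norm_nonneg _) (by linarith [p₀ s]))]
      exact min_le_right _ _
    · filter_upwards [hf] with s hs
      have h1 := (tendsto_iff_norm_sub_tendsto_zero.1 hs).min
        (tendsto_const_nhds (x := 2 * G₀ s))
      rwa [min_eq_left (by linarith [p₀ s])] at h1
  have hB : Tendsto (fun i => ∫ s, min (G i s) (G₀ s)) l (𝓝 (∫ s, G₀ s)) := by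
    refine tendsto_integral_filter_of_dominated_convergence G₀ ?_ ?_ i₀ ?_
    · filter_upwards [h] with i hi
      exact (hi.2.1.inf i₀).aestronglyMeasurable
    · filter_upwards [h] with i hi
      refine Eventually.of_forall fun s => ?_
      rw [Real.norm_of_nonneg (le_min ((norm_nonneg _).trans (hi.2.2.2 s)) (p₀ s))]
      exact min_le_right _ _
    · filter_upwards [hG] with s hs
      have h1 := hs.min (tendsto_const_nhds (x := G₀ s))
      rwa [min_self] at h1
  have hC := hA.add ((hB.const_sub (∫ s, G₀ s)).const_mul 2)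
  rw [integral_zero, sub_self, mul_zero, add_zero] at hC
  rw [tendsto_iff_norm_sub_tendsto_zero]
  refine squeeze_zero' (Eventually.of_forall fun i => norm_nonneg _) ?_ hC
  filter_upwards [h] with i ⟨h1, h2, h3, h4⟩
  have j1 : Integrable (f i) := h2.mono' h1 (Eventually.of_forall h4)
  have j2 : Integrable f₀ := i₀.mono' m₀ (Eventually.of_forall b₀)
  have j3 : Integrable fun s => min ‖f i s - f₀ s‖ (2 * G₀ s) :=
    (j1.sub j2).norm.inf (i₀.const_mul 2)
  have j4 : Integrable fun s => min (G i s) (G₀ s) := h2.inf i₀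
  have j5 : Integrable fun s => G i s + G₀ s := h2.add i₀
  have j6 : Integrable fun s => 2 * min (G i s) (G₀ s) := j4.const_mul 2
  have j7 : Integrable fun s => G i s + G₀ s - 2 * min (G i s) (G₀ s) := j5.sub j6
  rw [← integral_sub j1 j2]
  refine (norm_integral_le_of_norm_le (j3.add j7) (Eventually.of_forall fun s => ?_)).trans
    (le_of_eq ?_)
  · have a1 := norm_sub_le (f i s) (f₀ s)
    have a2 := h4 s
    have a3 := b₀ s
    have a4 := min_le_left (G i s) (G₀ s)
    have a5 := min_le_right (G i s) (G₀ s)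
    rw [Pi.add_apply]
    rcases le_total ‖f i s - f₀ s‖ (2 * G₀ s) with a | a
    · rw [min_eq_left a]
      linarith
    · rw [min_eq_right a]
      linarith
  · simp only [Pi.add_apply]
    rw [integral_add j3 j7, integral_sub j5 j6, integral_add h2 i₀, integral_const_mul, h3]
    ring

/-- continuity of Cauchy transforms in the density and in the point -/
theorem tendsto_CT {ι : Type} {l : Filter ι} [l.IsCountablyGenerated] {k : ι → ℂ → ℂ}
    {k₀ : ℂ → ℂ} {a : ι → ℂ} {a₀ : ℂ} (hk : ∀ᶠ i in l, Bd M R (k i)) (h₀ : Bd M R k₀)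
    (hl : ∀ᵐ s, Tendsto (fun i => k i s) l (𝓝 (k₀ s))) (ha : Tendsto a l (𝓝 a₀)) :
    Tendsto (fun i => CT (k i) (a i)) l (𝓝 (CT k₀ a₀)) := by
  have hne : ∀ᵐ s : ℂ, a₀ - s ≠ 0 := by
    filter_upwards [compl_mem_ae_iff.2 (measure_singleton a₀)] with s hs
    exact sub_ne_zero.2 fun h => hs h.symm
  have hi := par_maj_int (R + (‖a₀‖ + 1))
  refine Tendsto.const_mul _ (par_pratt (G := fun i s => M * par_maj (R + (‖a₀‖ + 1)) (a i - s))
    (G₀ := fun s => M * par_maj (R + (‖a₀‖ + 1)) (a₀ - s)) ?_ (par_meas h₀.meas a₀)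
    ((hi.comp_sub_left a₀).const_mul M) (par_le h₀ (by linarith)) ?_ ?_)
  · filter_upwards [hk, ha.norm.eventually (gt_mem_nhds (lt_add_one ‖a₀‖))] with i h1 h2
    refine ⟨par_meas h1.meas _, (hi.comp_sub_left _).const_mul M, ?_, par_le h1 (by linarith)⟩
    rw [integral_const_mul, integral_const_mul, integral_sub_left_eq_self,
      integral_sub_left_eq_self]
  · filter_upwards [hl, hne] with s h1 h2
    exact h1.div (ha.sub_const s) h2
  · filter_upwards [hne] with s h2
    have h1 := (ha.sub_const s).norm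
    exact (((h1.const_sub _).max tendsto_const_nhds).mul (h1.inv₀ (norm_ne_zero_iff.2 h2))).const_mul M

/-- If the density depends holomorphically on the point, the Cauchy transform differs from the
transform of the diagonal by a holomorphic function. -/
theorem hol_diag {ξ₀ : ℂ} {r : ℝ} (hr : 0 < r) {k : ℂ → ℂ → ℂ}
    (hb : ∀ ξ ∈ ball ξ₀ r, Bd M R (k ξ))
    (hd : ∀ s, DifferentiableOn ℂ (fun ξ => k ξ s) (ball ξ₀ r))
    (hm : AEStronglyMeasurable ((ball ξ₀ (r / 2)).indicator fun s => k s s) volume) :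
    DifferentiableOn ℂ
      (fun ξ => CT (k ξ) ξ - CT ((ball ξ₀ (r / 2)).indicator fun s => k s s) ξ)
      (ball ξ₀ (r / 4)) := by
  classical
  have hM : 0 ≤ M := (norm_nonneg _).trans ((hb ξ₀ (mem_ball_self hr)).le 0)
  have s1 : ball ξ₀ (r / 2) ⊆ ball ξ₀ r := ball_subset_ball (by linarith)
  have s2 : ball ξ₀ (r / 4) ⊆ ball ξ₀ r := ball_subset_ball (by linarith)
  have hB : Bd M R ((ball ξ₀ (r / 2)).indicator fun s => k s s) := by
    refine ⟨hm, fun s => ?_, fun s hs => ?_⟩
    · by_cases h : s ∈ ball ξ₀ (r / 2)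
      · rw [indicator_of_mem h]
        exact (hb s (s1 h)).le s
      · rw [indicator_of_notMem h, norm_zero]
        exact hM
    · by_cases h : s ∈ ball ξ₀ (r / 2)
      · rw [indicator_of_mem h]
        exact (hb s (s1 h)).out s hs
      · exact indicator_of_notMem h _
  obtain ⟨K, hK⟩ : ∃ K : ℂ → ℂ → ℂ, K = fun ξ s =>
    if s ∈ ball ξ₀ (r / 2) then dslope (fun ξ => k ξ s) s ξ else k ξ s / (ξ - s) := ⟨_, rfl⟩
  have hae : ∀ ξ, (fun s => k ξ s / (ξ - s) -
      (ball ξ₀ (r / 2)).indicator (fun s => k s s) s / (ξ - s)) =ᵐ[volume] K ξ := by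
    intro ξ
    filter_upwards [compl_mem_ae_iff.2 (measure_singleton ξ)] with s hs
    have h1 : ξ ≠ s := fun h => hs h.symm
    by_cases h : s ∈ ball ξ₀ (r / 2)
    · simp only [hK, if_pos h, indicator_of_mem h]
      rw [dslope_of_ne _ h1, slope_def_field, sub_div]
    · simp only [hK, if_neg h, indicator_of_notMem h, zero_div, sub_zero]
  have hfar : ∀ s, s ∉ ball ξ₀ (r / 2) → ∀ ξ ∈ ball ξ₀ (r / 4), r / 4 ≤ ‖ξ - s‖ := by
    intro s hs ξ hξ
    rw [mem_ball, not_lt] at hs
    rw [mem_ball] at hξ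
    have := dist_triangle s ξ ξ₀
    rw [← dist_eq_norm, dist_comm]
    linarith
  have key := hol_param (U := ball ξ₀ (r / 4)) isOpen_ball (k := K)
    (fun ξ hξ => (((hb ξ (s2 hξ)).integrable ξ).sub (hB.integrable ξ)).aestronglyMeasurable.congr
      (hae ξ))
    (Eventually.of_forall fun s => by
      by_cases h : s ∈ ball ξ₀ (r / 2)
      · simp only [hK, if_pos h]
        exact ((differentiableOn_dslope (isOpen_ball.mem_nhds (s1 h))).2 (hd s)).mono s2
      · simp only [hK, if_neg h]
        exact ((hd s).mono s2).div (by fun_prop) fun ξ hξ =>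
          norm_pos_iff.1 (lt_of_lt_of_le (by positivity) (hfar s h ξ hξ)))
    (G := (closedBall ξ₀ r ∪ closedBall 0 R).indicator fun _ => 4 * M / r)
    ((integrable_indicator_iff (measurableSet_closedBall.union measurableSet_closedBall)).2
      (integrableOn_const
        ((isCompact_closedBall _ _).union (isCompact_closedBall _ _)).measure_lt_top.ne))
    (Eventually.of_forall fun s ξ hξ => by
      by_cases h : s ∈ ball ξ₀ (r / 2)
      · rw [indicator_of_mem (mem_union_left _ (ball_subset_closedBall (s1 h)))]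
        simp only [hK, if_pos h]
        have a1 : ∀ z ∈ ball ξ₀ r, ‖k z s - k s s‖ ≤ 2 * M := fun z hz => by
          linarith [norm_sub_le (k z s) (k s s), (hb z hz).le s, (hb s (s1 h)).le s]
        have a2 : 4 * M / r = 2 * M / (r / 2) := by
          field_simp
          ring
        rw [a2]
        by_cases h' : ξ ∈ ball s (r / 2)
        · have a3 : ball s (r / 2) ⊆ ball ξ₀ r := fun z hz => by
            rw [mem_ball] at h hz ⊢
            have := dist_triangle z s ξ₀
            linarith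
          exact norm_dslope_le_div_of_mapsTo_ball ((hd s).mono a3)
            (fun z hz => mem_closedBall_iff_norm.2 (a1 z (a3 hz))) h'
        · rw [mem_ball_iff_norm, not_lt] at h'
          have a3 : ξ ≠ s := sub_ne_zero.1 (norm_pos_iff.1 (lt_of_lt_of_le (by positivity) h'))
          rw [dslope_of_ne _ a3, slope_def_field, norm_div]
          exact div_le_div₀ (by positivity) (a1 ξ (s2 hξ)) (by positivity) h'
      · simp only [hK, if_neg h]
        by_cases h' : R < ‖s‖
        · rw [(hb ξ (s2 hξ)).out s h', zero_div, norm_zero]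
          exact indicator_nonneg (fun _ _ => by positivity) s
        · rw [indicator_of_mem (mem_union_right _ (mem_closedBall_zero_iff.2 (not_lt.1 h'))),
            norm_div]
          refine (div_le_div₀ hM ((hb ξ (s2 hξ)).le s) (by positivity) (hfar s h ξ hξ)).trans
            (le_of_eq ?_)
          field_simp)
  refine (key.const_mul (Real.pi : ℂ)⁻¹).congr fun ξ hξ => ?_
  rw [CT, CT, ← mul_sub, ← integral_sub ((hb ξ (s2 hξ)).integrable ξ) (hB.integrable ξ),
    integral_congr_ae (hae ξ)]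

/-- Osgood's lemma -/
theorem osgood2 {O : Set (ℂ × ℂ)} (hO : IsOpen O) {f : ℂ × ℂ → ℂ} (hc : ContinuousOn f O)
    (h1 : ∀ z ∈ O, DifferentiableAt ℂ (fun ξ => f (ξ, z.2)) z.1)
    (h2 : ∀ z ∈ O, DifferentiableAt ℂ (fun ζ => f (z.1, ζ)) z.2) : DifferentiableOn ℂ f O := by
  intro z hz
  obtain ⟨r, hr, hrO⟩ := nhds_basis_closedBall.mem_iff.1 (hO.mem_nhds hz)
  have hmem : ∀ t ∈ closedBall z.1 r, ∀ w ∈ ball z r, (t, w.2) ∈ O := fun t ht w hw => by
    apply hrO
    rw [← closedBall_prod_same]
    rw [← ball_prod_same] at hw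
    exact ⟨ht, ball_subset_closedBall hw.2⟩
  have hfst : ∀ w ∈ ball z r, w.1 ∈ ball z.1 r := fun w hw => by
    rw [← ball_prod_same] at hw
    exact hw.1
  have hne : ∀ t ∈ sphere z.1 r, ∀ w ∈ ball z r, t - w.1 ≠ 0 := fun t ht w hw h => by
    have h3 := hfst w hw
    rw [← sub_eq_zero.1 h, mem_ball, mem_sphere.1 ht] at h3
    exact lt_irrefl _ h3
  have key := Pool.Agent.Lib.MP_b71113_an.differentiableOn_circleIntegral
    (Φ := fun (w : ℂ × ℂ) (t : ℂ) => (t - w.1)⁻¹ • f (t, w.2)) (O := ball z r) isOpen_ball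
    (c := z.1) hr.le
    ((ContinuousOn.inv₀ (by fun_prop) fun p hp => hne _ hp.2 _ hp.1).smul
      (hc.comp (by fun_prop) fun p hp => hmem _ (sphere_subset_closedBall hp.2) _ hp.1))
    fun t ht => (DifferentiableOn.inv (by fun_prop) (hne t ht)).smul fun w hw =>
      (DifferentiableAt.comp (g := fun ζ => f (t, ζ)) (f := Prod.snd) w
        (h2 (t, w.2) (hmem t (sphere_subset_closedBall ht) w hw))
        differentiableAt_snd).differentiableWithinAt
  have h3 : DifferentiableOn ℂ f (ball z r) := by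
    refine (key.const_smul (2 * Real.pi * I : ℂ)⁻¹).congr fun w hw => ?_
    have h4 : DifferentiableOn ℂ (fun ξ => f (ξ, w.2)) (closedBall z.1 r) := fun t ht =>
      (h1 (t, w.2) (hmem t ht w hw)).differentiableWithinAt
    rw [Pi.smul_apply, h4.circleIntegral_sub_inv_smul (hfst w hw),
      inv_smul_smul₀ two_pi_I_ne_zero]
  exact (h3.differentiableAt (ball_mem_nhds z hr)).differentiableWithinAt


end Pool.Agent.NapOT
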