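import Pool.Agent.Lib.MP_b71113_an.OT.CP
import Pool.Agent.Lib.MP_b71113_an.OT.Par

/-! Local form of the Cauchy-Pompeiu formula. -/

namespace Pool.Agent.NapOT

open MeasureTheory Set Metric Complex ComplexConjugate Filter Topology
open scoped NNReal ENNReal Pointwise

variable {h g : ℂ → ℂ} {M R : ℝ}

theorem db_mul {h' : ℂ → ℂ} {s : ℂ} (hd : DifferentiableAt ℝ h s) (hd' : DifferentiableAt ℝ h' s) :
    db (fun t => h t * h' t) s = db h s * h' s + h s * db h' s := by
  simp only [db, fderiv_fun_mul hd hd', add_apply, smul_apply, smul_eq_mul]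
  ring
theorem db_add {h' : ℂ → ℂ} {s : ℂ} (hd : DifferentiableAt ℝ h s) (hd' : DifferentiableAt ℝ h' s) :
    db (fun t => h t + h' t) s = db h s + db h' s := by
  simp only [db, fderiv_fun_add hd hd', add_apply]
  ring
theorem db_sub {h' : ℂ → ℂ} {s : ℂ} (hd : DifferentiableAt ℝ h s) (hd' : DifferentiableAt ℝ h' s) :
    db (fun t => h t - h' t) s = db h s - db h' s := by
  simp only [db, fderiv_fun_sub hd hd', sub_apply]
  ring
theorem db_sum {J : Type} [Fintype J] {k : J → ℂ → ℂ} {s : ℂ}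
    (hd : ∀ j, DifferentiableAt ℝ (k j) s) :
    db (fun t => ∑ j, k j t) s = ∑ j, db (k j) s := by
  simp only [db, fderiv_fun_sum fun j (_ : j ∈ Finset.univ) => hd j, sum_apply]
  rw [Finset.mul_sum, ← Finset.sum_add_distrib, Finset.sum_div]
theorem db_comp {F : ℂ → ℂ} {F' s : ℂ} (hF : HasDerivAt F F' (h s))
    (hd : DifferentiableAt ℝ h s) : db (fun t => F (h t)) s = F' * db h s := by
  have e : HasFDerivAt (fun t => F (h t)) _ s :=
    (hF.hasFDerivAt.restrictScalars ℝ).comp s hd.hasFDerivAt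
  simp only [db, e.fderiv]
  simp
  ring
theorem db_eq_zero {s : ℂ} (hd : DifferentiableAt ℂ h s) : db h s = 0 := by
  have e := db_comp (h := fun t => t) (s := s) hd.hasDerivAt differentiableAt_id
  have e' : db (fun t => t) s = 0 := by simp [db]
  rw [e', mul_zero] at e
  exact e
theorem db_conj (e s : ℂ) : db (fun t => e * conj t) s = e := by
  have h1 : HasFDerivAt (fun t => e * conj t) _ s := conjCLE.hasFDerivAt.const_mul e
  simp only [db, h1.fderiv]
  simp
  linear_combination (-e / 2) * I_mul_I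
theorem db_congr {h' : ℂ → ℂ} {s : ℂ} (e : h =ᶠ[𝓝 s] h') : db h s = db h' s := by
  simp only [db, e.fderiv_eq]
theorem db_eq_zero_of_notMem {s : ℂ} (hs : s ∉ tsupport h) : db h s = 0 := by
  rw [db_congr (notMem_tsupport_iff_eventuallyEq.1 hs)]
  simp [db]
theorem continuous_db (hh : ContDiff ℝ 1 h) : Continuous (db h) :=
  have h1 := hh.continuous_fderiv one_ne_zero
  ((h1.clm_apply continuous_const).add
    (continuous_const.mul (h1.clm_apply continuous_const))).div_const 2

theorem loc_integrable (hg : Bd M R g) : Integrable g := by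
  have h1 : IntegrableOn g (closedBall 0 R) :=
    Measure.integrableOn_of_bounded measure_closedBall_lt_top.ne hg.meas
      (Eventually.of_forall hg.le)
  refine (integrableOn_iff_integrable_of_support_subset fun s hs => ?_).1 h1
  by_contra h2
  exact hs (hg.out s (by simpa using h2))

theorem hol_CT_of_zero {U : Set ℂ} (hU : IsOpen U) (hg : Bd M R g) (h0 : ∀ᵐ s, s ∈ U → g s = 0) :
    DifferentiableOn ℂ (CT g) U := by
  intro ξ₀ hξ
  obtain ⟨r, hr, hsub⟩ := Metric.isOpen_iff.1 hU ξ₀ hξ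
  have far : ∀ s ∉ U, ∀ ξ ∈ ball ξ₀ (r / 2), r / 2 ≤ ‖ξ - s‖ := fun s hs ξ hξ => by
    have h1 : r ≤ dist s ξ₀ := not_lt.1 fun h => hs (hsub h)
    have h2 := dist_triangle s ξ ξ₀
    have h3 := mem_ball.1 hξ
    rw [← dist_eq_norm, dist_comm]
    linarith
  have key : DifferentiableOn ℂ (fun ξ => ∫ s, g s / (ξ - s)) (ball ξ₀ (r / 2)) := by
    refine hol_param (k := fun ξ s => g s / (ξ - s)) isOpen_ball
      (fun ξ _ => (hg.integrable ξ).aestronglyMeasurable) (h0.mono fun s hs => ?_)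
      ((loc_integrable hg).norm.div_const (r / 2)) (h0.mono fun s hs ξ hξ => ?_)
    · by_cases h : s ∈ U
      · simp [hs h]
      · refine (differentiableOn_const _).div (differentiableOn_id.sub_const s) fun ξ hξ => ?_
        exact norm_pos_iff.1 ((half_pos hr).trans_le (far s h ξ hξ))
    · by_cases h : s ∈ U
      · simp [hs h]
      · rw [norm_div]
        exact div_le_div_of_nonneg_left (norm_nonneg _) (half_pos hr) (far s h ξ hξ)
  exact (((key.const_mul (Real.pi : ℂ)⁻¹).differentiableAt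
    (ball_mem_nhds _ (half_pos hr)))).differentiableWithinAt

theorem loc_lip {χ H : ℂ → ℂ} {K L : ℝ≥0} (hχ : LipschitzWith K χ) (hc : HasCompactSupport χ)
    (hH : LipschitzWith L H) : ∃ C, LipschitzWith C fun s => χ s * H s := by
  obtain ⟨A, hA⟩ := hc.exists_bound_of_continuous hχ.continuous
  obtain ⟨B, hB⟩ := hc.isCompact.exists_bound_of_continuousOn hH.continuous.continuousOn
  have key : ∀ x, ∀ y ∈ tsupport χ,
      ‖χ x * H x - χ y * H y‖ ≤ (A * L + B * K) * ‖x - y‖ := fun x y hy => by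
    have e : χ x * H x - χ y * H y = χ x * (H x - H y) + H y * (χ x - χ y) := by ring
    rw [e, add_mul, mul_assoc, mul_assoc]
    refine (norm_add_le _ _).trans (add_le_add ?_ ?_) <;> rw [norm_mul]
    · exact mul_le_mul (hA x) (hH.norm_sub_le x y) (norm_nonneg _) ((norm_nonneg _).trans (hA x))
    · exact mul_le_mul (hB y hy) (hχ.norm_sub_le x y) (norm_nonneg _)
        ((norm_nonneg _).trans (hB y hy))
  refine ⟨Real.toNNReal (A * L + B * K), LipschitzWith.of_dist_le_mul fun x y => ?_⟩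
  have hle : (A * L + B * K) * ‖x - y‖ ≤ Real.toNNReal (A * L + B * K) * ‖x - y‖ :=
    mul_le_mul_of_nonneg_right (Real.le_coe_toNNReal _) (norm_nonneg _)
  rw [dist_eq_norm, dist_eq_norm]
  by_cases hy : y ∈ tsupport χ
  · exact (key x y hy).trans hle
  by_cases hx : x ∈ tsupport χ
  · rw [norm_sub_rev]
    rw [norm_sub_rev x y] at hle ⊢
    exact (key y x hx).trans hle
  · rw [image_eq_zero_of_notMem_tsupport hx, image_eq_zero_of_notMem_tsupport hy, zero_mul,
      zero_mul, sub_zero, norm_zero]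
    positivity

theorem loc_bd {C : ℝ≥0} (hh : LipschitzWith C h) (hc : HasCompactSupport h) :
    ∃ R, Bd C R (db h) := by
  obtain ⟨R, hR⟩ := hc.isCompact.isBounded.exists_norm_le
  refine ⟨R, (measurable_db h).aestronglyMeasurable, fun s => ?_,
    fun s hs => db_eq_zero_of_notMem fun h1 => hs.not_ge (hR s h1)⟩
  have h1 : ‖fderiv ℝ h s‖ ≤ C := norm_fderiv_le_of_lipschitz ℝ hh
  have h2 := (fderiv ℝ h s).le_of_opNorm_le h1 1
  have h3 := (fderiv ℝ h s).le_of_opNorm_le h1 I
  have h4 := norm_add_le (fderiv ℝ h s 1) (I * fderiv ℝ h s I)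
  rw [norm_one, mul_one] at h2
  rw [norm_I, mul_one] at h3
  rw [norm_mul, norm_I, one_mul] at h4
  rw [db, norm_div, Complex.norm_ofNat]
  linarith

theorem loc_cp {ξ₀ : ℂ} {r : ℝ} {L : ℝ≥0} (hh : LipschitzOnWith L h (ball ξ₀ r)) (hg : Bd M R g)
    (e : ∀ᵐ s, s ∈ ball ξ₀ r → db h s = g s) :
    DifferentiableOn ℂ (fun ξ => h ξ - CT g ξ) (ball ξ₀ r) := by
  intro ξ₁ hξ
  obtain ⟨ρ, hρ, hsub⟩ := Metric.isOpen_iff.1 isOpen_ball ξ₁ hξ
  obtain ⟨H, hH, hE⟩ := hh.extend_finite_dimension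
  let χ : ContDiffBump ξ₁ := ⟨ρ, 2 * ρ, hρ, by linarith⟩
  have c1 : HasCompactSupport fun s => (χ s : ℂ) :=
    χ.hasCompactSupport.comp_left (g := fun x : ℝ => (x : ℂ)) ofReal_zero
  have c2 : ContDiff ℝ 1 fun s => (χ s : ℂ) := ofRealCLM.contDiff.comp χ.contDiff
  obtain ⟨K, hK⟩ := c2.lipschitzWith_of_hasCompactSupport c1 one_ne_zero
  obtain ⟨C, hC⟩ := loc_lip hK c1 hH
  have c3 : HasCompactSupport fun s => (χ s : ℂ) * H s := c1.mul_right
  have c4 : EqOn (fun s => (χ s : ℂ) * H s) h (ball ξ₁ ρ) := fun s hs => by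
    beta_reduce
    rw [χ.one_of_mem_closedBall (ball_subset_closedBall hs), ofReal_one, one_mul, hE (hsub hs)]
  generalize (fun s => (χ s : ℂ) * H s) = k at hC c3 c4
  obtain ⟨R', hb⟩ := loc_bd hC c3
  have hb' : Bd (C + M) (max R' R) fun s => db k s - g s :=
    ⟨hb.meas.sub hg.meas, fun s => (norm_sub_le _ _).trans (add_le_add (hb.le s) (hg.le s)),
      fun s hs => by
        rw [hb.out s ((le_max_left _ _).trans_lt hs), hg.out s ((le_max_right _ _).trans_lt hs),
          sub_zero]⟩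
  have h1 := hol_CT_of_zero isOpen_ball hb' (U := ball ξ₁ ρ) (e.mono fun s hs hs' => by
    rw [← hs (hsub hs'), db_congr (h' := h) (eventually_of_mem (isOpen_ball.mem_nhds hs') c4),
      sub_self])
  have h2 : ∀ ξ ∈ ball ξ₁ ρ, h ξ - CT g ξ = CT (fun s => db k s - g s) ξ := fun ξ hξ => by
    have h3 := CT_add (hb'.integrable ξ) (hg.integrable ξ)
    simp only [sub_add_cancel] at h3
    rw [← c4 hξ, ← cp_lip hC c3 ξ, eq_sub_of_add_eq h3.symm]
  exact ((h1.congr h2).differentiableAt (ball_mem_nhds _ hρ)).differentiableWithinAt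
theorem hol_of_ae {U : Set ℂ} (hU : IsOpen U) {L : ℝ≥0} (hh : LipschitzWith L h)
    (e : ∀ᵐ s, s ∈ U → db h s = 0) : DifferentiableOn ℂ h U := by
  intro ξ₀ hξ
  obtain ⟨r, hr, hsub⟩ := Metric.isOpen_iff.1 hU ξ₀ hξ
  have hb : Bd 0 0 fun _ => (0 : ℂ) :=
    ⟨aestronglyMeasurable_const, fun _ => norm_zero.le, fun _ _ => rfl⟩
  have h1 := loc_cp hh.lipschitzOnWith hb (e.mono fun s hs hs' => hs (hsub hs'))
  simp only [CT, zero_div, integral_zero, mul_zero, sub_zero] at h1
  exact (h1.differentiableAt (ball_mem_nhds _ hr)).differentiableWithinAt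

end Pool.Agent.NapOT
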