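import Pool.Agent.Lib.MP_b71113_an.OT.Conj

/-! Comparison of contact sets, and convex sets of almost full area. -/

namespace Pool.Agent.NapOT

open MeasureTheory Set Metric Complex ComplexConjugate Filter Topology
open scoped NNReal ENNReal Pointwise

theorem cmp {A₁ A₂ B₁ B₂ : Set ℂ} {β₁ β₂ : ℝ} {v₁ v₂ : ℂ → ℝ} {T₁ T₂ : ℂ → ℂ}
    (h₁ : Tr A₁ B₁ β₁ v₁ T₁) (h₂ : Tr A₂ B₂ β₂ v₂ T₂) (hB₂ : Body B₂) (h0 : (0 : ℂ) ∈ B₂)
    (hA : A₁ ⊆ A₂) {t : ℝ} (ht : 1 < t) (hB : ∀ q ∈ B₂, t • q ∈ B₁) :
    cz (closure B₁) v₁ ⊆ cz (closure B₂) v₂ := by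
  have ht0 : 0 < t := by linarith
  have hw : Continuous fun p : ℂ => v₁ (t • p) := h₁.cont.comp (continuous_const_smul t)
  have key : ∀ p ∈ B₂, v₁ (t • p) - v₁ 0 ≤ t * (v₂ p - v₂ 0) := by
    by_contra hn
    push Not at hn
    obtain ⟨p₀, hp₀, hlt⟩ := hn
    set G : Set ℂ := B₂ ∩ {p | t * (v₂ p - v₂ 0) < v₁ (t • p) - v₁ 0} with hG
    have hGo : IsOpen G := hB₂.op.inter (isOpen_lt
      (continuous_const.mul (h₂.cont.sub continuous_const)) (hw.sub continuous_const))
    have hG0 : (0 : ℂ) ∉ G := fun h => by simpa using h.2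
    have hGt : IsOpen (t • G) := hGo.smul₀ ht0.ne'
    have hpos : 0 < volume G := hGo.measure_pos volume ⟨p₀, hp₀, hlt⟩
    have hfin : volume G < ⊤ := (measure_mono inter_subset_left).trans_lt hB₂.vol_lt_top
    have hsub : t • G ⊆ B₁ := by
      rintro _ ⟨g, hg, rfl⟩
      exact hB g hg.1
    have e1 : volume (t • G) ≤ volume.restrict A₁ (T₁ ⁻¹' (t • G)) := by
      rw [← Measure.map_apply h₁.meas hGt.measurableSet, h₁.map, wt, Measure.add_apply,
        Measure.restrict_apply hGt.measurableSet, inter_eq_left.2 hsub]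
      exact le_self_add
    have e2 : volume.restrict A₂ (T₂ ⁻¹' G) = volume G := by
      rw [← Measure.map_apply h₂.meas hGo.measurableSet, h₂.map, wt, Measure.add_apply,
        Measure.restrict_apply hGo.measurableSet, inter_eq_left.2 inter_subset_left,
        Measure.smul_apply, Measure.dirac_apply, indicator_of_notMem hG0, smul_zero, add_zero]
    have e3 : ∀ᵐ x ∂(volume.restrict A₂), T₂ x ∈ B₂ := by
      have hm := hB₂.op.measurableSet.compl
      have h : volume.restrict A₂ (T₂ ⁻¹' B₂ᶜ) = 0 := by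
        rw [← Measure.map_apply h₂.meas hm, h₂.map, wt, Measure.add_apply,
          Measure.restrict_apply hm, compl_inter_self, measure_empty, Measure.smul_apply,
          Measure.dirac_apply, indicator_of_notMem (not_not.2 h0), smul_zero, add_zero]
      exact h
    have e4 : volume.restrict A₁ (T₁ ⁻¹' (t • G)) ≤ volume.restrict A₁ (T₂ ⁻¹' G) := by
      refine measure_mono_ae ?_
      filter_upwards [h₁.gam, ae_restrict_of_ae_restrict_of_subset hA h₂.gam,
        ae_restrict_of_ae_restrict_of_subset hA e3] with x g1 g2 g3 hx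
      obtain ⟨g, hg, hg'⟩ : T₁ x ∈ t • G := hx
      have a1 := g1.2 _ (subset_closure (hB _ g3))
      have a2 := mul_le_mul_of_nonneg_left (g2.2 g (subset_closure hg.1)) ht0.le
      have a3 : t * (v₂ g - v₂ 0) < v₁ (t • g) - v₁ 0 := hg.2
      rw [← hg', real_inner_smul_right, real_inner_smul_right] at a1
      refine ⟨g3, ?_⟩
      show t * (v₂ (T₂ x) - v₂ 0) < v₁ (t • T₂ x) - v₁ 0
      linarith
    have e5 : volume (t • G) ≤ volume G :=
      ((e1.trans e4).trans (Measure.restrict_mono hA le_rfl _)).trans e2.le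
    have e6 : volume.real (t • G) ≤ volume.real G := ENNReal.toReal_mono hfin.ne e5
    have e7 : 0 < volume.real G := ENNReal.toReal_pos hpos.ne' hfin.ne
    rw [vol_smul] at e6
    nlinarith [mul_pos e7 (show 0 < t ^ 2 - 1 by nlinarith)]
  intro x hx
  refine ⟨subset_closure h0, fun q hq => ?_⟩
  have hcl : IsClosed {q : ℂ | inner ℝ x q - v₂ q ≤ inner ℝ x (0 : ℂ) - v₂ 0} :=
    isClosed_le ((continuous_const.inner continuous_id).sub h₂.cont) continuous_const
  refine closure_minimal (fun p hp => ?_) hcl hq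
  have a1 := hx.2 _ (subset_closure (hB p hp))
  rw [real_inner_smul_right, inner_zero_right] at a1
  have a2 := key p hp
  show inner ℝ x p - v₂ p ≤ inner ℝ x (0 : ℂ) - v₂ 0
  rw [inner_zero_right]
  exact le_of_mul_le_mul_left (by linarith) ht0

theorem interior_of_area {K C : Set ℂ} (hC : Convex ℝ C) (hCK : C ⊆ K) {x : ℂ} {r : ℝ}
    (hr : 0 < r) (hx : ball x r ⊆ K) (hv : volume K < volume C + volume (ball (0 : ℂ) (r / 4))) :
    x ∈ interior C := by
  by_contra hn
  rcases (interior C).eq_empty_or_nonempty with he | he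
  · have h1 : volume C = 0 := by
      refine measure_mono_null (fun y hy => ?_) (hC.addHaar_frontier volume)
      rw [frontier, he, sdiff_empty]
      exact subset_closure hy
    rw [h1, zero_add, ← Measure.addHaar_ball_center volume x] at hv
    exact hv.not_ge (measure_mono ((ball_subset_ball (by linarith)).trans hx))
  · obtain ⟨f, hf⟩ := geometric_hahn_banach_open_point hC.interior isOpen_interior hn
    have h1 : ∀ a ∈ C, f a ≤ f x := fun a ha => by
      have h2 : a ∈ closure (interior C) := by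
        rw [hC.closure_interior_eq_closure_of_nonempty_interior he]
        exact subset_closure ha
      exact closure_minimal (t := {a | f a ≤ f x}) (fun b hb => (hf b hb).le)
        (isClosed_le f.continuous continuous_const) h2
    obtain ⟨n, hn'⟩ : ∃ n : ℂ, ∀ y, f y = inner ℝ n y :=
      ⟨(InnerProductSpace.toDual ℝ ℂ).symm f, fun y => InnerProductSpace.toDual_symm_apply.symm⟩
    have hn0 : 0 < ‖n‖ := by
      refine norm_pos_iff.2 fun h => ?_
      obtain ⟨a, ha⟩ := he
      have h2 := hf a ha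
      rw [hn', hn', h, inner_zero_left, inner_zero_left] at h2
      exact lt_irrefl _ h2
    set c : ℂ := x + (r / 2 / ‖n‖) • n with hc
    have h3 : ball c (r / 4) ⊆ ball x r := by
      refine ball_subset_ball' ?_
      rw [dist_eq_norm, hc, add_sub_cancel_left, norm_smul, Real.norm_of_nonneg (by positivity),
        div_mul_cancel₀ _ hn0.ne']
      linarith
    have h4 : Disjoint C (ball c (r / 4)) := by
      refine disjoint_left.2 fun y hy hy' => ?_
      have a1 := h1 y hy
      have a2 : ‖y - c‖ < r / 4 := by rwa [mem_ball, dist_eq_norm] at hy'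
      have a3 := (abs_le.1 (abs_real_inner_le_norm n (y - c))).1
      have a4 : inner ℝ n (y - c) = inner ℝ n y - inner ℝ n x - r / 2 * ‖n‖ := by
        rw [hc, inner_sub_right, inner_add_right, real_inner_smul_right,
          real_inner_self_eq_norm_sq]
        field_simp
        ring
      rw [hn', hn'] at a1
      nlinarith [mul_lt_mul_of_pos_left a2 hn0, mul_pos hr hn0]
    rw [← Measure.addHaar_ball_center volume c, ← measure_union h4 measurableSet_ball] at hv
    exact hv.not_ge (measure_mono (union_subset hCK (h3.trans hx)))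

theorem cmp_tendsto {ι : Type} {l : Filter ι} [l.IsCountablyGenerated] {C : ι → Set ℂ}
    {C₀ D : Set ℂ} (h₀ : MeasurableSet C₀) (hC : ∀ᶠ i in l, MeasurableSet (C i))
    (hD : MeasurableSet D) (hD' : volume D ≠ ⊤) (hs : ∀ᶠ i in l, C i ⊆ D) (hs₀ : C₀ ⊆ D)
    (h : ∀ᵐ x, ∀ᶠ i in l, (x ∈ C i ↔ x ∈ C₀)) :
    Tendsto (fun i => volume.real (C i)) l (𝓝 (volume.real C₀)) := by
  classical
  have e : ∀ᶠ i in l, (if MeasurableSet (C i) then C i else ∅) = C i :=
    hC.mono fun i hi => if_pos hi
  have h1 := tendsto_measure_of_ae_tendsto_indicator (μ := volume)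
    (As := fun i => if MeasurableSet (C i) then C i else ∅) l h₀
    (fun i => by
      split_ifs with hi
      exacts [hi, MeasurableSet.empty]) hD hD'
    ((e.and hs).mono fun i hi => hi.1.symm ▸ hi.2)
    (h.mono fun x hx => (e.and hx).mono fun i hi => hi.1.symm ▸ hi.2)
  exact ((ENNReal.tendsto_toReal (ne_top_of_le_ne_top hD' (measure_mono hs₀))).comp h1).congr'
    (e.mono fun i hi => congrArg (fun s => (volume s).toReal) hi)

theorem ae_tendsto_mem {ι : Type} {l : Filter ι} [l.IsCountablyGenerated] {C : ι → Set ℂ}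
    {C₀ : Set ℂ} {R : ℝ} (h₀ : Convex ℝ C₀) (hc₀ : IsCompact C₀)
    (hC : ∀ᶠ i in l, Convex ℝ (C i) ∧ IsClosed (C i) ∧ C i ⊆ closedBall 0 R)
    (hup : ∀ x, x ∉ C₀ → ∀ᶠ i in l, x ∉ C i)
    (hv : Tendsto (fun i => volume.real (C i)) l (𝓝 (volume.real C₀))) :
    ∀ᵐ x, ∀ᶠ i in l, (x ∈ C i ↔ x ∈ C₀) := by
  have hm₀ := hc₀.measurableSet
  have hR : volume (closedBall (0 : ℂ) R) ≠ ⊤ := measure_closedBall_lt_top.ne
  have h1 : Tendsto (fun i => volume.real (C i \ C₀)) l (𝓝 (volume.real (∅ : Set ℂ))) :=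
    cmp_tendsto MeasurableSet.empty (hC.mono fun i hi => hi.2.1.measurableSet.diff hm₀)
      measurableSet_closedBall hR (hC.mono fun i hi => sdiff_subset.trans hi.2.2) (empty_subset _)
      (Eventually.of_forall fun x => by
        by_cases hx : x ∈ C₀
        · exact Eventually.of_forall fun i => ⟨fun h => h.2 hx, False.elim⟩
        · exact (hup x hx).mono fun i hi => ⟨fun h => hi h.1, False.elim⟩)
  rw [measureReal_empty] at h1
  have h2 : Tendsto (fun i => volume.real C₀ + volume.real (C i \ C₀) - volume.real (C i)) l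
      (𝓝 0) := by
    have h := (h1.const_add (volume.real C₀)).sub hv
    rwa [add_zero, sub_self] at h
  have h3 : ∀ᵐ x : ℂ, x ∉ frontier C₀ := measure_eq_zero_iff_ae_notMem.1 (h₀.addHaar_frontier volume)
  filter_upwards [h3] with x hx
  by_cases hx₀ : x ∈ C₀
  · have h4 : x ∈ interior C₀ := by
      by_contra hn
      exact hx ⟨subset_closure hx₀, hn⟩
    obtain ⟨r, hr, hb⟩ := Metric.mem_nhds_iff.1 (mem_interior_iff_mem_nhds.1 h4)
    have h5 : 0 < volume.real (ball (0 : ℂ) (r / 4)) :=
      ENNReal.toReal_pos (measure_ball_pos volume _ (by linarith)).ne' measure_ball_lt_top.ne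
    filter_upwards [hC, h2.eventually (gt_mem_nhds h5)] with i hi hlt
    refine iff_of_true (interior_subset (interior_of_area (K := C₀ ∪ C i) hi.1 subset_union_right hr
      (hb.trans subset_union_left) ?_)) hx₀
    have f1 : volume (C i) ≠ ⊤ := ne_top_of_le_ne_top hR (measure_mono hi.2.2)
    have f2 : volume (C i \ C₀) ≠ ⊤ := ne_top_of_le_ne_top f1 (measure_mono sdiff_subset)
    have f3 : volume C₀ ≠ ⊤ := hc₀.measure_lt_top.ne
    have f4 : volume (ball (0 : ℂ) (r / 4)) ≠ ⊤ := measure_ball_lt_top.ne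
    rw [← union_sdiff_self]
    refine (measure_union_le _ _).trans_lt ?_
    rw [← ENNReal.toReal_lt_toReal (ENNReal.add_ne_top.2 ⟨f3, f2⟩) (ENNReal.add_ne_top.2 ⟨f1, f4⟩),
      ENNReal.toReal_add f3 f2, ENNReal.toReal_add f1 f4]
    simp only [Measure.real] at hlt
    linarith
  · exact (hup x hx₀).mono fun i hi => iff_of_false hi hx₀

theorem tendsto_vol_inter {ι : Type} {l : Filter ι} [l.IsCountablyGenerated] {C : ι → Set ℂ}
    {C₀ : Set ℂ} (h₀ : MeasurableSet C₀) (hC : ∀ᶠ i in l, MeasurableSet (C i))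
    (h : ∀ᵐ x, ∀ᶠ i in l, (x ∈ C i ↔ x ∈ C₀)) (x : ℂ) (r : ℝ) :
    Tendsto (fun i => volume.real (C i ∩ ball x r)) l (𝓝 (volume.real (C₀ ∩ ball x r))) :=
  cmp_tendsto (h₀.inter measurableSet_ball) (hC.mono fun _ hi => hi.inter measurableSet_ball)
    measurableSet_ball measure_ball_lt_top.ne (Eventually.of_forall fun _ => inter_subset_right)
    inter_subset_right (h.mono fun _ hy => hy.mono fun _ hi => and_congr_left fun _ => hi)

theorem ball_subset_or_disjoint {C : Set ℂ} {x : ℂ} {r : ℝ}
    (h : ∀ y ∈ ball x r, y ∉ frontier C) : ball x r ⊆ C ∨ Disjoint C (ball x r) := by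
  have h1 : ball x r ⊆ interior C ∪ (closure C)ᶜ := fun y hy => by
    by_cases hc : y ∈ closure C
    · exact Or.inl (by_contra fun hn => h y hy ⟨hc, hn⟩)
    · exact Or.inr hc
  rcases (convex_ball x r).isPreconnected.subset_or_subset isOpen_interior
    isClosed_closure.isOpen_compl
    (disjoint_compl_right_iff_subset.2 interior_subset_closure) h1 with h2 | h2
  · exact Or.inl (h2.trans interior_subset)
  · exact Or.inr (disjoint_left.2 fun y hy hy' => h2 hy' (subset_closure hy))

end Pool.Agent.NapOT
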