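import Pool.Agent.Lib.MP_b71113_an.OT.Loc

/-! The contact term. -/

namespace Pool.Agent.NapOT

open MeasureTheory Set Metric Complex ComplexConjugate Filter Topology
open scoped NNReal ENNReal Pointwise

variable {ω : ℂ → ℂ} {e ξ ζ : ℂ} {M R δ : ℝ}

theorem ctc_iso (he : e = 1 ∨ e = -1) : ∃ T : ℂ ≃ₗᵢ[ℝ] ℂ, ∀ s, T s = e * conj s := by
  rcases he with rfl | rfl
  · exact ⟨conjLIE, fun s => by simp⟩
  · exact ⟨conjLIE.trans (LinearIsometryEquiv.neg ℝ), fun s => by simp⟩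

theorem ctc_inv (he : e = 1 ∨ e = -1) (s : ℂ) : e * conj (e * conj s) = s := by
  rcases he with rfl | rfl <;> simp

theorem ctc_norm (he : e = 1 ∨ e = -1) : ‖e‖ = 1 := by
  rcases he with rfl | rfl <;> simp

theorem ctc_integral (he : e = 1 ∨ e = -1) (f : ℂ → ℂ) : ∫ s, f (e * conj s) = ∫ s, f s := by
  obtain ⟨T, hT⟩ := ctc_iso he
  simpa only [hT] using integral_comp T f

theorem ctc_integrable (he : e = 1 ∨ e = -1) {f : ℂ → ℂ} (h : Integrable f) :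
    Integrable fun s => f (e * conj s) := by
  obtain ⟨T, hT⟩ := ctc_iso he
  simpa only [Function.comp_def, hT] using (integrable_comp T f).2 h

theorem ctc_ae (he : e = 1 ∨ e = -1) {P : ℂ → Prop} (h : ∀ᵐ s, P s) : ∀ᵐ s, P (e * conj s) := by
  obtain ⟨T, hT⟩ := ctc_iso he
  simpa only [hT] using T.measurePreserving.quasiMeasurePreserving.ae h

theorem ctc_bd_comp (he : e = 1 ∨ e = -1) (h : Bd M R ω) : Bd M R fun s => ω (e * conj s) := by
  obtain ⟨T, hT⟩ := ctc_iso he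
  refine ⟨?_, fun s => h.le _, fun s hs => h.out _ (by rwa [← hT, T.norm_map])⟩
  simpa only [Function.comp_def, hT] using h.meas.comp_measurePreserving T.measurePreserving

theorem ctc_sep (he : e = 1 ∨ e = -1) {P : ℂ → Prop}
    (hs : ∀ s, P s → δ ≤ ‖ξ - s‖ + ‖ζ - e * conj s‖) (s : ℂ) (h : P (e * conj s)) :
    δ ≤ ‖ζ - s‖ + ‖ξ - e * conj s‖ := by
  have := hs _ h
  rwa [ctc_inv he, add_comm] at this

/-- the bounded density of the part of the kernel with the pole at `ξ` -/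
noncomputable def ctc_k (ω : ℂ → ℂ) (e ξ ζ s : ℂ) : ℂ :=
  e * ω s * (conj (ζ - e * conj s) / ((‖ξ - s‖ ^ 2 + ‖ζ - e * conj s‖ ^ 2 : ℝ) : ℂ))

theorem ctc_bd (he : e = 1 ∨ e = -1) (h : Bd M R ω) (hδ : 0 < δ)
    (hs : ∀ s, ω s ≠ 0 → δ ≤ ‖ξ - s‖ + ‖ζ - e * conj s‖) :
    Bd (M * (2 / δ)) R (ctc_k ω e ξ ζ) := by
  have hM : 0 ≤ M := (norm_nonneg _).trans (h.le 0)
  refine ⟨(h.meas.const_mul e).mul (Measurable.aestronglyMeasurable (by fun_prop)), fun s => ?_,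
    fun s hs => by rw [ctc_k, h.out s hs, mul_zero, zero_mul]⟩
  by_cases h0 : ω s = 0
  · rw [ctc_k, h0, mul_zero, zero_mul, norm_zero]
    positivity
  have h1 := hs s h0
  rw [ctc_k, norm_mul, norm_mul, ctc_norm he, one_mul, norm_div, norm_conj, norm_real]
  refine mul_le_mul (h.le s) ?_ (by positivity) hM
  have ha := norm_nonneg (ξ - s)
  have hb := norm_nonneg (ζ - e * conj s)
  generalize ‖ξ - s‖ = a at h1 ha
  generalize ‖ζ - e * conj s‖ = b at h1 hb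
  have h2 : δ * (a + b) ≤ 2 * (a ^ 2 + b ^ 2) := by
    nlinarith [sq_nonneg (a - b), mul_le_mul_of_nonneg_right h1 (add_nonneg ha hb)]
  have h3 : 0 < a ^ 2 + b ^ 2 := by nlinarith [mul_pos hδ (hδ.trans_le h1)]
  rw [Real.norm_of_nonneg h3.le, div_le_div_iff₀ h3 hδ]
  nlinarith [mul_nonneg hδ.le ha]

theorem ctc_split (he : e = 1 ∨ e = -1) (ω : ℂ → ℂ) (ξ ζ s : ℂ) :
    e * ω s / (ζ - e * conj s) / (ξ - s) = ctc_k ω e ξ ζ s / (ξ - s) +
      ctc_k (fun t => ω (e * conj t)) e ζ ξ (e * conj s) / (ζ - e * conj s) := by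
  simp only [ctc_k, ctc_inv he]
  generalize ξ - s = a
  generalize ζ - e * conj s = b
  by_cases ha : a = 0
  · simp [ha]
  by_cases hb : b = 0
  · simp [hb]
  have h1 : ((‖a‖ ^ 2 + ‖b‖ ^ 2 : ℝ) : ℂ) = a * conj a + b * conj b := by
    rw [mul_conj, mul_conj, normSq_eq_norm_sq, normSq_eq_norm_sq, ofReal_add]
  have h2 : ((‖a‖ ^ 2 + ‖b‖ ^ 2 : ℝ) : ℂ) ≠ 0 := by
    have := norm_pos_iff.2 ha
    exact ofReal_ne_zero.2 (by positivity)
  rw [add_comm (‖b‖ ^ 2)]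
  rw [h1] at h2 ⊢
  field_simp
  ring

theorem ctc_eq (he : e = 1 ∨ e = -1) (h : Bd M R ω) (hδ : 0 < δ)
    (hs : ∀ s, ω s ≠ 0 → δ ≤ ‖ξ - s‖ + ‖ζ - e * conj s‖) :
    Ct ω e ξ ζ = CT (ctc_k ω e ξ ζ) ξ + CT (ctc_k (fun t => ω (e * conj t)) e ζ ξ) ζ := by
  have h1 := (ctc_bd he h hδ hs).integrable ξ
  have h2 := (ctc_bd he (ctc_bd_comp he h) hδ (ctc_sep he hs)).integrable ζ
  simp only [Ct, CT, ctc_split he]
  rw [integral_add h1 (ctc_integrable he h2), mul_add,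
    ctc_integral he fun s => ctc_k (fun t => ω (e * conj t)) e ζ ξ s / (ζ - s)]

theorem ctc_tendsto {ι : Type} {l : Filter ι} [l.IsCountablyGenerated] {w : ι → ℂ → ℂ}
    {x y : ι → ℂ} (he : e = 1 ∨ e = -1) (hw : ∀ᶠ i in l, Bd M R (w i))
    (h₀ : Bd M R ω) (hl : ∀ᵐ s, Tendsto (fun i => w i s) l (𝓝 (ω s))) (hx : Tendsto x l (𝓝 ξ))
    (hy : Tendsto y l (𝓝 ζ)) (hδ : 0 < δ)
    (hs : ∀ᶠ i in l, ∀ s, w i s ≠ 0 → δ ≤ ‖x i - s‖ + ‖y i - e * conj s‖)
    (hs₀ : ∀ s, ω s ≠ 0 → δ ≤ ‖ξ - s‖ + ‖ζ - e * conj s‖) :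
    Tendsto (fun i => CT (ctc_k (w i) e (x i) (y i)) (x i)) l (𝓝 (CT (ctc_k ω e ξ ζ) ξ)) := by
  refine tendsto_CT ((hw.and hs).mono fun i hi => ctc_bd he hi.1 hδ hi.2) (ctc_bd he h₀ hδ hs₀)
    ?_ hx
  filter_upwards [hl, compl_mem_ae_iff.2 (measure_singleton ξ)] with s h1 h2
  have h3 : 0 < ‖ξ - s‖ := norm_pos_iff.2 (sub_ne_zero.2 (Ne.symm h2))
  refine (h1.const_mul e).mul (Tendsto.div
    ((continuous_conj.tendsto _).comp (hy.sub_const _))
    ((continuous_ofReal.tendsto _).comp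
      (((hx.sub_const s).norm.pow 2).add ((hy.sub_const _).norm.pow 2)))
    (ofReal_ne_zero.2 (by positivity)))

theorem Ct_integrable (he : e = 1 ∨ e = -1) (h : Bd M R ω) (hδ : 0 < δ)
    (hs : ∀ s, ω s ≠ 0 → δ ≤ ‖ξ - s‖ + ‖ζ - e * conj s‖) :
    Integrable fun s => e * ω s / (ζ - e * conj s) / (ξ - s) := by
  simp only [ctc_split he]
  exact ((ctc_bd he h hδ hs).integrable ξ).add
    (ctc_integrable he ((ctc_bd he (ctc_bd_comp he h) hδ (ctc_sep he hs)).integrable ζ))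
theorem Ct_swap (he : e = 1 ∨ e = -1) (ω : ℂ → ℂ) (ξ ζ : ℂ) :
    Ct ω e ξ ζ = Ct (fun s => ω (e * conj s)) e ζ ξ := by
  simp only [Ct, CT]
  rw [← ctc_integral he]
  simp only [ctc_inv he, div_right_comm _ (ζ - _)]
theorem Ct_eq_zero (h : ∀ᵐ s, ω s = 0) (e ξ ζ : ℂ) : Ct ω e ξ ζ = 0 := by
  rw [Ct, CT, integral_eq_zero_of_ae, mul_zero]
  filter_upwards [h] with s hs
  simp [hs]
theorem Ct_combo {ω' : ℂ → ℂ} {M' R' : ℝ} (he : e = 1 ∨ e = -1) (h : Bd M R ω) (h' : Bd M' R' ω')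
    (hδ : 0 < δ) (hs : ∀ s, ω s ≠ 0 ∨ ω' s ≠ 0 → δ ≤ ‖ξ - s‖ + ‖ζ - e * conj s‖) (r : ℝ) :
    Ct (fun s => ω s + r * (ω' s - ω s)) e ξ ζ = Ct ω e ξ ζ + r * (Ct ω' e ξ ζ - Ct ω e ξ ζ) := by
  have h1 := Ct_integrable he h hδ fun s h => hs s (Or.inl h)
  have h2 := Ct_integrable he h' hδ fun s h => hs s (Or.inr h)
  have e1 : ∀ s, e * (ω s + r * (ω' s - ω s)) / (ζ - e * conj s) / (ξ - s) =
      e * ω s / (ζ - e * conj s) / (ξ - s) + r * (e * ω' s / (ζ - e * conj s) / (ξ - s) -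
        e * ω s / (ζ - e * conj s) / (ξ - s)) := fun s => by ring
  simp only [Ct, CT, e1]
  rw [integral_add h1 ((h2.sub' h1).const_mul _), integral_const_mul, integral_sub h2 h1]
  ring
theorem tendsto_Ct {ι : Type} {l : Filter ι} [l.IsCountablyGenerated] {w : ι → ℂ → ℂ}
    {z : ι → ℂ × ℂ} {z₀ : ℂ × ℂ} (he : e = 1 ∨ e = -1) (hw : ∀ᶠ i in l, Bd M R (w i))
    (h₀ : Bd M R ω) (hl : ∀ᵐ s, Tendsto (fun i => w i s) l (𝓝 (ω s))) (hz : Tendsto z l (𝓝 z₀))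
    (hδ : 0 < δ)
    (hs : ∀ᶠ i in l, ∀ s, w i s ≠ 0 → δ ≤ ‖(z i).1 - s‖ + ‖(z i).2 - e * conj s‖)
    (hs₀ : ∀ s, ω s ≠ 0 → δ ≤ ‖z₀.1 - s‖ + ‖z₀.2 - e * conj s‖) :
    Tendsto (fun i => Ct (w i) e (z i).1 (z i).2) l (𝓝 (Ct ω e z₀.1 z₀.2)) := by
  rw [ctc_eq he h₀ hδ hs₀]
  refine ((ctc_tendsto he hw h₀ hl hz.fst_nhds hz.snd_nhds hδ hs hs₀).add
    (ctc_tendsto (w := fun i t => w i (e * conj t)) he (hw.mono fun i => ctc_bd_comp he)
      (ctc_bd_comp he h₀) (ctc_ae he hl) hz.snd_nhds hz.fst_nhds hδ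
      (hs.mono fun i => ctc_sep he) (ctc_sep he hs₀))).congr' ?_
  filter_upwards [hw, hs] with i h1 h2
  exact (ctc_eq he h1 hδ h2).symm
/-- The contact term is the Cauchy transform of its part near `ξ₀`, up to a holomorphic
function. -/
theorem Ct_near (he : e = 1 ∨ e = -1) (h : Bd M R ω) {ξ₀ : ℂ} {r : ℝ} (hr : 0 < r) :
    DifferentiableOn ℂ (fun ξ => CT ((ball ξ₀ r)ᶜ.indicator fun s => e * ω s / (ζ - e * conj s)) ξ)
      (ball ξ₀ r) := by
  have h1 : Integrable fun s => e * ω s / (ζ - e * conj s) := by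
    have := (ctc_integrable he ((ctc_bd_comp he h).integrable ζ)).const_mul e
    simpa only [ctc_inv he, mul_div_assoc] using this
  have h2 := h1.indicator (measurableSet_ball (x := ξ₀) (ε := r)).compl
  generalize hg : ((ball ξ₀ r)ᶜ.indicator fun s => e * ω s / (ζ - e * conj s)) = g at h2
  have h3 : ∀ s ∈ ball ξ₀ r, g s = 0 := fun s hs => by
    rw [← hg, indicator_of_notMem (by simpa using hs)]
  intro ξ hξ
  obtain ⟨ρ, hρ, hb⟩ := Metric.isOpen_iff.1 isOpen_ball ξ hξ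
  have h4 : ∀ s, g s ≠ 0 → ∀ x ∈ ball ξ (ρ / 2), ρ / 2 ≤ ‖x - s‖ := fun s hs x hx => by
    have h5 : ρ ≤ dist s ξ := not_lt.1 fun h => hs (h3 s (hb h))
    have h6 := dist_triangle s x ξ
    rw [dist_comm s x, dist_eq_norm x s] at h6
    linarith [mem_ball.1 hx]
  have h5 := hol_param (U := ball ξ (ρ / 2)) isOpen_ball (k := fun x s => g s / (x - s))
    (fun x _ => by
      simp only [div_eq_mul_inv]
      exact h2.1.mul (Measurable.aestronglyMeasurable (by fun_prop)))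
    (Eventually.of_forall fun s => by
      by_cases h0 : g s = 0
      · simp only [h0, zero_div]
        exact differentiableOn_const 0
      · exact (differentiableOn_const _).div (differentiableOn_id.sub_const s) fun x hx =>
          norm_pos_iff.1 ((half_pos hρ).trans_le (h4 s h0 x hx)))
    (h2.norm.div_const (ρ / 2))
    (Eventually.of_forall fun s x hx => by
      by_cases h0 : g s = 0
      · simp [h0]
      · rw [norm_div]
        exact div_le_div_of_nonneg_left (norm_nonneg _) (half_pos hρ) (h4 s h0 x hx))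
  exact ((h5.differentiableAt (ball_mem_nhds ξ (half_pos hρ))).const_mul _).differentiableWithinAt
theorem ctc_closed_cs {φ : ℂ → ℂ} (hφ : Continuous φ) (e : ℂ) : IsClosed (cs φ e) :=
  isClosed_eq hφ (continuous_const.mul continuous_conj)
theorem ctc_closed_ctc {φ : ℂ → ℂ} (hφ : Continuous φ) (e : ℂ) : IsClosed (ctc φ e) :=
  ((ctc_closed_cs hφ e).preimage continuous_fst).inter
    (isClosed_eq continuous_snd (continuous_const.mul (continuous_conj.comp continuous_fst)))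
/-- a point that is not a contact point stays away from all contact points -/
theorem exists_sep_ctc {φ : ℂ → ℂ} (hφ : Continuous φ) {z₀ : ℂ × ℂ} (hz : z₀ ∉ ctc φ e) :
    ∃ δ > 0, ∀ s ∈ cs φ e, δ ≤ ‖z₀.1 - s‖ + ‖z₀.2 - e * conj s‖ := by
  obtain ⟨δ, hδ, hb⟩ := Metric.isOpen_iff.1 (ctc_closed_ctc hφ e).isOpen_compl z₀ hz
  refine ⟨δ, hδ, fun s hs => not_lt.1 fun h => hb (a := (s, e * conj s)) ?_ ⟨hs, rfl⟩⟩
  rw [mem_ball', Prod.dist_eq, dist_eq_norm, dist_eq_norm]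
  exact (max_le_add_of_nonneg (norm_nonneg _) (norm_nonneg _)).trans_lt h
theorem isClosed_cs {φ : ℂ → ℂ} (hφ : Continuous φ) (e : ℂ) : IsClosed (cs φ e) :=
  ctc_closed_cs hφ e
theorem isClosed_ctc {φ : ℂ → ℂ} (hφ : Continuous φ) (e : ℂ) : IsClosed (ctc φ e) :=
  ctc_closed_ctc hφ e
theorem bd_om {J : Type} [Fintype J] {θ : J → ℂ → ℂ} (h1 : ∀ j, Continuous (θ j))
    (h2 : ∀ j, HasCompactSupport (θ j)) : ∃ M, ∀ (φ : ℂ → ℂ) (e : ℂ) (R : ℝ), Continuous φ →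
      cs φ e ⊆ closedBall 0 R → Bd M R (om φ θ e) := by
  choose C hC using fun j => (h1 j).bounded_above_of_compact_support (h2 j)
  refine ⟨1 + ∑ j, C j, fun φ e R hφ hR => ⟨?_, fun s => ?_, fun s hs => ?_⟩⟩
  · exact (continuous_const.sub (continuous_finsetSum _ fun j _ => h1 j)).aestronglyMeasurable.indicator
      (isClosed_cs hφ e).measurableSet
  · refine (norm_indicator_le_norm_self _ _).trans ((norm_sub_le _ _).trans ?_)
    rw [norm_one]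
    exact add_le_add le_rfl ((norm_sum_le _ _).trans (Finset.sum_le_sum fun j _ => hC j s))
  · exact indicator_of_notMem (fun h => (not_le.2 hs) (mem_closedBall_zero_iff.1 (hR h))) _

end Pool.Agent.NapOT
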