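import Pool.Agent.Lib.MP_b71113_an.OT.Loc

/-! Continuity of the correction terms. -/

namespace Pool.Agent.NapOT

open MeasureTheory Set Metric Complex ComplexConjugate Filter Topology
open scoped NNReal ENNReal Pointwise

variable {J : Type} [Fintype J] {b : J → ℂ} {c : J → ℝ} {R : ℝ} {φ : ℂ → ℂ} {θ : J → ℂ → ℂ}

theorem isOpen_WW (b : J → ℂ) (c : J → ℝ) (R : ℝ) : IsOpen (WW b c R) := by
  have h1 : IsOpen {z : ℂ × ℂ | ‖z.1‖ < R} := isOpen_lt (by fun_prop) continuous_const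
  have h2 : IsOpen {z : ℂ × ℂ | ‖z.2‖ < R} := isOpen_lt (by fun_prop) continuous_const
  have h3 : IsOpen (⋂ j, {z : ℂ × ℂ | |(lf (b j) z.1 z.2).re| < c j}) :=
    isOpen_iInter_of_finite fun j => isOpen_lt (by unfold lf; fun_prop) continuous_const
  convert h1.inter (h2.inter h3) using 1
  ext z
  simp [WW]

theorem lf_swap (b ξ ζ : ℂ) : lf (conj b) ζ ξ = -lf b ξ ζ := by
  simp [lf]

theorem lf_re (b ξ ζ : ℂ) : (lf b ξ ζ).re = (b * (ζ - conj ξ)).re := by
  simp only [lf, sub_re, mul_re, conj_re, conj_im, sub_im]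
  ring

theorem swap_mem_WW {z : ℂ × ℂ} (h : z ∈ WW b c R) :
    (z.2, z.1) ∈ WW (fun j => conj (b j)) c R :=
  ⟨h.2.1, h.1, fun j => by rw [lf_swap, neg_re, abs_neg]; exact h.2.2 j⟩

theorem exc_const {ι : Type} (l : Filter ι) (φ : ℂ → ℂ) :
    TendstoLocallyUniformly (fun _ : ι => φ) φ l := fun _ hu _ =>
  ⟨univ, univ_mem, Eventually.of_forall fun _ _ _ => refl_mem_uniformity hu⟩

theorem exc_slit (h : Th b c φ θ) {z : ℂ × ℂ} (hz : z ∈ WW b c R) (j : J) {s : ℂ}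
    (hs : s ∈ tsupport (θ j)) : lf (b j) s (φ s) - lf (b j) z.1 z.2 ∈ slitPlane := by
  refine Or.inl ?_
  have h1 := h.pos j s hs
  have h2 := (abs_lt.1 (hz.2.2 j)).2
  rw [sub_re]
  linarith

theorem exc_meas (b : ℂ) (hφ : Continuous φ) (ξ ζ : ℂ) : Measurable (Lg b φ ξ ζ) :=
  Complex.measurable_log.comp (Continuous.measurable (by unfold lf; fun_prop))

theorem exc_tendsto_lf {ι : Type} {l : Filter ι} {u v : ι → ℂ} {u₀ v₀ : ℂ} (b : ℂ)
    (hu : Tendsto u l (𝓝 u₀)) (hv : Tendsto v l (𝓝 v₀)) :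
    Tendsto (fun i => lf b (u i) (v i)) l (𝓝 (lf b u₀ v₀)) :=
  (hv.const_mul b).sub (hu.const_mul (conj b))

theorem exc_near {ι : Type} {l : Filter ι} {Φ : ι → ℂ → ℂ} {z : ι → ℂ × ℂ} {z₀ : ℂ × ℂ}
    (h : Th b c φ θ) (hφ : Continuous φ) (hl : TendstoLocallyUniformly Φ φ l)
    (hz : Tendsto z l (𝓝 z₀)) (h₀ : z₀ ∈ WW b c R) (j : J) :
    ∃ M : ℝ, (∀ s ∈ tsupport (θ j), ‖Lg (b j) φ z₀.1 z₀.2 s‖ ≤ M) ∧
      ∀ᶠ i in l, ∀ s ∈ tsupport (θ j), ‖Lg (b j) (Φ i) (z i).1 (z i).2 s‖ ≤ M := by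
  have hA : Continuous fun s => lf (b j) s (φ s) - lf (b j) z₀.1 z₀.2 := by unfold lf; fun_prop
  have hK : IsCompact (tsupport (θ j)) := h.supp j
  have hC := hK.image hA
  obtain ⟨δ, hδ, hsub⟩ := hC.exists_cthickening_subset_open isOpen_slitPlane (by
    rintro _ ⟨s, hs, rfl⟩
    exact exc_slit h h₀ j hs)
  obtain ⟨M, hM⟩ := (hC.cthickening (r := δ)).exists_bound_of_continuousOn
    (f := Complex.log) fun w hw => (continuousAt_clog (hsub hw)).continuousWithinAt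
  refine ⟨M, fun s hs => hM _ (self_subset_cthickening _ ⟨s, hs, rfl⟩), ?_⟩
  have h1 := Metric.tendstoUniformlyOn_iff.1
    (tendstoLocallyUniformly_iff_forall_isCompact.1 hl _ hK) (δ / 2 / (‖b j‖ + 1)) (by positivity)
  have h2 := Metric.tendsto_nhds.1 (exc_tendsto_lf (b j) ((continuous_fst.tendsto _).comp hz)
    ((continuous_snd.tendsto _).comp hz)) (δ / 2) (by positivity)
  filter_upwards [h1, h2] with i h1 h2 s hs
  refine hM _ (mem_cthickening_of_dist_le _ _ δ _ ⟨s, hs, rfl⟩ ?_)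
  have h3 := h1 s hs
  rw [dist_comm, dist_eq_norm, lt_div_iff₀ (by positivity)] at h3
  rw [dist_eq_norm] at h2 ⊢
  have e : lf (b j) s (Φ i s) - lf (b j) (z i).1 (z i).2 -
      (lf (b j) s (φ s) - lf (b j) z₀.1 z₀.2) =
      b j * (Φ i s - φ s) - (lf (b j) (z i).1 (z i).2 - lf (b j) z₀.1 z₀.2) := by
    simp only [lf]; ring
  rw [e]
  refine (norm_sub_le _ _).trans ?_
  rw [norm_mul]
  have h4 : ‖lf (b j) (z i).1 (z i).2 - lf (b j) z₀.1 z₀.2‖ < δ / 2 := h2
  nlinarith [norm_nonneg (Φ i s - φ s)]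

theorem exc_bd (h : Th b c φ θ) (M : J → ℝ) : ∃ M' R' : ℝ, ∀ L : J → ℂ → ℂ,
    (∀ j, Measurable (L j)) → (∀ j, ∀ s ∈ tsupport (θ j), ‖L j s‖ ≤ M j) →
      Bd M' R' fun s => ∑ j, db (θ j) s * L j s := by
  have h1 : ∀ j, ∃ D, ∀ s, ‖db (θ j) s‖ ≤ D := fun j =>
    (HasCompactSupport.intro (h.supp j) fun s hs => db_eq_zero_of_notMem hs).exists_bound_of_continuous
      (continuous_db (h.smooth j))
  choose D hD using h1
  obtain ⟨R', hR'⟩ := (isCompact_iUnion fun j => (h.supp j).isCompact).isBounded.subset_closedBall 0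
  refine ⟨∑ j, D j * max (M j) 0, R', fun L hL hM => ⟨?_, fun s => ?_, fun s hs => ?_⟩⟩
  · exact (Finset.measurable_sum _ fun j _ => (measurable_db _).mul (hL j)).aestronglyMeasurable
  · refine (norm_sum_le _ _).trans (Finset.sum_le_sum fun j _ => ?_)
    have hD0 : 0 ≤ D j := (norm_nonneg _).trans (hD j s)
    by_cases hs : s ∈ tsupport (θ j)
    · rw [norm_mul]
      exact mul_le_mul (hD j s) ((hM j s hs).trans (le_max_left _ _)) (norm_nonneg _) hD0
    · rw [db_eq_zero_of_notMem hs, zero_mul, norm_zero]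
      exact mul_nonneg hD0 (le_max_right _ _)
  · refine Finset.sum_eq_zero fun j _ => ?_
    rw [db_eq_zero_of_notMem fun h' => ?_, zero_mul]
    exact absurd (mem_closedBall_zero_iff.1 (hR' (mem_iUnion.2 ⟨j, h'⟩))) (not_le.2 hs)

/-- The density of `Ex` is bounded, uniformly near a point of the domain and near a graph. -/
theorem Th.bd {ι : Type} {l : Filter ι} {Φ : ι → ℂ → ℂ} {z : ι → ℂ × ℂ} {z₀ : ℂ × ℂ}
    (h : Th b c φ θ) (hφ : Continuous φ) (hΦ : ∀ᶠ i in l, Continuous (Φ i))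
    (hl : TendstoLocallyUniformly Φ φ l) (hz : Tendsto z l (𝓝 z₀)) (h₀ : z₀ ∈ WW b c R) :
    ∃ M R' : ℝ, Bd M R' (fun s => ∑ j, db (θ j) s * Lg (b j) φ z₀.1 z₀.2 s) ∧
      ∀ᶠ i in l, Bd M R' fun s => ∑ j, db (θ j) s * Lg (b j) (Φ i) (z i).1 (z i).2 s := by
  choose M hM hM' using exc_near h hφ hl hz h₀
  obtain ⟨M', R', hb⟩ := exc_bd h M
  refine ⟨M', R', hb _ (fun j => exc_meas _ hφ _ _) hM, ?_⟩
  filter_upwards [hΦ, eventually_all.2 hM'] with i h1 h2
  exact hb _ (fun j => exc_meas _ h1 _ _) h2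

theorem exc_tendsto_Lg {ι : Type} {l : Filter ι} {Φ : ι → ℂ → ℂ} {z : ι → ℂ × ℂ} {z₀ : ℂ × ℂ}
    (h : Th b c φ θ) (hφ : Continuous φ) (hl : TendstoLocallyUniformly Φ φ l)
    (hz : Tendsto z l (𝓝 z₀)) (h₀ : z₀ ∈ WW b c R) (j : J) {a : ι → ℂ} {a₀ : ℂ}
    (ha : Tendsto a l (𝓝 a₀)) (hs : a₀ ∈ tsupport (θ j)) :
    Tendsto (fun i => Lg (b j) (Φ i) (z i).1 (z i).2 (a i)) l (𝓝 (Lg (b j) φ z₀.1 z₀.2 a₀)) :=
  (continuousAt_clog (exc_slit h h₀ j hs)).tendsto.comp
    ((exc_tendsto_lf (b j) ha (hl.tendsto_comp hφ.continuousAt ha)).sub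
      (exc_tendsto_lf (b j) ((continuous_fst.tendsto _).comp hz)
        ((continuous_snd.tendsto _).comp hz)))

theorem tendsto_Ex {ι : Type} {l : Filter ι} [l.IsCountablyGenerated] {Φ : ι → ℂ → ℂ}
    {z : ι → ℂ × ℂ} {z₀ : ℂ × ℂ} (h : Th b c φ θ) (hφ : Continuous φ)
    (hΦ : ∀ᶠ i in l, Continuous (Φ i)) (hl : TendstoLocallyUniformly Φ φ l)
    (hz : Tendsto z l (𝓝 z₀)) (h₀ : z₀ ∈ WW b c R) :
    Tendsto (fun i => Ex b (Φ i) θ (z i).1 (z i).2) l (𝓝 (Ex b φ θ z₀.1 z₀.2)) := by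
  obtain ⟨M, R', hb, hb'⟩ := h.bd hφ hΦ hl hz h₀
  have hz1 : Tendsto (fun i => (z i).1) l (𝓝 z₀.1) := (continuous_fst.tendsto _).comp hz
  refine Tendsto.add (Tendsto.neg (tendsto_finsetSum _ fun j _ => ?_))
    (tendsto_CT hb' hb (Eventually.of_forall fun s => tendsto_finsetSum _ fun j _ => ?_) hz1)
  · by_cases hs : z₀.1 ∈ tsupport (θ j)
    · exact (((h.smooth j).continuous.tendsto _).comp hz1).mul
        (exc_tendsto_Lg h hφ hl hz h₀ j hz1 hs)
    · have h1 := notMem_tsupport_iff_eventuallyEq.1 hs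
      rw [h1.self_of_nhds, Pi.zero_apply, zero_mul]
      refine tendsto_const_nhds.congr' ?_
      filter_upwards [hz1.eventually h1] with i hi
      rw [hi, Pi.zero_apply, zero_mul]
  · by_cases hs : s ∈ tsupport (θ j)
    · exact (exc_tendsto_Lg h hφ hl hz h₀ j tendsto_const_nhds hs).const_mul _
    · simp only [db_eq_zero_of_notMem hs, zero_mul]
      exact tendsto_const_nhds

theorem exc_diff_Lg (h : Th b c φ θ) {ξ ζ : ℂ} (hz : (ξ, ζ) ∈ WW b c R) (j : J) {s : ℂ}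
    (hs : s ∈ tsupport (θ j)) : DifferentiableAt ℂ (fun ζ => Lg (b j) φ ξ ζ s) ζ :=
  DifferentiableAt.clog (by unfold lf; fun_prop) (exc_slit h hz j hs)

/-- `Ex` is holomorphic in the second variable -/
theorem Th.differentiableAt_Ex (h : Th b c φ θ) (hφ : Continuous φ) {z₀ : ℂ × ℂ}
    (h₀ : z₀ ∈ WW b c R) : DifferentiableAt ℂ (fun ζ => Ex b φ θ z₀.1 ζ) z₀.2 := by
  have hz : Tendsto (fun ζ : ℂ => (z₀.1, ζ)) (𝓝 z₀.2) (𝓝 z₀) :=
    (Continuous.prodMk_right z₀.1).tendsto z₀.2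
  obtain ⟨M, R', hb, hb'⟩ := h.bd hφ (Eventually.of_forall fun _ => hφ) (exc_const _ φ) hz h₀
  obtain ⟨U, hU, hUo, hU0⟩ := _root_.eventually_nhds_iff.1
    (hb'.and (hz.eventually ((isOpen_WW b c R).mem_nhds h₀)))
  have hM : 0 ≤ M := (norm_nonneg _).trans (hb.le 0)
  have hG : Bd M R' ((closedBall (0 : ℂ) R').indicator fun _ => (M : ℂ)) :=
    ⟨aestronglyMeasurable_const.indicator measurableSet_closedBall, fun s =>
      (norm_indicator_le_norm_self _ _).trans (by simp [abs_of_nonneg hM]), fun s hs =>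
      indicator_of_notMem (fun h' => absurd (mem_closedBall_zero_iff.1 h') (not_le.2 hs)) _⟩
  refine DifferentiableAt.add (DifferentiableAt.neg (DifferentiableAt.fun_sum fun j _ => ?_))
    (DifferentiableAt.const_mul ?_ _)
  · by_cases hs : z₀.1 ∈ tsupport (θ j)
    · exact (exc_diff_Lg h h₀ j hs).const_mul _
    · simp only [image_eq_zero_of_notMem_tsupport hs, zero_mul]
      exact differentiableAt_const _
  · refine (hol_param hUo (k := fun ζ s => (∑ j, db (θ j) s * Lg (b j) φ z₀.1 ζ s) / (z₀.1 - s))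
      (fun ζ hζ => ((hU ζ hζ).1.integrable _).aestronglyMeasurable)
      (Eventually.of_forall fun s ζ hζ => DifferentiableAt.differentiableWithinAt ?_)
      (hG.integrable z₀.1).norm (Eventually.of_forall fun s ζ hζ => ?_)).differentiableAt
      (hUo.mem_nhds hU0)
    · refine DifferentiableAt.div_const (DifferentiableAt.fun_sum fun j _ => ?_) _
      by_cases hs : s ∈ tsupport (θ j)
      · exact (exc_diff_Lg h (hU ζ hζ).2 j hs).const_mul _
      · simp only [db_eq_zero_of_notMem hs, zero_mul]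
        exact differentiableAt_const _
    · rw [norm_div, norm_div]
      refine div_le_div_of_nonneg_right ?_ (norm_nonneg _)
      by_cases hs : s ∈ closedBall (0 : ℂ) R'
      · rw [indicator_of_mem hs, norm_real, Real.norm_of_nonneg hM]
        exact (hU ζ hζ).1.le s
      · have := (hU ζ hζ).1.out s (by simpa using hs)
        simp only at this
        rw [this, norm_zero]
        exact norm_nonneg _

theorem Ex_combo {θ' : J → ℂ → ℂ} (h : Th b c φ θ) (h' : Th b c φ θ') (hφ : Continuous φ)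
    {z : ℂ × ℂ} (hz : z ∈ WW b c R) (r : ℝ) :
    Ex b φ (fun j s => θ j s + r * (θ' j s - θ j s)) z.1 z.2 =
      Ex b φ θ z.1 z.2 + r * (Ex b φ θ' z.1 z.2 - Ex b φ θ z.1 z.2) := by
  obtain ⟨M, R', hb, -⟩ := h.bd (l := 𝓝 z) (z := fun _ => z) hφ (Eventually.of_forall fun _ => hφ)
    (exc_const _ φ) tendsto_const_nhds hz
  obtain ⟨M', R'', hb', -⟩ := h'.bd (l := 𝓝 z) (z := fun _ => z) hφ
    (Eventually.of_forall fun _ => hφ) (exc_const _ φ) tendsto_const_nhds hz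
  have e : ∀ j s, db (fun s => θ j s + r * (θ' j s - θ j s)) s =
      db (θ j) s + r * (db (θ' j) s - db (θ j) s) := fun j s => by
    have d1 := ((h.smooth j).differentiable one_ne_zero) s
    have d2 := ((h'.smooth j).differentiable one_ne_zero) s
    rw [db_add d1 ((d2.fun_sub d1).const_mul _),
      db_mul (h := fun _ => (r : ℂ)) (differentiableAt_const _) (d2.fun_sub d1), db_sub d2 d1,
      db_eq_zero (differentiableAt_const _), zero_mul, zero_add]
  have e2 : (fun s => ∑ j, db (fun s => θ j s + r * (θ' j s - θ j s)) s * Lg (b j) φ z.1 z.2 s) =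
      fun s => (1 - r : ℂ) * ∑ j, db (θ j) s * Lg (b j) φ z.1 z.2 s +
        r * ∑ j, db (θ' j) s * Lg (b j) φ z.1 z.2 s := by
    funext s
    rw [Finset.mul_sum, Finset.mul_sum, ← Finset.sum_add_distrib]
    exact Finset.sum_congr rfl fun j _ => by rw [e]; ring
  have e3 : ∑ j, (θ j z.1 + r * (θ' j z.1 - θ j z.1)) * Lg (b j) φ z.1 z.2 z.1 =
      (1 - r : ℂ) * ∑ j, θ j z.1 * Lg (b j) φ z.1 z.2 z.1 +
        r * ∑ j, θ' j z.1 * Lg (b j) φ z.1 z.2 z.1 := by
    rw [Finset.mul_sum, Finset.mul_sum, ← Finset.sum_add_distrib]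
    exact Finset.sum_congr rfl fun j _ => by ring
  simp only [Ex]
  rw [e2, e3, CT_add, CT_const_mul, CT_const_mul]
  · ring
  · simpa only [mul_div_assoc] using (hb.integrable z.1).const_mul (1 - r : ℂ)
  · simpa only [mul_div_assoc] using (hb'.integrable z.1).const_mul (r : ℂ)

theorem Th.combo {θ' : J → ℂ → ℂ} (h : Th b c φ θ) (h' : Th b c φ θ') (r : ℝ) :
    Th b c φ fun j s => θ j s + r * (θ' j s - θ j s) := by
  refine ⟨fun j => (h.smooth j).add (contDiff_const.mul ((h'.smooth j).sub (h.smooth j))),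
    fun j => (h.supp j).add ((h'.supp j).sub (h.supp j)).mul_left, fun j s hs => ?_⟩
  have hsub : tsupport (fun s => θ j s + r * (θ' j s - θ j s)) ⊆
      tsupport (θ j) ∪ tsupport (θ' j) := by
    refine closure_minimal (fun t ht => ?_) ((isClosed_tsupport _).union (isClosed_tsupport _))
    by_contra hn
    rw [mem_union, not_or] at hn
    exact ht (by simp [image_eq_zero_of_notMem_tsupport hn.1, image_eq_zero_of_notMem_tsupport hn.2])
  exact (hsub hs).elim (h.pos j s) (h'.pos j s)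

theorem lf_sharp (b : ℂ) (φ : ℂ → ℂ) (s : ℂ) :
    (lf (conj b) s (sharp φ s)).re = (lf b (conj s) (φ (conj s))).re := by
  simp only [lf, sharp, sub_re, mul_re, conj_re, conj_im]
  ring

theorem Th.sharp (h : Th b c φ θ) :
    Th (fun j => conj (b j)) c (sharp φ) fun j s => θ j (conj s) :=
  ⟨fun j => (h.smooth j).comp conjCLE.contDiff,
    fun j => (h.supp j).comp_homeomorph conjCLE.toHomeomorph, fun j s hs => by
      rw [lf_sharp]
      exact h.pos j _ (tsupport_comp_subset_preimage (θ j) continuous_conj hs)⟩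

end Pool.Agent.NapOT
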