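import Pool.Agent.Lib.MP_b71113_an.OT.Conj

/-! The proximal map. -/

namespace Pool.Agent.NapOT

open MeasureTheory Set Metric Complex ComplexConjugate Filter Topology
open scoped NNReal ENNReal Pointwise

variable {K : Set ℂ} {v w : ℂ → ℝ} {p : ℂ → ℂ}

theorem prox_inner (x q : ℂ) : inner ℝ x q = x.re * q.re + x.im * q.im := by
  simp only [Complex.inner, mul_re, conj_re, conj_im]
  ring

theorem prox_norm_sq (x : ℂ) : ‖x‖ ^ 2 = x.re ^ 2 + x.im ^ 2 := by
  rw [Complex.sq_norm, normSq_apply]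
  ring

theorem prox_eq_of_le {q q' : ℂ} (h : (q.re - q'.re) ^ 2 + (q.im - q'.im) ^ 2 ≤ 0) : q = q' := by
  have h1 : ‖q - q'‖ ^ 2 ≤ 0 := by rwa [prox_norm_sq]
  have h2 : ‖q - q'‖ = 0 := pow_eq_zero_iff two_ne_zero |>.1 (le_antisymm h1 (sq_nonneg _))
  exact sub_eq_zero.1 (norm_eq_zero.1 h2)

theorem prox_unique {a q q' : ℂ} (h : Gam K v (a - q) q) (h' : Gam K v (a - q') q') : q = q' := by
  have h1 := h.mono h'
  simp only [prox_inner, sub_re, sub_im] at h1
  exact prox_eq_of_le (by linarith)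

theorem prox_spec {a : ℂ} (h : ∃ q, Gam K v (a - q) q) :
    Gam K v (a - prox K v a) (prox K v a) := by
  rw [prox, dif_pos h]
  exact h.choose_spec

theorem prox_gam (hK : IsCompact K) (hne : K.Nonempty) (hv : Continuous v) (hc : ConvexOn ℝ K v)
    (a : ℂ) : Gam K v (a - prox K v a) (prox K v a) := by
  refine prox_spec ?_
  have hf : Continuous fun q => v q + ‖a - q‖ ^ 2 / 2 := by fun_prop
  obtain ⟨q, hq, hmin⟩ := hK.exists_isMinOn hne hf.continuousOn
  refine ⟨q, hq, fun q' hq' => ?_⟩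
  obtain ⟨D, hD⟩ : ∃ D : ℝ, D = ((q'.re - q.re) ^ 2 + (q'.im - q.im) ^ 2) / 2 := ⟨_, rfl⟩
  have hD0 : 0 ≤ D := by rw [hD]; positivity
  have key : ∀ t : ℝ, 0 < t → t ≤ 1 →
      inner ℝ (a - q) q' - v q' ≤ inner ℝ (a - q) q - v q + t * D := by
    intro t ht ht1
    have h1 := hc.2 hq hq' (sub_nonneg.2 ht1) ht.le (by ring)
    have h2 : v q + ‖a - q‖ ^ 2 / 2 ≤
        v ((1 - t) • q + t • q') + ‖a - ((1 - t) • q + t • q')‖ ^ 2 / 2 :=
      hmin (hc.1 hq hq' (sub_nonneg.2 ht1) ht.le (by ring))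
    generalize v ((1 - t) • q + t • q') = z at h1 h2
    simp only [prox_norm_sq, sub_re, sub_im, add_re, add_im, smul_re, smul_im, smul_eq_mul] at h1 h2
    simp only [prox_inner, sub_re, sub_im]
    refine le_of_mul_le_mul_left ?_ ht
    rw [hD]
    linarith
  refine le_of_forall_pos_le_add fun ε hε => ?_
  have hpos : 0 < ε + D := by linarith
  refine (key (ε / (ε + D)) (by positivity) ((div_le_one hpos).2 (by linarith))).trans ?_
  have : ε / (ε + D) * D ≤ ε := by
    rw [div_mul_eq_mul_div, div_le_iff₀ hpos]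
    exact mul_le_mul_of_nonneg_left (by linarith) hε.le
  linarith
theorem Gam.prox_eq {x q : ℂ} (h : Gam K v x q) : prox K v (x + q) = q := by
  have h1 : Gam K v (x + q - q) q := by rwa [add_sub_cancel_right]
  exact prox_unique (prox_spec ⟨q, h1⟩) h1
theorem prox_mono (hK : IsCompact K) (hne : K.Nonempty) (hv : Continuous v)
    (hc : ConvexOn ℝ K v) : Mono (prox K v) := fun a a' =>
  (prox_gam hK hne hv hc a).mono (prox_gam hK hne hv hc a')
theorem prox_grad (hK : IsCompact K) (hne : K.Nonempty) (hv : Continuous v)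
    (hc : ConvexOn ℝ K v) : ∃ e : ℂ → ℝ, ∀ a, HasFDerivAt e (innerSL ℝ (prox K v a)) a := by
  refine ⟨fun a => inner ℝ a (prox K v a) - ‖prox K v a‖ ^ 2 / 2 - v (prox K v a), fun a => ?_⟩
  rw [hasFDerivAt_iff_isLittleO]
  refine Asymptotics.IsBigO.trans_isLittleO ?_
    (Asymptotics.isLittleO_pow_sub_sub a (show 1 < 2 by norm_num))
  refine Asymptotics.IsBigO.of_bound' (Eventually.of_forall fun a' => ?_)
  have g := prox_gam hK hne hv hc a
  have g' := prox_gam hK hne hv hc a'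
  have h1 := g.2 _ g'.1
  have h2 := g'.2 _ g.1
  generalize prox K v a = q at h1 h2 ⊢
  generalize prox K v a' = q' at h1 h2 ⊢
  rw [Real.norm_eq_abs, Real.norm_eq_abs, abs_of_nonneg (sq_nonneg ‖a' - a‖), innerSL_apply_apply]
  simp only [prox_inner, prox_norm_sq, sub_re, sub_im] at h1 h2 ⊢
  refine abs_le.2 ⟨?_, ?_⟩
  · linarith [sq_nonneg (q'.re - q.re), sq_nonneg (q'.im - q.im), sq_nonneg (a'.re - a.re),
      sq_nonneg (a'.im - a.im)]
  · linarith [sq_nonneg (a'.re - a.re - (q'.re - q.re)), sq_nonneg (a'.im - a.im - (q'.im - q.im)),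
      sq_nonneg (a'.re - a.re), sq_nonneg (a'.im - a.im)]
theorem prox_stab (hK : IsCompact K) (hne : K.Nonempty) (hv : Continuous v) (hc : ConvexOn ℝ K v)
    (hw : Continuous w) (hc' : ConvexOn ℝ K w) {η : ℝ} (h : ∀ q ∈ K, |v q - w q| ≤ η) (a : ℂ) :
    ‖prox K v a - prox K w a‖ ^ 2 ≤ 2 * η := by
  have g := prox_gam hK hne hv hc a
  have g' := prox_gam hK hne hw hc' a
  have h1 := g.2 _ g'.1
  have h2 := g'.2 _ g.1
  have h3 := abs_le.1 (h _ g.1)
  have h4 := abs_le.1 (h _ g'.1)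
  simp only [prox_inner, prox_norm_sq, sub_re, sub_im] at h1 h2 ⊢
  linarith [h3.1, h4.2]
theorem prox_neg (hK : IsCompact K) (hne : K.Nonempty) (hv : Continuous v) (hc : ConvexOn ℝ K v)
    (hs : ∀ q ∈ K, -q ∈ K) (he : ∀ q, v (-q) = v q) (a : ℂ) :
    prox K v (-a) = -prox K v a := by
  have g := prox_gam hK hne hv hc a
  have g' : Gam K v (-(a - prox K v a)) (-prox K v a) := by
    refine ⟨hs _ g.1, fun q' hq' => ?_⟩
    have h1 := g.2 _ (hs _ hq')
    rw [he, inner_neg_right] at h1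
    rwa [he, inner_neg_neg, inner_neg_left]
  have h2 := g'.prox_eq
  rwa [show -(a - prox K v a) + -prox K v a = -a by ring] at h2
theorem prox_eq_zero (hK : IsCompact K) (hne : K.Nonempty) (hv : Continuous v)
    (hc : ConvexOn ℝ K v) (a : ℂ) : prox K v a = 0 ↔ a ∈ cz K v := by
  constructor
  · intro h
    have g := prox_gam hK hne hv hc a
    rwa [h, sub_zero] at g
  · intro h
    have g := Gam.prox_eq (show Gam K v a 0 from h)
    rwa [add_zero] at g
theorem Mono.swap (h : Mono p) : Mono fun a => a - p a := by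
  intro a a'
  simp only [sub_sub_cancel]
  rw [real_inner_comm]
  exact h a a'
theorem Mono.lip (h : Mono p) : LipschitzWith 1 p := by
  refine LipschitzWith.of_dist_le_mul fun a a' => ?_
  rw [NNReal.coe_one, one_mul, dist_eq_norm, dist_eq_norm]
  refine (sq_le_sq₀ (norm_nonneg _) (norm_nonneg _)).1 ?_
  have h1 := h a a'
  simp only [prox_inner, prox_norm_sq, sub_re, sub_im] at h1 ⊢
  linarith [sq_nonneg (a.re - a'.re - ((p a).re - (p a').re)),
    sq_nonneg (a.im - a'.im - ((p a).im - (p a').im))]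
theorem Mono.lip_gr (h : Mono p) : LipschitzWith 1 (gr p) := by
  refine LipschitzWith.of_dist_le_mul fun s s' => ?_
  rw [NNReal.coe_one, one_mul, dist_eq_norm, dist_eq_norm]
  refine (sq_le_sq₀ (norm_nonneg _) (norm_nonneg _)).1 ?_
  have h1 := h (conj s) (conj s')
  simp only [gr, prox_inner, prox_norm_sq, sub_re, sub_im, conj_re, conj_im, two_mul, add_re,
    add_im] at h1 ⊢
  linarith
theorem Mono.convex_fibre (h : Mono p) (q : ℂ) : Convex ℝ {a | p a = q} := by
  intro a ha a' ha' s t hs ht hst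
  have e1 : p a = q := ha
  have e2 : p a' = q := ha'
  have h1 := mul_nonneg hs (h a (s • a + t • a'))
  have h2 := mul_nonneg ht (h a' (s • a + t • a'))
  change p (s • a + t • a') = q
  generalize p (s • a + t • a') = r at h1 h2 ⊢
  obtain rfl : t = 1 - s := by linarith
  simp only [e1, e2, prox_inner, sub_re, sub_im, add_re, add_im, smul_re, smul_im,
    smul_eq_mul] at h1 h2
  exact prox_eq_of_le (by linarith)
theorem Mono.inner_nonneg (h : Mono p) (a a' : ℂ) : 0 ≤ inner ℝ (p a - p a') (a - a') := by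
  have h1 := h a a'
  simp only [prox_inner, sub_re, sub_im] at h1 ⊢
  linarith [sq_nonneg ((p a).re - (p a').re), sq_nonneg ((p a).im - (p a').im)]
theorem MD.swap {A B : Set ℂ} {α β : ℝ} {π : Measure ℂ} (h : MD A B α β p π) :
    MD B A β α (fun a => a - p a) π := by
  refine ⟨h.mono.swap, ?_, ?_, h.mapX⟩
  · obtain ⟨e, he⟩ := h.grad
    refine ⟨fun a => (1 / 2 : ℝ) * ‖a‖ ^ 2 - e a, fun a => ?_⟩
    have h1 := (((hasStrictFDerivAt_norm_sq a).hasFDerivAt).const_mul (1 / 2 : ℝ)).sub (he a)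
    refine h1.congr_fderiv (ContinuousLinearMap.ext fun z => ?_)
    simp only [_root_.sub_apply, _root_.smul_apply, innerSL_apply_apply,
      prox_inner, sub_re, sub_im, smul_eq_mul, nsmul_eq_mul]
    push_cast
    ring
  · simp only [sub_sub_cancel]
    exact h.mapP

end Pool.Agent.NapOT
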