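import Pool.Agent.Lib.MP_b71113_an.OT.Exist
import Pool.Agent.Lib.MP_b71113_an.OT.Prox

/-! The first variation: minimisers give transport maps. -/

namespace Pool.Agent.NapOT

open MeasureTheory Set Metric Complex ComplexConjugate Filter Topology
open scoped NNReal ENNReal Pointwise

variable {A B : Set ℂ} {α β : ℝ} {v : ℂ → ℝ} {T : ℂ → ℂ}

theorem var_wt_zero (A : Set ℂ) : wt A 0 = volume.restrict A := by
  simp [wt]

/-- maximisers of the perturbed problem give nearly the same value of `η` -/
theorem var_near {K : Set ℂ} (hK : IsCompact K) (hv : Continuous v)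
    {η : ℂ → ℝ} (hη : Continuous η) {x q₀ : ℂ} (h₀ : Gam K v x q₀)
    (hu : ∀ q, Gam K v x q → q = q₀) {ε : ℝ} (hε : 0 < ε) :
    ∀ᶠ t : ℝ in 𝓝 0, ∀ q, Gam K (fun q => v q + t * η q) x q → |η q - η q₀| ≤ ε := by
  have hg : Continuous fun q : ℂ => (inner ℝ x q₀ - v q₀) - (inner ℝ x q - v q) :=
    continuous_const.sub ((continuous_const.inner continuous_id).sub hv)
  have hc : IsCompact (K ∩ {q | ε ≤ |η q - η q₀|}) :=
    hK.inter_right (isClosed_le continuous_const (hη.sub continuous_const).abs)
  obtain ⟨δ, hδ, hδ'⟩ := hc.exists_forall_le' hg.continuousOn (a := 0) (by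
    rintro q ⟨hq, hq'⟩
    rcases (h₀.2 q hq).lt_or_eq with h1 | h1
    · linarith
    · exfalso
      have : q = q₀ := hu q ⟨hq, fun q' hq' => h1 ▸ h₀.2 q' hq'⟩
      subst this
      simp at hq'
      linarith)
  obtain ⟨M, hM⟩ := hK.exists_bound_of_continuousOn hη.continuousOn
  have hM0 : 0 ≤ M := (norm_nonneg _).trans (hM q₀ h₀.1)
  have hpos : 0 < δ / (2 * M + 1) := by positivity
  filter_upwards [Metric.ball_mem_nhds (0 : ℝ) hpos] with t ht q hq
  by_contra hcon
  have h1 := hδ' q ⟨hq.1, (not_le.mp hcon).le⟩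
  have h2 := hq.2 q₀ h₀.1
  have ht' : |t| * (2 * M + 1) < δ := by
    rw [mem_ball_zero_iff, Real.norm_eq_abs, lt_div_iff₀ (by positivity)] at ht
    exact ht
  have h3 : |η q₀ - η q| ≤ 2 * M := by
    have a := hM q hq.1
    have b := hM q₀ h₀.1
    rw [Real.norm_eq_abs] at a b
    have := abs_sub (η q₀) (η q)
    linarith
  have h4 : t * (η q₀ - η q) ≤ |t| * (2 * M) := by
    calc t * (η q₀ - η q) ≤ |t * (η q₀ - η q)| := le_abs_self _
      _ = |t| * |η q₀ - η q| := abs_mul _ _
      _ ≤ |t| * (2 * M) := mul_le_mul_of_nonneg_left h3 (abs_nonneg _)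
  have h5 := abs_nonneg t
  simp only at h1 h2
  nlinarith

/-- derivative of the conjugate function in the direction `η` -/
theorem hasDerivAt_cj {K : Set ℂ} (hK : IsCompact K) (hne : K.Nonempty) (hv : Continuous v)
    {η : ℂ → ℝ} (hη : Continuous η) {x : ℂ} (hd : DifferentiableAt ℝ (cj K v) x) :
    HasDerivAt (fun t : ℝ => cj K (fun q => v q + t * η q) x) (-η (gradient (cj K v) x)) 0 := by
  obtain ⟨q₀, h₀⟩ := exists_gam hK hne hv x
  have e₀ := h₀.eq_gradient hK hv hd
  have hu : ∀ q, Gam K v x q → q = q₀ := fun q hq => (hq.eq_gradient hK hv hd).symm.trans e₀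
  rw [e₀, hasDerivAt_iff_isLittleO, Asymptotics.isLittleO_iff]
  intro ε hε
  filter_upwards [var_near hK hv hη h₀ hu hε] with t ht
  have hw : Continuous fun q => v q + t * η q := hv.add (continuous_const.mul hη)
  obtain ⟨q, hq⟩ := exists_gam hK hne hw x
  have h1 := ht q hq
  have h2 := hq.cj_eq
  have h3 := hq.2 q₀ h₀.1
  have h4 := h₀.2 q hq.1
  have h5 : cj K (fun q => v q + 0 * η q) x = inner ℝ x q₀ - v q₀ := by
    simp only [zero_mul, add_zero]
    exact h₀.cj_eq
  have h6 : t * (η q₀ - η q) ≤ ε * |t| := by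
    calc t * (η q₀ - η q) ≤ |t * (η q₀ - η q)| := le_abs_self _
      _ = |η q - η q₀| * |t| := by rw [abs_mul, abs_sub_comm, mul_comm]
      _ ≤ ε * |t| := mul_le_mul_of_nonneg_right h1 (abs_nonneg _)
  have h7 : 0 ≤ ε * |t| := by positivity
  rw [h2, h5, sub_zero, Real.norm_eq_abs, Real.norm_eq_abs, smul_eq_mul, abs_le]
  simp only at h3
  constructor <;> nlinarith

theorem var_meas (f : ℂ → ℝ) : Measurable (gradient f) :=
  (InnerProductSpace.toDual ℝ ℂ).symm.continuous.measurable.comp (measurable_fderiv ℝ f)

theorem var_ae_diff (hB : Body B) (hv : Continuous v) (A : Set ℂ) :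
    ∀ᵐ x ∂(volume.restrict A), DifferentiableAt ℝ (cj (closure B) v) x := by
  obtain ⟨M, hM⟩ := hB.isCompact.exists_bound_of_continuousOn continuousOn_id
  have hL : LipschitzWith (Real.toNNReal M) (cj (closure B) v) :=
    cj_lip hB.isCompact hB.ne.closure hv fun q hq => (hM q hq).trans (Real.le_coe_toNNReal M)
  exact ae_restrict_of_ae hL.ae_differentiableAt

theorem var_first (h : Dat A B 0 β) (hv : Min A B 0 β v) {η : ℂ → ℝ} (hη : Continuous η) :
    ∫ x in A, η (gradient (cj (closure B) v) x) = ∫ q, η q ∂(wt B β) := by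
  have hK := h.hB.isCompact
  have hne : (closure B).Nonempty := h.hB.ne.closure
  have hw : ∀ t : ℝ, Continuous fun q => v q + t * η q := fun t =>
    hv.1.add (continuous_const.mul hη)
  obtain ⟨M, hM⟩ := hK.exists_bound_of_continuousOn hη.continuousOn
  have : IsFiniteMeasure (volume.restrict A) := var_wt_zero A ▸ h.hA.finite_wt 0
  have hint : ∀ t : ℝ, Integrable (cj (closure B) fun q => v q + t * η q) (volume.restrict A) :=
    fun t => var_wt_zero A ▸ h.hA.integrable_wt 0 (cj_continuous hK hne (hw t))
  have key := (hasDerivAt_integral_of_dominated_loc_of_lip (μ := volume.restrict A)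
    (F := fun (t : ℝ) x => cj (closure B) (fun q => v q + t * η q) x) (x₀ := 0) (s := univ)
    (F' := fun x => -η (gradient (cj (closure B) v) x)) (bound := fun _ => M) univ_mem
    (Eventually.of_forall fun t => (hint t).aestronglyMeasurable) (hint 0)
    ((hη.measurable.comp (var_meas _)).neg.aestronglyMeasurable)
    (Eventually.of_forall fun x => by
      refine LipschitzOnWith.of_dist_le_mul fun t _ s _ => ?_
      rw [Real.dist_eq, Real.dist_eq]
      refine cj_sub_le hK hne (hw t) (hw s) (fun q hq => ?_) x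
      have e : v q + t * η q - (v q + s * η q) = η q * (t - s) := by ring
      rw [e, abs_mul]
      refine mul_le_mul_of_nonneg_right ?_ (abs_nonneg _)
      have := hM q hq
      rw [Real.norm_eq_abs] at this
      exact this.trans (le_abs_self M))
    (integrable_const M)
    ((var_ae_diff h.hB hv.1 A).mono fun x hx => hasDerivAt_cj hK hne hv.1 hη hx)).2
  have e : ∀ t : ℝ, JJ A B 0 β (fun q => v q + t * η q) =
      (∫ x in A, cj (closure B) (fun q => v q + t * η q) x) +
        (∫ q, v q ∂(wt B β) + t * ∫ q, η q ∂(wt B β)) := by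
    intro t
    rw [JJ, var_wt_zero, integral_add (h.hB.integrable_wt β hv.1)
      ((h.hB.integrable_wt β hη).const_mul t), integral_const_mul]
  have hd : HasDerivAt (fun t : ℝ => JJ A B 0 β (fun q => v q + t * η q))
      ((∫ x in A, -η (gradient (cj (closure B) v) x)) + ∫ q, η q ∂(wt B β)) 0 := by
    simp only [e]
    exact key.add ((hasDerivAt_mul_const _).const_add _)
  have hmin : IsLocalMin (fun t : ℝ => JJ A B 0 β (fun q => v q + t * η q)) 0 := by
    refine Eventually.of_forall fun t => ?_
    have := hv.2 _ (hw t)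
    simpa using this
  have := hmin.hasDerivAt_eq_zero hd
  rw [integral_neg] at this
  linarith

theorem Min.tr (h : Dat A B 0 β) (hv : Min A B 0 β v) :
    Tr A B β v (gradient (cj (closure B) v)) := by
  have hK := h.hB.isCompact
  have hne : (closure B).Nonempty := h.hB.ne.closure
  refine ⟨hv.1, hv.convexOn h, var_meas _, ?_, ?_⟩
  · have : IsFiniteMeasure (volume.restrict A) := var_wt_zero A ▸ h.hA.finite_wt 0
    have := h.hB.finite_wt β
    refine ext_of_forall_integral_eq_of_IsFiniteMeasure fun η => ?_
    rw [integral_map (var_meas _).aemeasurable η.continuous.aestronglyMeasurable]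
    exact var_first h hv η.continuous
  · filter_upwards [var_ae_diff h.hB hv.1 A] with x hx
    obtain ⟨q, hq⟩ := exists_gam hK hne hv.1 x
    rw [hq.eq_gradient hK hv.1 hx]
    exact hq

theorem Tr.md (hB : Body B) (h : Tr A B β v T) :
    MD A B 0 β (prox (closure B) v) ((volume.restrict A).map fun x => x + T x) := by
  have hK := hB.isCompact
  have hne : (closure B).Nonempty := hB.ne.closure
  have hm := prox_mono hK hne h.cont h.cvx
  have hp : Measurable (prox (closure B) v) := hm.lip.continuous.measurable
  have hX : Measurable fun a => a - prox (closure B) v a := measurable_id.sub hp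
  have hT : Measurable fun x => x + T x := measurable_id.add h.meas
  refine ⟨hm, prox_grad hK hne h.cont h.cvx, ?_, ?_⟩
  · rw [Measure.map_map hX hT, var_wt_zero]
    refine (Measure.map_congr (g := id) ?_).trans Measure.map_id
    filter_upwards [h.gam] with x hx
    simp [hx.prox_eq]
  · rw [Measure.map_map hp hT, ← h.map]
    refine Measure.map_congr ?_
    filter_upwards [h.gam] with x hx
    simp [hx.prox_eq]

theorem Min.md (h : Dat A B α β) (h0 : α = 0 ∨ β = 0) (hv : Min A B α β v) :
    ∃ π, MD A B α β (prox (closure B) v) π := by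
  rcases h0 with rfl | rfl
  · exact ⟨_, (hv.tr h).md h.hB⟩
  have hK := h.hB.isCompact
  have hne : (closure B).Nonempty := h.hB.ne.closure
  have hc := hv.convexOn h
  have hm := prox_mono hK hne hv.1 hc
  have hp : Measurable (prox (closure B) v) := hm.lip.continuous.measurable
  have hX : Measurable fun a => a - prox (closure B) v a := measurable_id.sub hp
  have hS := (hv.swap h).tr h.swap
  generalize gradient (cj (closure A) (cj (closure B) v)) = S at hS
  have hT : Measurable fun y => S y + y := hS.meas.add measurable_id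
  have hae : ∀ᵐ y ∂(volume.restrict B), prox (closure B) v (S y + y) = y := by
    filter_upwards [hS.gam, ae_restrict_mem h.hB.op.measurableSet] with y hy hyB
    refine Gam.prox_eq (gam_of_cj_le hK hv.1 (subset_closure hyB) ?_)
    have e1 := hy.cj_eq
    have e2 := hv.eq_bicj h y (subset_closure hyB)
    rw [real_inner_comm]
    linarith
  refine ⟨(volume.restrict B).map fun y => S y + y, hm, prox_grad hK hne hv.1 hc, ?_, ?_⟩
  · rw [Measure.map_map hX hT, ← hS.map]
    refine Measure.map_congr ?_
    filter_upwards [hae] with y hy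
    simp [hy]
  · rw [Measure.map_map hp hT, var_wt_zero]
    refine (Measure.map_congr (g := id) ?_).trans Measure.map_id
    filter_upwards [hae] with y hy
    simp [hy]


end Pool.Agent.NapOT
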