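import Pool.Agent.Lib.MP_b71113_an.OT.Area
import Pool.Agent.Lib.MP_b71113_an.OT.Loc
import Pool.Agent.Lib.MP_b71113_an.OT.Var

/-! The graph of the transport map is a complex curve. -/

namespace Pool.Agent.NapOT

open MeasureTheory Set Metric Complex ComplexConjugate Filter Topology
open scoped NNReal ENNReal Pointwise

variable {A B : Set ℂ} {α β : ℝ} {p : ℂ → ℂ} {π : Measure ℂ}

theorem hol_dense (hD : Dat A B α β) (h : MD A B α β p π) {O : Set ℂ} (hO : IsOpen O)
    (hne : O.Nonempty) (hOB : O ⊆ B) : ∃ a, p a ∈ O ∧ a - p a ∈ closure A := by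
  have hp : Measurable p := h.mono.lip.continuous.measurable
  have h1 : ∀ᵐ a ∂π, a - p a ∈ closure A := by
    have e := hD.hA.ae_wt hD.zA
    rw [← h.mapX] at e
    exact ae_of_ae_map (measurable_id.sub hp).aemeasurable e
  have h2 : π (p ⁻¹' O) ≠ 0 := by
    rw [← Measure.map_apply hp hO.measurableSet, h.mapP, wt, Measure.add_apply,
      Measure.restrict_apply hO.measurableSet, inter_eq_left.2 hOB]
    exact fun e => (hO.measure_pos volume hne).ne' (add_eq_zero.1 e).1
  exact Measure.exists_mem_of_measure_ne_zero_of_ae h2 (ae_restrict_of_ae h1)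

theorem MD.mem_closure (hD : Dat A B α β) (h : MD A B α β p π) {a : ℂ} (ha : p a ∈ B) :
    a - p a ∈ closure A := by
  by_contra hc
  obtain ⟨f, u, hf, hu⟩ := geometric_hahn_banach_closed_point hD.hA.cv.closure isClosed_closure hc
  obtain ⟨n, hn⟩ : ∃ n : ℂ, ∀ x, inner ℝ n x = f x :=
    ⟨(InnerProductSpace.toDual ℝ ℂ).symm f, fun x => InnerProductSpace.toDual_symm_apply⟩
  obtain ⟨D, hD0, hDb⟩ := hD.hA.isCompact.isBounded.subset_closedBall_lt 0 (a - p a)
  obtain ⟨t, ht0, ht⟩ : ∃ t : ℝ, 0 < t ∧ p a + t • n ∈ B := by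
    have e : ∀ᶠ t : ℝ in 𝓝 0, p a + t • n ∈ B := by
      have c : Continuous fun t : ℝ => p a + t • n := by fun_prop
      exact c.continuousAt.eventually_mem (by simpa using hD.hB.op.mem_nhds ha)
    exact ((eventually_mem_nhdsWithin.and (e.filter_mono nhdsWithin_le_nhds) :
      ∀ᶠ t : ℝ in 𝓝[>] 0, _).exists)
  have hk : 0 < t * (f (a - p a) - u) / D := by
    have := sub_pos.2 hu
    positivity
  obtain ⟨a', ⟨h1, -⟩, h3⟩ := hol_dense hD h (isOpen_ball.inter hD.hB.op)
    ⟨_, mem_ball_self hk, ht⟩ inter_subset_right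
  have h4 := h.mono a a'
  rw [show p a - p a' = (p a + t • n - p a') - t • n by abel, inner_sub_right, inner_smul_right,
    real_inner_comm n, hn, map_sub] at h4
  have h5 := real_inner_le_norm (a - p a - (a' - p a')) (p a + t • n - p a')
  have h6 : ‖a - p a - (a' - p a')‖ ≤ D := by
    rw [norm_sub_rev]
    exact mem_closedBall_iff_norm.1 (hDb h3)
  have h7 : ‖p a + t • n - p a'‖ * D < t * (f (a - p a) - u) := by
    rw [norm_sub_rev]
    exact (lt_div_iff₀ hD0).1 (mem_ball_iff_norm.1 h1)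
  have h8 := mul_le_mul_of_nonneg_right h6 (norm_nonneg (p a + t • n - p a'))
  have h9 := mul_lt_mul_of_pos_left (hf _ h3) ht0
  linarith

theorem hol_det (S : ℂ →L[ℝ] ℂ) : S.det = (S 1).re * (S I).im - (S I).re * (S 1).im := by
  rw [ContinuousLinearMap.det, ← LinearMap.det_toMatrix basisOneI, Matrix.det_fin_two]
  simp [LinearMap.toMatrix_apply]

theorem hol_psd (h : Mono p) {a : ℂ} {S : ℂ →L[ℝ] ℂ} (hd : HasFDerivAt p S a) (v : ℂ) :
    0 ≤ inner ℝ (S v) v := by
  have h1 : HasDerivAt (fun t : ℝ => a + t • v) v 0 := by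
    simpa using ((hasDerivAt_id (0 : ℝ)).smul_const v).const_add a
  have h2 : HasDerivAt (fun t : ℝ => p (a + t • v)) (S v) 0 :=
    hd.comp_hasDerivAt_of_eq 0 h1 (by simp)
  have h3 : HasDerivAt (fun t : ℝ => inner ℝ (p (a + t • v)) v) (inner ℝ (S v) v) 0 := by
    simpa using h2.inner ℝ (hasDerivAt_const (0 : ℝ) v)
  refine ge_of_tendsto (h3.tendsto_slope_zero_right) ?_
  filter_upwards [self_mem_nhdsWithin] with t ht
  have h4 := h.inner_nonneg (a + t • v) a
  rw [add_sub_cancel_left, inner_smul_right, inner_sub_left] at h4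
  have h5 := nonneg_of_mul_nonneg_right h4 ht
  simp only [zero_add, zero_smul, add_zero, smul_eq_mul]
  exact mul_nonneg (inv_pos.2 ht).le h5

theorem hol_det_nonneg {S : ℂ →L[ℝ] ℂ} (hs : (S I).re = (S 1).im) (h : ∀ v, 0 ≤ inner ℝ (S v) v) :
    0 ≤ S.det := by
  have h1 : discrim (S 1).re (2 * (S 1).im) (S I).im ≤ 0 := discrim_le_zero fun x => by
    have e := h (x • (1 : ℂ) + I)
    rw [map_add, map_smul, Complex.inner] at e
    simp [hs] at e
    linarith
  rw [discrim] at h1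
  rw [hol_det, hs]
  linarith

theorem hol_db (h : Mono p) {e : ℂ → ℝ} (he : ∀ a, HasFDerivAt e (innerSL ℝ (p a)) a) {s : ℂ}
    (hd : DifferentiableAt ℝ p (conj s))
    (hj : |(fderiv ℝ p (conj s)).det| = |(fderiv ℝ (fun a => a - p a) (conj s)).det|) :
    db (gr p) s = 0 := by
  obtain ⟨S, hS⟩ : ∃ S, HasFDerivAt p S (conj s) := ⟨_, hd.hasFDerivAt⟩
  have hX : HasFDerivAt (fun a => a - p a) (ContinuousLinearMap.id ℝ ℂ - S) (conj s) :=
    (hasFDerivAt_id _).sub hS
  have h1 : (S I).re = (S 1).im := by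
    have e1 := second_derivative_symmetric he
      ((innerSL ℝ (E := ℂ)).hasFDerivAt.comp (conj s) hS) I 1
    have e2 : inner ℝ (S I) (1 : ℂ) = inner ℝ (S 1) I := e1
    simpa [Complex.inner] using e2
  rw [hS.fderiv, hX.fderiv, abs_of_nonneg (hol_det_nonneg h1 (hol_psd h hS)),
    abs_of_nonneg (hol_det_nonneg (by simp [h1]) (hol_psd h.swap hX)), hol_det, hol_det] at hj
  have h2 : HasFDerivAt (gr p) (conjCLE.toContinuousLinearMap -
      (2 : ℂ) • S.comp conjCLE.toContinuousLinearMap) s :=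
    conjCLE.hasFDerivAt.sub ((hS.comp s conjCLE.hasFDerivAt).const_mul 2)
  rw [db, h2.fderiv]
  simp at hj
  apply Complex.ext
  · simp
    linarith
  · simp [h1]

theorem MD.hol (hD : Dat A B α β) (h : MD A B α β p π) {U : Set ℂ} (hU : IsOpen U)
    (hin : ∀ a ∈ U, a - p a ∈ closure A ∧ p a ∈ closure B ∧ (α = 0 ∨ a - p a ≠ 0) ∧
      (β = 0 ∨ p a ≠ 0)) : DifferentiableOn ℂ (gr p) {s | conj s ∈ U} := by
  obtain ⟨e, he⟩ := h.grad
  have hm : ∀ q : ℂ → ℂ, Measurable fun a => ENNReal.ofReal |(fderiv ℝ q a).det| := fun q =>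
    (ContinuousLinearMap.continuous_det.measurable.comp (measurable_fderiv ℝ q)).abs.ennreal_ofReal
  have h1 := ae_eq_of_forall_setLIntegral_eq_of_sigmaFinite (μ := volume.restrict U) (hm p)
    (hm fun a => a - p a) fun s hs _ => by
      rw [Measure.restrict_restrict hs,
        ← h.mono.area hD.hB h.mapP (hs.inter hU.measurableSet)
          fun a ha => ⟨(hin a ha.2).2.1, (hin a ha.2).2.2.2⟩,
        ← h.mono.swap.area hD.hA h.mapX (hs.inter hU.measurableSet)
          fun a ha => ⟨(hin a ha.2).1, (hin a ha.2).2.2.1⟩]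
  have h2 := (ae_restrict_iff' hU.measurableSet).1 h1
  have h3 := conjLIE.measurePreserving.quasiMeasurePreserving.ae
    (h2.and (h.mono.lip.ae_differentiableAt (μ := volume)))
  refine hol_of_ae (hU.preimage continuous_conj) h.mono.lip_gr ?_
  filter_upwards [h3] with s hs hsU
  exact hol_db h.mono he hs.2
    ((ENNReal.ofReal_eq_ofReal_iff (abs_nonneg _) (abs_nonneg _)).1 (hs.1 hsU))

theorem MD.vol_zero (hD : Dat A B α β) (h : MD A B α β p π) (h0 : α = 0 ∨ β = 0)
    (hB : (0 : ℂ) ∈ B) : volume {a | p a = 0} = ENNReal.ofReal β := by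
  have hp : Measurable p := h.mono.lip.continuous.measurable
  have hC : MeasurableSet {a | p a = 0} := hp (measurableSet_singleton 0)
  have h1 : π {a | p a = 0} = ENNReal.ofReal β := by
    rw [show {a | p a = 0} = p ⁻¹' {0} from rfl, ← Measure.map_apply hp (measurableSet_singleton 0),
      h.mapP, wt]
    simp
  have h2 : ∀ a, p a = 0 → a ∈ closure A := fun a ha => by
    simpa [ha] using h.mem_closure hD (a := a) (ha ▸ hB)
  have h3 : ∀ G, MeasurableSet G → G ⊆ {a | p a = 0} → (∀ a ∈ G, α = 0 ∨ a ≠ 0) →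
      π G = volume G := fun G hG hs hz =>
    h.mono.swap.area_id hD.hA h.mapX (h.mono.convex_fibre 0)
      (fun a ha => by rw [show p a = 0 from ha, sub_zero]) hG hs fun a ha => ⟨h2 a (hs ha), hz a ha⟩
  rcases h0 with h0 | h0
  · rw [← h3 _ hC subset_rfl fun _ _ => Or.inl h0, h1]
  · rw [← measure_sdiff_null (measure_singleton (0 : ℂ)),
      ← h3 _ (hC.diff (measurableSet_singleton 0)) sdiff_subset fun _ ha => Or.inr ha.2]
    rw [h0, ENNReal.ofReal_zero] at h1 ⊢
    exact measure_mono_null sdiff_subset h1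

theorem Tr.cz_subset {v : ℂ → ℝ} {T : ℂ → ℂ} (hD : Dat A B 0 β) (h : Tr A B β v T)
    (hB : (0 : ℂ) ∈ B) : cz (closure B) v ⊆ closure A := by
  intro x hx
  have h1 := (prox_eq_zero hD.hB.isCompact hD.hB.ne.closure h.cont h.cvx x).2 hx
  simpa [h1] using (h.md hD.hB).mem_closure hD (a := x) (h1 ▸ hB)

theorem Tr.vol_cz {v : ℂ → ℝ} {T : ℂ → ℂ} (hD : Dat A B 0 β) (h : Tr A B β v T)
    (hB : (0 : ℂ) ∈ B) : volume (cz (closure B) v) = ENNReal.ofReal β := by
  rw [← (h.md hD.hB).vol_zero hD (Or.inl rfl) hB]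
  congr 1
  ext a
  exact (prox_eq_zero hD.hB.isCompact hD.hB.ne.closure h.cont h.cvx a).symm

end Pool.Agent.NapOT
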