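import Pool.Agent.Lib.MP_b71113_an.OT.Fam
import Pool.Agent.Lib.MP_b71113_an.OT.Hol
import Pool.Agent.Lib.MP_b71113_an.OT.Cmp
import Pool.Agent.Lib.MP_b71113_an.OT.CtC
import Pool.Agent.Lib.MP_b71113_an.OT.ExC

/-! The members of the family as curves. -/

namespace Pool.Agent.NapOT

open MeasureTheory Set Metric Complex ComplexConjugate Filter Topology
open scoped NNReal ENNReal Pointwise

variable {Ω : Set ℂ} {L : ℝ≥0} {t s₂ s₁ d₁ d₂ : ℝ} {τ : ℝ × C(ℂ, ℝ)}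

/-- the graph function of a member of the family -/
noncomputable def gp (d₁ d₂ : ℝ) (τ : ℝ × C(ℂ, ℝ)) : ℂ → ℂ := gr (prox (closure (box d₁ d₂)) τ.2)

/-- standing assumptions -/
structure Std (Ω : Set ℂ) (d₁ d₂ t s₂ : ℝ) : Prop where
  hΩ : Body Ω
  h0 : (0 : ℂ) ∈ Ω
  h1 : 0 < d₁
  h2 : 0 < d₂
  s2 : 0 < s₂
  t0 : 0 < t
  t1 : t < 1
  big : 4 * d₁ * d₂ ≤ volume.real (AA Ω t s₂)

theorem lf_bb_lt (ξ ζ : ℂ) (r₁ r₂ : ℝ) :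
    (∀ j, (lf (bb j) ξ ζ).re < cc r₁ r₂ j) ↔ (conj ξ - ζ) / 2 ∈ box r₁ r₂ := by
  simp only [Fin.forall_fin_succ, lf, bb, cc, box, mem_ofPred_eq, abs_lt]
  simp [map_ofNat]
  constructor
  · rintro ⟨h1, h2, h3, h4⟩
    refine ⟨⟨?_, ?_⟩, ?_, ?_⟩ <;> linarith
  · rintro ⟨⟨h1, h2⟩, h3, h4⟩
    refine ⟨?_, ?_, ?_, ?_⟩ <;> linarith
theorem abs_lf_bb_lt (ξ ζ : ℂ) (r₁ r₂ : ℝ) :
    (∀ j, |(lf (bb j) ξ ζ).re| < cc r₁ r₂ j) ↔ (conj ξ - ζ) / 2 ∈ box r₁ r₂ := by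
  simp only [Fin.forall_fin_succ, lf, bb, cc, box, mem_ofPred_eq, abs_lt]
  simp [map_ofNat]
  constructor
  · rintro ⟨⟨h1, h2⟩, -, ⟨h3, h4⟩, -⟩
    refine ⟨⟨?_, ?_⟩, ?_, ?_⟩ <;> linarith
  · rintro ⟨⟨h1, h2⟩, h3, h4⟩
    refine ⟨⟨?_, ?_⟩, ⟨?_, ?_⟩, ⟨?_, ?_⟩, ?_, ?_⟩ <;> linarith
theorem exists_flip : ∃ σ : Equiv.Perm (Fin 4), (∀ j, bb (σ j) = -bb j) ∧
    ∀ r₁ r₂ j, cc r₁ r₂ (σ j) = cc r₁ r₂ j := by
  refine ⟨⟨![1, 0, 3, 2], ![1, 0, 3, 2], by decide, by decide⟩, fun j => ?_, fun r₁ r₂ j => ?_⟩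
  · fin_cases j <;> simp [bb, neg_div]
  · fin_cases j <;> simp [cc]
theorem mem_cs_gr_one (p : ℂ → ℂ) (s : ℂ) : s ∈ cs (gr p) 1 ↔ p (conj s) = 0 := by
  simp only [cs, gr, mem_ofPred_eq]
  exact ⟨fun h => by linear_combination (-1 / 2 : ℂ) * h, fun h => by rw [h]; ring⟩
theorem mem_cs_gr_neg (p : ℂ → ℂ) (s : ℂ) :
    s ∈ cs (gr p) (-1) ↔ conj s - p (conj s) = 0 := by
  simp only [cs, gr, mem_ofPred_eq]
  exact ⟨fun h => by linear_combination (1 / 2 : ℂ) * h, fun h => by linear_combination 2 * h⟩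
theorem vol_conj (S : Set ℂ) : volume {s : ℂ | conj s ∈ S} = volume S :=
  conjLIE.measurePreserving.measure_preimage_emb
    conjLIE.toHomeomorph.toMeasurableEquiv.measurableEmbedding S

theorem mem_neg_box {r₁ r₂ : ℝ} {q : ℂ} (h : -q ∈ box r₁ r₂) : q ∈ box r₁ r₂ := by
  simpa [box] using h

theorem mem_conv {S : Set ℂ} (h : Convex ℝ S) : Convex ℝ {s : ℂ | conj s ∈ S} :=
  h.linear_preimage conjAe.toLinearMap

theorem Std.mem_body (h : Std Ω d₁ d₂ t s₂) : Body (box d₁ d₂) := body_box h.h1 h.h2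

theorem Std.mem_zero (h : Std Ω d₁ d₂ t s₂) : (0 : ℂ) ∈ box d₁ d₂ := by
  simp [box, h.h1, h.h2]

theorem Std.mem_pos (h : Std Ω d₁ d₂ t s₂) (hτ : τ ∈ PP Ω (box d₁ d₂) L t s₂ s₁) : 0 < τ.1 :=
  h.s2.trans_le hτ.1.1

theorem Std.mem_dat (h : Std Ω d₁ d₂ t s₂) (hτ : τ ∈ PP Ω (box d₁ d₂) L t s₂ s₁) :
    Dat (AA Ω t τ.1) (box d₁ d₂) (al (AA Ω t τ.1) (box d₁ d₂)) (be (AA Ω t τ.1) (box d₁ d₂)) :=
  dat_of_body (body_AA h.hΩ h.h0 h.t0 (h.mem_pos hτ)) h.mem_body (zero_mem_AA h.h0 _ _) h.mem_zero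

theorem Std.mem_cvx (h : Std Ω d₁ d₂ t s₂) (hτ : τ ∈ PP Ω (box d₁ d₂) L t s₂ s₁) :
    ConvexOn ℝ (closure (box d₁ d₂)) τ.2 := hτ.2.2.2.2.convexOn (h.mem_dat hτ)

theorem Std.mem_md (h : Std Ω d₁ d₂ t s₂) (hτ : τ ∈ PP Ω (box d₁ d₂) L t s₂ s₁) :
    ∃ π, MD (AA Ω t τ.1) (box d₁ d₂) (al (AA Ω t τ.1) (box d₁ d₂)) (be (AA Ω t τ.1) (box d₁ d₂))
      (prox (closure (box d₁ d₂)) τ.2) π :=
  hτ.2.2.2.2.md (h.mem_dat hτ) (al_or_be _ _)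

theorem Std.mem_mono (h : Std Ω d₁ d₂ t s₂) (hτ : τ ∈ PP Ω (box d₁ d₂) L t s₂ s₁) :
    Mono (prox (closure (box d₁ d₂)) τ.2) := (h.mem_md hτ).choose_spec.mono

theorem Std.mem_cl (h : Std Ω d₁ d₂ t s₂) (hτ : τ ∈ PP Ω (box d₁ d₂) L t s₂ s₁) {a : ℂ}
    (ha : prox (closure (box d₁ d₂)) τ.2 a ∈ box d₁ d₂) :
    a - prox (closure (box d₁ d₂)) τ.2 a ∈ closure (t • Ω) :=
  closure_mono (AA_subset Ω t τ.1) ((h.mem_md hτ).choose_spec.mem_closure (h.mem_dat hτ) ha)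

theorem mem_half (p : ℂ → ℂ) (s : ℂ) : (conj s - gr p s) / 2 = p (conj s) := by
  unfold gr
  ring

theorem Std.al_zero (h : Std Ω d₁ d₂ t s₂) (hτ : τ ∈ PP Ω (box d₁ d₂) L t s₂ s₁) :
    al (AA Ω t τ.1) (box d₁ d₂) = 0 := by
  have h1 := measureReal_mono (AA_mono (t := t) h.hΩ h.h0 h.s2 hτ.1.1)
    (body_AA h.hΩ h.h0 h.t0 (h.mem_pos hτ)).vol_lt_top.ne
  have h2 := h.big
  rw [al, vol_box h.h1.le h.h2.le]
  exact max_eq_right (by linarith)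
theorem Std.lip (h : Std Ω d₁ d₂ t s₂) (hτ : τ ∈ PP Ω (box d₁ d₂) L t s₂ s₁) :
    LipschitzWith 1 (gp d₁ d₂ τ) := (h.mem_mono hτ).lip_gr
theorem Std.odd (h : Std Ω d₁ d₂ t s₂) (hτ : τ ∈ PP Ω (box d₁ d₂) L t s₂ s₁) (ht : τ.1 < t)
    (s : ℂ) : gp d₁ d₂ τ (-s) = -gp d₁ d₂ τ s := by
  unfold gp gr
  rw [map_neg, prox_neg h.mem_body.isCompact h.mem_body.ne.closure τ.2.continuous (h.mem_cvx hτ)
    (fun q hq => by simpa [closure_box h.h1 h.h2] using hq) (hτ.2.2.2.1 ht)]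
  ring
theorem Std.cs_one (h : Std Ω d₁ d₂ t s₂) (hτ : τ ∈ PP Ω (box d₁ d₂) L t s₂ s₁) :
    Convex ℝ (cs (gp d₁ d₂ τ) 1) ∧ (∀ s ∈ cs (gp d₁ d₂ τ) 1, conj s ∈ closure (t • Ω)) ∧
      volume (cs (gp d₁ d₂ τ) 1) = ENNReal.ofReal (be (AA Ω t τ.1) (box d₁ d₂)) ∧
      ∀ s, s ∈ cs (gp d₁ d₂ τ) 1 ↔ conj s ∈ cz (closure (box d₁ d₂)) τ.2 := by
  have e : cs (gp d₁ d₂ τ) 1 = {s | conj s ∈ {a | prox (closure (box d₁ d₂)) τ.2 a = 0}} :=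
    Set.ext (mem_cs_gr_one _)
  refine ⟨e ▸ mem_conv ((h.mem_mono hτ).convex_fibre 0), fun s hs => ?_, ?_, fun s => ?_⟩
  · have h1 := (mem_cs_gr_one _ s).1 hs
    have h2 := h.mem_cl hτ (a := conj s) (h1 ▸ h.mem_zero)
    rwa [h1, sub_zero] at h2
  · rw [e, vol_conj]
    exact (h.mem_md hτ).choose_spec.vol_zero (h.mem_dat hτ) (al_or_be _ _) h.mem_zero
  · exact (mem_cs_gr_one _ s).trans (prox_eq_zero h.mem_body.isCompact h.mem_body.ne.closure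
      τ.2.continuous (h.mem_cvx hτ) _)
theorem Std.cs_neg (h : Std Ω d₁ d₂ t s₂) (hτ : τ ∈ PP Ω (box d₁ d₂) L t s₂ s₁) :
    Convex ℝ (cs (gp d₁ d₂ τ) (-1)) ∧ cs (gp d₁ d₂ τ) (-1) ⊆ closure (box d₁ d₂) ∧
      volume (cs (gp d₁ d₂ τ) (-1)) = ENNReal.ofReal (al (AA Ω t τ.1) (box d₁ d₂)) := by
  have e : cs (gp d₁ d₂ τ) (-1) =
      {s | conj s ∈ {a | a - prox (closure (box d₁ d₂)) τ.2 a = 0}} := Set.ext (mem_cs_gr_neg _)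
  refine ⟨e ▸ mem_conv ((h.mem_mono hτ).swap.convex_fibre 0), fun s hs => ?_, ?_⟩
  · have h1 := sub_eq_zero.1 ((mem_cs_gr_neg _ s).1 hs)
    have h2 := (prox_gam h.mem_body.isCompact h.mem_body.ne.closure τ.2.continuous (h.mem_cvx hτ)
      (conj s)).1
    rw [← h1] at h2
    simpa [closure_box h.h1 h.h2] using h2
  · rw [e, vol_conj]
    exact (h.mem_md hτ).choose_spec.swap.vol_zero (h.mem_dat hτ).swap (al_or_be _ _).symm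
      (zero_mem_AA h.h0 _ _)

theorem Std.mem_hol (h : Std Ω d₁ d₂ t s₂) (hτ : τ ∈ PP Ω (box d₁ d₂) L t s₂ s₁) {s : ℂ}
    (hs : ∀ j, (lf (bb j) s (gp d₁ d₂ τ s)).re < cc d₁ d₂ j)
    (h1 : al (AA Ω t τ.1) (box d₁ d₂) = 0 ∨ s ∉ cs (gp d₁ d₂ τ) (-1))
    (h2 : be (AA Ω t τ.1) (box d₁ d₂) = 0 ∨ s ∉ cs (gp d₁ d₂ τ) 1) :
    DifferentiableAt ℂ (gp d₁ d₂ τ) s := by
  obtain ⟨π, hπ⟩ := h.mem_md hτ
  have hc := hπ.mono.lip.continuous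
  have hor : ∀ (c : Prop) {f : ℂ → ℂ}, Continuous f → IsOpen {a | c ∨ f a ≠ 0} := by
    intro c f hf
    by_cases hc : c
    · simp [hc]
    · simpa [hc] using isOpen_ne_fun hf continuous_const
  have hU : IsOpen ({a | prox (closure (box d₁ d₂)) τ.2 a ∈ box d₁ d₂} ∩
      ({a | al (AA Ω t τ.1) (box d₁ d₂) = 0 ∨ a - prox (closure (box d₁ d₂)) τ.2 a ≠ 0} ∩
        {a | be (AA Ω t τ.1) (box d₁ d₂) = 0 ∨ prox (closure (box d₁ d₂)) τ.2 a ≠ 0})) :=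
    (h.mem_body.op.preimage hc).inter ((hor _ (continuous_id.sub hc)).inter (hor _ hc))
  refine (hπ.hol (h.mem_dat hτ) hU fun a ha =>
    ⟨hπ.mem_closure (h.mem_dat hτ) ha.1, subset_closure ha.1, ha.2.1, ha.2.2⟩).differentiableAt
    ((hU.preimage continuous_conj).mem_nhds ⟨?_, ?_, ?_⟩)
  · have h3 := (lf_bb_lt _ _ _ _).1 hs
    rwa [gp, mem_half] at h3
  · exact h1.imp_right fun h3 h4 => h3 ((mem_cs_gr_neg _ s).2 h4)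
  · exact h2.imp_right fun h3 h4 => h3 ((mem_cs_gr_one _ s).2 h4)

theorem Std.mem_bdd (h : Std Ω d₁ d₂ t s₂) : ∃ R' : ℝ, ∀ τ ∈ PP Ω (box d₁ d₂) L t s₂ s₁,
    ∀ e : ℂ, e = 1 ∨ e = -1 → cs (gp d₁ d₂ τ) e ⊆ closedBall 0 R' := by
  obtain ⟨R, hR⟩ := ((h.hΩ.smul h.t0.ne').isCompact.union
    h.mem_body.isCompact).isBounded.subset_closedBall 0
  refine ⟨R, fun τ hτ e he s hs => ?_⟩
  rcases he with rfl | rfl
  · simpa using hR (Or.inl ((h.cs_one hτ).2.1 s hs))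
  · exact hR (Or.inr ((h.cs_neg hτ).2.1 hs))

theorem Std.cur_one (h : Std Ω d₁ d₂ t s₂) (hτ : τ ∈ PP Ω (box d₁ d₂) L t s₂ s₁)
    (ha : al (AA Ω t τ.1) (box d₁ d₂) = 0) : Cur bb (cc d₁ d₂) (gp d₁ d₂ τ) 1 where
  lip := h.lip hτ
  he := Or.inl rfl
  sym := fun e => absurd e (by norm_num)
  cvx := (h.cs_one hτ).1
  bdd := isBounded_closedBall.subset (h.mem_bdd.choose_spec τ hτ 1 (Or.inl rfl))
  null := by rw [(h.cs_neg hτ).2.2, ha, ENNReal.ofReal_zero]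
  hol := fun _ hs h1 => h.mem_hol hτ hs (Or.inl ha) (Or.inr h1)
theorem Std.cur_neg (h : Std Ω d₁ d₂ t s₂) (hτ : τ ∈ PP Ω (box d₁ d₂) L t s₂ s₁)
    (ha : al (AA Ω t τ.1) (box d₁ d₂) ≠ 0) : Cur bb (cc d₁ d₂) (gp d₁ d₂ τ) (-1) where
  lip := h.lip hτ
  he := Or.inr rfl
  sym := absurd (h.al_zero hτ) ha
  cvx := (h.cs_neg hτ).1
  bdd := isBounded_closedBall.subset (h.mem_bdd.choose_spec τ hτ (-1) (Or.inr rfl))
  null := by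
    rw [neg_neg, (h.cs_one hτ).2.2.1, (al_or_be _ _).resolve_left ha, ENNReal.ofReal_zero]
  hol := fun _ hs h1 => h.mem_hol hτ hs (Or.inr h1) (Or.inl ((al_or_be _ _).resolve_left ha))

theorem mem_sheet {p : ℂ → ℂ} {z : ℂ × ℂ} (h : ¬ (z.2 ≠ gr p z.1 ∧ z.1 ≠ sharp (gr p) z.2)) :
    ∃ a, (conj z.1 + z.2) / 2 = a - p a ∧
      ((conj z.1 - z.2) / 2 = p a ∨ (conj z.1 - z.2) / 2 = -p a) := by
  rw [not_and_or, not_not, not_not] at h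
  rcases h with h | h
  · refine ⟨conj z.1, ?_, Or.inl ?_⟩ <;> rw [h, gr] <;> ring
  · have h1 : conj z.1 = z.2 - 2 * p z.2 := by
      rw [h, sharp, conj_conj, gr, conj_conj]
    refine ⟨z.2, ?_, Or.inr ?_⟩ <;> rw [h1] <;> ring

/-- the two sheets do not meet `∂Ω + i Q` -/
theorem Std.ne_on_KK (h : Std Ω d₁ d₂ t s₂) (hτ : τ ∈ PP Ω (box d₁ d₂) L t s₂ s₁) {B₀ : Set ℂ}
    (hB₀ : closure B₀ ⊆ box d₁ d₂) {z : ℂ × ℂ} (hz : z ∈ KK Ω B₀) :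
    z.2 ≠ gp d₁ d₂ τ z.1 ∧ z.1 ≠ sharp (gp d₁ d₂ τ) z.2 := by
  by_contra hc
  obtain ⟨a, h1, h2⟩ := mem_sheet hc
  have h3 := hB₀ hz.2
  have h4 : prox (closure (box d₁ d₂)) τ.2 a ∈ box d₁ d₂ := by
    rcases h2 with h2 | h2 <;> rw [h2] at h3
    · exact h3
    · exact mem_neg_box h3
  have h5 := hz.1
  rw [h1, h.hΩ.op.frontier_eq] at h5
  exact h5.2 (h.hΩ.closure_smul_subset h.h0 h.t0.le h.t1 (h.mem_cl hτ h4))
/-- uniform distance of `∂Ω + i Q` from the contact points -/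
theorem Std.exists_sep (h : Std Ω d₁ d₂ t s₂) : ∃ δ R' : ℝ, 0 < δ ∧
    ∀ τ ∈ PP Ω (box d₁ d₂) L t s₂ s₁, ∀ e : ℂ, e = 1 ∨ e = -1 →
      cs (gp d₁ d₂ τ) e ⊆ closedBall 0 R' ∧ ∀ (B₀ : Set ℂ), ∀ z ∈ KK Ω B₀,
        ∀ s ∈ cs (gp d₁ d₂ τ) e, δ ≤ ‖z.1 - s‖ + ‖z.2 - e * conj s‖ := by
  obtain ⟨R, hR⟩ := h.mem_bdd (L := L) (s₁ := s₁)
  obtain ⟨δ, hδ, h1⟩ := (h.hΩ.smul h.t0.ne').isCompact.exists_thickening_subset_open h.hΩ.op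
    (h.hΩ.closure_smul_subset h.h0 h.t0.le h.t1)
  refine ⟨δ, R, hδ, fun τ hτ e he => ⟨hR τ hτ e he, fun B₀ z hz s hs => ?_⟩⟩
  have h2 : (1 + e) / 2 * conj s ∈ closure (t • Ω) := by
    rcases he with rfl | rfl
    · simpa using (h.cs_one hτ).2.1 s hs
    · simpa using subset_closure (AA_subset Ω t t (zero_mem_AA h.h0 t t))
  have h3 := hz.1
  rw [h.hΩ.op.frontier_eq] at h3
  have h4 : δ ≤ dist ((conj z.1 + z.2) / 2) ((1 + e) / 2 * conj s) :=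
    not_lt.1 fun h5 => h3.2 (h1 (mem_thickening_iff.2 ⟨_, h2, h5⟩))
  have h5 : (conj z.1 + z.2) / 2 - (1 + e) / 2 * conj s =
      (conj (z.1 - s) + (z.2 - e * conj s)) / 2 := by
    rw [map_sub]
    ring
  rw [dist_eq_norm, h5, norm_div, Complex.norm_two] at h4
  have h6 := norm_add_le (conj (z.1 - s)) (z.2 - e * conj s)
  rw [norm_conj] at h6
  linarith
theorem Std.tendsto_gp (h : Std Ω d₁ d₂ t s₂) (hτ : τ ∈ PP Ω (box d₁ d₂) L t s₂ s₁) :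
    TendstoUniformly (gp d₁ d₂) (gp d₁ d₂ τ) (𝓝[PP Ω (box d₁ d₂) L t s₂ s₁] τ) := by
  have h1 := tendsto_prox h.hΩ h.mem_body h.h0 h.mem_zero h.t0 h.s2 hτ
  rw [Metric.tendstoUniformly_iff] at h1 ⊢
  intro ε hε
  filter_upwards [h1 (ε / 2) (half_pos hε)] with τ' h2 s
  have h3 := h2 (conj s)
  rw [dist_eq_norm, norm_sub_rev] at h3
  rw [dist_eq_norm, gp, gp, gr, gr, sub_sub_sub_cancel_left, ← mul_sub, norm_mul, Complex.norm_two]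
  linarith
theorem Std.ae_cs (h : Std Ω d₁ d₂ t s₂) (hτ : τ ∈ PP Ω (box d₁ d₂) L t s₂ s₁) {e : ℂ}
    (he : e = 1 ∨ e = -1) : ∀ᵐ s, ∀ᶠ τ' in 𝓝[PP Ω (box d₁ d₂) L t s₂ s₁] τ,
      (s ∈ cs (gp d₁ d₂ τ') e ↔ s ∈ cs (gp d₁ d₂ τ) e) := by
  obtain ⟨R, hR⟩ := h.mem_bdd (L := L) (s₁ := s₁)
  have key : ∀ τ ∈ PP Ω (box d₁ d₂) L t s₂ s₁, Convex ℝ (cs (gp d₁ d₂ τ) e) ∧
      IsClosed (cs (gp d₁ d₂ τ) e) ∧ cs (gp d₁ d₂ τ) e ⊆ closedBall 0 R := fun τ hτ =>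
    ⟨by
      rcases he with rfl | rfl
      exacts [(h.cs_one hτ).1, (h.cs_neg hτ).1],
    isClosed_eq (h.lip hτ).continuous (continuous_const.mul continuous_conj), hR τ hτ e he⟩
  have hA : Tendsto (fun τ' : ℝ × C(ℂ, ℝ) => volume.real (AA Ω t τ'.1))
      (𝓝[PP Ω (box d₁ d₂) L t s₂ s₁] τ) (𝓝 (volume.real (AA Ω t τ.1))) :=
    ((continuousAt_vol_AA h.hΩ (h.mem_pos hτ) t).tendsto.comp
      continuous_fst.continuousAt).mono_left nhdsWithin_le_nhds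
  refine ae_tendsto_mem (key τ hτ).1
    ((isCompact_closedBall 0 R).of_isClosed_subset (key τ hτ).2.1 (key τ hτ).2.2)
    (eventually_nhdsWithin_of_forall key) (fun x hx => ?_) ?_
  · exact ((h.tendsto_gp hτ).tendsto_at x).eventually_ne hx
  · rcases he with rfl | rfl
    · have h1 : ∀ τ ∈ PP Ω (box d₁ d₂) L t s₂ s₁, max (volume.real (AA Ω t τ.1) -
          volume.real (box d₁ d₂)) 0 = volume.real (cs (gp d₁ d₂ τ) 1) := fun τ hτ => by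
        rw [measureReal_def _ (cs _ _), (h.cs_one hτ).2.2.1, ENNReal.toReal_ofReal (h.mem_dat hτ).hb]
        rfl
      rw [← h1 τ hτ]
      exact ((hA.sub_const _).max tendsto_const_nhds).congr' (eventually_nhdsWithin_of_forall h1)
    · have h1 : ∀ τ ∈ PP Ω (box d₁ d₂) L t s₂ s₁, max (volume.real (box d₁ d₂) -
          volume.real (AA Ω t τ.1)) 0 = volume.real (cs (gp d₁ d₂ τ) (-1)) := fun τ hτ => by
        rw [measureReal_def _ (cs _ _), (h.cs_neg hτ).2.2, ENNReal.toReal_ofReal (h.mem_dat hτ).ha]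
        rfl
      rw [← h1 τ hτ]
      exact ((hA.const_sub _).max tendsto_const_nhds).congr' (eventually_nhdsWithin_of_forall h1)

end Pool.Agent.NapOT
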