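import Pool.Agent.Lib.MP_b71113_an.OT.Conj

/-! Approximate invertibility on a compact set is stable under deformation. -/

namespace Pool.Agent.NapOT

open MeasureTheory Set Metric Complex ComplexConjugate Filter Topology
open scoped NNReal ENNReal Pointwise

variable {W K : Set (ℂ × ℂ)} {g g' F : ℂ × ℂ → ℂ}

theorem zed_bound (hK : IsCompact K) {u : ℂ × ℂ → ℂ} (hu : ContinuousOn u K)
    (h : ∀ z ∈ K, ‖u z‖ < 1) : ∃ c : ℝ, 0 ≤ c ∧ c < 1 ∧ ∀ z ∈ K, ‖u z‖ ≤ c := by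
  rcases K.eq_empty_or_nonempty with rfl | hne
  · exact ⟨0, le_rfl, one_pos, fun _ hz => hz.elim⟩
  obtain ⟨x, hx, hm⟩ := hK.exists_isMaxOn hne hu.norm
  exact ⟨‖u x‖, norm_nonneg _, h x hx, fun z hz => hm hz⟩

theorem zed_congr (h : ZZ W K g) (he : ∀ z ∈ K, g' z = g z) : ZZ W K g' := by
  obtain ⟨G, h1, h2⟩ := h
  exact ⟨G, h1, fun z hz => by rw [he z hz]; exact h2 z hz⟩

theorem ZZ.perturb (hK : IsCompact K) (hKW : K ⊆ W) (hF : DifferentiableOn ℂ F W)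
    (hg : ∀ z ∈ K, F z = g z) (h : ZZ W K g) (hc : ∀ z ∈ K, ‖g' z - g z‖ ≤ ‖g z‖ / 2) :
    ZZ W K g' := by
  obtain ⟨G, hG, h1⟩ := h
  have hu : DifferentiableOn ℂ (fun z => 1 - F z * G z) W :=
    (differentiableOn_const 1).sub (hF.mul hG)
  obtain ⟨c, c0, c1, h2⟩ := zed_bound hK (hu.continuousOn.mono hKW) fun z hz => by
    rw [hg z hz]; exact h1 z hz
  obtain ⟨N, hN⟩ := exists_pow_lt_of_lt_one (show (0 : ℝ) < 1 / 3 by norm_num) c1
  refine ⟨fun z => G z * ∑ k ∈ Finset.range N, (1 - F z * G z) ^ k,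
    hG.mul (DifferentiableOn.fun_sum fun k _ => hu.pow k), fun z hz => ?_⟩
  have h3 : ‖(1 - F z * G z) ^ N‖ < 1 / 3 := by
    rw [norm_pow]
    exact (pow_le_pow_left₀ (norm_nonneg _) (h2 z hz) N).trans_lt hN
  have h4 := mul_neg_geom_sum (1 - F z * G z) N
  rw [sub_sub_cancel, hg z hz, mul_assoc] at h4
  beta_reduce
  rw [hg z hz] at h3 ⊢
  generalize G z * ∑ k ∈ Finset.range N, (1 - g z * G z) ^ k = S at h4 ⊢
  generalize (1 - g z * G z) ^ N = v at h3 h4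
  have h5 : ‖(g' z - g z) * S‖ ≤ (1 + ‖v‖) / 2 := by
    have h6 : ‖g z‖ * ‖S‖ ≤ 1 + ‖v‖ := by
      rw [← norm_mul, h4]
      exact (norm_sub_le _ _).trans (by rw [norm_one])
    rw [norm_mul]
    nlinarith [mul_le_mul_of_nonneg_right (hc z hz) (norm_nonneg S)]
  rw [show 1 - g' z * S = v - (g' z - g z) * S by linear_combination -h4]
  linarith [norm_sub_le v ((g' z - g z) * S)]

/-- a chain `g · exp (r Δ)`, `0 ≤ r ≤ 1` -/
theorem ZZ.chain (hK : IsCompact K) (hKW : K ⊆ W) {Δ : ℂ × ℂ → ℂ} {M : ℝ}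
    (hΔ : ∀ z ∈ K, ‖Δ z‖ ≤ M)
    (hF : ∀ r ∈ Icc (0 : ℝ) 1, ∃ F : ℂ × ℂ → ℂ, DifferentiableOn ℂ F W ∧
      ∀ z ∈ K, F z = g z * exp (r * Δ z))
    (h : ZZ W K g) (hg' : ∀ z ∈ K, g' z = g z * exp (Δ z)) : ZZ W K g' := by
  obtain ⟨n, hn⟩ := exists_nat_gt (max (4 * M) 0)
  have hn0 : (0 : ℝ) < n := (le_max_right _ _).trans_lt hn
  have hn1 : 4 * M < n := (le_max_left _ _).trans_lt hn
  have key : ∀ k : ℕ, k ≤ n → ZZ W K fun z => g z * exp (((k / n : ℝ) : ℂ) * Δ z) := by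
    intro k
    induction k with
    | zero => exact fun _ => zed_congr h fun z _ => by simp
    | succ k ih =>
      intro hk
      obtain ⟨F, h1, h2⟩ := hF (k / n) ⟨by positivity,
        (div_le_one hn0).2 (by exact_mod_cast (Nat.le_of_succ_le hk))⟩
      refine ZZ.perturb hK hKW h1 h2 (ih (Nat.le_of_succ_le hk)) fun z hz => ?_
      have h3 : ‖(((1 / n : ℝ) : ℂ) * Δ z)‖ ≤ 1 / 4 := by
        rw [norm_mul, norm_real, Real.norm_of_nonneg (by positivity), one_div_mul_eq_div,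
          div_le_iff₀ hn0]
        linarith [hΔ z hz]
      have h4 := norm_exp_sub_one_le (h3.trans (by norm_num))
      rw [show g z * exp (((((k + 1 : ℕ) : ℝ) / n : ℝ) : ℂ) * Δ z) -
          g z * exp (((k / n : ℝ) : ℂ) * Δ z) = g z * exp (((k / n : ℝ) : ℂ) * Δ z) *
            (exp (((1 / n : ℝ) : ℂ) * Δ z) - 1) by
        rw [mul_sub, mul_one, mul_assoc, ← Complex.exp_add]
        congr 3
        push_cast
        ring, norm_mul]
      nlinarith [norm_nonneg (g z * exp (((k / n : ℝ) : ℂ) * Δ z))]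
  exact zed_congr (key n le_rfl) fun z hz => by rw [hg' z hz, div_self hn0.ne']; simp

/-- joint continuity gives uniform closeness -/
theorem eventually_close {T : Type} [TopologicalSpace T] {P : Set T} {τ₀ : T} (hK : IsCompact K)
    {k : T → ℂ × ℂ → ℂ} (h0 : ∀ z ∈ K, k τ₀ z ≠ 0) (hτ : τ₀ ∈ P)
    (hc : ∀ z ∈ K, Tendsto (fun x : T × (ℂ × ℂ) => k x.1 x.2) (𝓝[P] τ₀ ×ˢ 𝓝[K] z) (𝓝 (k τ₀ z))) :
    ∀ᶠ τ in 𝓝[P] τ₀, ∀ z ∈ K, ‖k τ z - k τ₀ z‖ ≤ ‖k τ₀ z‖ / 3 := by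
  refine hK.induction_on (p := fun s => ∀ᶠ τ in 𝓝[P] τ₀, ∀ z ∈ s, ‖k τ z - k τ₀ z‖ ≤ ‖k τ₀ z‖ / 3)
    (Eventually.of_forall fun _ _ hz => hz.elim)
    (fun s t hst ht => ht.mono fun τ h z hz => h z (hst hz))
    (fun s t hs ht => (hs.and ht).mono fun τ h z hz => hz.elim (h.1 z) (h.2 z)) fun x hx => ?_
  have h1 : Tendsto (fun y : T × (ℂ × ℂ) => k τ₀ y.2) (𝓝[P] τ₀ ×ˢ 𝓝[K] x) (𝓝 (k τ₀ x)) :=
    (hc x hx).comp (f := fun y : T × (ℂ × ℂ) => (τ₀, y.2))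
      ((tendsto_const_pure.mono_right (pure_le_nhdsWithin hτ)).prodMk tendsto_snd)
  have h2 := (((hc x hx).sub h1).norm.eventually_lt (h1.norm.div_const 3) (by
    rw [sub_self, norm_zero]
    exact div_pos (norm_pos_iff.2 (h0 x hx)) (by norm_num)))
  obtain ⟨pa, ha, pb, hb, h3⟩ := eventually_prod_iff.1 h2
  exact ⟨{z | pb z}, hb, ha.mono fun τ h z hz => (h3 h hz).le⟩

theorem const_of_preconnected {T : Type} [TopologicalSpace T] {P : Set T} (hP : IsPreconnected P)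
    {Z : T → Prop} (h : ∀ τ₀ ∈ P, ∀ᶠ τ in 𝓝[P] τ₀, (Z τ ↔ Z τ₀)) {τ τ' : T} (hτ : τ ∈ P)
    (hτ' : τ' ∈ P) (hz : Z τ) : Z τ' :=
  hP.induction₂' (fun a b => Z a → Z b) (fun x hx => (h x hx).mono fun _ e => ⟨e.2, e.1⟩)
    (fun _ _ _ _ _ _ h1 h2 h3 => h2 (h1 h3)) hτ hτ' hz

theorem zed_compact {Ω B : Set ℂ} (hΩ : Body Ω) (hB : Body B) : IsCompact (KK Ω B) := by
  have h1 : IsCompact (frontier Ω ×ˢ closure B) :=
    (hΩ.bd.isCompact_closure.of_isClosed_subset isClosed_frontier frontier_subset_closure).prod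
      hB.bd.isCompact_closure
  convert h1.image (f := fun y : ℂ × ℂ => (conj (y.1 + y.2), y.1 - y.2)) (by fun_prop) using 1
  ext z
  constructor
  · intro hz
    refine ⟨((conj z.1 + z.2) / 2, (conj z.1 - z.2) / 2), hz, Prod.ext ?_ ?_⟩
    · simp only
      rw [show (conj z.1 + z.2) / 2 + (conj z.1 - z.2) / 2 = conj z.1 by ring, conj_conj]
    · simp only
      ring
  · rintro ⟨y, hy, rfl⟩
    simp only [KK, mem_ofPred_eq, conj_conj]
    rw [show (y.1 + y.2 + (y.1 - y.2)) / 2 = y.1 by ring,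
      show (y.1 + y.2 - (y.1 - y.2)) / 2 = y.2 by ring]
    exact hy

theorem ZZ.sep {Ω B : Set ℂ} (hΩ : Body Ω) (hB : Body B) (hW : IsOpen W) (hT : TT Ω B ⊆ W)
    (hF : DifferentiableOn ℂ F W) (hg : ∀ z ∈ KK Ω B, F z = g z) (h : ZZ W (KK Ω B) g) {x : ℂ}
    (hx : F (conj x, x) = 0) : Sep Ω B x := by
  obtain ⟨G, hG, h1⟩ := h
  have hu : DifferentiableOn ℂ (fun z => 1 - F z * G z) W :=
    (differentiableOn_const 1).sub (hF.mul hG)
  obtain ⟨c, c0, c1, h2⟩ := zed_bound (zed_compact hΩ hB)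
    (hu.continuousOn.mono fun z hz => hT ⟨frontier_subset_closure hz.1, hz.2⟩) fun z hz => by
      rw [hg z hz]; exact h1 z hz
  exact ⟨W, _, c, hW, hT, hu, c0, h2, by simpa [hx] using c1⟩

theorem isCompact_KK {Ω B : Set ℂ} (hΩ : Body Ω) (hB : Body B) : IsCompact (KK Ω B) :=
  zed_compact hΩ hB

theorem KK_subset_TT (Ω B : Set ℂ) : KK Ω B ⊆ TT Ω B :=
  fun _ hz => ⟨frontier_subset_closure hz.1, hz.2⟩

end Pool.Agent.NapOT
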