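import Pool.Agent.Lib.MP_b71113_an.OT.ExC
import Pool.Agent.Lib.MP_b71113_an.OT.CtC

/-! Cut-off functions, and continuity of the defining function in the graph. -/

namespace Pool.Agent.NapOT

open MeasureTheory Set Metric Complex ComplexConjugate Filter Topology
open scoped NNReal ENNReal Pointwise

variable {J : Type} [Fintype J] {b : J → ℂ} {c d : J → ℝ} {R : ℝ} {φ : ℂ → ℂ} {θ : J → ℂ → ℂ}
  {e : ℂ}

theorem Adm.combo {θ' : J → ℂ → ℂ} (h : Adm b c d R φ θ) (h' : Adm b c d R φ θ') (r : ℝ) :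
    Adm b c d R φ fun j s => θ j s + r * (θ' j s - θ j s) := by
  refine ⟨h.toTh.combo h'.toTh r, fun s hs hne => ?_⟩
  by_cases h1 : ∑ j, θ j s = 1
  · by_cases h2 : ∑ j, θ' j s = 1
    · refine absurd ?_ hne
      rw [Finset.sum_add_distrib, ← Finset.mul_sum, Finset.sum_sub_distrib, h1, h2]
      ring
    · exact h'.cover s hs h2
  · exact h.cover s hs h1

theorem adm_close (b s : ℂ) {z w : ℂ} {η k : ℝ} (h : ‖z - w‖ ≤ η) (hk : η * ‖b‖ < k) :
    |(lf b s z).re - (lf b s w).re| < k := by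
  have h1 : lf b s z - lf b s w = b * (z - w) := by
    unfold lf
    ring
  rw [← sub_re, h1]
  refine (abs_re_le_norm _).trans_lt (lt_of_le_of_lt ?_ hk)
  rw [norm_mul, mul_comm]
  exact mul_le_mul_of_nonneg_right h (norm_nonneg _)

theorem adm_lf_neg (b s z : ℂ) : lf (-b) (-s) (-z) = lf b s z := by
  unfold lf
  rw [map_neg]
  ring

/-- existence of cut-off functions that work for all nearby graphs -/
theorem exists_adm (hφ : Continuous φ) (hcd : ∀ j, c j < d j) (R : ℝ) :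
    ∃ (θ : J → ℂ → ℂ) (η : ℝ), 0 < η ∧ ∀ ψ : ℂ → ℂ,
      (∀ s, ‖s‖ ≤ R + 1 → ‖ψ s - φ s‖ ≤ η) → Adm b c d R ψ θ := by
  have hc : ∀ j, Continuous fun s => (lf (b j) s (φ s)).re := fun j => by
    unfold lf
    fun_prop
  have he : ∀ᶠ η in 𝓝 (0 : ℝ), ∀ j, η * ‖b j‖ < (d j - c j) / 3 := eventually_all.2 fun j =>
    (continuous_id.mul continuous_const).continuousAt.eventually_lt continuousAt_const
      (by simpa using hcd j)
  obtain ⟨η, hη, hη0⟩ := ((he.filter_mono nhdsWithin_le_nhds).and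
    (self_mem_nhdsWithin (s := Ioi (0 : ℝ)))).exists
  have hS : IsClosed (closedBall (0 : ℂ) R ∩
      ⋃ j, {s | d j - (d j - c j) / 3 ≤ (lf (b j) s (φ s)).re}) :=
    isClosed_closedBall.inter (isClosed_iUnion_of_finite fun j =>
      isClosed_le continuous_const (hc j))
  obtain ⟨f, hf⟩ := SmoothPartitionOfUnity.exists_isSubordinate (modelWithCornersSelf ℝ ℂ) hS
    (fun j => ball (0 : ℂ) (R + 1) ∩ {s | c j + (d j - c j) / 3 < (lf (b j) s (φ s)).re})
    (fun j => isOpen_ball.inter (isOpen_lt continuous_const (hc j))) (by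
      rintro s ⟨h1, h2⟩
      obtain ⟨j, hj⟩ := mem_iUnion.1 h2
      refine mem_iUnion.2 ⟨j, closedBall_subset_ball (lt_add_one R) h1, ?_⟩
      have h3 := hcd j
      simp only [mem_ofPred_eq] at hj ⊢
      linarith)
  have ht : ∀ j, tsupport (fun s => ((f j s : ℝ) : ℂ)) ⊆ ball (0 : ℂ) (R + 1) ∩
      {s | c j + (d j - c j) / 3 < (lf (b j) s (φ s)).re} := fun j =>
    (tsupport_comp_subset (g := fun x : ℝ => (x : ℂ)) ofReal_zero (f j)).trans (hf j)
  refine ⟨fun j s => ((f j s : ℝ) : ℂ), η, hη0, fun ψ hψ => ⟨⟨fun j => ?_, fun j => ?_,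
    fun j s hs => ?_⟩, fun s hs hne j => ?_⟩⟩
  · exact ofRealCLM.contDiff.comp ((f j).contMDiff.contDiff.of_le (by exact_mod_cast le_top))
  · exact (isCompact_closedBall (0 : ℂ) (R + 1)).of_isClosed_subset (isClosed_tsupport _)
      fun s hs => ball_subset_closedBall (ht j hs).1
  · obtain ⟨h1, h2⟩ := ht j hs
    have h3 := adm_close (b j) s (hψ s (mem_ball_zero_iff.1 h1).le) (hη j)
    simp only [mem_ofPred_eq] at h2
    linarith [(abs_lt.1 h3).1]
  · have h3 := adm_close (b j) s (hψ s (by linarith)) (hη j)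
    by_contra h4
    refine hne ?_
    have h5 := f.sum_eq_one (x := s) ⟨mem_closedBall_zero_iff.2 hs.le, mem_iUnion.2 ⟨j, by
      simp only [mem_ofPred_eq]
      linarith [(abs_lt.1 h3).2]⟩⟩
    rw [finsum_eq_sum_of_fintype] at h5
    exact_mod_cast h5

theorem exists_adm_even (hφ : Continuous φ) (hcd : ∀ j, c j < d j) (R : ℝ) (σ : Equiv.Perm J)
    (hb : ∀ j, b (σ j) = -b j) (hc : ∀ j, c (σ j) = c j) (hd : ∀ j, d (σ j) = d j) :
    ∃ (θ : J → ℂ → ℂ) (η : ℝ), 0 < η ∧ Ev θ ∧ ∀ ψ : ℂ → ℂ, (∀ s, ψ (-s) = -ψ s) →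
      (∀ s, ‖s‖ ≤ R + 1 → ‖ψ s - φ s‖ ≤ η) → Adm b c d R ψ θ := by
  obtain ⟨θ, η, hη, h⟩ := exists_adm (b := b) hφ hcd R
  have hs : ∀ s, ∑ j, (θ j s + θ (σ j) (-s)) / 2 = (∑ j, θ j s + ∑ j, θ j (-s)) / 2 := fun s => by
    rw [← Finset.sum_div, Finset.sum_add_distrib, Equiv.sum_comp σ fun j => θ j (-s)]
  refine ⟨fun j s => (θ j s + θ (σ j) (-s)) / 2, η, hη, fun s => ?_, fun ψ hψ hψ' => ?_⟩
  · rw [hs, hs, neg_neg, add_comm]
  have ha := h ψ hψ'
  have hl : ∀ j s, lf (b (σ j)) (-s) (ψ (-s)) = lf (b j) s (ψ s) := fun j s => by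
    rw [hb, hψ, adm_lf_neg]
  have ht : ∀ j, tsupport (fun s => (θ j s + θ (σ j) (-s)) / 2) ⊆
      tsupport (θ j) ∪ (fun s => -s) ⁻¹' tsupport (θ (σ j)) := fun j => by
    refine closure_minimal (fun s hs => ?_)
      ((isClosed_tsupport _).union ((isClosed_tsupport _).preimage continuous_neg))
    by_contra hn
    rw [mem_union, not_or] at hn
    refine hs ?_
    change (θ j s + θ (σ j) (-s)) / 2 = 0
    rw [image_eq_zero_of_notMem_tsupport hn.1, image_eq_zero_of_notMem_tsupport hn.2, add_zero,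
      zero_div]
  refine ⟨⟨fun j => ((ha.smooth j).add ((ha.smooth (σ j)).comp contDiff_neg)).div_const 2,
    fun j => ?_, fun j s hs => ?_⟩, fun s hs' hne j => ?_⟩
  · exact (IsCompact.union (ha.supp j)
      ((Homeomorph.neg ℂ).isCompact_preimage.2 (ha.supp (σ j)))).of_isClosed_subset
      (isClosed_tsupport _) (ht j)
  · rcases ht j hs with h1 | h1
    · exact ha.pos j s h1
    · rw [← hl, ← hc]
      exact ha.pos _ _ h1
  · by_cases h1 : ∑ j, θ j s = 1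
    · by_cases h2 : ∑ j, θ j (-s) = 1
      · refine absurd ?_ hne
        rw [hs, h1, h2]
        norm_num
      · rw [← hl, ← hd]
        exact ha.cover (-s) (by rwa [norm_neg]) h2 _
    · exact ha.cover s hs' h1 j

/-- joint continuity in the graph and the point -/
theorem tendsto_ff {ι : Type} {l : Filter ι} [l.IsCountablyGenerated] {Φ : ι → ℂ → ℂ}
    {z : ι → ℂ × ℂ} {z₀ : ℂ × ℂ} {R' δ : ℝ} (h : Th b c φ θ) (hφ : Continuous φ)
    (hΦ : ∀ᶠ i in l, Continuous (Φ i))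
    (hl : TendstoLocallyUniformly Φ φ l) (hz : Tendsto z l (𝓝 z₀)) (h₀ : z₀ ∈ WW b c R)
    (hδ : 0 < δ)
    (hb : ∀ e : ℂ, e = 1 ∨ e = -1 → (cs φ e ⊆ closedBall 0 R' ∧
        ∀ s ∈ cs φ e, δ ≤ ‖z₀.1 - s‖ + ‖z₀.2 - e * conj s‖) ∧
      (∀ᶠ i in l, cs (Φ i) e ⊆ closedBall 0 R' ∧
        ∀ s ∈ cs (Φ i) e, δ ≤ ‖(z i).1 - s‖ + ‖(z i).2 - e * conj s‖) ∧
      ∀ᵐ s, ∀ᶠ i in l, (s ∈ cs (Φ i) e ↔ s ∈ cs φ e)) :
    Tendsto (fun i => ff b (Φ i) θ (z i)) l (𝓝 (ff b φ θ z₀)) := by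
  have hsh : ∀ ψ : ℂ → ℂ, Continuous ψ → Continuous (sharp ψ) := fun ψ hψ =>
    continuous_conj.comp (hψ.comp continuous_conj)
  have hl' : TendstoLocallyUniformly (fun i => sharp (Φ i)) (sharp φ) l :=
    conjCLE.toContinuousLinearMap.uniformContinuous.comp_tendstoLocallyUniformly
      (hl.comp _ continuous_conj)
  have z1 : Tendsto (fun i => (z i).1) l (𝓝 z₀.1) := (continuous_fst.tendsto _).comp hz
  have z2 : Tendsto (fun i => (z i).2) l (𝓝 z₀.2) := (continuous_snd.tendsto _).comp hz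
  have t1 := tendsto_Ex h hφ hΦ hl hz h₀
  have t2 := tendsto_Ex (z := fun i => ((z i).2, (z i).1)) (z₀ := (z₀.2, z₀.1)) h.sharp (hsh φ hφ)
    (hΦ.mono fun i hi => hsh _ hi) hl' (z2.prodMk_nhds z1) (swap_mem_WW h₀)
  obtain ⟨M, hM⟩ := bd_om (fun j => (h.smooth j).continuous) h.supp
  have t3 : ∀ e : ℂ, e = 1 ∨ e = -1 → Tendsto (fun i => Ct (om (Φ i) θ e) e (z i).1 (z i).2) l
      (𝓝 (Ct (om φ θ e) e z₀.1 z₀.2)) := fun e he => by
    obtain ⟨⟨a1, a2⟩, a3, a4⟩ := hb e he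
    refine tendsto_Ct (M := M) (R := R') he ?_ (hM φ e R' hφ a1) ?_ hz hδ ?_ ?_
    · filter_upwards [hΦ, a3] with i h1 h2
      exact hM _ e R' h1 h2.1
    · filter_upwards [a4] with s hs
      refine tendsto_const_nhds.congr' ?_
      filter_upwards [hs] with i hi
      unfold om
      by_cases h1 : s ∈ cs φ e
      · rw [indicator_of_mem h1, indicator_of_mem (hi.2 h1)]
      · rw [indicator_of_notMem h1, indicator_of_notMem fun h2 => h1 (hi.1 h2)]
    · filter_upwards [a3] with i h2 s hs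
      exact h2.2 s (mem_of_indicator_ne_zero hs)
    · exact fun s hs => a2 s (mem_of_indicator_ne_zero hs)
  exact ((z2.sub (hl.tendsto_comp hφ.continuousAt z1)).mul
    (z1.sub (hl'.tendsto_comp (hsh φ hφ).continuousAt z2))).mul
    (((t1.add t2).add (t3 1 (Or.inl rfl))).add (t3 (-1) (Or.inr rfl))).cexp

end Pool.Agent.NapOT
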