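import Pool.Agent.Lib.MP_b71113_an.OT.Un1

/-! Existence of a potential on an unbounded set. -/

namespace Pool.Agent.NapOT

open MeasureTheory Set Metric Complex ComplexConjugate Filter Topology
open scoped NNReal ENNReal Pointwise

variable {A B : Set ℂ}

theorem un3_norm {w : ℂ → ℝ} {L : ℝ≥0} (h : LipschitzWith L w) (x : ℂ) : ‖gradient w x‖ ≤ L := by
  rw [gradient, LinearIsometryEquiv.norm_map]
  exact norm_fderiv_le_of_lipschitz ℝ h

theorem un3_grad {w : ℂ → ℝ} {x q : ℂ} (hd : DifferentiableAt ℝ w x)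
    (h : ∀ y, inner ℝ q y - w y ≤ inner ℝ q x - w x) : gradient w x = q := by
  have h1 : IsLocalMin (fun y => w y - innerSL ℝ q y) x := by
    refine Eventually.of_forall fun y => ?_
    have := h y
    simp only [innerSL_apply_apply]
    linarith
  have h2 := h1.hasFDerivAt_eq_zero (hd.hasFDerivAt.sub (innerSL ℝ q).hasFDerivAt)
  rw [gradient, sub_eq_zero.1 h2]
  exact (InnerProductSpace.toDual ℝ ℂ).symm_apply_apply q

/-- gradients of convex functions converge -/
theorem tendsto_gradient {u : ℕ → ℂ → ℝ} {u₀ : ℂ → ℝ} {L : ℝ≥0}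
    (hc : ∀ n, ConvexOn ℝ univ (u n)) (hL : ∀ n, LipschitzWith L (u n))
    (hl : ∀ x, Tendsto (fun n => u n x) atTop (𝓝 (u₀ x))) {x : ℂ}
    (hd : ∀ n, DifferentiableAt ℝ (u n) x) (hd₀ : DifferentiableAt ℝ u₀ x) :
    Tendsto (fun n => gradient (u n) x) atTop (𝓝 (gradient u₀ x)) := by
  refine tendsto_of_subseq_tendsto fun ns hns => ?_
  obtain ⟨q, -, φ, hφ, hq⟩ := (isCompact_closedBall (0 : ℂ) L).tendsto_subseq
    (x := fun n => gradient (u (ns n)) x) fun n => mem_closedBall_zero_iff.2 (un3_norm (hL _) x)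
  have hs := hns.comp hφ.tendsto_atTop
  have e : gradient u₀ x = q := un3_grad hd₀ fun y =>
    le_of_tendsto_of_tendsto' ((hq.inner (𝕜 := ℝ) tendsto_const_nhds).sub ((hl y).comp hs))
      ((hq.inner (𝕜 := ℝ) tendsto_const_nhds).sub ((hl x).comp hs)) fun n =>
        bridge_subgrad (hc _) (mem_univ x) (mem_univ y) (hd _)
  exact ⟨φ, e ▸ hq⟩

theorem un3_liminf {E : Set ℂ} {S : ℕ → Set ℂ} {c : ℝ≥0∞} (h : ∀ᵐ x, x ∈ E → ∀ᶠ n in atTop, x ∈ S n)
    (hS : ∀ n, volume (S n) ≤ c) : volume E ≤ c := by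
  have h1 : Monotone fun N => ⋂ n ≥ N, S n := fun N N' hN =>
    biInter_subset_biInter_left fun n hn => hN.trans hn
  refine (measure_mono_ae (t := ⋃ N, ⋂ n ≥ N, S n) (h.mono fun x hx hE => ?_)).trans ?_
  · obtain ⟨N, hN⟩ := eventually_atTop.1 (hx hE)
    exact mem_iUnion.2 ⟨N, mem_iInter₂.2 hN⟩
  · rw [h1.measure_iUnion]
    exact iSup_le fun N => (measure_mono (biInter_subset_of_mem (le_refl N))).trans (hS N)

theorem un3_map {E G : Set ℂ} (w : ℂ → ℝ) (hG : MeasurableSet G) :
    (volume.restrict E).map (gradient w) G = volume (gradient w ⁻¹' G ∩ E) := by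
  rw [Measure.map_apply (var_meas w) hG, Measure.restrict_apply (var_meas w hG)]

/-- the limit of potentials of truncated problems -/
theorem bre_of_tendsto (hA : IsOpen A) (hc : Convex ℝ A) (hB : Body B) {k : ℕ → ℕ}
    (hk : Tendsto k atTop atTop) {u : ℕ → ℂ → ℝ} {u₀ : ℂ → ℝ} {L : ℝ≥0} {β : ℕ → ℝ}
    (hu : ∀ n, ConvexOn ℝ univ (u n)) (hL : ∀ n, LipschitzWith L (u n))
    (hl : ∀ x, Tendsto (fun n => u n x) atTop (𝓝 (u₀ x)))
    (hm : ∀ n, (volume.restrict (cut A (k n))).map (gradient (u n)) = wt B (β n))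
    {y₀ : ℂ} (hy : ∀ n x, u n y₀ ≤ u n x) : Bre A B u₀ := by
  have cv : ConvexOn ℝ univ u₀ := ⟨convex_univ, fun x hx y hy' a b ha hb hab =>
    le_of_tendsto_of_tendsto' (hl _) (((hl x).const_smul a).add ((hl y).const_smul b))
      fun n => (hu n).2 hx hy' ha hb hab⟩
  have d₀ : ∀ᵐ x, DifferentiableAt ℝ u₀ x :=
    (bridge_ae_diff isOpen_univ cv).mono fun x hx => hx (mem_univ x)
  have dn : ∀ᵐ x, ∀ n, DifferentiableAt ℝ (u n) x :=
    ae_all_iff.2 fun n => (hL n).ae_differentiableAt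
  have lim : ∀ᵐ x, Tendsto (fun n => gradient (u n) x) atTop (𝓝 (gradient u₀ x)) := by
    filter_upwards [d₀, dn] with x h1 h2 using tendsto_gradient hu hL hl h2 h1
  have vn : ∀ n, ∀ G, MeasurableSet G → (0 : ℂ) ∉ G →
      volume (gradient (u n) ⁻¹' G ∩ cut A (k n)) = volume (G ∩ B) := fun n G hG h0 => by
    rw [← un3_map _ hG, hm, area_wt B hG fun x hx => Or.inr fun e => h0 (e ▸ hx)]
  have up : ∀ G, MeasurableSet G → (0 : ℂ) ∉ G →
      volume (gradient u₀ ⁻¹' G ∩ A) ≤ volume (G ∩ B) := fun G hG h0 => by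
    have : IsFiniteMeasure (volume.restrict B) := isFiniteMeasure_restrict.2 hB.vol_lt_top.ne
    rw [← Measure.restrict_apply hG]
    refine le_of_forall_gt fun r hr => ?_
    obtain ⟨O, hGO, hO, hr'⟩ := G.exists_isOpen_lt_of_lt r hr
    have hO' : IsOpen (O ∩ {0}ᶜ) := hO.inter isOpen_compl_singleton
    rw [Measure.restrict_apply hO.measurableSet] at hr'
    refine lt_of_le_of_lt (un3_liminf (S := fun n => gradient (u n) ⁻¹' (O ∩ {0}ᶜ) ∩ cut A (k n))
      (lim.mono fun x hx hE => ?_) fun n => ?_) hr'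
    · exact (hx.eventually (hO'.mem_nhds ⟨hGO hE.1, fun e => h0 (e ▸ hE.1)⟩)).and
        (hk.eventually (eventually_mem_cut hE.2))
    · rw [vn n _ hO'.measurableSet fun h => h.2 rfl]
      exact measure_mono (inter_subset_inter_left _ inter_subset_left)
  have inb : ∀ᵐ x, x ∈ A → gradient u₀ x ≠ 0 → gradient u₀ x ∈ bar A := by
    refine d₀.mono fun x hx _ _ => by_contra fun hq => ?_
    obtain ⟨n, hn⟩ := (half_big hA hc hq (volume.real B) ‖x‖).curry.self_of_nhds.exists
    refine (hn x le_rfl).not_ge (ENNReal.toReal_mono hB.vol_lt_top.ne ?_)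
    refine le_trans (measure_mono_ae (d₀.mono fun y hy' hE => ?_))
      ((up {0}ᶜ (measurableSet_singleton 0).compl fun h => h rfl).trans
        (measure_mono inter_subset_right))
    refine ⟨fun e => ?_, cut_subset A n hE.1⟩
    have h1 := bridge_subgrad cv (mem_univ x) (mem_univ y) hx
    have h2 := bridge_subgrad cv (mem_univ y) (mem_univ x) hy'
    have h3 : 0 < inner ℝ (y - x) (gradient u₀ x) := hE.2
    rw [show gradient u₀ y = 0 from e, inner_zero_left, inner_zero_left] at h2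
    rw [real_inner_comm, inner_sub_right] at h3
    linarith
  have low : ∀ D, IsCompact D → D ⊆ B ∩ interior (bar A) ∩ {0}ᶜ →
      volume D ≤ volume (gradient u₀ ⁻¹' D ∩ A) := fun D hD hs => by
    obtain ⟨R, hR⟩ := bdd_of_interior_bar hD (fun q hq => (hs hq).1.2) y₀
    have hS : ∀ n, MeasurableSet (gradient (u n) ⁻¹' D ∩ cut A (k n)) := fun n =>
      (var_meas _ hD.measurableSet).inter (hA.inter isOpen_ball).measurableSet
    have h1 : ∀ n, volume (closedBall 0 R ∩ (gradient (u n) ⁻¹' D ∩ cut A (k n))) = volume D := by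
      intro n
      rw [← inter_eq_left.2 fun q hq => (hs hq).1.1,
        ← vn n D hD.measurableSet fun h => (hs h).2 rfl, inter_eq_left.2 fun q hq => (hs hq).1.1]
      refine le_antisymm (measure_mono inter_subset_right)
        (measure_mono_ae (dn.mono fun x hx hE => ⟨mem_closedBall_zero_iff.2 ?_, hE⟩))
      refine hR x (cut_subset A _ hE.2) _ hE.1 ?_
      have h2 := bridge_subgrad (hu n) (mem_univ x) (mem_univ y₀) (hx n)
      have h3 := hy n x
      rw [real_inner_comm, inner_sub_right]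
      linarith
    have hfin : volume (closedBall (0 : ℂ) R) ≠ ⊤ := measure_closedBall_lt_top.ne
    have hle : volume D ≤ volume (closedBall (0 : ℂ) R) :=
      (h1 0).symm.le.trans (measure_mono inter_subset_left)
    have h2 : volume (closedBall 0 R \ (gradient u₀ ⁻¹' D ∩ A)) ≤
        volume (closedBall (0 : ℂ) R) - volume D := by
      refine un3_liminf (S := fun n => closedBall 0 R \ (gradient (u n) ⁻¹' D ∩ cut A (k n)))
        (lim.mono fun x hx hE => ?_) fun n => ?_
      · by_cases hxA : x ∈ A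
        · exact (hx.eventually (hD.isClosed.isOpen_compl.mem_nhds fun h => hE.2 ⟨h, hxA⟩)).mono
            fun n hn => ⟨hE.1, fun h => hn h.1⟩
        · exact Eventually.of_forall fun n => ⟨hE.1, fun h => hxA (cut_subset A _ h.2)⟩
      · refine ENNReal.le_sub_of_add_le_left (ne_top_of_le_ne_top hfin hle) ?_
        rw [← h1 n]
        exact (measure_inter_add_sdiff _ (hS n)).le
    have h3 := measure_le_inter_add_sdiff volume (closedBall (0 : ℂ) R) (gradient u₀ ⁻¹' D ∩ A)
    have h4 : volume D + (volume (closedBall (0 : ℂ) R) - volume D) ≤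
        volume (gradient u₀ ⁻¹' D ∩ A) + (volume (closedBall (0 : ℂ) R) - volume D) := by
      rw [add_tsub_cancel_of_le hle]
      exact h3.trans (add_le_add (measure_mono inter_subset_right) h2)
    exact ENNReal.le_of_add_le_add_right (ne_top_of_le_ne_top hfin tsub_le_self) h4
  refine ⟨cv.subset (subset_univ A) hc, Measure.ext fun G hG => ?_⟩
  have hG' : MeasurableSet (G ∩ {0}ᶜ) := hG.inter (measurableSet_singleton 0).compl
  rw [Measure.restrict_apply hG, Measure.restrict_apply hG, un3_map _ hG']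
  refine le_antisymm ?_ ?_
  · refine le_trans (measure_mono_ae (inb.mono fun x hx hE => ?_))
      ((up (G ∩ {0}ᶜ ∩ bar A) (hG'.inter (measurableSet_bar A)) fun h => h.1.2 rfl).trans
        (measure_mono fun q hq => ⟨hq.1.1.1, subset_closure hq.2, hq.1.2⟩))
    exact ⟨⟨hE.1, hx hE.2 hE.1.2⟩, hE.2⟩
  · have hm' : MeasurableSet (G ∩ (B ∩ interior (bar A) ∩ {0}ᶜ)) :=
      hG.inter ((hB.op.inter isOpen_interior).inter isOpen_compl_singleton).measurableSet
    have h1 : volume (G ∩ (closure B ∩ bar A)) ≤ volume (G ∩ (B ∩ interior (bar A) ∩ {0}ᶜ)) := by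
      refine measure_mono_ae ?_
      filter_upwards [measure_eq_zero_iff_ae_notMem.1 hB.vol_closure,
        measure_eq_zero_iff_ae_notMem.1 ((convex_bar A).addHaar_frontier volume),
        measure_eq_zero_iff_ae_notMem.1 (measure_singleton (0 : ℂ))] with q h1 h2 h3 hq
      exact ⟨hq.1, ⟨by_contra fun h => h1 ⟨hq.2.1, h⟩,
        by_contra fun h => h2 ⟨subset_closure hq.2.2, h⟩⟩, h3⟩
    refine h1.trans (le_of_forall_lt fun r hr => ?_)
    obtain ⟨D, hD, hD', hr'⟩ := hm'.exists_lt_isCompact hr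
    exact hr'.trans_le ((low D hD' fun q hq => (hD hq).2).trans (measure_mono
      (inter_subset_inter_left _ (preimage_mono fun q hq => ⟨(hD hq).1, (hD hq).2.2⟩))))
theorem exists_bre (hA : IsOpen A) (hc : Convex ℝ A) (hB : Body B) {v : ℕ → ℂ → ℝ} {β : ℕ → ℝ}
    {y₀ : ℂ} (h : ∀ᶠ n in atTop, y₀ ∈ cz (closure B) (v n) ∧
      Tr (cut A n) B (β n) (v n) (gradient (cj (closure B) (v n)))) : ∃ u, Bre A B u := by
  obtain ⟨N, hN⟩ := eventually_atTop.1 h
  have hN' := fun n => hN (n + N) (Nat.le_add_left N n)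
  obtain ⟨M, hM⟩ := hB.isCompact.exists_bound_of_continuousOn continuousOn_id
  have hL : ∀ n, LipschitzWith (Real.toNNReal M)
      fun x => cj (closure B) (v (n + N)) x - cj (closure B) (v (n + N)) 0 := fun n =>
    LipschitzWith.of_dist_le_mul fun x y => by
      rw [dist_sub_right]
      exact (cj_lip hB.isCompact hB.ne.closure (hN' n).2.cont
        fun q hq => (hM q hq).trans (Real.le_coe_toNNReal M)).dist_le_mul x y
  obtain ⟨u₀, -, φ, hφ, hu⟩ := (isCompact_lip (Real.toNNReal M)).tendsto_subseq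
    (x := fun n => ⟨_, (hL n).continuous⟩) fun n => ⟨hL n, sub_self _⟩
  refine ⟨u₀, bre_of_tendsto hA hc hB (k := fun n => φ n + N)
    ((tendsto_add_atTop_nat N).comp hφ.tendsto_atTop)
    (u := fun n x => cj (closure B) (v (φ n + N)) x - cj (closure B) (v (φ n + N)) 0)
    (β := fun n => β (φ n + N)) (fun n => ?_) (fun n => hL _)
    (fun x => ((continuous_eval_const x).tendsto u₀).comp hu) (fun n => ?_) (y₀ := y₀)
    fun n x => ?_⟩
  · exact (cj_convex hB.isCompact hB.ne.closure (hN' _).2.cont).add_const _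
  · rw [← (hN' (φ n)).2.map]
    congr 1
    funext x
    simp only [gradient, fderiv_sub_const]
  · have h1 : Gam (closure B) (v (φ n + N)) y₀ 0 := (hN' (φ n)).1
    have h2 := le_cj (x := x) hB.isCompact (hN' (φ n)).2.cont h1.1
    rw [h1.cj_eq]
    rw [inner_zero_right] at h2 ⊢
    linarith

end Pool.Agent.NapOT
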