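import Pool.Agent.Lib.MP_b71113_an.OT.Low1
import Pool.Agent.Lib.MP_b71113_an.KL.Plug2

/-! The lower bound. -/

namespace Pool.Agent.NapOT

open MeasureTheory Set Metric Complex ComplexConjugate Filter Topology
open scoped NNReal ENNReal Pointwise

/-- boundary points of the contact sets are separated -/
theorem Std.sep_frontier {Ω : Set ℂ} {L : ℝ≥0} {t s₂ s₁ d₁ d₂ r₁ r₂ r : ℝ}
    (h : Std Ω d₁ d₂ t s₂) (hL : ∀ x ∈ closure Ω, ‖x‖ ≤ L) (h21 : s₂ ≤ s₁) (h1 : 0 < r₁)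
    (h2 : 0 < r₂) (hr : 0 < r) (hd1 : r₁ + 2 * r ≤ d₁) (hd2 : r₂ + 2 * r ≤ d₂)
    (hb : be (AA Ω t s₂) (box d₁ d₂) = 0) {τ : ℝ × C(ℂ, ℝ)}
    (hτ : τ ∈ PP Ω (box d₁ d₂) L t s₂ s₁) {x : ℂ}
    (hx : x ∈ frontier (cz (closure (box d₁ d₂)) τ.2)) : Sep Ω (box r₁ r₂) x := by
  have hB := body_box h1 h2
  have hT := low1_TT hL h1 h2 (c₁ := r₁ + r) (c₂ := r₂ + r) (by linarith) (by linarith)
  have hW := (KK_subset_TT Ω _).trans hT
  have hB₀ : closure (box r₁ r₂) ⊆ box d₁ d₂ := by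
    rw [closure_box h1 h2]
    exact fun p hp => ⟨by linarith [hp.1], by linarith [hp.2]⟩
  have hQ := body_box h.h1 h.h2
  have hsQ : ∀ x ∈ box d₁ d₂, -x ∈ box d₁ d₂ := fun x hx => by simpa [box] using hx
  have hc1 : r₁ + r < d₁ := by linarith
  have hc2 : r₂ + r < d₂ := by linarith
  obtain ⟨v₂, hv₂⟩ := exists_mem_PP (L := L) h.hΩ hQ h.h0 hsQ hL h.t0 h.t1.le h.s2
    (left_mem_Icc.2 h21)
  have hz₂ : low1Z Ω (box r₁ r₂) d₁ d₂ (r₁ + r) (r₂ + r) t (L + r₁ + r₂ + 1) (s₂, v₂) := by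
    intro θ a1 _
    obtain ⟨F, hF, hE⟩ := ff_ext (h.cur_one hv₂ (h.al_zero hv₂)) a1 fun e => absurd e (by norm_num)
    have hK := isCompact_KK h.hΩ hB
    have hKW := low1_KW h hv₂ hW (Or.inl rfl)
    have hPW := NapKL.PH_subset_WW hK hW
    obtain ⟨π, hπ⟩ := h.mem_md hv₂
    have hD := h.mem_dat hv₂
    rw [h.al_zero hv₂, hb] at hπ hD
    obtain ⟨G, hG, hG'⟩ := NapKL.inv_of_hull (isOpen_WW _ _ _) (NapKL.convex_WW _ _ _) hK hPW hF
      fun x hx => by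
        obtain ⟨e1, e2⟩ := NapKL.sheets_not_hull hD hπ h.hΩ ((closure_mono (AA_subset Ω t s₂)).trans
          (h.hΩ.closure_smul_subset h.h0 h.t0.le h.t1)) h1 h2 (by linarith) (by linarith) hc1.le
          hc2.le hW hx
        rw [hE x (hPW hx) fun hc => e1 (hc.2.trans hc.1.symm)]
        exact mul_ne_zero (mul_ne_zero (sub_ne_zero.2 e1) (sub_ne_zero.2 e2)) (exp_ne_zero _)
    exact ⟨G, hG, fun z hz => by rw [← hE z (hKW hz).1 (hKW hz).2]; exact hG' z hz⟩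
  have hz := const_of_preconnected
    (isPreconnected_PP (s₁ := s₁) h.hΩ hQ h.h0 hsQ hL h.t0 h.t1.le h.s2)
    (fun τ₀ h₀ => low1_loc h h₀ hB hB₀ hW hc1 hc2) hv₂ hτ hz₂
  obtain ⟨θ, hθ⟩ := low1_adm h hτ hc1 hc2 (L + r₁ + r₂ + 1)
  have h0 := hθ.self_of_nhdsWithin hτ
  have hc := h.cur_one hτ (h.al_zero hτ)
  obtain ⟨F, hF, hE⟩ := ff_ext hc h0.1 fun e => absurd e (by norm_num)
  have hKW := low1_KW h hτ hW (Or.inl rfl)
  refine (hz θ h0.1 h0.2).sep h.hΩ hB (isOpen_WW _ _ _) hT hF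
    (fun z hz => hE z (hKW hz).1 (hKW hz).2) ?_
  have hx' : conj x ∈ frontier (cs (gp d₁ d₂ τ) 1) := (low1_frontier h hτ _).2 (by simpa using hx)
  have := ext_eq_zero hc.lip.continuous hF hE hx' (hT ⟨?_, ?_⟩)
  · simpa using this
  · simpa using subset_closure (low1_mem h hτ hx)
  · simpa using subset_closure (show (0 : ℂ) ∈ box r₁ r₂ by simp [box, h1, h2])
theorem low_core {Ω : Set ℂ} (hΩ : Body Ω) (h0 : (0 : ℂ) ∈ Ω) {r₁ r₂ d₁ d₂ t : ℝ}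
    (h1 : 0 < r₁) (h2 : 0 < r₂) (hd1 : r₁ < d₁) (hd2 : r₂ < d₂) (ht0 : 0 < t) (ht1 : t < 1)
    (hm' : 4 * d₁ * d₂ < t ^ 2 * volume.real Ω) :
    ∃ v T, Tr (t • Ω) (box d₁ d₂) (t ^ 2 * volume.real Ω - 4 * d₁ * d₂) v T ∧
      ∀ x ρ, volume (cz (closure (box d₁ d₂)) v ∩ ball x ρ) ≠ 0 →
        ∃ y ∈ ball x ρ, y ∈ Ω ∧ Sep Ω (box r₁ r₂) y := by
  have e1 : 0 < d₁ := h1.trans hd1
  have e2 : 0 < d₂ := h2.trans hd2
  have hQ := body_box e1 e2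
  have hQ0 : (0 : ℂ) ∈ box d₁ d₂ := by simp [box, e1, e2]
  have hsQ : ∀ x ∈ box d₁ d₂, -x ∈ box d₁ d₂ := fun x hx => by simpa [box] using hx
  have hQv := vol_box e1.le e2.le
  obtain ⟨r, hr, hr1, hr2⟩ : ∃ r, 0 < r ∧ r₁ + 2 * r ≤ d₁ ∧ r₂ + 2 * r ≤ d₂ :=
    ⟨min (d₁ - r₁) (d₂ - r₂) / 2, by have := lt_min (sub_pos.2 hd1) (sub_pos.2 hd2); positivity,
      by linarith [min_le_left (d₁ - r₁) (d₂ - r₂)], by linarith [min_le_right (d₁ - r₁) (d₂ - r₂)]⟩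
  obtain ⟨s₃, hs0, hs1, hs3⟩ : ∃ s₃ : ℝ, 0 < s₃ ∧ s₃ ≤ t ∧
      s₃ ^ 2 * volume.real (Ω ∩ -Ω) < 4 * d₁ * d₂ := by
    have hc : Tendsto (fun s : ℝ => s ^ 2 * volume.real (Ω ∩ -Ω)) (𝓝[>] 0) (𝓝 0) := by
      have : Continuous fun s : ℝ => s ^ 2 * volume.real (Ω ∩ -Ω) := by fun_prop
      simpa using (this.tendsto 0).mono_left nhdsWithin_le_nhds
    obtain ⟨s, a2, a3⟩ := ((hc.eventually (gt_mem_nhds (by positivity : 0 < 4 * d₁ * d₂))).and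
        (Ioc_mem_nhdsGT ht0)).exists
    exact ⟨s, a3.1, a3.2, a2⟩
  obtain ⟨s₁, ht1', hA1⟩ := exists_AA_eq hΩ h0 ht0
  obtain ⟨s₂, ⟨hs32, h21⟩, hv2⟩ : 4 * d₁ * d₂ ∈ (fun s => volume.real (AA Ω t s)) '' Icc s₃ s₁ := by
    refine intermediate_value_Icc (hs1.trans ht1') (fun s hs =>
      (continuousAt_vol_AA hΩ (hs0.trans_le hs.1) t).continuousWithinAt) ⟨?_, ?_⟩
    · simp only [AA_of_le hΩ h0 hs0 hs1, vol_smul]
      exact hs3.le
    · simp only [hA1, vol_smul]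
      exact hm'.le
  replace hs0 := hs0.trans_le hs32
  have h : Std Ω d₁ d₂ t s₂ := ⟨hΩ, h0, e1, e2, hs0, ht0, ht1, hv2.ge⟩
  obtain ⟨L₀, hL₀⟩ := hΩ.isCompact.isBounded.exists_norm_le
  have hL : ∀ x ∈ closure Ω, ‖x‖ ≤ L₀.toNNReal := fun x hx =>
    (hL₀ x hx).trans (Real.le_coe_toNNReal _)
  generalize L₀.toNNReal = L at hL
  have hb : be (AA Ω t s₂) (box d₁ d₂) = 0 := by
    rw [be, hQv, show volume.real (AA Ω t s₂) = _ from hv2, sub_self, max_self]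
  obtain ⟨v₂, hv₂⟩ := exists_mem_PP (L := L) hΩ hQ h0 hsQ hL ht0 ht1.le hs0 (left_mem_Icc.2 h21)
  obtain ⟨v, hv⟩ := exists_mem_PP (L := L) hΩ hQ h0 hsQ hL ht0 ht1.le hs0 (right_mem_Icc.2 h21)
  have ha1 : al (t • Ω) (box d₁ d₂) = 0 := by
    rw [al, hQv, vol_smul]; exact max_eq_right (by linarith)
  have hb1 : be (t • Ω) (box d₁ d₂) = t ^ 2 * volume.real Ω - 4 * d₁ * d₂ := by
    rw [be, hQv, vol_smul]; exact max_eq_left (by linarith)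
  have hD := dat_of_body (body_AA hΩ h0 ht0 (hs0.trans_le h21)) hQ (zero_mem_AA h0 t s₁) hQ0
  have hmin := hv.2.2.2.2
  dsimp only at hmin
  rw [hA1, ha1, hb1] at hD hmin
  refine ⟨v, _, hmin.tr hD, fun x ρ hx => ?_⟩
  by_contra hn
  have hρ : 0 < ρ := by
    by_contra hρ
    rw [ball_eq_empty.2 (not_lt.1 hρ), inter_empty, measure_empty] at hx
    exact hx rfl
  have hV : 0 < volume.real (ball (conj x) ρ) :=
    Body.vol_pos ⟨isOpen_ball, convex_ball _ _, isBounded_ball, nonempty_ball.2 hρ⟩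
  have hconj : ∀ s : ℂ, conj s ∈ ball x ρ ↔ s ∈ ball (conj x) ρ := fun s => by
    rw [mem_ball_iff_norm, mem_ball_iff_norm, ← norm_conj, map_sub, conj_conj]
  have hz2 : volume.real (cs (gp d₁ d₂ (s₂, v₂)) 1 ∩ ball (conj x) ρ) = 0 := by
    have := (h.cs_one hv₂).2.2.1
    rw [hb, ENNReal.ofReal_zero] at this
    rw [Measure.real, measure_mono_null inter_subset_left this, ENNReal.toReal_zero]
  have hval : ∀ τ ∈ PP Ω (box d₁ d₂) L t s₂ s₁,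
      volume.real (cs (gp d₁ d₂ τ) 1 ∩ ball (conj x) ρ) = 0 ∨
      volume.real (cs (gp d₁ d₂ τ) 1 ∩ ball (conj x) ρ) = volume.real (ball (conj x) ρ) := by
    intro τ hτ
    rcases ball_subset_or_disjoint (C := cs (gp d₁ d₂ τ) 1) (x := conj x) (r := ρ)
      (fun y hy hf => hn ⟨conj y, (hconj y).2 hy, low1_mem h hτ ((low1_frontier h hτ y).1 hf),
        h.sep_frontier hL h21 h1 h2 hr hr1 hr2 hb hτ ((low1_frontier h hτ y).1 hf)⟩) with e | e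
    · exact Or.inr (by rw [inter_eq_right.2 e])
    · exact Or.inl (by rw [e.inter_eq, measureReal_empty])
  have hz := const_of_preconnected
    (Z := fun τ => volume.real (cs (gp d₁ d₂ τ) 1 ∩ ball (conj x) ρ) = 0)
    (isPreconnected_PP (s₁ := s₁) hΩ hQ h0 hsQ hL ht0 ht1.le hs0) (fun τ₀ h₀ => ?_) hv₂ hv
    hz2
  · refine hx ?_
    rw [← vol_conj]
    have e : {s : ℂ | conj s ∈ cz (closure (box d₁ d₂)) v ∩ ball x ρ} =
        cs (gp d₁ d₂ (s₁, v)) 1 ∩ ball (conj x) ρ :=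
      Set.ext fun s => and_congr ((h.cs_one hv).2.2.2 s).symm (hconj s)
    rw [e]
    exact (measureReal_eq_zero_iff
      ((measure_mono inter_subset_right).trans_lt measure_ball_lt_top).ne).1 hz
  · have hl := tendsto_vol_inter (isClosed_cs (h.lip h₀).continuous 1).measurableSet
      (eventually_mem_nhdsWithin.mono fun τ hτ =>
        (isClosed_cs (h.lip hτ).continuous 1).measurableSet) (h.ae_cs h₀ (Or.inl rfl)) (conj x) ρ
    rcases hval τ₀ h₀ with e | e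
    · rw [e] at hl
      filter_upwards [hl.eventually (gt_mem_nhds hV), self_mem_nhdsWithin] with τ a1 a2
      exact iff_of_true ((hval τ a2).resolve_right a1.ne) e
    · rw [e] at hl
      filter_upwards [hl.eventually (lt_mem_nhds hV)] with τ a1
      exact iff_of_false a1.ne' (by rw [e]; exact hV.ne')
/-- separated points are dense in the interior of the contact set -/
theorem low_zero {Ω : Set ℂ} (hΩ : Body Ω) (h0 : (0 : ℂ) ∈ Ω) {r₁ r₂ : ℝ} (h1 : 0 < r₁)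
    (h2 : 0 < r₂) {v : ℂ → ℝ} {T : ℂ → ℂ} (hm : 4 * r₁ * r₂ < volume.real Ω)
    (h : Tr Ω (box r₁ r₂) (volume.real Ω - 4 * r₁ * r₂) v T) {x : ℂ} {ρ : ℝ} (hρ : 0 < ρ)
    (hx : ball x ρ ⊆ cz (closure (box r₁ r₂)) v) :
    ∃ y ∈ ball x ρ, y ∈ Ω ∧ Sep Ω (box r₁ r₂) y := by
  have hV : 0 < volume.real (ball x ρ) :=
    Body.vol_pos ⟨isOpen_ball, convex_ball _ _, isBounded_ball, nonempty_ball.2 hρ⟩
  obtain ⟨ε, a1, a2, a3, a4⟩ : ∃ ε : ℝ,
      4 * ((1 + ε) * r₁) * ((1 + ε) * r₂) < (1 - ε) ^ 2 * volume.real Ω ∧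
      volume.real Ω - 4 * r₁ * r₂ < (1 - ε) ^ 2 * volume.real Ω -
        4 * ((1 + ε) * r₁) * ((1 + ε) * r₂) + volume.real (ball x ρ) ∧ 0 < ε ∧ ε < 1 := by
    have c1 : ∀ᶠ ε : ℝ in 𝓝 0,
        4 * ((1 + ε) * r₁) * ((1 + ε) * r₂) < (1 - ε) ^ 2 * volume.real Ω :=
      ContinuousAt.eventually_lt (by fun_prop) (by fun_prop) (by simpa using hm)
    have c2 : ∀ᶠ ε : ℝ in 𝓝 0, volume.real Ω - 4 * r₁ * r₂ < (1 - ε) ^ 2 * volume.real Ω -
        4 * ((1 + ε) * r₁) * ((1 + ε) * r₂) + volume.real (ball x ρ) :=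
      ContinuousAt.eventually_lt (by fun_prop) (by fun_prop) (by simpa using hV)
    obtain ⟨ε, b1, b2, b3⟩ := ((c1.filter_mono nhdsWithin_le_nhds).and
      ((c2.filter_mono nhdsWithin_le_nhds).and (Ioo_mem_nhdsGT one_pos))).exists
    exact ⟨ε, b1, b2, b3.1, b3.2⟩
  have ht : 0 < 1 - ε := by linarith
  have d1 : r₁ < (1 + ε) * r₁ := by nlinarith
  have d2 : r₂ < (1 + ε) * r₂ := by nlinarith
  obtain ⟨w, S, hS, H⟩ := low_core hΩ h0 h1 h2 d1 d2 ht (by linarith) a1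
  refine H x ρ fun hz => ?_
  have hQ := body_box h1 h2
  have hQ0 : (0 : ℂ) ∈ box r₁ r₂ := by simp [box, h1, h2]
  have hQ' := body_box (h1.trans d1) (h2.trans d2)
  have hQ0' : (0 : ℂ) ∈ box ((1 + ε) * r₁) ((1 + ε) * r₂) := by
    simp only [box, mem_ofPred_eq, zero_re, zero_im, abs_zero]
    exact ⟨h1.trans d1, h2.trans d2⟩
  have hβ : 0 ≤ volume.real Ω - 4 * r₁ * r₂ := by linarith
  have hβ' : 0 ≤ (1 - ε) ^ 2 * volume.real Ω - 4 * ((1 + ε) * r₁) * ((1 + ε) * r₂) := by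
    linarith
  have hsub : cz (closure (box ((1 + ε) * r₁) ((1 + ε) * r₂))) w ⊆ cz (closure (box r₁ r₂)) v := by
    refine cmp hS h hQ hQ0 (subset_closure.trans (hΩ.closure_smul_subset h0 ht.le (by linarith)))
      (t := 1 + ε) (by linarith) fun q hq => ?_
    have e : 0 < 1 + ε := by linarith
    simp only [box, mem_ofPred_eq, smul_re, smul_im, smul_eq_mul, abs_mul, abs_of_pos e]
    exact ⟨mul_lt_mul_of_pos_left hq.1 e, mul_lt_mul_of_pos_left hq.2 e⟩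
  have v1 := h.vol_cz ⟨hΩ, hQ, le_rfl, hβ, by rw [vol_box h1.le h2.le]; ring, Or.inl rfl,
    Or.inr (subset_closure hQ0)⟩ hQ0
  have v2 := hS.vol_cz ⟨hΩ.smul ht.ne', hQ', le_rfl, hβ',
    by rw [vol_box (h1.trans d1).le (h2.trans d2).le, vol_smul]; ring, Or.inl rfl,
    Or.inr (subset_closure hQ0')⟩ hQ0'
  have v3 := measure_union_add_inter (μ := volume)
    (cz (closure (box ((1 + ε) * r₁) ((1 + ε) * r₂))) w) (measurableSet_ball (x := x) (ε := ρ))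
  rw [hz, add_zero, v2, ← ENNReal.ofReal_toReal (measure_ball_lt_top (x := x) (r := ρ)).ne,
    ← ENNReal.ofReal_add hβ' ENNReal.toReal_nonneg] at v3
  have v4 := measure_mono (μ := volume) (union_subset hsub hx)
  rw [v3, v1, ENNReal.ofReal_le_ofReal_iff hβ] at v4
  exact absurd v4 a2.not_ge
theorem low_body {Ω : Set ℂ} (hΩ : Body Ω) (x₀ : ℂ) : Body ((fun y => y + x₀) ⁻¹' Ω) := by
  obtain ⟨y, hy⟩ := hΩ.ne
  obtain ⟨C, hC⟩ := hΩ.bd.exists_norm_le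
  refine ⟨hΩ.op.preimage (by fun_prop), hΩ.cv.translate_preimage_left x₀,
    isBounded_iff_forall_norm_le.2 ⟨C + ‖x₀‖, fun z hz => ?_⟩, ⟨y - x₀, by simpa using hy⟩⟩
  have := norm_sub_le (z + x₀) x₀
  rw [add_sub_cancel_right] at this
  exact this.trans (add_le_add (hC _ hz) le_rfl)

theorem low_gam {K : Set ℂ} {v : ℂ → ℝ} (x₀ y q : ℂ) :
    Gam K (fun q => v q - inner ℝ x₀ q) y q ↔ Gam K v (y + x₀) q := by
  refine and_congr_right fun _ => forall₂_congr fun q' _ => ?_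
  simp only [inner_add_left]
  constructor <;> intro h <;> linarith

theorem low_tr {Ω B : Set ℂ} (hΩ : Body Ω) {β : ℝ} {v : ℂ → ℝ} {T : ℂ → ℂ} (h : Tr Ω B β v T)
    (x₀ : ℂ) : Tr ((fun y => y + x₀) ⁻¹' Ω) B β (fun q => v q - inner ℝ x₀ q)
      fun y => T (y + x₀) := by
  have hp := (measurePreserving_add_right (volume : Measure ℂ) x₀).restrict_preimage
    hΩ.op.measurableSet
  refine ⟨h.cont.sub (by fun_prop), ⟨h.cvx.1, fun a ha b hb s t hs ht hst => ?_⟩,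
    h.meas.comp hp.measurable, ?_, ?_⟩
  · have := h.cvx.2 ha hb hs ht hst
    simp only [smul_eq_mul, inner_add_right, real_inner_smul_right] at this ⊢
    linarith
  · rw [← h.map, ← hp.map_eq, Measure.map_map h.meas hp.measurable]
    rfl
  · exact (hp.quasiMeasurePreserving.ae h.gam).mono fun y hy => (low_gam x₀ y _).2 hy

theorem low_sep {Ω B : Set ℂ} {x₀ y : ℂ} (h : Sep ((fun y => y + x₀) ⁻¹' Ω) B y) :
    Sep Ω B (y + x₀) := by
  obtain ⟨O, g, M, hO, hT, hg, hM, hK, hy⟩ := h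
  have e1 : ∀ z : ℂ × ℂ, (conj (z.1 - conj x₀) + (z.2 - x₀)) / 2 + x₀ = (conj z.1 + z.2) / 2 :=
    fun z => by rw [map_sub, conj_conj]; ring
  have e2 : ∀ z : ℂ × ℂ, (conj (z.1 - conj x₀) - (z.2 - x₀)) / 2 = (conj z.1 - z.2) / 2 :=
    fun z => by rw [map_sub, conj_conj]; ring
  have c1 : closure ((fun y => y + x₀) ⁻¹' Ω) = (fun y => y + x₀) ⁻¹' closure Ω :=
    ((Homeomorph.addRight x₀).preimage_closure Ω).symm
  have c2 : frontier ((fun y => y + x₀) ⁻¹' Ω) = (fun y => y + x₀) ⁻¹' frontier Ω :=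
    ((Homeomorph.addRight x₀).preimage_frontier Ω).symm
  refine ⟨(fun z => (z.1 - conj x₀, z.2 - x₀)) ⁻¹' O, fun z => g (z.1 - conj x₀, z.2 - x₀), M,
    hO.preimage (by fun_prop), fun z hz => hT ⟨?_, ?_⟩,
    hg.comp (by fun_prop) fun z hz => hz, hM, fun z hz => hK _ ⟨?_, ?_⟩, by simpa using hy⟩
  · rw [c1, mem_preimage, e1]; exact hz.1
  · rw [e2]; exact hz.2
  · rw [c2, mem_preimage, e1]; exact hz.1
  · rw [e2]; exact hz.2

theorem low {Ω : Set ℂ} (hΩ : Body Ω) {r₁ r₂ : ℝ} (h1 : 0 < r₁) (h2 : 0 < r₂)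
    {v : ℂ → ℝ} {T : ℂ → ℂ} (hm : 4 * r₁ * r₂ < volume.real Ω)
    (h : Tr Ω (box r₁ r₂) (volume.real Ω - 4 * r₁ * r₂) v T) {x : ℂ} {ρ : ℝ} (hρ : 0 < ρ)
    (hx : ball x ρ ⊆ cz (closure (box r₁ r₂)) v) :
    ∃ y ∈ ball x ρ, y ∈ Ω ∧ Sep Ω (box r₁ r₂) y := by
  obtain ⟨x₀, hx₀⟩ := hΩ.ne
  have hb : ∀ y ∈ ball (x - x₀) ρ, y + x₀ ∈ ball x ρ := fun y hy => by
    rw [mem_ball_iff_norm] at hy ⊢
    rwa [show y + x₀ - x = y - (x - x₀) by ring]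
  have hv : ∀ S : Set ℂ, volume.real ((fun y => y + x₀) ⁻¹' S) = volume.real S := fun S => by
    rw [Measure.real, Measure.real, measure_preimage_add_right]
  obtain ⟨y, hy, hyΩ, hs⟩ := low_zero (low_body hΩ x₀) (by simpa using hx₀) h1 h2 (by rwa [hv])
    (by rw [hv]; exact low_tr hΩ h x₀) hρ (x := x - x₀) fun y hy =>
      (low_gam x₀ y 0).2 (hx (hb y hy))
  exact ⟨y + x₀, hb y hy, hyΩ, low_sep hs⟩

end Pool.Agent.NapOT
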