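import Pool.Agent.Lib.MP_b71113_an.OT.Base

/-! A maximum principle for functions that are real on a part of the boundary. -/

namespace Pool.Agent.NapOT

open MeasureTheory Set Metric Complex ComplexConjugate Filter Topology
open scoped NNReal ENNReal Pointwise

theorem om_ray {U : Set ℂ} (hU : IsOpen U) (hb : Bornology.IsBounded U) {s v : ℂ} (hs : s ∈ U)
    (hv : v ≠ 0) : ∃ t : ℝ, 0 < t ∧ s + t • v ∈ closure U ∧ s + t • v ∉ U := by
  by_contra hcon
  push Not at hcon
  have hf : Continuous fun t : ℝ => s + t • v := by fun_prop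
  have h1 : Ici (0 : ℝ) ⊆ (fun t : ℝ => s + t • v) ⁻¹' U := by
    refine isPreconnected_Ici.subset_of_closure_inter_subset (hU.preimage hf)
      ⟨0, self_mem_Ici, by simpa using hs⟩ ?_
    rintro t ⟨h2, h3⟩
    rcases (mem_Ici.1 h3).eq_or_lt with rfl | h4
    · simpa using hs
    · exact hcon t h4 (hf.closure_preimage_subset U h2)
  obtain ⟨R, hR⟩ := hb.exists_norm_le
  have hv' : 0 < ‖v‖ := norm_pos_iff.2 hv
  have h0 : 0 ≤ R := (norm_nonneg _).trans (hR s hs)
  have ht : 0 ≤ (R + ‖s‖ + 1) / ‖v‖ := by positivity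
  have h2 := hR _ (h1 (mem_Ici.2 ht))
  have h3 := norm_sub_le (s + ((R + ‖s‖ + 1) / ‖v‖) • v) s
  rw [add_sub_cancel_left, norm_smul, Real.norm_of_nonneg ht, div_mul_cancel₀ _ hv'.ne'] at h3
  linarith

theorem om_const {D C : Set ℂ} (hD : IsOpen D) (hb : Bornology.IsBounded D) (hC : Convex ℝ C)
    {g : ℂ → ℂ} (hg : DifferentiableOn ℂ g D) (hc : ContinuousOn g (closure D)) {w : ℂ}
    (hfr : ∀ s ∈ frontier D, g s = w → s ∈ C) {s : ℂ} (hs : s ∈ D) (h : ∀ᶠ y in 𝓝 s, g y = w) :
    s ∈ C := by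
  have hU : IsOpen (D ∩ {z | ∀ᶠ y in 𝓝 z, g y = w}) := hD.inter isOpen_setOfPred_eventually_nhds
  have key : ∀ z ∈ closure (D ∩ {z | ∀ᶠ y in 𝓝 z, g y = w}),
      z ∉ D ∩ {z | ∀ᶠ y in 𝓝 z, g y = w} → z ∈ C := fun z h1 h2 => by
    have h3 : z ∈ closure D := closure_mono inter_subset_left h1
    have h4 : g z = w := by
      have h5 := ((hc z h3).mono (inter_subset_left.trans subset_closure)).mem_closure h1
        (t := {w}) fun y hy => hy.2.self_of_nhds
      simpa using h5
    refine hfr z ?_ h4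
    rw [hD.frontier_eq]
    refine ⟨h3, fun h5 => h2 ⟨h5, ?_⟩⟩
    refine ((hg.analyticAt (hD.mem_nhds h5)).frequently_eq_iff_eventually_eq analyticAt_const).1 ?_
    rw [frequently_nhdsWithin_iff]
    exact (mem_closure_iff_frequently.1 h1).mono fun y hy =>
      ⟨hy.2.self_of_nhds, fun e => h2 (e ▸ hy)⟩
  obtain ⟨a, ha, h1, h2⟩ := om_ray hU (hb.subset inter_subset_left) ⟨hs, h⟩ one_ne_zero
  obtain ⟨b, hb', h3, h4⟩ := om_ray hU (hb.subset inter_subset_left) ⟨hs, h⟩
    (neg_ne_zero.2 one_ne_zero)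
  have hab : 0 < a + b := by positivity
  have h5 := hC (key _ h1 h2) (key _ h3 h4) (a := b / (a + b)) (b := a / (a + b)) (by positivity)
    (by positivity) (by field_simp; ring)
  convert h5 using 1
  have h6 : ((a : ℂ) + b) ≠ 0 := by exact_mod_cast hab.ne'
  simp only [Complex.real_smul]
  push_cast
  field_simp
  ring

theorem om_max {D C : Set ℂ} (hD : IsOpen D) (hb : Bornology.IsBounded D) (hC : Convex ℝ C)
    (hCc : IsClosed C) (hDC : Disjoint D C) {g : ℂ → ℂ} (hg : DifferentiableOn ℂ g D)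
    (hc : ContinuousOn g (closure D)) {m : ℝ} (hm : 0 ≤ m)
    (hfr : ∀ s ∈ frontier D, ‖g s‖ ≤ m ∨ (s ∈ C ∧ (g s).im = 0 ∧ 0 ≤ (g s).re)) :
    ∀ s ∈ closure D, ‖g s‖ ≤ m := by
  have hB : ∀ s ∈ D, m < ‖g s‖ → g '' D ∈ 𝓝 (g s) := fun s hs h => by
    rcases (hg.analyticAt (hD.mem_nhds hs)).eventually_constant_or_nhds_le_map_nhds with h1 | h1
    · refine absurd (om_const hD hb hC hg hc (fun z hz e => ?_) hs h1) (disjoint_left.1 hDC hs)
      exact ((hfr z hz).resolve_left (by rw [e]; exact not_le.2 h)).1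
    · exact h1 (image_mem_map (hD.mem_nhds hs))
  have hT : IsCompact (g '' closure D) := hb.isCompact_closure.image_of_continuousOn hc
  have hA : ∀ s ∈ D, m < ‖g s‖ → (g s).im = 0 := fun s hs h => by
    by_contra him
    have h1 : ∀ z ∈ D, m < ‖g z‖ → g z ∈ interior (g '' closure D) := fun z hz h' =>
      mem_interior_iff_mem_nhds.2 (mem_of_superset (hB z hz h') (image_mono subset_closure))
    obtain ⟨t, ht, h2, h3⟩ := om_ray isOpen_interior (hT.isBounded.subset interior_subset)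
      (h1 s hs h) (v := g s) fun e => him (by rw [e]; rfl)
    obtain ⟨z, hz, e⟩ := hT.isClosed.closure_subset (closure_mono interior_subset h2)
    have e' : g z = (1 + t) • g s := by rw [e, add_smul, one_smul]
    have h4 : m < ‖g z‖ := by
      rw [e', norm_smul, Real.norm_of_nonneg (by positivity)]
      exact h.trans_le (le_mul_of_one_le_left (norm_nonneg _) (by linarith))
    refine h3 (e ▸ h1 z ?_ h4)
    by_contra h5
    have h6 := ((hfr z (by rw [hD.frontier_eq]; exact ⟨hz, h5⟩)).resolve_left (not_le.2 h4)).2.1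
    rw [e', Complex.smul_im, smul_eq_mul] at h6
    exact mul_ne_zero (by positivity) him h6
  have hle : ∀ s ∈ D, ‖g s‖ ≤ m := fun s hs => by
    by_contra h
    rw [not_le] at h
    have h1 : g '' D ∩ {w | m < ‖w‖} ∈ 𝓝 (g s) :=
      inter_mem (hB s hs h) ((isOpen_lt continuous_const continuous_norm).mem_nhds h)
    have hf : Continuous fun t : ℝ => g s + t * I := by fun_prop
    have h2 : ∀ᶠ t : ℝ in 𝓝 0, g s + t * I ∈ g '' D ∩ {w | m < ‖w‖} :=
      hf.continuousAt.preimage_mem_nhds (by simpa using h1)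
    obtain ⟨t, ⟨⟨z, hz, e⟩, h3⟩, ht⟩ :=
      ((h2.filter_mono nhdsWithin_le_nhds).and (self_mem_nhdsWithin (s := {0}ᶜ))).exists
    have h4 := hA z hz (by rw [e]; exact h3)
    rw [e] at h4
    exact ht (by simpa [hA s hs h] using h4)
  intro s hs
  have h1 := ((hc s hs).mono subset_closure).mem_closure hs (t := closedBall 0 m)
    fun y hy => mem_closedBall_zero_iff.2 (hle y hy)
  rwa [isClosed_closedBall.closure_eq, mem_closedBall_zero_iff] at h1

end Pool.Agent.NapOT
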