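import Pool.Agent.Lib.MP_b71113_an.OT.Hol
import Pool.Agent.Lib.MP_b71113_an.OT.Cmp
import Pool.Agent.Lib.MP_b71113_an.OT.OM

/-! The upper bound. -/

namespace Pool.Agent.NapOT

open MeasureTheory Set Metric Complex ComplexConjugate Filter Topology
open scoped NNReal ENNReal Pointwise

variable {Ω : Set ℂ} {r₁ r₂ : ℝ}

lemma up_dat {B : Set ℂ} (hΩ : Body Ω) (hB : Body B) (h0 : (0 : ℂ) ∈ B)
    (hm : volume.real B ≤ volume.real Ω) : Dat Ω B 0 (volume.real Ω - volume.real B) :=
  ⟨hΩ, hB, le_rfl, sub_nonneg.2 hm, by ring, Or.inl rfl, Or.inr (subset_closure h0)⟩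

theorem exists_tr {B : Set ℂ} (hΩ : Body Ω) (hB : Body B) (h0 : (0 : ℂ) ∈ B)
    (hm : volume.real B ≤ volume.real Ω) :
    ∃ v, Tr Ω B (volume.real Ω - volume.real B) v (gradient (cj (closure B) v)) := by
  obtain ⟨R, hR0, hR⟩ := hΩ.isCompact.isBounded.exists_pos_norm_le
  obtain ⟨v, hv, -⟩ := exists_min (up_dat hΩ hB h0 hm) (L := ⟨R, hR0.le⟩) hR
  exact ⟨v, Min.tr (up_dat hΩ hB h0 hm) hv⟩

theorem isClosed_hull (Ω B : Set ℂ) : IsClosed {x | Hull Ω B x} := by
  simp only [Hull, ofPred_forall]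
  refine isClosed_iInter fun P => isClosed_iInter fun hP => isClosed_iInter fun M =>
    isClosed_iInter fun _ => isClosed_iInter fun _ => isClosed_le ?_ continuous_const
  exact (hP.continuous.comp (continuous_conj.prodMk continuous_id)).norm

theorem hull_frontier {B B' : Set ℂ} (hΩ : Body Ω) (hB : Body B) (h0 : (0 : ℂ) ∈ B)
    (hBB : closure B ⊆ closure B') (hs : ∀ q ∈ B', -q ∈ B') {β : ℝ} (hD : Dat Ω B 0 β)
    {v : ℂ → ℝ} {T : ℂ → ℂ} (h : Tr Ω B β v T) {x : ℂ} (hx : x ∈ Ω)
    (hf : x ∈ frontier (cz (closure B) v)) : Hull Ω B' x := by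
  intro P hP M hM hK
  have hne : (closure B).Nonempty := ⟨0, subset_closure h0⟩
  have hmd := h.md hB
  have hz := prox_eq_zero hB.isCompact hne h.cont h.cvx
  have hin : ∀ a, prox (closure B) v a ∈ closure B := fun a =>
    (prox_gam hB.isCompact hne h.cont h.cvx a).1
  generalize prox (closure B) v = p at hmd hz hin
  have hp : Continuous p := hmd.mono.lip.continuous
  have hφ : Continuous (gr p) := hmd.mono.lip_gr.continuous
  have hX : Continuous fun a => a - p a := continuous_id.sub hp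
  set U : Set ℂ := {a | a - p a ∈ Ω ∧ p a ≠ 0} with hU
  have hUo : IsOpen U := (hΩ.op.preimage hX).inter (isOpen_ne_fun hp continuous_const)
  have hol := hmd.hol hD hUo fun a ha =>
    ⟨subset_closure ha.1, hin a, Or.inl rfl, Or.inr ha.2⟩
  have hQ : Differentiable ℂ (star ∘ P ∘ star) := fun z => by
    simpa using (hP (star z)).star_star
  set g : ℂ → ℂ := fun s => P (s, gr p s) * (star ∘ P ∘ star) (gr p s, s) with hg
  have hg' : ∀ s, g s = P (s, gr p s) * conj (P (conj (gr p s), conj s)) := fun s => rfl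
  have hneg : ∀ q ∈ closure B', -q ∈ closure B' := fun q hq =>
    map_mem_closure continuous_neg hq hs
  have key := om_max (D := {s | conj s ∈ U}) (C := {s | p (conj s) = 0}) (g := g) (m := M * M)
    (hUo.preimage continuous_conj) ?_ ?_ (isClosed_eq (hp.comp continuous_conj) continuous_const)
    (Set.disjoint_left.2 fun s h1 h2 => h1.2 h2) ?_ ?_ (mul_nonneg hM hM) ?_
  · have hx0 : p x = 0 := (hz x).2 ((isClosed_cz _ _).frontier_subset hf)
    have hxU : x ∈ closure U := by
      have h1 : x ∈ closure (cz (closure B) v)ᶜ := by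
        rw [frontier_eq_closure_inter_closure] at hf
        exact hf.2
      have h2 : x ∈ (fun a => a - p a) ⁻¹' Ω := by simpa [hx0] using hx
      refine closure_mono ?_ ((hΩ.op.preimage hX).inter_closure ⟨h2, h1⟩)
      exact fun a ha => ⟨ha.1, fun h3 => ha.2 ((hz a).1 h3)⟩
    have h3 := key (conj x) (map_mem_closure continuous_conj hxU fun a ha => by simpa using ha)
    have h4 : gr p (conj x) = x := by simp [gr, hx0]
    rw [hg', h4, conj_conj, norm_mul, RCLike.norm_conj] at h3
    exact abs_le_of_sq_le_sq' (by nlinarith) hM |>.2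
  · obtain ⟨R, hR⟩ := hΩ.bd.exists_norm_le
    obtain ⟨R', hR'⟩ := hB.isCompact.isBounded.exists_norm_le
    refine isBounded_iff_forall_norm_le.2 ⟨R + R', fun s hs => ?_⟩
    have h1 := norm_add_le (conj s - p (conj s)) (p (conj s))
    rw [sub_add_cancel, RCLike.norm_conj] at h1
    linarith [hR _ hs.1, hR' _ (hin (conj s))]
  · exact (hmd.mono.convex_fibre 0).linear_preimage (conjAe.toLinearMap)
  · exact (hP.comp_differentiableOn (differentiableOn_id.prodMk hol)).mul
      (hQ.comp_differentiableOn (hol.prodMk differentiableOn_id))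
  · exact ((hP.continuous.comp (continuous_id.prodMk hφ)).mul
      (hQ.continuous.comp (hφ.prodMk continuous_id))).continuousOn
  · intro s hs'
    have h1 : conj s - p (conj s) ∈ closure Ω :=
      map_mem_closure (f := fun s => conj s - p (conj s)) (hX.comp continuous_conj)
        (frontier_subset_closure hs') fun a ha => ha.1
    have h2 : conj s ∉ U := ((hUo.preimage continuous_conj).frontier_eq.subset hs').2
    by_cases h3 : conj s - p (conj s) ∈ Ω
    · have h4 : p (conj s) = 0 := by_contra fun h4 => h2 ⟨h3, h4⟩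
      have h5 : gr p s = conj s := by simp [gr, h4]
      refine Or.inr ⟨h4, ?_⟩
      rw [hg', h5, conj_conj, mul_conj]
      exact ⟨ofReal_im _, by rw [ofReal_re]; exact normSq_nonneg _⟩
    · have h4 : conj s - p (conj s) ∈ frontier Ω := by
        rw [hΩ.op.frontier_eq]
        exact ⟨h1, h3⟩
      left
      rw [hg', norm_mul, RCLike.norm_conj]
      refine mul_le_mul (hK _ ⟨?_, ?_⟩) (hK _ ⟨?_, ?_⟩) (norm_nonneg _) hM
      · convert h4 using 1
        simp only [gr]
        ring
      · convert hBB (hin (conj s)) using 1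
        simp only [gr]
        ring
      · convert h4 using 1
        simp only [conj_conj, gr]
        ring
      · convert hneg _ (hBB (hin (conj s))) using 1
        simp only [conj_conj, gr]
        ring

lemma up_add {C N E : Set ℂ} (hN : MeasurableSet N) (hd : Disjoint C N) (hC : C ⊆ E)
    (hNE : N ⊆ E) (hE : volume E ≠ ⊤) : volume.real C + volume.real N ≤ volume.real E := by
  rw [← measureReal_union hd hN (measure_ne_top_of_subset hC hE) (measure_ne_top_of_subset hNE hE)]
  exact measureReal_mono (union_subset hC hNE) hE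

lemma up_vol_closure (hΩ : Body Ω) : volume.real (closure Ω) ≤ volume.real Ω := by
  have h1 := measureReal_union_le (μ := volume) Ω (closure Ω \ Ω)
  rw [union_sdiff_cancel subset_closure, measureReal_def _ (closure Ω \ Ω), hΩ.vol_closure] at h1
  simpa using h1

lemma up_key {B : Set ℂ} (hΩ : Body Ω) (hB : Body B) (hs : ∀ q ∈ B, -q ∈ B) {x : ℂ} {r : ℝ}
    (hr : 0 < r) (hN : ball x r ⊆ Ω) (hH : ∀ y ∈ ball x r, ¬ Hull Ω B y) (k : ℕ) :
    ∀ t : ℝ, 0 < t → t ≤ 1 → volume.real (t • B) ≤ volume.real Ω →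
      volume.real (t • B) < k * volume.real (ball x r) → ∀ v T,
        Tr Ω (t • B) (volume.real Ω - volume.real (t • B)) v T →
          ball x r ⊆ cz (closure (t • B)) v := by
  have h0 := hB.zero_mem hs
  have hb := hB.vol_pos
  have h0t : ∀ t : ℝ, (0 : ℂ) ∈ t • B := fun t => ⟨0, h0, smul_zero t⟩
  have hfin : volume (closure Ω) ≠ ⊤ := hΩ.isCompact.measure_lt_top.ne
  induction k with
  | zero =>
    intro t ht _ _ h
    have := (hB.smul ht.ne').vol_pos
    simp only [Nat.cast_zero, zero_mul] at h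
    linarith
  | succ k ih =>
    intro t ht ht1 hm hk v T h
    have hBt := hB.smul ht.ne'
    have hD := up_dat hΩ hBt (h0t t) hm
    have hsub : closure (t • B) ⊆ closure B := by
      refine closure_mono ?_
      rintro _ ⟨q, hq, rfl⟩
      exact hB.cv.smul_mem_of_zero_mem h0 hq ⟨ht.le, ht1⟩
    refine (ball_subset_or_disjoint fun y hy hf =>
      hH y hy (hull_frontier hΩ hBt (h0t t) hsub hs hD h (hN hy) hf)).resolve_right fun hd => ?_
    have hv : volume.real (cz (closure (t • B)) v) = volume.real Ω - volume.real (t • B) := by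
      rw [measureReal_def, h.vol_cz hD (h0t t), ENNReal.toReal_ofReal hD.hb]
    have h1 := up_add measurableSet_ball hd (h.cz_subset hD (h0t t)) (hN.trans subset_closure) hfin
    have h2 := up_vol_closure hΩ
    have hne : (ball x r).Nonempty := nonempty_ball.2 hr
    by_cases h3 : volume.real (t • B) < k * volume.real (ball x r)
    · obtain ⟨y, hy⟩ := hne
      exact Set.disjoint_left.1 hd (ih t ht ht1 hm h3 v T h hy) hy
    push Not at h3
    push_cast at hk
    set n := volume.real (ball x r)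
    set s := volume.real (t • B) with hsdef
    set s' := (s - n + k * n) / 2 with hs'
    have hs0 : 0 < s' := by rw [hs']; nlinarith
    set t' := Real.sqrt (s' / volume.real B) with ht'
    have ht'0 : 0 < t' := Real.sqrt_pos.2 (div_pos hs0 hb)
    have hvol : volume.real (t' • B) = s' := by
      rw [vol_smul, ht', Real.sq_sqrt (div_pos hs0 hb).le, div_mul_cancel₀ _ hb.ne']
    have hss : s' < s := by rw [hs']; nlinarith
    have htt : t' < t := by
      have h4 : t' ^ 2 * volume.real B < t ^ 2 * volume.real B := by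
        rw [← vol_smul, ← vol_smul, hvol]
        exact hss
      exact lt_of_pow_lt_pow_left₀ 2 ht.le (lt_of_mul_lt_mul_right h4 hb.le)
    have hBt' := hB.smul ht'0.ne'
    have hm' : volume.real (t' • B) ≤ volume.real Ω := by linarith
    have hD' := up_dat hΩ hBt' (h0t t') hm'
    obtain ⟨v', h'⟩ := exists_tr hΩ hBt' (h0t t') hm'
    have h5 := ih t' ht'0 (by linarith) hm' (by rw [hvol, hs']; nlinarith) v' _ h'
    have h6 := cmp h h' hBt' (h0t t') Subset.rfl ((one_lt_div ht'0).2 htt) (by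
      rintro _ ⟨q, hq, rfl⟩
      refine ⟨q, hq, ?_⟩
      simp only [smul_smul]
      rw [div_mul_cancel₀ _ ht'0.ne'])
    have h7 := up_add measurableSet_ball hd h6 h5
      (measure_ne_top_of_subset (h'.cz_subset hD' (h0t t')) hfin)
    have hv' : volume.real (cz (closure (t' • B)) v') = volume.real Ω - volume.real (t' • B) := by
      rw [measureReal_def, h'.vol_cz hD' (h0t t'), ENNReal.toReal_ofReal hD'.hb]
    rw [hv, hv', hvol, hs'] at h7
    nlinarith

lemma up_ball {B : Set ℂ} (hΩ : Body Ω) (hB : Body B) (hs : ∀ q ∈ B, -q ∈ B) {x : ℂ}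
    (hx : x ∈ Ω) (hH : ¬ Hull Ω B x) : ∃ r, 0 < r ∧ ∀ t : ℝ, 0 < t → t ≤ 1 →
      volume.real (t • B) ≤ volume.real Ω → ∀ v T,
        Tr Ω (t • B) (volume.real Ω - volume.real (t • B)) v T →
          ball x r ⊆ cz (closure (t • B)) v := by
  obtain ⟨r, hr, hN⟩ := Metric.isOpen_iff.1 (hΩ.op.inter (isClosed_hull Ω B).isOpen_compl) x
    ⟨hx, hH⟩
  refine ⟨r, hr, fun t ht ht1 hm => ?_⟩
  have hn : 0 < volume.real (ball x r) :=
    ENNReal.toReal_pos (measure_ball_pos _ _ hr).ne' measure_ball_lt_top.ne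
  obtain ⟨k, hk⟩ := exists_nat_gt (volume.real (t • B) / volume.real (ball x r))
  exact up_key hΩ hB hs hr (fun y hy => (hN hy).1) (fun y hy => (hN hy).2) k t ht ht1 hm
    ((div_lt_iff₀ hn).1 hk)

lemma up_box_neg : ∀ q ∈ box r₁ r₂, -q ∈ box r₁ r₂ := fun q hq => by
  simpa [box] using hq

theorem up_zero (hΩ : Body Ω) (h1 : 0 < r₁) (h2 : 0 < r₂) (hm : volume.real Ω ≤ 4 * r₁ * r₂)
    {x : ℂ} (hx : x ∈ Ω) : Hull Ω (box r₁ r₂) x := by
  by_contra hH
  have hB := body_box h1 h2
  obtain ⟨r, hr, h⟩ := up_ball hΩ hB up_box_neg hx hH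
  rw [← vol_box h1.le h2.le] at hm
  have hq := div_pos hΩ.vol_pos hB.vol_pos
  set t := Real.sqrt (volume.real Ω / volume.real (box r₁ r₂)) with ht
  have ht0 : 0 < t := Real.sqrt_pos.2 hq
  have hvol : volume.real (t • box r₁ r₂) = volume.real Ω := by
    rw [vol_smul, ht, Real.sq_sqrt hq.le, div_mul_cancel₀ _ hB.vol_pos.ne']
  have h0 : (0 : ℂ) ∈ t • box r₁ r₂ := ⟨0, hB.zero_mem up_box_neg, smul_zero t⟩
  obtain ⟨v, hv⟩ := exists_tr hΩ (hB.smul ht0.ne') h0 hvol.le
  have h3 := measure_mono (μ := volume)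
    (h t ht0 (Real.sqrt_le_one.2 ((div_le_one hB.vol_pos).2 hm)) hvol.le v _ hv)
  rw [hv.vol_cz (up_dat hΩ (hB.smul ht0.ne') h0 hvol.le) h0, hvol, sub_self,
    ENNReal.ofReal_zero] at h3
  exact absurd h3 (measure_ball_pos _ _ hr).not_ge

theorem up (hΩ : Body Ω) (h1 : 0 < r₁) (h2 : 0 < r₂) (hm : 4 * r₁ * r₂ < volume.real Ω)
    {v : ℂ → ℝ} {T : ℂ → ℂ} (h : Tr Ω (box r₁ r₂) (volume.real Ω - 4 * r₁ * r₂) v T) {x : ℂ}
    (hx : x ∈ Ω) (hn : x ∉ cz (closure (box r₁ r₂)) v) : Hull Ω (box r₁ r₂) x := by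
  by_contra hH
  obtain ⟨r, hr, h'⟩ := up_ball hΩ (body_box h1 h2) up_box_neg hx hH
  have h3 := h' 1 one_pos le_rfl
  rw [one_smul, vol_box h1.le h2.le] at h3
  exact hn (h3 hm.le v T h (mem_ball_self hr))

end Pool.Agent.NapOT
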