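import Pool.Agent.Lib.MP_b71113_an.OT.Bridge
import Pool.Agent.Lib.MP_b71113_an.OT.Low
import Pool.Agent.Lib.MP_b71113_an.OT.Up

/-! The planar theorem. -/

namespace Pool.Agent.NapOT

open MeasureTheory Set Metric Complex ComplexConjugate Filter Topology
open scoped NNReal ENNReal Pointwise

open Pool.Agent.Lib.MP_b71113_an

theorem planar (Ω : Set (Fin 2 → ℝ)) (hΩ : IsOpen Ω) (hconv : Convex ℝ Ω)
    (hb : Bornology.IsBounded Ω) (c : Fin 2 → ℝ) (hc : ∀ j, 0 < c j) :
    (volume.real Ω ≤ 4 * c 0 * c 1 → vanishingSet Ω c = ∅) ∧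
    (4 * c 0 * c 1 < volume.real Ω → (∃ u, Brenier Ω c u) ∧ ∀ u, Brenier Ω c u →
      volume.real (argmin Ω u) = volume.real Ω - 4 * c 0 * c 1 ∧
      vanishingSet Ω c = interior (argmin Ω u)) := by
  have hc0 : ∀ j, 0 ≤ c j := fun j => (hc j).le
  have hform := convex_formula (n := 2) two_pos hΩ hconv hc0
  have hvol : ∀ S : Set (Fin 2 → ℝ), volume.real (eq2 '' S) = volume.real S := fun S => by
    simp only [Measure.real, vol_image]
  have hcc : 0 < 4 * c 0 * c 1 := by have := hc 0; have := hc 1; positivity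
  refine ⟨fun hm => ?_, fun hm => ?_⟩
  · rcases Ω.eq_empty_or_nonempty with rfl | hne
    · rw [hform]; simp
    have hB := body_image hΩ hconv hb hne
    have hH : Ω ⊆ hullSet Ω c := fun x hx => mem_hullSet hc hx
      (up_zero hB (hc 1) (hc 0) (by rw [hvol]; linarith) (mem_image_of_mem _ hx))
    rw [hform, sdiff_eq_empty]
    exact (hΩ.subset_interior_iff.2 hH).trans subset_closure
  have hne : Ω.Nonempty := by
    rcases Ω.eq_empty_or_nonempty with rfl | hne
    · simp only [measureReal_empty] at hm; linarith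
    · exact hne
  have hB := body_image hΩ hconv hb hne
  have hQ := body_box (hc 1) (hc 0)
  have hQ0 : (0 : ℂ) ∈ box (c 1) (c 0) := by simp [box, hc 0, hc 1]
  have hQv := vol_box (hc0 1) (hc0 0)
  have hβ : volume.real (eq2 '' Ω) - 4 * c 1 * c 0 = volume.real Ω - 4 * c 0 * c 1 := by
    rw [hvol]; ring
  refine ⟨?_, fun u hu => ?_⟩
  · obtain ⟨v, hv⟩ := exists_tr hB hQ hQ0 (by rw [hQv, hvol]; linarith)
    rw [hQv, hβ] at hv
    exact ⟨_, brenier_of_tr hB hc hv⟩
  obtain ⟨v, T, hT, hcz⟩ := tr_of_brenier hB hc hu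
  have hD : Dat (eq2 '' Ω) (box (c 1) (c 0)) 0 (volume.real Ω - 4 * c 0 * c 1) :=
    ⟨hB, hQ, le_rfl, by linarith, by rw [hvol, hQv]; ring, Or.inl rfl,
      Or.inr (subset_closure hQ0)⟩
  set C := cz (closure (box (c 1) (c 0))) v with hC
  have harg : argmin Ω u = Ω ∩ eq2 ⁻¹' C := by
    ext x
    exact ⟨fun h => ⟨h.1, (hcz x h.1).1 h⟩, fun h => (hcz x h.1).2 h.2⟩
  have hT' : Tr (eq2 '' Ω) (box (c 1) (c 0)) (volume.real (eq2 '' Ω) - 4 * c 1 * c 0) v T := by
    rw [hβ]; exact hT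
  have hsub : vanishingSet Ω c ⊆ interior (argmin Ω u) := by
    refine (isOpen_vanishingSet Ω c).subset_interior_iff.2 fun x hx => ?_
    rw [hform] at hx
    rw [harg]
    refine ⟨hx.1, ?_⟩
    by_contra hn
    refine hx.2 (subset_closure ?_)
    have hO : IsOpen (Ω ∩ (eq2 ⁻¹' C)ᶜ) :=
      hΩ.inter ((isClosed_cz _ _).preimage eq2.continuous).isOpen_compl
    refine interior_maximal (fun y hy => ?_) hO ⟨hx.1, hn⟩
    exact mem_hullSet hc hy.1 (up hB (hc 1) (hc 0) (by rw [hvol]; linarith) hT'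
      (mem_image_of_mem _ hy.1) hy.2)
  refine ⟨?_, hsub.antisymm ?_⟩
  · have h1 : eq2 '' argmin Ω u = eq2 '' Ω ∩ C := by
      rw [harg, image_inter_preimage]
    have h2 : volume (eq2 '' Ω ∩ C) = volume C := by
      refine le_antisymm (measure_mono inter_subset_right) ?_
      calc volume C ≤ volume (eq2 '' Ω ∩ C ∪ closure (eq2 '' Ω) \ eq2 '' Ω) := by
            refine measure_mono fun y hy => ?_
            by_cases h : y ∈ eq2 '' Ω
            · exact Or.inl ⟨h, hy⟩
            · exact Or.inr ⟨hT.cz_subset hD hQ0 hy, h⟩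
        _ ≤ _ := measure_union_le _ _
        _ = _ := by rw [hB.vol_closure, add_zero]
    rw [← hvol, h1, Measure.real, h2, hT.vol_cz hD hQ0, ENNReal.toReal_ofReal (by linarith)]
  · have hWΩ : interior (argmin Ω u) ⊆ Ω := interior_subset.trans fun x hx => hx.1
    refine subset_sUnion_of_mem ⟨isOpen_interior, hWΩ, fun f F hf x hx => ?_⟩
    have hm' : 4 * c 1 * c 0 < volume.real (eq2 '' Ω) := by rw [hvol]; linarith
    by_contra hg
    have hcont : ContinuousAt (gfun F) x := (continuousOn_gfun hf).continuousAt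
      (hΩ.mem_nhds (hWΩ hx))
    have h1 : ∀ᶠ y in 𝓝 x, gfun F y ≠ 0 ∧ y ∈ argmin Ω u :=
      (hcont.eventually_ne hg).and (mem_interior_iff_mem_nhds.1 hx)
    have h2 : ∀ᶠ y in 𝓝 (eq2 x), gfun F (eq2.symm y) ≠ 0 ∧ eq2.symm y ∈ argmin Ω u := by
      have : Tendsto eq2.symm (𝓝 (eq2 x)) (𝓝 x) := by
        simpa using eq2.symm.continuous.tendsto (eq2 x)
      exact this.eventually h1
    obtain ⟨ρ, hρ, h3⟩ := Metric.eventually_nhds_iff_ball.1 h2
    obtain ⟨y, hy, hyΩ, hsep⟩ := low hB (hc 1) (hc 0) hm' hT' hρ (x := eq2 x) fun y hy => by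
      have := (h3 y hy).2
      rw [harg] at this
      simpa using this.2
    obtain ⟨y, hy', rfl⟩ := hyΩ
    have := (h3 _ hy).1
    rw [eq2.symm_apply_apply] at this
    exact this (gfun_eq_zero hΩ hb hc hy' hsep hf)

theorem vol_interior_argmin {Ω : Set (Fin 2 → ℝ)} {u : (Fin 2 → ℝ) → ℝ} (h : ConvexOn ℝ Ω u) :
    volume.real (interior (argmin Ω u)) = volume.real (argmin Ω u) := by
  have hc : Convex ℝ (argmin Ω u) := fun x hx y hy a b ha hb hab => by
    refine ⟨h.1 hx.1 hy.1 ha hb hab, fun w hw => (h.2 hx.1 hy.1 ha hb hab).trans ?_⟩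
    have e : u w = a * u w + b * u w := by rw [← add_mul, hab, one_mul]
    rw [e, smul_eq_mul, smul_eq_mul]
    exact add_le_add (mul_le_mul_of_nonneg_left (hx.2 w hw) ha)
      (mul_le_mul_of_nonneg_left (hy.2 w hw) hb)
  rw [Measure.real, Measure.real,
    measure_congr (interior_ae_eq_of_null_frontier (hc.addHaar_frontier volume))]

end Pool.Agent.NapOT
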