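import Pool.Agent.Lib.MP_b71113_an.OT.Un0
import Pool.Agent.Lib.MP_b71113_an.OT.Main

/-! The vanishing set in the complex model. -/

namespace Pool.Agent.NapOT

open MeasureTheory Set Metric Complex ComplexConjugate Filter Topology
open scoped NNReal ENNReal Pointwise

open Pool.Agent.Lib.MP_b71113_an

/-- the vanishing set in the complex model -/
def van (c : Fin 2 → ℝ) (A : Set ℂ) : Set ℂ := eq2 '' vanishingSet (eq2 ⁻¹' A) c

variable {A : Set ℂ} {c : Fin 2 → ℝ}

theorem van_mono {A' : Set ℂ} (h : A ⊆ A') : van c A ⊆ van c A' :=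
  image_mono (vanishingSet_mono (preimage_mono h) c)

theorem un4_image (A : Set ℂ) : eq2 '' (eq2 ⁻¹' A) = A := image_preimage_eq _ eq2.surjective

theorem un4_convex (h : Convex ℝ A) : Convex ℝ (eq2 ⁻¹' A) :=
  h.linear_preimage eq2.toLinearEquiv.toLinearMap

theorem un4_tr {B : Set ℂ} (hB : Body B) {β : ℝ} {v : ℂ → ℝ} {T : ℂ → ℂ} (h : Tr A B β v T) :
    Tr A B β v (gradient (cj (closure B) v)) := by
  have hd : ∀ᵐ x, DifferentiableAt ℝ (cj (closure B) v) x :=
    (bridge_ae_diff isOpen_univ (cj_convex hB.isCompact hB.ne.closure h.cont)).mono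
      fun x hx => hx (mem_univ x)
  have he : gradient (cj (closure B) v) =ᵐ[volume.restrict A] T := by
    filter_upwards [h.gam, ae_restrict_of_ae hd] with x a b
    exact a.eq_gradient hB.isCompact h.cont b
  refine ⟨h.cont, h.cvx,
    (InnerProductSpace.toDual ℝ ℂ).symm.continuous.measurable.comp (measurable_fderiv ℝ _),
    (Measure.map_congr he).trans h.map, ?_⟩
  filter_upwards [h.gam, he] with x a b
  rw [b]
  exact a

theorem van_body (hA : Body A) (hc : ∀ j, 0 < c j)
    (hmA : 4 * c 1 * c 0 < volume.real A) {v : ℂ → ℝ} {T : ℂ → ℂ}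
    (h : Tr A (box (c 1) (c 0)) (volume.real A - 4 * c 1 * c 0) v T) :
    van c A = interior (cz (closure (box (c 1) (c 0))) v) := by
  have hQ := body_box (hc 1) (hc 0)
  have hQ0 : (0 : ℂ) ∈ box (c 1) (c 0) := by simp [box, hc 0, hc 1]
  have hvol : ∀ S : Set ℂ, volume.real (eq2 ⁻¹' S) = volume.real S := fun S => by
    rw [Measure.real, ← vol_image, un4_image, Measure.real]
  have hD : Dat A (box (c 1) (c 0)) 0 (volume.real A - 4 * c 1 * c 0) :=
    ⟨hA, hQ, le_rfl, by linarith, by rw [vol_box (hc 1).le (hc 0).le]; ring, Or.inl rfl,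
      Or.inr (subset_closure hQ0)⟩
  have hsub := h.cz_subset hD hQ0
  have hbr : Brenier (eq2 ⁻¹' A) c fun x => cj (closure (box (c 1) (c 0))) v (eq2 x) := by
    refine brenier_of_tr (by rw [un4_image]; exact hA) hc ?_
    rw [un4_image, hvol, show 4 * c 0 * c 1 = 4 * c 1 * c 0 by ring]
    exact un4_tr hQ h
  have hbd : Bornology.IsBounded (eq2 ⁻¹' A) := eq2.antilipschitz.isBounded_preimage hA.bd
  have hp := ((planar (eq2 ⁻¹' A) (hA.op.preimage eq2.continuous) (un4_convex hA.cv) hbd c
    hc).2 (by rw [hvol]; linarith)).2 _ hbr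
  have hv := hp.2
  obtain ⟨y, hyA, hy⟩ : (A ∩ cz (closure (box (c 1) (c 0))) v).Nonempty := by
    by_contra hn
    have h1 : volume (cz (closure (box (c 1) (c 0))) v) = 0 :=
      measure_mono_null (t := closure A \ A)
        (fun y hy => ⟨hsub hy, fun hy' => hn ⟨y, hy', hy⟩⟩) hA.vol_closure
    rw [h.vol_cz hD hQ0, ENNReal.ofReal_eq_zero] at h1
    linarith
  have harg : argmin (eq2 ⁻¹' A) (fun x => cj (closure (box (c 1) (c 0))) v (eq2 x)) =
      eq2 ⁻¹' (A ∩ cz (closure (box (c 1) (c 0))) v) := by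
    ext x
    refine and_congr_right fun _ => ⟨fun hx => ?_, fun hx z _ => ?_⟩
    · have a := hx (eq2.symm y) (by rw [mem_preimage, eq2.apply_symm_apply]; exact hyA)
      simp only [eq2.apply_symm_apply] at a
      refine gam_of_cj_le hQ.isCompact h.cont hy.1 ?_
      rw [Gam.cj_eq hy, inner_zero_right] at a
      rw [inner_zero_right]
      exact a
    · have a := le_cj (x := eq2 z) hQ.isCompact h.cont hy.1
      have b := Gam.cj_eq hx
      rw [inner_zero_right] at a b
      exact b.le.trans a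
  have hint : interior (eq2 ⁻¹' (A ∩ cz (closure (box (c 1) (c 0))) v)) =
      eq2 ⁻¹' interior (A ∩ cz (closure (box (c 1) (c 0))) v) :=
    (eq2.toHomeomorph.preimage_interior _).symm
  rw [van, hv, harg, hint, un4_image, interior_inter, hA.op.interior_eq, inter_eq_right]
  exact (interior_mono hsub).trans hA.interior_closure.subset

/-- points in the hulls of all large truncations are in the hull -/
theorem van_subset (hA : IsOpen A) (hcv : Convex ℝ A) (hc : ∀ j, 0 < c j) {F : Set ℂ}
    (hF : IsClosed F)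
    (h : ∀ x ∈ A, x ∉ F → ∀ᶠ n in atTop, Hull (cut A n) (box (c 1) (c 0)) x) :
    van c A ⊆ interior F := by
  have hΩ : IsOpen (eq2 ⁻¹' A) := hA.preimage eq2.continuous
  have hop : IsOpen (van c A) := eq2.toHomeomorph.isOpenMap _ (isOpen_vanishingSet _ c)
  refine hop.subset_interior_iff.2 ?_
  rintro _ ⟨x, hx, rfl⟩
  rw [convex_formula (n := 2) two_pos hΩ (un4_convex hcv) fun j => (hc j).le] at hx
  by_contra hn
  refine hx.2 (subset_closure ?_)
  have hO : IsOpen (eq2 ⁻¹' A ∩ (eq2 ⁻¹' F)ᶜ) :=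
    hΩ.inter (hF.preimage eq2.continuous).isOpen_compl
  refine interior_maximal (fun y hy => ?_) hO ⟨hx.1, hn⟩
  refine ⟨hy.1, fun φ hφ ht M hM0 hM => le_of_forall_pos_le_add fun ε hε => ?_⟩
  have h1 := Metric.tendsto_nhds.1 ht ε hε
  rw [eventually_inf_principal] at h1
  obtain ⟨K, hK, hKs⟩ := mem_cocompact.1 h1
  have hg : Continuous fun z : Fin 2 → ℂ => (conj (bridge_P z).1 + (bridge_P z).2) / 2 :=
    ((continuous_conj.comp bridge_dP.continuous.fst).add bridge_dP.continuous.snd).div_const 2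
  obtain ⟨R, hR⟩ := hK.exists_bound_of_continuousOn hg.continuousOn
  obtain ⟨n, hn1, hn2⟩ := ((h _ hy.1 hy.2).and
    (tendsto_natCast_atTop_atTop.eventually_gt_atTop R)).exists
  have e1 : eq2 '' frontier (eq2 ⁻¹' A) = frontier A :=
    (eq2.toHomeomorph.image_frontier _).trans (congrArg frontier (un4_image A))
  have e2 : eq2 '' closure (eq2 ⁻¹' A) = closure A :=
    (eq2.toHomeomorph.image_closure _).trans (congrArg closure (un4_image A))
  have := hn1 (fun w => φ (bridge_Q w)) (hφ.comp bridge_dQ) (M + ε) (by linarith) fun w hw => by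
    obtain ⟨z, rfl⟩ : ∃ z, w = bridge_P z := ⟨bridge_Q w, (bridge_PQ w).symm⟩
    rw [bridge_QP]
    rcases frontier_inter_subset _ _ hw.1 with a | a
    · have := hM z ((bridge_mem hc _ z).1 ⟨e1.symm ▸ a.1, hw.2⟩)
      linarith
    · have b : z ∉ K := fun hz => by
        have b1 := hR z hz
        have b2 := mem_sphere_zero_iff_norm.1 (frontier_ball_subset_sphere a.2)
        linarith
      have := hKs b ((bridge_mem hc _ z).1 ⟨e2.symm ▸ a.1, hw.2⟩)
      rw [dist_zero_right] at this
      linarith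
  rwa [← bridge_ofR, bridge_QP] at this

end Pool.Agent.NapOT
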