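import Pool.Agent.Lib.MP_b71113_an.OT.Defs

/-!
Convex potentials on planar convex sets that may be unbounded.
-/

namespace Pool.Agent.NapOT

open MeasureTheory Set

/-- The directions `p` such that `x ↦ p · x` is bounded above on `Ω`. -/
def barrier (Ω : Set (Fin 2 → ℝ)) : Set (Fin 2 → ℝ) :=
  {p | ∃ M : ℝ, ∀ x ∈ Ω, p 0 * x 0 + p 1 * x 1 ≤ M}

/-- `u` is convex on `Ω`, and away from the origin the image of the area measure of `Ω` under
the gradient of `u` is the area measure of the part of the rectangle in the barrier cone. -/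
def Potential (Ω : Set (Fin 2 → ℝ)) (c : Fin 2 → ℝ) (u : (Fin 2 → ℝ) → ℝ) : Prop :=
  ConvexOn ℝ Ω u ∧ ((volume.restrict Ω).map (grad u)).restrict {0}ᶜ =
    volume.restrict (rect c ∩ barrier Ω)

end Pool.Agent.NapOT
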