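import Pool.Agent.Lib.MP_b71113_an.OT.Un1
import Pool.Agent.Lib.MP_b71113_an.OT.Defs2

/-! Potentials in the real and in the complex model. -/

namespace Pool.Agent.NapOT

open MeasureTheory Set Metric Complex ComplexConjugate Filter Topology
open scoped NNReal ENNReal Pointwise

open Pool.Agent.Lib.MP_b71113_an

variable {Ω : Set (Fin 2 → ℝ)} {c : Fin 2 → ℝ}

theorem un5_inner (x p : Fin 2 → ℝ) : inner ℝ (eq2 x) (eq2 p) = p 0 * x 0 + p 1 * x 1 := by
  rw [Complex.inner, mul_re, conj_re, conj_im, bridge_re, bridge_re, bridge_im, bridge_im]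
  ring

theorem un5_rect (hc : ∀ j, 0 < c j) : eq2 '' rect c = closure (box (c 1) (c 0)) := by
  rw [closure_box (hc 1) (hc 0)]
  ext p
  obtain ⟨x, rfl⟩ := eq2.surjective p
  rw [eq2.injective.mem_set_image]
  change _ ↔ |(eq2 x).re| ≤ _ ∧ |(eq2 x).im| ≤ _
  rw [bridge_re, bridge_im]
  rfl

theorem un5_convexOn (Ω : Set (Fin 2 → ℝ)) (w : ℂ → ℝ) :
    ConvexOn ℝ Ω (fun y => w (eq2 y)) ↔ ConvexOn ℝ (eq2 '' Ω) w := by
  constructor
  · intro h
    refine ⟨h.1.linear_image eq2.toLinearEquiv.toLinearMap, ?_⟩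
    rintro _ ⟨x, hx, rfl⟩ _ ⟨y, hy, rfl⟩ a b ha hb hab
    have := h.2 hx hy ha hb hab
    simpa only [map_add, map_smul] using this
  · intro h
    have := h.comp_linearMap eq2.toLinearEquiv.toLinearMap
    rwa [show (eq2.toLinearEquiv.toLinearMap : (Fin 2 → ℝ) → ℂ) = eq2 from rfl,
      preimage_image_eq _ eq2.injective] at this

theorem image_barrier (hc : ∀ j, 0 < c j) (Ω : Set (Fin 2 → ℝ)) :
    eq2 '' (rect c ∩ barrier Ω) = closure (box (c 1) (c 0)) ∩ bar (eq2 '' Ω) := by
  rw [image_inter eq2.injective, un5_rect hc]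
  congr 1
  ext p
  obtain ⟨q, rfl⟩ := eq2.surjective p
  rw [eq2.injective.mem_set_image]
  simp only [barrier, bar, mem_ofPred_eq, forall_mem_image, un5_inner]

theorem potential_iff (hc : ∀ j, 0 < c j) (w : ℂ → ℝ) :
    (Potential Ω c fun y => w (eq2 y)) ↔ Bre (eq2 '' Ω) (box (c 1) (c 0)) w := by
  have hT : Measurable (gradient w) :=
    (InnerProductSpace.toDual ℝ ℂ).symm.continuous.measurable.comp (measurable_fderiv ℝ w)
  have hg : Measurable (grad fun y => w (eq2 y)) :=
    measurable_pi_lambda _ fun j => measurable_fderiv_apply_const ℝ _ _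
  have e3 : (volume.restrict (rect c ∩ barrier Ω)).map eq2 =
      volume.restrict (closure (box (c 1) (c 0)) ∩ bar (eq2 '' Ω)) := by
    rw [(eq2_preserving.restrict_image_emb bridge_emb _).map_eq, image_barrier hc]
  have e4 : ((volume.restrict Ω).map (grad fun y => w (eq2 y))).map eq2 =
      (volume.restrict (eq2 '' Ω)).map (gradient w) := by
    rw [← (eq2_preserving.restrict_image_emb bridge_emb Ω).map_eq,
      Measure.map_map bridge_emb.measurable hg, Measure.map_map hT bridge_emb.measurable]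
    congr 1
    exact funext (bridge_grad w)
  have e5 : eq2 ⁻¹' ({0}ᶜ : Set ℂ) = {0}ᶜ := by
    ext x
    simp
  have e6 : (((volume.restrict Ω).map (grad fun y => w (eq2 y))).restrict {0}ᶜ).map eq2 =
      ((volume.restrict (eq2 '' Ω)).map (gradient w)).restrict {0}ᶜ := by
    rw [← e4, bridge_emb.restrict_map, e5]
  constructor
  · intro h
    exact ⟨(un5_convexOn Ω w).1 h.1, by rw [← e6, ← e3, h.2]⟩
  · intro h
    exact ⟨(un5_convexOn Ω w).2 h.cvx, bridge_emb.map_injective (by rw [e6, e3, h.map])⟩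

theorem image_argmin (Ω : Set (Fin 2 → ℝ)) (w : ℂ → ℝ) :
    eq2 '' argmin Ω (fun y => w (eq2 y)) = amin (eq2 '' Ω) w := by
  ext p
  obtain ⟨q, rfl⟩ := eq2.surjective p
  rw [eq2.injective.mem_set_image]
  simp only [argmin, amin, mem_ofPred_eq, forall_mem_image, eq2.injective.mem_set_image]

theorem potential_iff_brenier (hΩ : IsOpen Ω) (hconv : Convex ℝ Ω) (hb : Bornology.IsBounded Ω)
    (hc : ∀ j, 0 < c j) (hm : 4 * c 0 * c 1 < volume.real Ω) (u : (Fin 2 → ℝ) → ℝ) :
    Potential Ω c u ↔ Brenier Ω c u := by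
  obtain ⟨w, rfl⟩ : ∃ w : ℂ → ℝ, u = fun y => w (eq2 y) :=
    ⟨fun p => u (eq2.symm p), funext fun y => by simp⟩
  have hne : Ω.Nonempty := by
    rw [nonempty_iff_ne_empty]
    rintro rfl
    have := mul_pos (mul_pos four_pos (hc 0)) (hc 1)
    rw [measureReal_empty] at hm
    linarith
  have v1 : volume.real (eq2 '' Ω) = volume.real Ω := by
    rw [measureReal_def, measureReal_def, vol_image]
  have v2 : volume.real (box (c 1) (c 0)) = 4 * c 0 * c 1 := by
    rw [vol_box (hc 1).le (hc 0).le]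
    ring
  rw [potential_iff hc, bre_iff (body_image hΩ hconv hb hne) (body_box (hc 1) (hc 0))
    (by rw [v1, v2]; exact hm.le), v1, v2, Brenier, un5_convexOn, bridge_map hc]

end Pool.Agent.NapOT
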