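import Pool.Agent.Lib.MP_b71113_an.OT.Un2
import Pool.Agent.Lib.MP_b71113_an.OT.Un3
import Pool.Agent.Lib.MP_b71113_an.OT.Un4
import Pool.Agent.Lib.MP_b71113_an.OT.Un5

/-! The planar theorem for all convex domains. -/

namespace Pool.Agent.NapOT

open MeasureTheory Set Metric Complex ComplexConjugate Filter Topology
open scoped NNReal ENNReal Pointwise

open Pool.Agent.Lib.MP_b71113_an

theorem unb_main {A : Set ℂ} (hA : IsOpen A) (hcv : Convex ℝ A) (hub : ¬Bornology.IsBounded A)
    {c : Fin 2 → ℝ} (hc : ∀ j, 0 < c j) : (∃ u, Bre A (box (c 1) (c 0)) u) ∧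
      ∀ u, Bre A (box (c 1) (c 0)) u → van c A = interior (amin A u) := by
  have hQ := body_box (hc 1) (hc 0)
  have hQ0 : (0 : ℂ) ∈ box (c 1) (c 0) := by simp [box, hc 0, hc 1]
  have hQv := vol_box (hc 1).le (hc 0).le
  have hne : A.Nonempty := by
    rcases A.eq_empty_or_nonempty with rfl | h
    · exact absurd Bornology.isBounded_empty hub
    · exact h
  obtain ⟨x₀, hx₀⟩ := exists_sym hA hcv hub (4 * c 1 * c 0)
  obtain ⟨n₀, hn₀⟩ := eventually_atTop.1 ((body_cut hA hcv hne).and hx₀)
  have hm : ∀ n ≥ n₀, 4 * c 1 * c 0 < volume.real (cut A n) := fun n hn =>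
    (hn₀ n hn).2.trans_le (measureReal_mono inter_subset_left (hn₀ n hn).1.vol_lt_top.ne)
  have hex : ∀ n, ∃ v : ℂ → ℝ, n ≥ n₀ → Tr (cut A n) (box (c 1) (c 0))
      (volume.real (cut A n) - 4 * c 1 * c 0) v (gradient (cj (closure (box (c 1) (c 0))) v)) := by
    intro n
    by_cases hn : n ≥ n₀
    · obtain ⟨v, hv⟩ := exists_tr (hn₀ n hn).1 hQ hQ0 (by rw [hQv]; exact (hm n hn).le)
      exact ⟨v, fun _ => by rwa [hQv] at hv⟩
    · exact ⟨0, fun h => absurd h hn⟩
  choose v hv using hex
  have hvan : ∀ n ≥ n₀, van c (cut A n) = interior (cz (closure (box (c 1) (c 0))) (v n)) :=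
    fun n hn => van_body (hn₀ n hn).1 hc (hm n hn) (hv n hn)
  have hD : ∀ n ≥ n₀, Dat (cut A n) (box (c 1) (c 0)) 0 (volume.real (cut A n) - 4 * c 1 * c 0) :=
    fun n hn => ⟨(hn₀ n hn).1, hQ, le_rfl, sub_nonneg.2 (hm n hn).le, by rw [hQv]; ring,
      Or.inl rfl, Or.inr (subset_closure hQ0)⟩
  have hint : ∀ n ≥ n₀, (interior (cz (closure (box (c 1) (c 0))) (v n))).Nonempty := by
    intro n hn
    by_contra h
    have h1 := (convex_cz (closure (box (c 1) (c 0))) (v n)).addHaar_frontier volume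
    rw [frontier, not_nonempty_iff_eq_empty.1 h, sdiff_empty, (isClosed_cz _ _).closure_eq,
      (hv n hn).vol_cz (hD n hn) hQ0, ENNReal.ofReal_eq_zero] at h1
    linarith [hm n hn]
  set W : Set ℂ := ⋃ k : ℕ, van c (cut A (n₀ + k)) with hW
  have hmono : Monotone fun k : ℕ => van c (cut A (n₀ + k)) := fun a b h =>
    van_mono (cut_mono A (Nat.add_le_add_left h n₀))
  have hsub : ∀ n ≥ n₀, interior (cz (closure (box (c 1) (c 0))) (v n)) ⊆ W := fun n hn => by
    obtain ⟨k, rfl⟩ := Nat.exists_eq_add_of_le hn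
    rw [← hvan _ hn]
    exact subset_iUnion (fun k : ℕ => van c (cut A (n₀ + k))) k
  have hWo : IsOpen W := isOpen_iUnion fun k => by
    rw [hvan _ (Nat.le_add_right _ _)]; exact isOpen_interior
  have hWc : Convex ℝ W := hmono.directed_le.convex_iUnion fun k => by
    rw [hvan _ (Nat.le_add_right _ _)]; exact (convex_cz _ _).interior
  have hWi : interior (closure W) = W := by
    rw [hWc.interior_closure_eq_interior_of_nonempty_interior
      (by rw [hWo.interior_eq]; exact (hint n₀ le_rfl).mono (hsub n₀ le_rfl)), hWo.interior_eq]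
  have hcz : ∀ n ≥ n₀, cz (closure (box (c 1) (c 0))) (v n) ⊆ closure W := fun n hn => by
    refine Subset.trans ?_ (closure_mono (hsub n hn))
    rw [(convex_cz _ _).closure_interior_eq_closure_of_nonempty_interior (hint n hn)]
    exact subset_closure
  have hAW : van c A = W := by
    refine Subset.antisymm ?_ (iUnion_subset fun k => van_mono (cut_subset A _))
    rw [← hWi]
    refine van_subset hA hcv hc isClosed_closure fun x hx hn => ?_
    filter_upwards [eventually_mem_cut hx, eventually_ge_atTop n₀] with n h1 h2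
    exact up (hn₀ n h2).1 (hc 1) (hc 0) (hm n h2) (hv n h2) h1 fun h => hn (hcz n h2 h)
  refine ⟨?_, fun u hu => ?_⟩
  · obtain ⟨y₀, hy₀⟩ := hint n₀ le_rfl
    refine exists_bre hA hcv hQ (v := v) (y₀ := y₀)
      (β := fun n => volume.real (cut A n) - 4 * c 1 * c 0) ?_
    filter_upwards [eventually_ge_atTop n₀] with n hn
    refine ⟨interior_subset ?_, hv n hn⟩
    rw [← hvan _ hn]
    rw [← hvan _ le_rfl] at hy₀
    exact van_mono (cut_mono A hn) hy₀
  have hamin := hu.amin_nonempty hA hQ (vol_eq_top hA hcv hub)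
  have hWa : W ⊆ interior (amin A u) := by
    refine hWo.subset_interior_iff.2 (iUnion_subset fun k x hx => ?_)
    have hn : n₀ + k ≥ n₀ := Nat.le_add_right _ _
    rw [hvan _ hn] at hx
    obtain ⟨t, β, w, S, ht, hS, hxw⟩ :=
      interior_cz_subset (hn₀ _ hn).1 (hc 1) (hc 0) (hm _ hn) (hv _ hn) hx
    refine hu.cmp hA hQ hQ0 hamin hS (cut_subset A _) ht (fun q hq => ?_) ⟨hxw, ?_⟩
    · have e : 0 < t := by linarith
      simp only [box, mem_ofPred_eq, smul_re, smul_im, smul_eq_mul, abs_mul, abs_of_pos e]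
      exact ⟨mul_lt_mul_of_pos_left hq.1 e, mul_lt_mul_of_pos_left hq.2 e⟩
    · refine cut_subset A (n₀ + k) ?_
      rw [← (hn₀ _ hn).1.interior_closure]
      exact interior_mono ((hv _ hn).cz_subset (hD _ hn) hQ0) hx
  rw [hAW]
  refine hWa.antisymm ?_
  rw [← hWi]
  refine isOpen_interior.subset_interior_iff.2 ?_
  have h1 : volume (A \ closure W) ≤ volume (closure (box (c 1) (c 0)) ∩ bar A) := by
    refine vol_uncovered hA hcv hQ hQ0 (v := v)
      (T := fun n => gradient (cj (closure (box (c 1) (c 0))) (v n))) ?_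
      (hA.measurableSet.diff isClosed_closure.measurableSet) sdiff_subset ?_
    · filter_upwards [eventually_ge_atTop n₀] with n hn
      rw [hQv]
      exact ⟨(hm n hn).le, hv n hn⟩
    · filter_upwards [eventually_ge_atTop n₀] with n hn x hx h
      exact hx.2 (hcz n hn h)
  have hfin : volume (A \ interior (amin A u)) ≠ ⊤ := by
    rw [hu.vol hA]
    exact ((measure_mono inter_subset_left).trans_lt hQ.isCompact.measure_lt_top).ne
  have hEo : IsOpen (interior (amin A u) \ closure W) := isOpen_interior.sdiff isClosed_closure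
  have h2 : volume (A \ interior (amin A u)) + volume (interior (amin A u) \ closure W) ≤
      volume (A \ interior (amin A u)) + 0 := by
    rw [add_zero, ← measure_union (disjoint_sdiff_left.mono_right sdiff_subset) hEo.measurableSet]
    calc _ ≤ volume (A \ closure W ∪ frontier W) := measure_mono ?_
      _ ≤ volume (A \ closure W) + volume (frontier W) := measure_union_le _ _
      _ ≤ _ := by rw [hWc.addHaar_frontier volume, add_zero, hu.vol hA]; exact h1
    rintro x (hx | hx)
    · by_cases h : x ∈ closure W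
      · exact Or.inr ⟨h, fun h' => hx.2 (hWa (interior_subset h'))⟩
      · exact Or.inl ⟨hx.1, h⟩
    · exact Or.inl ⟨(interior_subset hx.1).1, hx.2⟩
  have h3 := (ENNReal.add_le_add_iff_left hfin).1 h2
  rw [nonpos_iff_eq_zero, hEo.measure_eq_zero_iff volume] at h3
  exact sdiff_eq_empty.1 h3

theorem planar_all (Ω : Set (Fin 2 → ℝ)) (hΩ : IsOpen Ω) (hconv : Convex ℝ Ω) (c : Fin 2 → ℝ)
    (hc : ∀ j, 0 < c j) :
    (volume Ω ≤ ENNReal.ofReal (4 * c 0 * c 1) → vanishingSet Ω c = ∅) ∧
    (ENNReal.ofReal (4 * c 0 * c 1) < volume Ω → (∃ u, Potential Ω c u) ∧ ∀ u, Potential Ω c u →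
      volume (Ω \ interior (argmin Ω u)) = volume (rect c ∩ barrier Ω) ∧
      vanishingSet Ω c = interior (argmin Ω u)) := by
  have hcc : 0 < 4 * c 0 * c 1 := by have := hc 0; have := hc 1; positivity
  have hA : IsOpen (eq2 '' Ω) := eq2.toHomeomorph.isOpenMap _ hΩ
  have hAc : Convex ℝ (eq2 '' Ω) := hconv.linear_image eq2.toLinearEquiv.toLinearMap
  have hw : ∀ u : (Fin 2 → ℝ) → ℝ, ∃ w : ℂ → ℝ, u = fun y => w (eq2 y) := fun u =>
    ⟨fun z => u (eq2.symm z), by simp⟩
  have hint : ∀ S : Set (Fin 2 → ℝ), eq2 '' interior S = interior (eq2 '' S) := fun S =>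
    eq2.toHomeomorph.image_interior S
  have hvol : ∀ u, Potential Ω c u →
      volume (Ω \ interior (argmin Ω u)) = volume (rect c ∩ barrier Ω) := fun u hu => by
    obtain ⟨w, rfl⟩ := hw u
    rw [← vol_image, ← vol_image (rect c ∩ barrier Ω), image_barrier hc,
      image_sdiff eq2.injective, hint, image_argmin]
    exact ((potential_iff hc w).1 hu).vol hA
  by_cases hb : Bornology.IsBounded Ω
  · have hfin : ∀ S ⊆ Ω, volume S ≠ ⊤ := fun S hS =>
      ((measure_mono hS).trans_lt hb.measure_lt_top).ne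
    have hlt : ∀ S ⊆ Ω, ENNReal.ofReal (4 * c 0 * c 1) < volume S →
        4 * c 0 * c 1 < volume.real S := fun S hS h =>
      (ENNReal.ofReal_lt_iff_lt_toReal hcc.le (hfin S hS)).1 h
    obtain ⟨h1, h2⟩ := planar Ω hΩ hconv hb c hc
    refine ⟨fun hm => h1 (ENNReal.toReal_le_of_le_ofReal hcc.le hm), fun hm => ?_⟩
    have hm' := hlt Ω Subset.rfl hm
    obtain ⟨⟨u, hu⟩, h3⟩ := h2 hm'
    refine ⟨⟨u, (potential_iff_brenier hΩ hconv hb hc hm' u).2 hu⟩, fun u hu => ?_⟩
    exact ⟨hvol u hu, (h3 u ((potential_iff_brenier hΩ hconv hb hc hm' u).1 hu)).2⟩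
  · have hub : ¬Bornology.IsBounded (eq2 '' Ω) := fun h => hb (by
      have := eq2.symm.lipschitz.isBounded_image h
      rwa [image_image, show (fun x => eq2.symm (eq2 x)) = id from funext eq2.symm_apply_apply,
        image_id] at this)
    have htop : volume Ω = ⊤ := by rw [← vol_image]; exact vol_eq_top hA hAc hub
    obtain ⟨⟨w, hw'⟩, h2⟩ := unb_main hA hAc hub hc
    refine ⟨fun hm => absurd (htop ▸ hm) (not_le.2 ENNReal.ofReal_lt_top), fun _ =>
      ⟨⟨_, (potential_iff hc w).2 hw'⟩, fun u hu => ?_⟩⟩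
    have he : vanishingSet Ω c = interior (argmin Ω u) := by
      obtain ⟨w, rfl⟩ := hw u
      have := h2 w ((potential_iff hc w).1 hu)
      rw [van, preimage_image_eq _ eq2.injective, ← image_argmin, ← hint] at this
      exact eq2.injective.image_injective this
    exact ⟨hvol u hu, he⟩

end Pool.Agent.NapOT
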