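import Pool.Agent.Lib.MP_b71113_an.OT.Prox

/-! The area formula for maps with convex fibres. -/

namespace Pool.Agent.NapOT

open MeasureTheory Set Metric Complex ComplexConjugate Filter Topology
open scoped NNReal ENNReal Pointwise

variable {p : ℂ → ℂ}

theorem lip_image_null {L : ℝ≥0} (h : LipschitzWith L p) {N : Set ℂ} (hN : volume N = 0) :
    volume (p '' N) = 0 := by
  have h1 : (μH[Module.finrank ℝ ℂ] : Measure ℂ) ≪ volume :=
    Measure.absolutelyContinuous_isAddHaarMeasure _ _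
  have h2 : (volume : Measure ℂ) ≪ μH[Module.finrank ℝ ℂ] :=
    Measure.absolutelyContinuous_isAddHaarMeasure _ _
  refine h2 (nonpos_iff_eq_zero.1 ?_)
  refine (h.hausdorffMeasure_image_le (Nat.cast_nonneg _) N).trans ?_
  rw [h1 hN, mul_zero]

theorem area_det_zero : (0 : ℂ →L[ℝ] ℂ).det = 0 := by
  simp [ContinuousLinearMap.det]

theorem area_fibre (h : Mono p) {a a' : ℂ} (hd : DifferentiableAt ℝ p a)
    (hdet : (fderiv ℝ p a).det ≠ 0) (e : p a' = p a) : a' = a := by
  by_contra hne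
  have hl : HasDerivAt (fun t : ℝ => a + t • (a' - a)) (a' - a) 0 := by
    simpa using ((hasDerivAt_id (0 : ℝ)).smul_const (a' - a)).const_add a
  have h1 : HasDerivAt (fun t : ℝ => p (a + t • (a' - a))) (fderiv ℝ p a (a' - a)) 0 :=
    HasFDerivAt.comp_hasDerivAt_of_eq (0 : ℝ) hd.hasFDerivAt hl (by simp)
  have h2 : HasDerivWithinAt (fun t : ℝ => p (a + t • (a' - a))) 0 (Icc 0 1) 0 := by
    have key : ∀ t ∈ Icc (0 : ℝ) 1, p (a + t • (a' - a)) = p a := fun t ht =>
      (h.convex_fibre (p a)).add_smul_sub_mem (x := a) (y := a') rfl e ht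
    exact (hasDerivWithinAt_const (0 : ℝ) (Icc 0 1) (p a)).congr key
      (key 0 (left_mem_Icc.2 zero_le_one))
  have h3 : fderiv ℝ p a (a' - a) = 0 :=
    (uniqueDiffOn_Icc zero_lt_one 0 (left_mem_Icc.2 zero_le_one)).eq_deriv _
      h1.hasDerivWithinAt h2
  refine hdet ?_
  by_contra h4
  have h5 := (LinearMap.equivOfDetNeZero (fderiv ℝ p a : ℂ →ₗ[ℝ] ℂ) h4).injective
  exact hne (sub_eq_zero.1 (h5 (h3.trans (map_zero (fderiv ℝ p a)).symm)))

/-- A measurable exceptional set with null image outside of which `p` is differentiable and has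
trivial fibres; the Jacobian vanishes almost everywhere on it. -/
theorem Mono.exists_bad (h : Mono p) : ∃ M : Set ℂ, MeasurableSet M ∧ volume (p '' M) = 0 ∧
    (∀ᵐ a, a ∈ M → (fderiv ℝ p a).det = 0) ∧
    ∀ a, a ∉ M → DifferentiableAt ℝ p a ∧ ∀ a', p a' = p a → a' = a := by
  refine ⟨{a | (fderiv ℝ p a).det = 0}, ?_, ?_, Eventually.of_forall fun _ ha => ha,
    fun a ha => ?_⟩
  · exact (ContinuousLinearMap.continuous_det.measurable.comp (measurable_fderiv ℝ p))
      (measurableSet_singleton 0)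
  · have h1 : volume (p '' {a | DifferentiableAt ℝ p a ∧ (fderiv ℝ p a).det = 0}) = 0 :=
      addHaar_image_eq_zero_of_det_fderivWithin_eq_zero volume (f' := fderiv ℝ p)
        (fun a ha => ha.1.hasFDerivAt.hasFDerivWithinAt) fun a ha => ha.2
    have h2 : volume (p '' {a | ¬ DifferentiableAt ℝ p a}) = 0 :=
      lip_image_null h.lip (ae_iff.1 h.lip.ae_differentiableAt)
    refine measure_mono_null ?_ (measure_union_null h1 h2)
    rw [← image_union]
    refine image_mono fun a ha => ?_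
    by_cases hd : DifferentiableAt ℝ p a
    · exact Or.inl ⟨hd, ha⟩
    · exact Or.inr hd
  · have hd : DifferentiableAt ℝ p a := by
      by_contra hd
      exact ha (by rw [mem_ofPred_eq, fderiv_zero_of_not_differentiableAt hd]; exact area_det_zero)
    exact ⟨hd, fun a' e => area_fibre h hd ha e⟩

theorem area_wt (B : Set ℂ) {β : ℝ} {S : Set ℂ} (hS : MeasurableSet S)
    (hZ : ∀ x ∈ S, β = 0 ∨ x ≠ 0) : wt B β S = volume (S ∩ B) := by
  rw [wt, Measure.add_apply, Measure.restrict_apply hS, Measure.smul_apply]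
  by_cases hβ : β = 0
  · simp [hβ]
  · have h0 : (0 : ℂ) ∉ S := fun h => (hZ 0 h).elim hβ fun h => h rfl
    rw [Measure.dirac_apply' _ hS, indicator_of_notMem h0, smul_zero, add_zero]

theorem Mono.area (h : Mono p) {B : Set ℂ} (hB : Body B) {β : ℝ} {π : Measure ℂ}
    (hπ : π.map p = wt B β) {G : Set ℂ} (hG : MeasurableSet G)
    (hin : ∀ a ∈ G, p a ∈ closure B ∧ (β = 0 ∨ p a ≠ 0)) :
    π G = ∫⁻ a in G, ENNReal.ofReal |(fderiv ℝ p a).det| := by
  obtain ⟨M, hM, hM0, hdet, hgood⟩ := h.exists_bad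
  have hc : Continuous p := h.lip.continuous
  have hGM : MeasurableSet (G \ M) := hG.diff hM
  have hinj : InjOn p (G \ M) := fun a _ a' ha' e => (hgood a' ha'.2).2 a e
  have him : MeasurableSet (p '' (G \ M)) := hGM.image_of_continuousOn_injOn hc.continuousOn hinj
  have h1 : π (G \ M) = volume (p '' (G \ M)) := by
    have e : p ⁻¹' (p '' (G \ M)) = G \ M := by
      refine Subset.antisymm ?_ (subset_preimage_image _ _)
      rintro x ⟨a, ha, e⟩
      rw [(hgood a ha.2).2 x e.symm]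
      exact ha
    rw [← e, ← Measure.map_apply hc.measurable him, e, hπ,
      area_wt B him (by rintro _ ⟨a, ha, rfl⟩; exact (hin a ha.1).2)]
    refine measure_congr (ae_eq_set.2 ⟨?_, ?_⟩)
    · rw [sdiff_eq_empty.2 inter_subset_left, measure_empty]
    · refine measure_mono_null ?_ hB.vol_closure
      rintro _ ⟨⟨a, ha, rfl⟩, h2⟩
      exact ⟨(hin a ha.1).1, fun h3 => h2 ⟨⟨a, ha, rfl⟩, h3⟩⟩
  have h2 : π (G ∩ M) = 0 := by
    have hZ : MeasurableSet {x : ℂ | β = 0 ∨ x ≠ 0} := by
      by_cases hβ : β = 0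
      · simp [hβ]
      · simp only [hβ, false_or]
        exact (measurableSet_singleton (0 : ℂ)).compl
    have hT : MeasurableSet (toMeasurable volume (p '' M) ∩ {x : ℂ | β = 0 ∨ x ≠ 0}) :=
      (measurableSet_toMeasurable _ _).inter hZ
    refine measure_mono_null (t := p ⁻¹' (toMeasurable volume (p '' M) ∩ {x : ℂ | β = 0 ∨ x ≠ 0}))
      (fun a ha => ⟨subset_toMeasurable _ _ ⟨a, ha.2, rfl⟩, (hin a ha.1).2⟩) ?_
    rw [← Measure.map_apply hc.measurable hT, hπ, area_wt B hT fun x hx => hx.2]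
    refine measure_mono_null (inter_subset_left.trans inter_subset_left) ?_
    rw [measure_toMeasurable, hM0]
  have h3 : ∫⁻ a in G ∩ M, ENNReal.ofReal |(fderiv ℝ p a).det| = 0 := by
    rw [setLIntegral_congr_fun_ae (g := fun _ => 0) (hG.inter hM), lintegral_zero]
    filter_upwards [hdet] with a ha haM
    rw [ha haM.2, abs_zero, ENNReal.ofReal_zero]
  rw [← measure_inter_add_sdiff G hM, ← lintegral_inter_add_sdiff _ G hM, h1, h2, h3,
    lintegral_abs_det_fderiv_eq_addHaar_image volume hGM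
      (fun a ha => (hgood a ha.2).1.hasFDerivAt.hasFDerivWithinAt) hinj]

/-- where `p` is the identity on a convex set -/
theorem Mono.area_id (h : Mono p) {B : Set ℂ} (hB : Body B) {β : ℝ} {π : Measure ℂ}
    (hπ : π.map p = wt B β) {C G : Set ℂ} (hC : Convex ℝ C) (hid : ∀ a ∈ C, p a = a)
    (hG : MeasurableSet G) (hGC : G ⊆ C) (hin : ∀ a ∈ G, a ∈ closure B ∧ (β = 0 ∨ a ≠ 0)) :
    π G = volume G := by
  rw [h.area hB hπ hG fun a ha => by rw [hid a (hGC ha)]; exact hin a ha,
    setLIntegral_congr_fun_ae (g := fun _ => 1) hG, setLIntegral_one]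
  filter_upwards [measure_eq_zero_iff_ae_notMem.1 (hC.addHaar_frontier volume)] with a ha haG
  have h1 : a ∈ interior C := by
    by_contra h2
    exact ha ⟨subset_closure (hGC haG), h2⟩
  have h2 : p =ᶠ[𝓝 a] id := by
    filter_upwards [mem_interior_iff_mem_nhds.1 h1] with x hx using hid x hx
  rw [h2.fderiv_eq, fderiv_id]
  simp [ContinuousLinearMap.det]

end Pool.Agent.NapOT
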