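import Mathlib

/-! Internal definitions. The real plane is `ℂ` with the real inner product. -/

namespace Pool.Agent.NapOT

open MeasureTheory Set Metric Complex ComplexConjugate

/-- a bounded open convex nonempty set -/
structure Body (A : Set ℂ) : Prop where
  op : IsOpen A
  cv : Convex ℝ A
  bd : Bornology.IsBounded A
  ne : A.Nonempty

/-- the conjugate function of `v` over `K` -/
noncomputable def cj (K : Set ℂ) (v : ℂ → ℝ) (x : ℂ) : ℝ :=
  sSup ((fun q => inner ℝ x q - v q) '' K)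

/-- `q` maximises `⟨x, ·⟩ - v` on `K` -/
def Gam (K : Set ℂ) (v : ℂ → ℝ) (x q : ℂ) : Prop :=
  q ∈ K ∧ ∀ q' ∈ K, inner ℝ x q' - v q' ≤ inner ℝ x q - v q

/-- the contact set -/
def cz (K : Set ℂ) (v : ℂ → ℝ) : Set ℂ := {x | Gam K v x 0}

/-- area on `A` plus the mass `α` at the origin -/
noncomputable def wt (A : Set ℂ) (α : ℝ) : Measure ℂ :=
  volume.restrict A + ENNReal.ofReal α • Measure.dirac 0

/-- the dual functional -/
noncomputable def JJ (A B : Set ℂ) (α β : ℝ) (v : ℂ → ℝ) : ℝ :=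
  ∫ x, cj (closure B) v x ∂(wt A α) + ∫ q, v q ∂(wt B β)

/-- minimisers of the dual functional -/
def Min (A B : Set ℂ) (α β : ℝ) (v : ℂ → ℝ) : Prop :=
  Continuous v ∧ ∀ w, Continuous w → JJ A B α β v ≤ JJ A B α β w

/-- data of a transport problem -/
structure Dat (A B : Set ℂ) (α β : ℝ) : Prop where
  hA : Body A
  hB : Body B
  ha : 0 ≤ α
  hb : 0 ≤ β
  mass : volume.real A + α = volume.real B + β
  zA : α = 0 ∨ (0 : ℂ) ∈ closure A
  zB : β = 0 ∨ (0 : ℂ) ∈ closure B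

/-- a transport map with its potential -/
structure Tr (A B : Set ℂ) (β : ℝ) (v : ℂ → ℝ) (T : ℂ → ℂ) : Prop where
  cont : Continuous v
  cvx : ConvexOn ℝ (closure B) v
  meas : Measurable T
  map : (volume.restrict A).map T = wt B β
  gam : ∀ᵐ x ∂(volume.restrict A), Gam (closure B) v x (T x)

open Classical in
/-- the proximal map -/
noncomputable def prox (K : Set ℂ) (v : ℂ → ℝ) (a : ℂ) : ℂ :=
  if h : ∃ q, Gam K v (a - q) q then h.choose else 0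

/-- `a - p a` and `p a` are monotonically related -/
def Mono (p : ℂ → ℂ) : Prop := ∀ a a', 0 ≤ inner ℝ ((a - p a) - (a' - p a')) (p a - p a')

/-- transport data in the coordinate `a = x + p` -/
structure MD (A B : Set ℂ) (α β : ℝ) (p : ℂ → ℂ) (π : Measure ℂ) : Prop where
  mono : Mono p
  grad : ∃ e : ℂ → ℝ, ∀ a, HasFDerivAt e (innerSL ℝ (p a)) a
  mapX : π.map (fun a => a - p a) = wt A α
  mapP : π.map p = wt B β

/-- the graph function: `ζ = gr p ξ` -/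
noncomputable def gr (p : ℂ → ℂ) (s : ℂ) : ℂ := conj s - 2 * p (conj s)

/-- the open rectangle -/
def box (r₁ r₂ : ℝ) : Set ℂ := {p | |p.re| < r₁ ∧ |p.im| < r₂}

/-- `∂Ω + i Q` in the coordinates `(ξ, ζ)` -/
def KK (Ω B : Set ℂ) : Set (ℂ × ℂ) :=
  {z | (conj z.1 + z.2) / 2 ∈ frontier Ω ∧ (conj z.1 - z.2) / 2 ∈ closure B}

/-- `closure Ω + i Q` in the coordinates `(ξ, ζ)` -/
def TT (Ω B : Set ℂ) : Set (ℂ × ℂ) :=
  {z | (conj z.1 + z.2) / 2 ∈ closure Ω ∧ (conj z.1 - z.2) / 2 ∈ closure B}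

/-- the real point `x` lies in the hull -/
def Hull (Ω B : Set ℂ) (x : ℂ) : Prop :=
  ∀ P : ℂ × ℂ → ℂ, Differentiable ℂ P → ∀ M : ℝ, 0 ≤ M → (∀ z ∈ KK Ω B, ‖P z‖ ≤ M) →
    ‖P (conj x, x)‖ ≤ M

/-- the real point `x` is separated from `∂Ω + i Q` -/
def Sep (Ω B : Set ℂ) (x : ℂ) : Prop :=
  ∃ (O : Set (ℂ × ℂ)) (g : ℂ × ℂ → ℂ) (M : ℝ), IsOpen O ∧ TT Ω B ⊆ O ∧ DifferentiableOn ℂ g O ∧
    0 ≤ M ∧ (∀ z ∈ KK Ω B, ‖g z‖ ≤ M) ∧ M < ‖g (conj x, x)‖

/-- the operator `∂ / ∂ conj s` -/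
noncomputable def db (h : ℂ → ℂ) (s : ℂ) : ℂ := (fderiv ℝ h s 1 + I * fderiv ℝ h s I) / 2

/-- the Cauchy transform -/
noncomputable def CT (g : ℂ → ℂ) (ξ : ℂ) : ℂ := (Real.pi : ℂ)⁻¹ * ∫ s, g s / (ξ - s)

/-- measurable, bounded by `M`, zero outside the disc of radius `R` -/
structure Bd (M R : ℝ) (g : ℂ → ℂ) : Prop where
  meas : AEStronglyMeasurable g volume
  le : ∀ s, ‖g s‖ ≤ M
  out : ∀ s, R < ‖s‖ → g s = 0

/-- a complex linear form whose real part only depends on `ζ - conj ξ` -/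
noncomputable def lf (b ξ ζ : ℂ) : ℂ := b * ζ - conj b * ξ

section

variable {J : Type} [Fintype J]

/-- the domain on which the defining functions are holomorphic -/
def WW (b : J → ℂ) (c : J → ℝ) (R : ℝ) : Set (ℂ × ℂ) :=
  {z | ‖z.1‖ < R ∧ ‖z.2‖ < R ∧ ∀ j, |(lf (b j) z.1 z.2).re| < c j}

/-- logarithm of a linear form that separates the point `(s, φ s)` from `(ξ, ζ)` -/
noncomputable def Lg (b : ℂ) (φ : ℂ → ℂ) (ξ ζ s : ℂ) : ℂ := log (lf b s (φ s) - lf b ξ ζ)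

/-- the correction that comes from the outer part of the graph -/
noncomputable def Ex (b : J → ℂ) (φ : ℂ → ℂ) (θ : J → ℂ → ℂ) (ξ ζ : ℂ) : ℂ :=
  -∑ j, θ j ξ * Lg (b j) φ ξ ζ ξ + CT (fun s => ∑ j, db (θ j) s * Lg (b j) φ ξ ζ s) ξ

/-- the correction that comes from the contact set -/
noncomputable def Ct (ω : ℂ → ℂ) (e ξ ζ : ℂ) : ℂ := CT (fun s => e * ω s / (ζ - e * conj s)) ξ

/-- the contact set in the `ξ`-plane -/
def cs (φ : ℂ → ℂ) (e : ℂ) : Set ℂ := {s | φ s = e * conj s}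

/-- the contact points -/
def ctc (φ : ℂ → ℂ) (e : ℂ) : Set (ℂ × ℂ) := {z | z.1 ∈ cs φ e ∧ z.2 = e * conj z.1}

/-- the weight of the contact set -/
noncomputable def om (φ : ℂ → ℂ) (θ : J → ℂ → ℂ) (e : ℂ) : ℂ → ℂ :=
  (cs φ e).indicator fun s => 1 - ∑ j, θ j s

/-- the reflected function -/
noncomputable def sharp (φ : ℂ → ℂ) (s : ℂ) : ℂ := conj (φ (conj s))

/-- the exponent of the defining function -/
noncomputable def EE (b : J → ℂ) (φ : ℂ → ℂ) (θ : J → ℂ → ℂ) (z : ℂ × ℂ) : ℂ :=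
  Ex b φ θ z.1 z.2 + Ex (fun j => conj (b j)) (sharp φ) (fun j s => θ j (conj s)) z.2 z.1 +
    Ct (om φ θ 1) 1 z.1 z.2 + Ct (om φ θ (-1)) (-1) z.1 z.2

/-- the defining function of the graph and its mirror image -/
noncomputable def ff (b : J → ℂ) (φ : ℂ → ℂ) (θ : J → ℂ → ℂ) (z : ℂ × ℂ) : ℂ :=
  (z.2 - φ z.1) * (z.1 - sharp φ z.2) * exp (EE b φ θ z)

/-- cut-off functions supported where the graph is outside the domain -/
structure Th (b : J → ℂ) (c : J → ℝ) (φ : ℂ → ℂ) (θ : J → ℂ → ℂ) : Prop where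
  smooth : ∀ j, ContDiff ℝ 1 (θ j)
  supp : ∀ j, HasCompactSupport (θ j)
  pos : ∀ j, ∀ s ∈ tsupport (θ j), c j < (lf (b j) s (φ s)).re

/-- admissible cut-off functions -/
structure Adm (b : J → ℂ) (c d : J → ℝ) (R : ℝ) (φ : ℂ → ℂ) (θ : J → ℂ → ℂ) : Prop
    extends Th b c φ θ where
  cover : ∀ s, ‖s‖ < R → ∑ j, θ j s ≠ 1 → ∀ j, (lf (b j) s (φ s)).re < d j

/-- the sum of the cut-off functions is even -/
def Ev (θ : J → ℂ → ℂ) : Prop := ∀ s, ∑ j, θ j (-s) = ∑ j, θ j s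

/-- a graph that is holomorphic away from its outer part and its contact set -/
structure Cur (b : J → ℂ) (d : J → ℝ) (φ : ℂ → ℂ) (e : ℂ) : Prop where
  lip : LipschitzWith 1 φ
  he : e = 1 ∨ e = -1
  sym : e = -1 → ∀ s ∈ cs φ e, -s ∈ cs φ e
  cvx : Convex ℝ (cs φ e)
  bdd : Bornology.IsBounded (cs φ e)
  null : volume (cs φ (-e)) = 0
  hol : ∀ s, (∀ j, (lf (b j) s (φ s)).re < d j) → s ∉ cs φ e → DifferentiableAt ℂ φ s

end

/-- `g` is invertible up to an error less than one on `K` -/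
def ZZ (W K : Set (ℂ × ℂ)) (g : ℂ × ℂ → ℂ) : Prop :=
  ∃ G : ℂ × ℂ → ℂ, DifferentiableOn ℂ G W ∧ ∀ z ∈ K, ‖1 - g z * G z‖ < 1

/-- the coefficients of the four linear forms -/
noncomputable def bb : Fin 4 → ℂ := ![-1 / 2, 1 / 2, I / 2, -I / 2]

/-- the four thresholds -/
def cc (r₁ r₂ : ℝ) : Fin 4 → ℝ := ![r₁, r₁, r₂, r₂]

/-- the mass at the origin on the side of `A` -/
noncomputable def al (A B : Set ℂ) : ℝ := max (volume.real B - volume.real A) 0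

/-- the mass at the origin on the side of `B` -/
noncomputable def be (A B : Set ℂ) : ℝ := max (volume.real A - volume.real B) 0

open scoped Pointwise in
/-- a family of convex sets that are symmetric for `s ≤ t` and equal to `t Ω` for large `s` -/
def AA (Ω : Set ℂ) (t s : ℝ) : Set ℂ := t • Ω ∩ s • (Ω ∩ -Ω)

/-- the family of normalised minimisers -/
def PP (Ω B : Set ℂ) (L : NNReal) (t s₂ s₁ : ℝ) : Set (ℝ × C(ℂ, ℝ)) :=
  {τ | τ.1 ∈ Icc s₂ s₁ ∧ LipschitzWith L τ.2 ∧ τ.2 0 = 0 ∧ (τ.1 < t → ∀ q, τ.2 (-q) = τ.2 q) ∧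
    Min (AA Ω t τ.1) B (al (AA Ω t τ.1) B) (be (AA Ω t τ.1) B) τ.2}

end Pool.Agent.NapOT
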