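import Pool.Agent.Lib.MP_b71113_an.OT.Base

/-! Conjugate functions. -/

namespace Pool.Agent.NapOT

open MeasureTheory Set Metric Complex ComplexConjugate Filter Topology
open scoped NNReal ENNReal Pointwise

variable {K K' A B : Set ℂ} {v w : ℂ → ℝ} {x y q : ℂ}

theorem Body.isCompact (h : Body A) : IsCompact (closure A) := by
  exact h.bd.isCompact_closure

theorem Body.vol_pos (h : Body A) : 0 < volume.real A := by
  exact ENNReal.toReal_pos (h.op.measure_pos _ h.ne).ne' h.bd.measure_lt_top.ne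

theorem Body.vol_lt_top (h : Body A) : volume A < ⊤ := by
  exact h.bd.measure_lt_top

theorem Body.vol_closure (h : Body A) : volume (closure A \ A) = 0 := by
  rw [← h.op.frontier_eq]
  exact h.cv.addHaar_frontier _

theorem Body.interior_closure (h : Body A) : interior (closure A) = A := by
  rw [h.cv.interior_closure_eq_interior_of_nonempty_interior (by rw [h.op.interior_eq]; exact h.ne),
    h.op.interior_eq]

theorem Body.smul (h : Body A) {s : ℝ} (hs : s ≠ 0) : Body (s • A) := by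
  exact ⟨h.op.smul₀ hs, h.cv.smul s, h.bd.smul₀ s, h.ne.smul_set⟩

theorem vol_smul (A : Set ℂ) (s : ℝ) : volume.real (s • A) = s ^ 2 * volume.real A := by
  rw [Measure.real, Measure.addHaar_smul, finrank_real_complex, ENNReal.toReal_mul,
    ENNReal.toReal_ofReal (abs_nonneg _), abs_of_nonneg (sq_nonneg s), Measure.real]

theorem Body.zero_mem (h : Body A) (hs : ∀ x ∈ A, -x ∈ A) : (0 : ℂ) ∈ A := by
  obtain ⟨x, hx⟩ := h.ne
  have := h.cv hx (hs x hx) (show (0 : ℝ) ≤ 1 / 2 by norm_num) (show (0 : ℝ) ≤ 1 / 2 by norm_num)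
    (by norm_num)
  simpa using this

theorem Body.closure_smul_subset (h : Body A) (h0 : (0 : ℂ) ∈ A) {s : ℝ} (hs : 0 ≤ s)
    (hs1 : s < 1) : closure (s • A) ⊆ A := by
  rw [closure_smul₀]
  rintro _ ⟨y, hy, rfl⟩
  have := h.cv.combo_interior_closure_mem_interior (h.op.interior_eq.symm ▸ h0) hy
    (show 0 < 1 - s by linarith) hs (by ring)
  rw [smul_zero, zero_add] at this
  exact interior_subset this

theorem conj_box (r₁ r₂ : ℝ) : box r₁ r₂ = Ioo (-r₁) r₁ ×ℂ Ioo (-r₂) r₂ := by
  ext p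
  simp [box, mem_reProdIm, abs_lt]

theorem body_box {r₁ r₂ : ℝ} (h1 : 0 < r₁) (h2 : 0 < r₂) : Body (box r₁ r₂) := by
  refine ⟨?_, ?_, ?_, ⟨0, by simp [box, h1, h2]⟩⟩
  · rw [conj_box]
    exact isOpen_Ioo.reProdIm isOpen_Ioo
  · rw [conj_box]
    exact ((convex_Ioo _ _).is_linear_preimage reLm.isLinear).inter
      ((convex_Ioo _ _).is_linear_preimage imLm.isLinear)
  · rw [conj_box]
    exact (isBounded_Ioo _ _).reProdIm (isBounded_Ioo _ _)

theorem vol_box {r₁ r₂ : ℝ} (h1 : 0 ≤ r₁) (h2 : 0 ≤ r₂) :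
    volume.real (box r₁ r₂) = 4 * r₁ * r₂ := by
  have e : box r₁ r₂ = measurableEquivRealProd ⁻¹' (Ioo (-r₁) r₁ ×ˢ Ioo (-r₂) r₂) := by
    rw [conj_box]
    rfl
  rw [Measure.real, e, volume_preserving_equiv_real_prod.measure_preimage
    (measurableSet_Ioo.prod measurableSet_Ioo).nullMeasurableSet, Measure.volume_eq_prod,
    Measure.prod_prod, Real.volume_Ioo, Real.volume_Ioo, ENNReal.toReal_mul,
    ENNReal.toReal_ofReal (by linarith), ENNReal.toReal_ofReal (by linarith)]
  ring

theorem closure_box {r₁ r₂ : ℝ} (h1 : 0 < r₁) (h2 : 0 < r₂) :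
    closure (box r₁ r₂) = {p | |p.re| ≤ r₁ ∧ |p.im| ≤ r₂} := by
  rw [conj_box, closure_reProdIm, closure_Ioo (by linarith), closure_Ioo (by linarith)]
  ext p
  simp [mem_reProdIm, abs_le]

theorem Dat.swap {α β : ℝ} (h : Dat A B α β) : Dat B A β α := by
  exact ⟨h.hB, h.hA, h.hb, h.ha, h.mass.symm, h.zB, h.zA⟩

theorem Body.finite_wt (h : Body A) (α : ℝ) : IsFiniteMeasure (wt A α) := by
  refine ⟨?_⟩
  rw [wt, Measure.add_apply, Measure.restrict_apply_univ, Measure.smul_apply, measure_univ,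
    smul_eq_mul, mul_one]
  exact ENNReal.add_lt_top.2 ⟨h.vol_lt_top, ENNReal.ofReal_lt_top⟩

theorem Body.wt_univ (h : Body A) {α : ℝ} (ha : 0 ≤ α) :
    (wt A α).real univ = volume.real A + α := by
  rw [Measure.real, wt, Measure.add_apply, Measure.restrict_apply_univ, Measure.smul_apply,
    measure_univ, smul_eq_mul, mul_one, ENNReal.toReal_add h.vol_lt_top.ne ENNReal.ofReal_ne_top,
    ENNReal.toReal_ofReal ha, Measure.real]

theorem Body.ae_wt (h : Body A) {α : ℝ} (h0 : α = 0 ∨ (0 : ℂ) ∈ closure A) :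
    ∀ᵐ x ∂(wt A α), x ∈ closure A := by
  rw [wt, ae_add_measure_iff]
  refine ⟨(ae_restrict_mem h.op.measurableSet).mono fun x hx => subset_closure hx, ?_⟩
  rcases h0 with rfl | h0
  · simp
  · exact Measure.ae_smul_measure ((ae_dirac_iff isClosed_closure.measurableSet).2 h0) _

theorem conj_int (h : Body A) (hv : Continuous v) : IntegrableOn v A volume :=
  (hv.continuousOn.integrableOn_compact h.isCompact).mono_set subset_closure

theorem Body.integrable_wt (h : Body A) (α : ℝ) (hv : Continuous v) : Integrable v (wt A α) := by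
  rw [wt]
  exact Integrable.add_measure (conj_int h hv)
    ((integrable_dirac (by simp)).smul_measure ENNReal.ofReal_ne_top)

theorem Body.integral_wt (h : Body A) {α : ℝ} (ha : 0 ≤ α) (hv : Continuous v) :
    ∫ x, v x ∂(wt A α) = (∫ x in A, v x) + α * v 0 := by
  rw [wt, integral_add_measure (conj_int h hv)
    ((integrable_dirac (by simp)).smul_measure ENNReal.ofReal_ne_top), integral_smul_measure,
    integral_dirac, ENNReal.toReal_ofReal ha, smul_eq_mul]


theorem conj_cont (hv : Continuous v) (x : ℂ) : Continuous fun q : ℂ => inner ℝ x q - v q :=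
  (continuous_const.inner continuous_id).sub hv

theorem le_cj (hK : IsCompact K) (hv : Continuous v) (hq : q ∈ K) :
    inner ℝ x q - v q ≤ cj K v x := by
  exact le_csSup (hK.bddAbove_image (conj_cont hv x).continuousOn) ⟨q, hq, rfl⟩

theorem cj_le (hne : K.Nonempty) {M : ℝ} (h : ∀ q ∈ K, inner ℝ x q - v q ≤ M) :
    cj K v x ≤ M := by
  refine csSup_le (hne.image _) ?_
  rintro _ ⟨q, hq, rfl⟩
  exact h q hq

theorem exists_gam (hK : IsCompact K) (hne : K.Nonempty) (hv : Continuous v) (x : ℂ) :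
    ∃ q, Gam K v x q := by
  obtain ⟨q, hq, h⟩ := hK.exists_isMaxOn hne (conj_cont hv x).continuousOn
  exact ⟨q, hq, fun q' hq' => h hq'⟩

theorem Gam.cj_eq (h : Gam K v x q) : cj K v x = inner ℝ x q - v q := by
  refine IsGreatest.csSup_eq ⟨⟨q, h.1, rfl⟩, ?_⟩
  rintro _ ⟨q', hq', rfl⟩
  exact h.2 q' hq'

theorem gam_of_cj_le (hK : IsCompact K) (hv : Continuous v) (hq : q ∈ K)
    (h : cj K v x ≤ inner ℝ x q - v q) : Gam K v x q := by
  exact ⟨hq, fun q' hq' => (le_cj hK hv hq').trans h⟩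

theorem Gam.mono {q' : ℂ} (h : Gam K v x q) (h' : Gam K v y q') :
    0 ≤ inner ℝ (x - y) (q - q') := by
  have h1 := h.2 q' h'.1
  have h2 := h'.2 q h.1
  rw [inner_sub_left, inner_sub_right, inner_sub_right]
  linarith

theorem Gam.congr (h : Gam K v x q) (e : ∀ q ∈ K, v q = w q) : Gam K w x q := by
  refine ⟨h.1, fun q' hq' => ?_⟩
  rw [← e q h.1, ← e q' hq']
  exact h.2 q' hq'

theorem cj_congr (e : ∀ q ∈ K, v q = w q) : cj K v = cj K w := by
  funext x
  unfold cj
  exact congrArg _ (image_congr fun q hq => by rw [e q hq])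

theorem cj_lip (hK : IsCompact K) (hne : K.Nonempty) (hv : Continuous v) {L : ℝ≥0}
    (hL : ∀ q ∈ K, ‖q‖ ≤ L) : LipschitzWith L (cj K v) := by
  refine LipschitzWith.of_le_add_mul L fun x y => cj_le hne fun q hq => ?_
  have h1 := le_cj (x := y) hK hv hq
  have h2 : inner ℝ (x - y) q ≤ ‖x - y‖ * ‖q‖ := real_inner_le_norm _ _
  have h3 := mul_le_mul_of_nonneg_left (hL q hq) (norm_nonneg (x - y))
  rw [inner_sub_left] at h2
  rw [dist_eq_norm]
  linarith

theorem cj_continuous (hK : IsCompact K) (hne : K.Nonempty) (hv : Continuous v) :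
    Continuous (cj K v) := by
  obtain ⟨R, hR⟩ := hK.isBounded.exists_norm_le
  exact (cj_lip hK hne hv (L := R.toNNReal) fun q hq =>
    (hR q hq).trans (Real.le_coe_toNNReal R)).continuous

theorem cj_convex (hK : IsCompact K) (hne : K.Nonempty) (hv : Continuous v) :
    ConvexOn ℝ univ (cj K v) := by
  refine ⟨convex_univ, fun x _ y _ a b ha hb hab => cj_le hne fun q hq => ?_⟩
  have h1 := mul_le_mul_of_nonneg_left (le_cj (x := x) hK hv hq) ha
  have h2 := mul_le_mul_of_nonneg_left (le_cj (x := y) hK hv hq) hb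
  rw [inner_add_left, real_inner_smul_left, real_inner_smul_left, smul_eq_mul, smul_eq_mul]
  have h3 : v q = a * v q + b * v q := by rw [← add_mul, hab, one_mul]
  linarith

theorem cj_sub_le (hK : IsCompact K) (hne : K.Nonempty) (hv : Continuous v) (hw : Continuous w)
    {η : ℝ} (h : ∀ q ∈ K, |v q - w q| ≤ η) (x : ℂ) : |cj K v x - cj K w x| ≤ η := by
  have h1 : cj K v x ≤ cj K w x + η := cj_le hne fun q hq => by
    have := le_cj (x := x) hK hw hq
    linarith [(abs_le.1 (h q hq)).1]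
  have h2 : cj K w x ≤ cj K v x + η := cj_le hne fun q hq => by
    have := le_cj (x := x) hK hv hq
    linarith [(abs_le.1 (h q hq)).2]
  exact abs_le.2 ⟨by linarith, by linarith⟩

theorem cj_add_const (hK : IsCompact K) (hne : K.Nonempty) (hv : Continuous v) (t : ℝ) (x : ℂ) :
    cj K (fun q => v q + t) x = cj K v x - t := by
  obtain ⟨q, hq⟩ := exists_gam hK hne hv x
  have h1 : Gam K (fun q => v q + t) x q := ⟨hq.1, fun q' hq' => by linarith [hq.2 q' hq']⟩
  rw [h1.cj_eq, hq.cj_eq]
  ring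

theorem cj_combo (hK : IsCompact K) (hne : K.Nonempty) (hv : Continuous v) (hw : Continuous w)
    {a b : ℝ} (ha : 0 ≤ a) (hb : 0 ≤ b) (hab : a + b = 1) (x : ℂ) :
    cj K (fun q => a * v q + b * w q) x ≤ a * cj K v x + b * cj K w x := by
  refine cj_le hne fun q hq => ?_
  have h1 := mul_le_mul_of_nonneg_left (le_cj (x := x) hK hv hq) ha
  have h2 := mul_le_mul_of_nonneg_left (le_cj (x := x) hK hw hq) hb
  have h3 : inner ℝ x q = a * inner ℝ x q + b * inner ℝ x q := by rw [← add_mul, hab, one_mul]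
  linarith

theorem cj_neg (hs : ∀ q ∈ K, -q ∈ K) (x : ℂ) : cj K (fun q => v (-q)) x = cj K v (-x) := by
  unfold cj
  congr 1
  ext r
  constructor
  · rintro ⟨q, hq, rfl⟩
    exact ⟨-q, hs q hq, by simp only [inner_neg_neg]⟩
  · rintro ⟨q, hq, rfl⟩
    exact ⟨-q, hs q hq, by simp only [inner_neg_left, inner_neg_right, neg_neg]⟩

theorem bicj_le (hK : IsCompact K) (hne' : K'.Nonempty) (hv : Continuous v) (hq : q ∈ K) :
    cj K' (cj K v) q ≤ v q := by
  refine cj_le hne' fun x _ => ?_
  have := le_cj (x := x) hK hv hq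
  rw [real_inner_comm]
  linarith

theorem tricj (hK : IsCompact K) (hne : K.Nonempty) (hK' : IsCompact K') (hv : Continuous v)
    (hx : x ∈ K') : cj K (cj K' (cj K v)) x = cj K v x := by
  refine le_antisymm (cj_le hne fun q _ => ?_) (cj_le hne fun q hq => ?_)
  · have := le_cj (x := q) hK' (cj_continuous hK hne hv) hx
    rw [real_inner_comm]
    linarith
  · have h1 := bicj_le (K' := K') hK ⟨x, hx⟩ hv hq
    have h2 := le_cj (x := x) hK (cj_continuous hK' ⟨x, hx⟩ (cj_continuous hK hne hv)) hq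
    linarith

/-- at a point of differentiability the maximiser is the gradient -/
theorem Gam.eq_gradient (hK : IsCompact K) (hv : Continuous v) (h : Gam K v x q)
    (hd : DifferentiableAt ℝ (cj K v) x) : gradient (cj K v) x = q := by
  have h1 : IsLocalMin (fun y => cj K v y - innerSL ℝ q y) x := by
    refine Eventually.of_forall fun y => ?_
    have := le_cj (x := y) hK hv h.1
    simp only [innerSL_apply_apply]
    rw [h.cj_eq, real_inner_comm x, real_inner_comm y]
    linarith
  have h2 := h1.hasFDerivAt_eq_zero (hd.hasFDerivAt.sub (innerSL ℝ q).hasFDerivAt)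
  rw [gradient, sub_eq_zero.1 h2]
  exact (InnerProductSpace.toDual ℝ ℂ).symm_apply_apply q

theorem isClosed_cz (K : Set ℂ) (v : ℂ → ℝ) : IsClosed (cz K v) := by
  have e : cz K v = {_x | (0 : ℂ) ∈ K} ∩ ⋂ q ∈ K, {x | inner ℝ x q - v q ≤ -v 0} := by
    ext x
    simp [cz, Gam]
  rw [e]
  refine isClosed_const.inter (isClosed_biInter fun q _ => isClosed_le ?_ continuous_const)
  exact (continuous_id.inner continuous_const).sub continuous_const

theorem convex_cz (K : Set ℂ) (v : ℂ → ℝ) : Convex ℝ (cz K v) := by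
  intro x hx y hy a b ha hb hab
  refine ⟨hx.1, fun q hq => ?_⟩
  have h1 := mul_le_mul_of_nonneg_left (hx.2 q hq) ha
  have h2 := mul_le_mul_of_nonneg_left (hy.2 q hq) hb
  rw [inner_zero_right] at h1 h2 ⊢
  rw [inner_add_left, real_inner_smul_left, real_inner_smul_left]
  have h3 : v q = a * v q + b * v q := by rw [← add_mul, hab, one_mul]
  have h4 : v 0 = a * v 0 + b * v 0 := by rw [← add_mul, hab, one_mul]
  linarith


end Pool.Agent.NapOT
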