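import Pool.Agent.Lib.MP_b71113_an.OT.Defs
import Pool.Agent.Lib.MP_b71113_an.OT.Conj
import Pool.Agent.Lib.MP_b71113_an.Upper

/-! Passage between the real plane and the complex line. -/

namespace Pool.Agent.NapOT

open MeasureTheory Set Metric Complex ComplexConjugate Filter Topology
open scoped NNReal ENNReal Pointwise

open Pool.Agent.Lib.MP_b71113_an

/-- the point `x₁ + i x₂` -/
noncomputable def eq2 : (Fin 2 → ℝ) ≃L[ℝ] ℂ :=
  Complex.basisOneI.equivFun.symm.toContinuousLinearEquiv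

variable {Ω : Set (Fin 2 → ℝ)} {c : Fin 2 → ℝ}

theorem eq2_apply (x : Fin 2 → ℝ) : eq2 x = (x 0 : ℂ) + (x 1 : ℂ) * I := by
  simp [eq2, Fin.sum_univ_two]

theorem bridge_re (x : Fin 2 → ℝ) : (eq2 x).re = x 0 := by simp [eq2_apply]

theorem bridge_im (x : Fin 2 → ℝ) : (eq2 x).im = x 1 := by simp [eq2_apply]

theorem eq2_preserving : MeasurePreserving eq2 volume volume := by
  have h := Complex.volume_preserving_equiv_pi.symm
  have e : (eq2 : (Fin 2 → ℝ) → ℂ) = Complex.measurableEquivPi.symm :=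
    funext fun x => (eq2_apply x).trans (Complex.measurableEquivPi_symm_apply x).symm
  rw [e]
  exact h

theorem bridge_emb : MeasurableEmbedding eq2 := eq2.toHomeomorph.measurableEmbedding

theorem vol_image (S : Set (Fin 2 → ℝ)) : volume (eq2 '' S) = volume S := by
  rw [← eq2_preserving.measure_preimage_emb bridge_emb, preimage_image_eq _ eq2.injective]

theorem body_image (hΩ : IsOpen Ω) (hconv : Convex ℝ Ω) (hb : Bornology.IsBounded Ω)
    (hne : Ω.Nonempty) : Body (eq2 '' Ω) :=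
  ⟨eq2.toHomeomorph.isOpenMap _ hΩ, hconv.linear_image eq2.toLinearEquiv.toLinearMap,
    eq2.lipschitz.isBounded_image hb, hne.image _⟩

/-- the coordinates `(ξ, ζ)` -/
noncomputable def bridge_P (z : Fin 2 → ℂ) : ℂ × ℂ := (z 0 - I * z 1, z 0 + I * z 1)

/-- the inverse change of coordinates -/
noncomputable def bridge_Q (w : ℂ × ℂ) : Fin 2 → ℂ :=
  fun j => if j = 0 then (w.1 + w.2) / 2 else I * (w.1 - w.2) / 2

theorem bridge_PQ (w : ℂ × ℂ) : bridge_P (bridge_Q w) = w := by
  refine Prod.ext ?_ ?_ <;> simp only [bridge_P, bridge_Q, if_true, one_ne_zero, if_false]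
  · linear_combination (-(w.1 - w.2) / 2) * I_mul_I
  · linear_combination ((w.1 - w.2) / 2) * I_mul_I

theorem bridge_QP (z : Fin 2 → ℂ) : bridge_Q (bridge_P z) = z := by
  funext j
  fin_cases j
  · simp [bridge_P, bridge_Q]
  · simp only [bridge_P, bridge_Q, Fin.mk_one, one_ne_zero, if_false]
    linear_combination (-z 1) * I_mul_I

theorem bridge_dP : Differentiable ℂ bridge_P := by
  unfold bridge_P
  fun_prop

theorem bridge_dQ : Differentiable ℂ bridge_Q := by
  refine differentiable_pi.2 fun j => ?_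
  by_cases h : j = 0 <;> simp only [bridge_Q, h, if_true, if_false] <;> fun_prop

theorem bridge_ofR (x : Fin 2 → ℝ) : bridge_P (ofR x) = (conj (eq2 x), eq2 x) := by
  refine Prod.ext ?_ ?_ <;> simp [bridge_P, ofR, eq2_apply] <;> ring

theorem bridge_mem (hc : ∀ j, 0 < c j) (A : Set (Fin 2 → ℝ)) (z : Fin 2 → ℂ) :
    ((conj (bridge_P z).1 + (bridge_P z).2) / 2 ∈ eq2 '' A ∧
      (conj (bridge_P z).1 - (bridge_P z).2) / 2 ∈ closure (box (c 1) (c 0))) ↔ z ∈ tube A c := by
  have e1 : (conj (bridge_P z).1 + (bridge_P z).2) / 2 = eq2 (reV z) := by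
    refine Complex.ext ?_ ?_ <;> simp [bridge_P, reV, eq2_apply] <;> ring
  have e2 : ((conj (bridge_P z).1 - (bridge_P z).2) / 2).re = (z 1).im := by
    simp [bridge_P]
  have e3 : ((conj (bridge_P z).1 - (bridge_P z).2) / 2).im = -(z 0).im := by
    simp [bridge_P]
    ring
  rw [e1, closure_box (hc 1) (hc 0), eq2.injective.mem_set_image]
  change _ ∧ (|_| ≤ _ ∧ |_| ≤ _) ↔ _ ∧ ∀ j, |(z j).im| ≤ c j
  rw [e2, e3, abs_neg, Fin.forall_fin_two, and_comm (a := |(z 1).im| ≤ c 1)]

theorem bridge_KK (hc : ∀ j, 0 < c j) (z : Fin 2 → ℂ) :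
    bridge_P z ∈ KK (eq2 '' Ω) (box (c 1) (c 0)) ↔ z ∈ tube (frontier Ω) c := by
  have e : eq2 '' frontier Ω = frontier (eq2 '' Ω) := eq2.toHomeomorph.image_frontier Ω
  rw [← bridge_mem hc, e]
  rfl

theorem bridge_TT (hc : ∀ j, 0 < c j) (z : Fin 2 → ℂ) :
    bridge_P z ∈ TT (eq2 '' Ω) (box (c 1) (c 0)) ↔ z ∈ tube (closure Ω) c := by
  have e : eq2 '' closure Ω = closure (eq2 '' Ω) := eq2.toHomeomorph.image_closure Ω
  rw [← bridge_mem hc, e]
  rfl

theorem mem_hullSet {x : Fin 2 → ℝ} (hc : ∀ j, 0 < c j) (hx : x ∈ Ω)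
    (h : Hull (eq2 '' Ω) (box (c 1) (c 0)) (eq2 x)) : x ∈ hullSet Ω c := by
  refine ⟨hx, fun φ hφ _ M hM0 hM => ?_⟩
  have := h (fun w => φ (bridge_Q w)) (hφ.comp bridge_dQ) M hM0 fun w hw =>
    hM _ ((bridge_KK hc _).1 (by rwa [bridge_PQ]))
  rwa [← bridge_ofR, bridge_QP] at this

theorem gfun_eq_zero (hΩ : IsOpen Ω) (hb : Bornology.IsBounded Ω) (hc : ∀ j, 0 < c j)
    {x : Fin 2 → ℝ} (hx : x ∈ Ω) (h : Sep (eq2 '' Ω) (box (c 1) (c 0)) (eq2 x))
    {f : (Fin 2 → ℂ) → ℂ} {F : (Fin 2 → ℤˣ) → (Fin 2 → ℂ) → ℂ} (hf : Admissible Ω c f F) :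
    gfun F x = 0 := by
  obtain ⟨O, g, M, hO, hT, hg, hM0, hM, hlt⟩ := h
  have hsub : tube (closure Ω) c ⊆ bridge_P ⁻¹' O := fun z hz => hT ((bridge_TT hc z).2 hz)
  have hd : DifferentiableOn ℂ (fun z => g (bridge_P z)) (bridge_P ⁻¹' O) :=
    hg.comp bridge_dP.differentiableOn fun _ hz => hz
  have hbot : cocompact (Fin 2 → ℂ) ⊓ 𝓟 (tube (closure Ω) c) = ⊥ :=
    inf_principal_eq_bot.2 (isCompact_tube hb.isCompact_closure c).compl_mem_cocompact
  refine vanish_of_sep_closure hΩ (fun j => (hc j).le) hf hx (hO.preimage bridge_dP.continuous)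
    ((tube_mono subset_closure fun _ => le_rfl).trans hsub) hd (hd.continuousOn.mono hsub)
    (by rw [hbot]; exact tendsto_bot) hM0 (fun w hw => hM _ ((bridge_KK hc w).2 hw)) ?_
  rwa [bridge_ofR]

theorem bridge_grad (w : ℂ → ℝ) (x : Fin 2 → ℝ) :
    eq2 (grad (fun y => w (eq2 y)) x) = gradient w (eq2 x) := by
  have e : ∀ q, fderiv ℝ (fun y => w (eq2 y)) x q = inner ℝ (gradient w (eq2 x)) (eq2 q) := by
    intro q
    have h := eq2.comp_right_fderiv (f := w) (x := x)
    rw [show (fun y => w (eq2 y)) = w ∘ eq2 from rfl, h, gradient,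
      InnerProductSpace.toDual_symm_apply]
    rfl
  refine Complex.ext ?_ ?_
  · rw [bridge_re, grad, e]
    generalize gradient w (eq2 x) = g
    simp [eq2_apply]
  · rw [bridge_im, grad, e]
    generalize gradient w (eq2 x) = g
    simp [eq2_apply]

theorem bridge_map (hc : ∀ j, 0 < c j) (β : ℝ) (w : ℂ → ℝ) :
    (volume.restrict Ω).map (grad fun y => w (eq2 y)) =
      volume.restrict (rect c) + ENNReal.ofReal β • Measure.dirac 0 ↔
    (volume.restrict (eq2 '' Ω)).map (gradient w) = wt (box (c 1) (c 0)) β := by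
  have hT : Measurable (gradient w) :=
    (InnerProductSpace.toDual ℝ ℂ).symm.continuous.measurable.comp (measurable_fderiv ℝ w)
  have hg : Measurable (grad fun y => w (eq2 y)) :=
    measurable_pi_lambda _ fun j => measurable_fderiv_apply_const ℝ _ _
  have e1 : eq2 '' rect c = closure (box (c 1) (c 0)) := by
    rw [closure_box (hc 1) (hc 0)]
    ext p
    obtain ⟨x, rfl⟩ := eq2.surjective p
    rw [eq2.injective.mem_set_image]
    change _ ↔ |(eq2 x).re| ≤ _ ∧ |(eq2 x).im| ≤ _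
    rw [bridge_re, bridge_im]
    rfl
  have e2 : (closure (box (c 1) (c 0)) : Set ℂ) =ᵐ[volume] box (c 1) (c 0) :=
    ae_eq_set.2 ⟨(body_box (hc 1) (hc 0)).vol_closure,
      by rw [sdiff_eq_empty.2 subset_closure, measure_empty]⟩
  have e3 : (volume.restrict (rect c) + ENNReal.ofReal β • Measure.dirac 0).map eq2 =
      wt (box (c 1) (c 0)) β := by
    rw [Measure.map_add _ _ bridge_emb.measurable, Measure.map_smul,
      Measure.map_dirac' bridge_emb.measurable, map_zero,
      (eq2_preserving.restrict_image_emb bridge_emb _).map_eq, e1, Measure.restrict_congr_set e2, wt]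
  have e4 : ((volume.restrict Ω).map (grad fun y => w (eq2 y))).map eq2 =
      (volume.restrict (eq2 '' Ω)).map (gradient w) := by
    rw [← (eq2_preserving.restrict_image_emb bridge_emb Ω).map_eq,
      Measure.map_map bridge_emb.measurable hg, Measure.map_map hT bridge_emb.measurable]
    congr 1
    exact funext (bridge_grad w)
  rw [← e3, ← e4, bridge_emb.map_injective.eq_iff]

/-- a transport map gives a potential on the real plane -/
theorem brenier_of_tr (hΩ : Body (eq2 '' Ω)) (hc : ∀ j, 0 < c j) {v : ℂ → ℝ}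
    (h : Tr (eq2 '' Ω) (box (c 1) (c 0)) (volume.real Ω - 4 * c 0 * c 1) v
      (gradient (cj (closure (box (c 1) (c 0))) v))) :
    Brenier Ω c fun x => cj (closure (box (c 1) (c 0))) v (eq2 x) := by
  have hB := body_box (hc 1) (hc 0)
  have hcv : Convex ℝ Ω := by
    have := hΩ.cv.linear_preimage eq2.toLinearEquiv.toLinearMap
    rwa [show (eq2.toLinearEquiv.toLinearMap : (Fin 2 → ℝ) → ℂ) = eq2 from rfl,
      preimage_image_eq _ eq2.injective] at this
  refine ⟨?_, (bridge_map hc _ _).2 h.map⟩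
  exact ((cj_convex hB.isCompact hB.ne.closure h.cont).comp_linearMap
    eq2.toLinearEquiv.toLinearMap).subset (fun _ _ => mem_univ _) hcv

theorem bridge_ae_diff {A : Set ℂ} (hA : IsOpen A) {w : ℂ → ℝ} (hw : ConvexOn ℝ A w) :
    ∀ᵐ x, x ∈ A → DifferentiableAt ℝ w x := by
  refine measure_null_of_locally_null _ fun x hx => ?_
  have hxA : x ∈ A := by
    by_contra h
    exact hx fun h' => absurd h' h
  obtain ⟨K, t, ht, hK⟩ := hw.locallyLipschitzOn hA hxA
  rw [hA.nhdsWithin_eq hxA] at ht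
  refine ⟨_, inter_mem_nhdsWithin _ (interior_mem_nhds.2 ht), ?_⟩
  refine measure_mono_null ?_ (hK.ae_differentiableWithinAt_of_mem (μ := volume))
  intro y hy hd
  exact hy.1 fun _ => (hd (interior_subset hy.2)).differentiableAt (mem_interior_iff_mem_nhds.1 hy.2)

theorem bridge_subgrad {A : Set ℂ} {w : ℂ → ℝ} (hw : ConvexOn ℝ A w) {x y : ℂ} (hx : x ∈ A)
    (hy : y ∈ A) (hd : DifferentiableAt ℝ w x) :
    inner ℝ (gradient w x) y - w y ≤ inner ℝ (gradient w x) x - w x := by
  have h1 : ConvexOn ℝ (Icc (0 : ℝ) 1) (w ∘ AffineMap.lineMap x y) :=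
    (hw.comp_affineMap (AffineMap.lineMap x y)).subset
      (fun t ht => hw.1.lineMap_mem hx hy ht) (convex_Icc 0 1)
  have h2 : HasDerivAt (w ∘ AffineMap.lineMap x y) (fderiv ℝ w x (y - x)) (0 : ℝ) := by
    refine HasFDerivAt.comp_hasDerivAt (0 : ℝ) ?_ AffineMap.hasDerivAt_lineMap
    rw [AffineMap.lineMap_apply_zero]
    exact hd.hasFDerivAt
  have h3 := h1.le_slope_of_hasDerivAt (left_mem_Icc.2 zero_le_one) (right_mem_Icc.2 zero_le_one)
    zero_lt_one h2
  have h4 : fderiv ℝ w x (y - x) = inner ℝ (gradient w x) (y - x) := by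
    rw [gradient, InnerProductSpace.toDual_symm_apply]
  rw [h4, inner_sub_right, slope_def_field] at h3
  simp only [Function.comp, AffineMap.lineMap_apply_zero, AffineMap.lineMap_apply_one, sub_zero,
    div_one] at h3
  linarith

theorem bridge_tr {A B : Set ℂ} (hA : Body A) (hB : Body B) (h0 : (0 : ℂ) ∈ closure B) {β : ℝ}
    {w : ℂ → ℝ} (hw : ConvexOn ℝ A w) (hmap : (volume.restrict A).map (gradient w) = wt B β) :
    Tr A B β (cj A w) (gradient w) ∧
      ∀ x ∈ A, ((∀ y ∈ A, w x ≤ w y) ↔ x ∈ cz (closure B) (cj A w)) := by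
  have hT : Measurable (gradient w) :=
    (InnerProductSpace.toDual ℝ ℂ).symm.continuous.measurable.comp (measurable_fderiv ℝ w)
  have h1 : ∀ᵐ x ∂(volume.restrict A), gradient w x ∈ closure B := by
    refine ae_of_ae_map (p := fun q => q ∈ closure B) hT.aemeasurable ?_
    rw [hmap]
    exact hB.ae_wt (Or.inr h0)
  have h2 : ∀ᵐ x, x ∈ A → DifferentiableAt ℝ w x ∧ gradient w x ∈ closure B := by
    filter_upwards [bridge_ae_diff hA.op hw, (ae_restrict_iff' hA.op.measurableSet).1 h1]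
      with x a b hx using ⟨a hx, b hx⟩
  have h3 := (Measure.dense_of_ae h2).open_subset_closure_inter hA.op
  obtain ⟨R, hR0, hR⟩ := hA.bd.exists_pos_norm_le
  obtain ⟨L, hL0, hL⟩ := hB.isCompact.isBounded.exists_pos_norm_le
  have hin : ∀ q, ∀ x ∈ A, inner ℝ q x ≤ ‖q‖ * R := fun q x hx =>
    (real_inner_le_norm q x).trans (mul_le_mul_of_nonneg_left (hR x hx) (norm_nonneg _))
  have hle : ∀ q, ∀ x ∈ A, inner ℝ q x - w x ≤ cj A w q := by
    obtain ⟨x₀, hx₀, hg⟩ := closure_nonempty_iff.1 (hA.ne.mono h3)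
    intro q x hx
    refine le_csSup ⟨‖q - gradient w x₀‖ * R + (inner ℝ (gradient w x₀) x₀ - w x₀), ?_⟩
      (mem_image_of_mem _ hx)
    rintro _ ⟨y, hy, rfl⟩
    have a := bridge_subgrad hw hx₀ hy (hg hx₀).1
    have b := hin (q - gradient w x₀) y hy
    rw [inner_sub_left] at b
    change inner ℝ q y - w y ≤ _
    linarith
  have hlip : LipschitzWith ⟨R, hR0.le⟩ (cj A w) := by
    refine LipschitzWith.of_le_add_mul _ fun q q' => cj_le hA.ne fun x hx => ?_
    have a := hle q' x hx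
    have b := hin (q - q') x hx
    rw [inner_sub_left] at b
    rw [dist_eq_norm]
    change _ ≤ _ + R * _
    linarith
  have hcv : ConvexOn ℝ (closure B) (cj A w) := by
    refine ⟨hB.cv.closure, fun q _ q' _ a b ha hb hab => cj_le hA.ne fun x hx => ?_⟩
    have a1 := mul_le_mul_of_nonneg_left (hle q x hx) ha
    have a2 := mul_le_mul_of_nonneg_left (hle q' x hx) hb
    rw [inner_add_left, real_inner_smul_left, real_inner_smul_left, smul_eq_mul, smul_eq_mul]
    have a3 : w x = a * w x + b * w x := by rw [← add_mul, hab, one_mul]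
    linarith
  have hup : ∀ x ∈ A, ∀ q, inner ℝ x q - cj A w q ≤ w x := fun x hx q => by
    have a := hle q x hx
    rw [real_inner_comm] at a
    linarith
  have hlo : ∀ x ∈ A, DifferentiableAt ℝ w x →
      w x ≤ inner ℝ x (gradient w x) - cj A w (gradient w x) := fun x hx hd => by
    have a : cj A w (gradient w x) ≤ _ := cj_le hA.ne fun y hy => bridge_subgrad hw hx hy hd
    rw [real_inner_comm] at a
    linarith
  refine ⟨⟨hlip.continuous, hcv, hT, hmap, ?_⟩, fun x hx => ⟨fun h => ⟨h0, fun q _ => ?_⟩, ?_⟩⟩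
  · rw [ae_restrict_iff' hA.op.measurableSet]
    filter_upwards [h2] with x h hx
    exact ⟨(h hx).2, fun q _ => (hup x hx q).trans (hlo x hx (h hx).1)⟩
  · have a : cj A w 0 ≤ -w x := cj_le hA.ne fun y hy => by
      rw [inner_zero_left]
      linarith [h y hy]
    rw [inner_zero_right]
    linarith [hup x hx q]
  · intro h y hy
    have hc : ContinuousAt (fun z => w z - ‖z - x‖ * L) x :=
      ((hw.continuousOn hA.op).continuousAt (hA.op.mem_nhds hx)).sub (by fun_prop)
    have := ContinuousWithinAt.closure_le (h3 hx) hc.continuousWithinAt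
      (continuousWithinAt_const (b := w y)) fun z hz => by
        obtain ⟨hd, hm⟩ := hz.2 hz.1
        have a1 := hlo z hz.1 hd
        have a2 := h.2 _ hm
        have a3 := hup y hy 0
        have a4 := (real_inner_le_norm (z - x) (gradient w z)).trans
          (mul_le_mul_of_nonneg_left (hL _ hm) (norm_nonneg _))
        rw [inner_sub_left] at a4
        rw [inner_zero_right] at a2 a3
        linarith
    simpa using this

/-- a potential on the real plane gives a transport map -/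
theorem tr_of_brenier (hΩ : Body (eq2 '' Ω)) (hc : ∀ j, 0 < c j) {u : (Fin 2 → ℝ) → ℝ}
    (h : Brenier Ω c u) : ∃ v T,
      Tr (eq2 '' Ω) (box (c 1) (c 0)) (volume.real Ω - 4 * c 0 * c 1) v T ∧
      ∀ x ∈ Ω, (x ∈ argmin Ω u ↔ eq2 x ∈ cz (closure (box (c 1) (c 0))) v) := by
  obtain ⟨w, rfl⟩ : ∃ w : ℂ → ℝ, u = fun y => w (eq2 y) :=
    ⟨fun p => u (eq2.symm p), funext fun y => by simp⟩
  have hw : ConvexOn ℝ (eq2 '' Ω) w := by
    refine ⟨hΩ.cv, ?_⟩
    rintro _ ⟨x, hx, rfl⟩ _ ⟨y, hy, rfl⟩ a b ha hb hab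
    have := h.1.2 hx hy ha hb hab
    simpa only [map_add, map_smul] using this
  have h0 : (0 : ℂ) ∈ closure (box (c 1) (c 0)) :=
    subset_closure ⟨by simpa using hc 1, by simpa using hc 0⟩
  obtain ⟨h1, h2⟩ := bridge_tr hΩ (body_box (hc 1) (hc 0)) h0 hw ((bridge_map hc _ w).1 h.2)
  refine ⟨_, _, h1, fun x hx => ?_⟩
  rw [← h2 _ (mem_image_of_mem _ hx), forall_mem_image]
  exact ⟨fun h => h.2, fun h => ⟨hx, h⟩⟩

end Pool.Agent.NapOT
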