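import Pool.Agent.Lib.MP_b71113_an.OT.Base
import Pool.Agent.Lib.MP_b71113_an.Osgood

/-! Extension across a totally real plane. -/

namespace Pool.Agent.NapOT

open MeasureTheory Set Metric Complex ComplexConjugate Filter Topology
open scoped NNReal ENNReal Pointwise

/-- extension in the coordinates of the family of discs -/
theorem hart_core {G : ℂ × ℂ → ℂ} {r : ℝ} (hr : 0 < r)
    (hG : ∀ w t : ℂ, ‖w‖ < r ^ 2 → ‖t‖ ≤ r → t.im ≠ 0 ∨ w.im + t.re ^ 2 ≠ 0 →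
      DifferentiableAt ℂ G (w, t)) :
    ∃ H : ℂ × ℂ → ℂ, DifferentiableOn ℂ H (ball 0 (r ^ 2) ×ˢ ball 0 r) ∧
      ∀ w t : ℂ, ‖w‖ < r ^ 2 → ‖t‖ < r → t.im ≠ 0 ∨ w.im + t.re ^ 2 ≠ 0 → H (w, t) = G (w, t) := by
  have hO : IsOpen (ball (0 : ℂ) (r ^ 2) ×ˢ ball (0 : ℂ) r) := isOpen_ball.prod isOpen_ball
  have hs : ∀ p ∈ ball (0 : ℂ) (r ^ 2) ×ˢ ball (0 : ℂ) r, ∀ t ∈ sphere (0 : ℂ) r,
      t - p.2 ≠ 0 ∧ DifferentiableAt ℂ G (p.1, t) := by
    intro p hp t ht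
    have h1 := mem_ball_zero_iff.1 hp.1
    have h2 := mem_ball_zero_iff.1 hp.2
    have h3 := mem_sphere_zero_iff_norm.1 ht
    refine ⟨fun h0 => ?_, hG _ _ h1 h3.le ?_⟩
    · rw [sub_eq_zero.1 h0] at h3
      exact h2.ne h3
    · by_cases h4 : t.im = 0
      · have h5 : t.re ^ 2 = r ^ 2 := by
          rw [← h3, Complex.sq_norm, normSq_apply, h4]
          ring
        have h6 := (abs_lt.1 ((abs_im_le_norm p.1).trans_lt h1)).1
        exact Or.inr (by linarith)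
      · exact Or.inl h4
  have hH : DifferentiableOn ℂ
      (fun p : ℂ × ℂ => (2 * Real.pi * I : ℂ)⁻¹ • ∮ t in C(0, r), (t - p.2)⁻¹ • G (p.1, t))
      (ball 0 (r ^ 2) ×ˢ ball 0 r) := by
    refine (Lib.MP_b71113_an.differentiableOn_circleIntegral
      (Φ := fun (p : ℂ × ℂ) t => (t - p.2)⁻¹ • G (p.1, t)) hO hr.le ?_ ?_).const_smul
        (2 * Real.pi * I : ℂ)⁻¹
    · intro q hq
      obtain ⟨h1, h2⟩ := hs q.1 hq.1 q.2 hq.2
      have c1 : Continuous fun q : (ℂ × ℂ) × ℂ => q.2 - q.1.2 := by fun_prop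
      have c2 : Continuous fun q : (ℂ × ℂ) × ℂ => (q.1.1, q.2) := by fun_prop
      exact ((c1.continuousAt.inv₀ h1).smul
        (ContinuousAt.comp (g := G) h2.continuousAt c2.continuousAt)).continuousWithinAt
    · intro t ht p hp
      obtain ⟨h1, h2⟩ := hs p hp t ht
      have c1 : DifferentiableAt ℂ (fun p : ℂ × ℂ => t - p.2) p := by fun_prop
      have c2 : DifferentiableAt ℂ (fun p : ℂ × ℂ => (p.1, t)) p := by fun_prop
      exact ((c1.inv h1).smul (DifferentiableAt.comp (g := G) p h2 c2)).differentiableWithinAt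
  generalize hHd : (fun p : ℂ × ℂ =>
    (2 * Real.pi * I : ℂ)⁻¹ • ∮ t in C(0, r), (t - p.2)⁻¹ • G (p.1, t)) = H at hH
  refine ⟨H, hH, ?_⟩
  have hAt : ∀ w t : ℂ, ‖w‖ < r ^ 2 → ‖t‖ < r → DifferentiableAt ℂ H (w, t) := fun w t hw ht =>
    hH.differentiableAt (hO.mem_nhds ⟨mem_ball_zero_iff.2 hw, mem_ball_zero_iff.2 ht⟩)
  have e1 : ∀ w t : ℂ, ‖w‖ < r ^ 2 → ‖t‖ < r → 0 < w.im → H (w, t) = G (w, t) := by
    intro w t hw ht h0
    have hd : DifferentiableOn ℂ (fun s => G (w, s)) (closedBall 0 r) := fun s hs =>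
      (DifferentiableAt.comp (g := G) (f := fun s => (w, s)) s
        (hG w s hw (mem_closedBall_zero_iff.1 hs) (Or.inr (by positivity)))
        (by fun_prop)).differentiableWithinAt
    rw [← hHd]
    simp only
    rw [hd.circleIntegral_sub_inv_smul (mem_ball_zero_iff.2 ht), inv_smul_smul₀ two_pi_I_ne_zero]
  have e2 : ∀ w t : ℂ, ‖w‖ < r ^ 2 → ‖t‖ < r → t.im ≠ 0 → H (w, t) = G (w, t) := by
    intro w t hw ht h0
    have d1 : DifferentiableOn ℂ (fun v => H (v, t)) (ball 0 (r ^ 2)) := fun v hv =>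
      (DifferentiableAt.comp (g := H) (f := fun v => (v, t)) v
        (hAt v t (mem_ball_zero_iff.1 hv) ht) (by fun_prop)).differentiableWithinAt
    have d2 : DifferentiableOn ℂ (fun v => G (v, t)) (ball 0 (r ^ 2)) := fun v hv =>
      (DifferentiableAt.comp (g := G) (f := fun v => (v, t)) v
        (hG v t (mem_ball_zero_iff.1 hv) ht.le (Or.inl h0)) (by fun_prop)).differentiableWithinAt
    have h2 : 0 < r ^ 2 / 2 := by positivity
    have hz : ((r ^ 2 / 2 : ℝ) : ℂ) * I ∈ ball (0 : ℂ) (r ^ 2) := by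
      rw [mem_ball_zero_iff, norm_mul, norm_I, mul_one, norm_real, Real.norm_of_nonneg h2.le]
      linarith
    refine (d1.analyticOnNhd isOpen_ball).eqOn_of_preconnected_of_eventuallyEq
      (d2.analyticOnNhd isOpen_ball) (convex_ball _ _).isPreconnected hz ?_
      (mem_ball_zero_iff.2 hw)
    have hi : 0 < (((r ^ 2 / 2 : ℝ) : ℂ) * I).im := by
      rwa [mul_I_im, ofReal_re]
    filter_upwards [isOpen_ball.mem_nhds hz,
      continuous_im.continuousAt.eventually (lt_mem_nhds hi)] with v h3 h4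
    exact e1 v t (mem_ball_zero_iff.1 h3) ht h4
  intro w t hw ht h0
  have c : Continuous fun s : ℂ => (w, s) := by fun_prop
  have hd : Dense (im ⁻¹' {0}ᶜ) := (dense_compl_singleton (0 : ℝ)).preimage isOpenMap_im
  refine tendsto_nhds_unique_of_frequently_eq
    (ContinuousAt.comp (g := H) (hAt w t hw ht).continuousAt c.continuousAt)
    (ContinuousAt.comp (g := G) (hG w t hw ht.le h0).continuousAt c.continuousAt) ?_
  exact ((mem_closure_iff_frequently.1 (hd t)).and_eventually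
    (isOpen_ball.mem_nhds (mem_ball_zero_iff.2 ht))).mono
      fun s hs => e2 w s hw (mem_ball_zero_iff.1 hs.2) hs.1

theorem hart_open (e : ℂ) : IsOpen {z : ℂ × ℂ | z.2 ≠ e * conj z.1} :=
  isOpen_ne_fun continuous_snd (by fun_prop)

theorem hart_plane {e ξ₀ w t : ℂ} (he : e ≠ 0) :
    e * (conj ξ₀ + (w + I * t ^ 2 + I * t)) ≠ e * conj (ξ₀ + (w + I * t ^ 2 - I * t)) ↔
      t.im ≠ 0 ∨ w.im + t.re ^ 2 ≠ 0 := by
  rw [Ne, mul_right_inj' he, ← not_and_or, Complex.ext_iff]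
  simp only [sq, add_re, add_im, sub_re, sub_im, mul_re, mul_im, conj_re, conj_im, I_re, I_im]
  refine not_congr ⟨fun h => ?_, fun h => ?_⟩
  · have h1 : t.im = 0 := by linarith [h.1]
    have h2 := h.2
    rw [h1] at h2
    exact ⟨h1, by linarith⟩
  · have h2 := h.2
    rw [h.1]
    exact ⟨by ring, by linarith⟩

theorem hartogs_loc {e : ℂ} (he : e = 1 ∨ e = -1) {ξ₀ : ℂ} {ρ : ℝ} (hρ : 0 < ρ) {f : ℂ × ℂ → ℂ}
    (hf : DifferentiableOn ℂ f (ball (ξ₀, e * conj ξ₀) ρ ∩ {z | z.2 ≠ e * conj z.1})) :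
    ∃ (U : Set (ℂ × ℂ)) (F : ℂ × ℂ → ℂ), IsOpen U ∧ (ξ₀, e * conj ξ₀) ∈ U ∧
      DifferentiableOn ℂ F U ∧ ∀ z ∈ U, z.2 ≠ e * conj z.1 → F z = f z := by
  have he1 : ‖e‖ = 1 := by rcases he with rfl | rfl <;> simp
  have he2 : e * e = 1 := by rcases he with rfl | rfl <;> simp
  have he0 : e ≠ 0 := norm_pos_iff.1 (he1 ▸ one_pos)
  obtain ⟨r, hr, hr1, hr2⟩ : ∃ r : ℝ, 0 < r ∧ r ≤ 1 ∧ r ≤ ρ / 3 :=
    ⟨min 1 (ρ / 3), lt_min one_pos (by positivity), min_le_left _ _, min_le_right _ _⟩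
  let Ψ : ℂ × ℂ → ℂ × ℂ := fun p =>
    (ξ₀ + (p.1 + I * p.2 ^ 2 - I * p.2), e * (conj ξ₀ + (p.1 + I * p.2 ^ 2 + I * p.2)))
  let Θ : ℂ × ℂ → ℂ × ℂ := fun z =>
    ((z.1 - ξ₀ + (e * z.2 - conj ξ₀)) / 2 - I * (I * (z.1 - ξ₀ - (e * z.2 - conj ξ₀)) / 2) ^ 2,
      I * (z.1 - ξ₀ - (e * z.2 - conj ξ₀)) / 2)
  have dΨ : Differentiable ℂ Ψ := by fun_prop
  have dΘ : Differentiable ℂ Θ := by fun_prop
  have hinv : ∀ z, Ψ (Θ z) = z := fun z => by
    refine Prod.ext ?_ ?_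
    · simp only [Ψ, Θ]
      linear_combination (-(z.1 - ξ₀ - (e * z.2 - conj ξ₀)) / 2) * I_mul_I
    · simp only [Ψ, Θ]
      linear_combination (e * (z.1 - ξ₀ - (e * z.2 - conj ξ₀)) / 2) * I_mul_I + z.2 * he2
  obtain ⟨H, hH, hG⟩ := hart_core (G := f ∘ Ψ) hr fun w t hw ht h0 => by
    refine DifferentiableAt.comp _ (hf.differentiableAt
      ((isOpen_ball.inter (hart_open e)).mem_nhds ⟨?_, (hart_plane he0).2 h0⟩)) (dΨ _)
    have h1 : ‖w + I * t ^ 2‖ + ‖I * t‖ < ρ := by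
      have h2 := norm_add_le w (I * t ^ 2)
      rw [norm_mul, norm_I, one_mul, norm_pow] at h2
      rw [norm_mul, norm_I, one_mul]
      have h3 := pow_le_pow_left₀ (norm_nonneg t) ht 2
      nlinarith
    rw [mem_ball, Prod.dist_eq, max_lt_iff, dist_eq_norm, dist_eq_norm]
    simp only [Ψ]
    rw [← mul_sub, norm_mul, he1, one_mul, add_sub_cancel_left, add_sub_cancel_left]
    exact ⟨(norm_sub_le _ _).trans_lt h1, (norm_add_le _ _).trans_lt h1⟩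
  refine ⟨Θ ⁻¹' (ball 0 (r ^ 2) ×ˢ ball 0 r), H ∘ Θ,
    (isOpen_ball.prod isOpen_ball).preimage dΘ.continuous, ?_,
    hH.comp dΘ.differentiableOn fun z hz => hz, fun z hz h0 => ?_⟩
  · have h0 : Θ (ξ₀, e * conj ξ₀) = 0 := by
      simp [Θ, ← mul_assoc, he2]
    rw [mem_preimage, h0]
    exact ⟨mem_ball_self (by positivity), mem_ball_self hr⟩
  · rw [← hinv z] at h0
    exact (hG _ _ (mem_ball_zero_iff.1 hz.1) (mem_ball_zero_iff.1 hz.2)
      ((hart_plane he0).1 h0)).trans (congrArg f (hinv z))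

theorem dense_off_plane (e : ℂ) : Dense {z : ℂ × ℂ | z.2 ≠ e * conj z.1} := fun z =>
  map_mem_closure (f := fun t : ℂ => (z.1, t)) (by fun_prop)
    (dense_compl_singleton (e * conj z.1) z.2) fun _ h => h

theorem hartogs {e : ℂ} (he : e = 1 ∨ e = -1) {W : Set (ℂ × ℂ)} (hW : IsOpen W) {f : ℂ × ℂ → ℂ}
    (hf : DifferentiableOn ℂ f (W ∩ {z | z.2 ≠ e * conj z.1})) :
    ∃ F : ℂ × ℂ → ℂ, DifferentiableOn ℂ F W ∧ ∀ z ∈ W, z.2 ≠ e * conj z.1 → F z = f z := by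
  have loc : ∀ z₀ ∈ W, ∃ (U : Set (ℂ × ℂ)) (F : ℂ × ℂ → ℂ), IsOpen U ∧ z₀ ∈ U ∧
      DifferentiableOn ℂ F U ∧ ∀ z ∈ U, z.2 ≠ e * conj z.1 → F z = f z := by
    intro z₀ hz
    by_cases h0 : z₀.2 = e * conj z₀.1
    · obtain ⟨ρ, hρ, hb⟩ := Metric.isOpen_iff.1 hW z₀ hz
      have h1 : z₀ = (z₀.1, e * conj z₀.1) := Prod.ext rfl h0
      rw [h1] at hb ⊢
      exact hartogs_loc he hρ (hf.mono (inter_subset_inter_left _ hb))
    · exact ⟨_, f, hW.inter (hart_open e), ⟨hz, h0⟩, hf, fun _ _ _ => rfl⟩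
  have key : ∀ (U : Set (ℂ × ℂ)) (F : ℂ × ℂ → ℂ), IsOpen U → DifferentiableOn ℂ F U →
      (∀ z ∈ U, z.2 ≠ e * conj z.1 → F z = f z) →
      ∀ z ∈ U, limUnder (𝓝[{z : ℂ × ℂ | z.2 ≠ e * conj z.1}] z) f = F z := by
    intro U F hU hF hFf z hz
    have := mem_closure_iff_nhdsWithin_neBot.1 (dense_off_plane e z)
    refine Tendsto.limUnder_eq (Tendsto.congr' ?_
      ((hF.differentiableAt (hU.mem_nhds hz)).continuousAt.tendsto.mono_left nhdsWithin_le_nhds))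
    filter_upwards [self_mem_nhdsWithin, mem_nhdsWithin_of_mem_nhds (hU.mem_nhds hz)] with y h1 h2
    exact hFf y h2 h1
  refine ⟨fun z => limUnder (𝓝[{z : ℂ × ℂ | z.2 ≠ e * conj z.1}] z) f, fun z hz => ?_,
    fun z hz h0 => ?_⟩
  · obtain ⟨U, F, hU, hz', hF, hFf⟩ := loc z hz
    refine ((hF.differentiableAt (hU.mem_nhds hz')).congr_of_eventuallyEq
      ?_).differentiableWithinAt
    filter_upwards [hU.mem_nhds hz'] with y hy
    exact key U F hU hF hFf y hy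
  · obtain ⟨U, F, hU, hz', hF, hFf⟩ := loc z hz
    exact (key U F hU hF hFf z hz').trans (hFf z hz' h0)

end Pool.Agent.NapOT
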