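import Pool.Agent.Lib.MP_b71113_an.OT.Sheet
import Pool.Agent.Lib.MP_b71113_an.OT.Hart
import Pool.Agent.Lib.MP_b71113_an.OT.Zed
import Pool.Agent.Lib.MP_b71113_an.OT.Adm

/-! The defining function. -/

namespace Pool.Agent.NapOT

open MeasureTheory Set Metric Complex ComplexConjugate Filter Topology
open scoped NNReal ENNReal Pointwise

variable {J : Type} [Fintype J] {b : J → ℂ} {c d : J → ℝ} {R : ℝ} {φ : ℂ → ℂ} {θ : J → ℂ → ℂ}
  {e : ℂ}

theorem core_EE (hφ : Cur b d φ e) (θ : J → ℂ → ℂ) (z : ℂ × ℂ) :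
    EE b φ θ z = Ex b φ θ z.1 z.2 +
      Ex (fun j => conj (b j)) (sharp φ) (fun j s => θ j (conj s)) z.2 z.1 +
      Ct (om φ θ e) e z.1 z.2 := by
  have h0 : ∀ᵐ s, om φ θ (-e) s = 0 := by
    filter_upwards [measure_eq_zero_iff_ae_notMem.1 hφ.null] with s hs
    exact indicator_of_notMem hs _
  rcases hφ.he with rfl | rfl
  · rw [EE, Ct_eq_zero h0, add_zero]
  · rw [neg_neg] at h0
    rw [EE, Ct_eq_zero h0, add_zero]

theorem core_mem_sharp (he : e = 1 ∨ e = -1) (φ : ℂ → ℂ) (s : ℂ) :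
    s ∈ cs (sharp φ) e ↔ conj s ∈ cs φ e := by
  have h1 : conj e = e := by rcases he with rfl | rfl <;> simp
  simp only [cs, sharp, mem_ofPred_eq]
  constructor
  · intro h
    have := congrArg conj h
    rwa [conj_conj, map_mul, h1] at this
  · intro h
    rw [h, map_mul, h1, conj_conj]

omit [Fintype J] in
theorem core_mem_e (hφ : Cur b d φ e) (s : ℂ) : e * s ∈ cs φ e ↔ s ∈ cs φ e := by
  rcases hφ.he with h | h
  · rw [h, one_mul]
  · have h1 : e * s = -s := by rw [h, neg_one_mul]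
    rw [h1]
    exact ⟨fun hs => by simpa using hφ.sym h _ hs, hφ.sym h s⟩

theorem core_lip (hφ : LipschitzWith 1 φ) : LipschitzWith 1 (sharp φ) := by
  have h := (conjLIE.isometry.lipschitz.comp hφ).comp conjLIE.isometry.lipschitz
  rw [one_mul, one_mul] at h
  exact h

theorem core_cs_sharp (he : e = 1 ∨ e = -1) (φ : ℂ → ℂ) :
    cs (sharp φ) e = conjLIE ⁻¹' cs φ e := Set.ext fun s => core_mem_sharp he φ s

omit [Fintype J] in
theorem core_ctc (hφ : Cur b d φ e) {z : ℂ × ℂ} (hz : z ∉ ctc φ e) :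
    (z.2, z.1) ∉ ctc (sharp φ) e := by
  rintro ⟨h1, h2⟩
  simp only at h1 h2
  refine hz ⟨?_, ?_⟩
  · rw [h2, core_mem_e hφ]
    exact (core_mem_sharp hφ.he φ _).1 h1
  · rw [h2]
    rcases hφ.he with rfl | rfl <;> simp

theorem core_swap (hφ : Cur b d φ e) (hev : e = -1 → Ev θ) (ξ ζ : ℂ) :
    Ct (om φ θ e) e ξ ζ = Ct (om (sharp φ) (fun j s => θ j (conj s)) e) e ζ ξ := by
  rw [Ct_swap hφ.he]
  congr 1
  funext s
  have h1 : ∑ j, θ j (e * conj s) = ∑ j, θ j (conj s) := by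
    rcases hφ.he with h | h
    · rw [h, one_mul]
    · rw [h, neg_one_mul]
      exact hev h _
  by_cases hs : s ∈ cs (sharp φ) e
  · rw [om, om, indicator_of_mem hs,
      indicator_of_mem ((core_mem_e hφ _).2 ((core_mem_sharp hφ.he φ s).1 hs)), h1]
  · rw [om, om, indicator_of_notMem hs, indicator_of_notMem fun h =>
      hs ((core_mem_sharp hφ.he φ s).2 ((core_mem_e hφ _).1 h))]

theorem core_bd (hφ : Cur b d φ e) (h : Th b c φ θ) : ∃ M R', Bd M R' (om φ θ e) := by
  obtain ⟨M, hM⟩ := bd_om (fun j => (h.smooth j).continuous) h.supp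
  obtain ⟨R', hR⟩ := hφ.bdd.subset_closedBall 0
  exact ⟨M, R', hM φ e R' hφ.lip.continuous hR⟩

theorem core_om_ne {s : ℂ} (h : om φ θ e s ≠ 0) : s ∈ cs φ e := by
  by_contra hs
  exact h (indicator_of_notMem hs _)

theorem core_tlu {ι : Type} (l : Filter ι) (φ : ℂ → ℂ) :
    TendstoLocallyUniformly (fun _ : ι => φ) φ l := fun _ hu _ =>
  ⟨univ, univ_mem, Eventually.of_forall fun _ _ _ => refl_mem_uniformity hu⟩

theorem core_open (hφ : Cur b d φ e) : IsOpen (WW b c R \ ctc φ e) :=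
  (isOpen_WW b c R).sdiff (isClosed_ctc hφ.lip.continuous e)

theorem core_dense {W : Set (ℂ × ℂ)} (hW : IsOpen W) {F G : ℂ × ℂ → ℂ} {z : ℂ × ℂ} (hz : z ∈ W)
    (hF : ContinuousAt F z) (hG : ContinuousAt G z)
    (h : ∀ w ∈ W, w.2 ≠ e * conj w.1 → F w = G w) : F z = G z := by
  refine tendsto_nhds_unique_of_frequently_eq hF hG ?_
  exact ((mem_closure_iff_frequently.1 (dense_off_plane e z)).and_eventually
    (hW.mem_nhds hz)).mono fun w hw => h w hw.2 hw.1

theorem continuousAt_EE (hφ : Cur b d φ e) (h : Th b c φ θ) {z : ℂ × ℂ} (hz : z ∈ WW b c R)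
    (hz' : z ∉ ctc φ e) : ContinuousAt (EE b φ θ) z := by
  have hc := hφ.lip.continuous
  have hc' := (core_lip hφ.lip).continuous
  have e1 := tendsto_Ex (l := 𝓝 z) (Φ := fun _ => φ) (z := fun w => w) h hc
    (Eventually.of_forall fun _ => hc) (core_tlu _ φ) tendsto_id hz
  have e2 := tendsto_Ex (l := 𝓝 z) (Φ := fun _ => sharp φ) (z := fun w => (w.2, w.1))
    (z₀ := (z.2, z.1)) h.sharp hc' (Eventually.of_forall fun _ => hc') (core_tlu _ _)
    (continuous_swap.tendsto z) (swap_mem_WW hz)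
  obtain ⟨M, R', hB⟩ := core_bd hφ h
  obtain ⟨δ, hδ, hs⟩ := exists_sep_ctc hc hz'
  have e3 := tendsto_Ct (l := 𝓝 z) (w := fun _ => om φ θ e) (z := fun w => w) (δ := δ / 2) hφ.he
    (Eventually.of_forall fun _ => hB) hB (Eventually.of_forall fun _ => tendsto_const_nhds)
    tendsto_id (half_pos hδ) (by
      filter_upwards [ball_mem_nhds z (show 0 < δ / 4 by linarith)] with w hw s hs'
      have h1 := hs s (core_om_ne hs')
      rw [mem_ball, Prod.dist_eq, max_lt_iff, dist_eq_norm, dist_eq_norm] at hw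
      have h2 := norm_sub_le_norm_sub_add_norm_sub z.1 w.1 s
      have h3 := norm_sub_le_norm_sub_add_norm_sub z.2 w.2 (e * conj s)
      rw [norm_sub_rev z.1 w.1] at h2
      rw [norm_sub_rev z.2 w.2] at h3
      linarith [hw.1, hw.2])
    (fun s hs' => by linarith [hs s (core_om_ne hs')])
  have e4 : EE b φ θ = fun z => Ex b φ θ z.1 z.2 +
      Ex (fun j => conj (b j)) (sharp φ) (fun j s => θ j (conj s)) z.2 z.1 +
      Ct (om φ θ e) e z.1 z.2 := funext (core_EE hφ θ)
  rw [e4]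
  exact (e1.add e2).add e3

theorem ff_hol (hφ : Cur b d φ e) (h : Adm b c d R φ θ) (hev : e = -1 → Ev θ) :
    DifferentiableOn ℂ (ff b φ θ) (WW b c R \ ctc φ e) := by
  have hc := hφ.lip.continuous
  have hc' := (core_lip hφ.lip).continuous
  refine osgood2 (core_open hφ) (fun z hz => ContinuousAt.continuousWithinAt ?_)
    (fun z hz => ?_) fun z hz => ?_
  · have h1 := continuousAt_EE hφ h.toTh hz.1 hz.2
    exact (((continuous_snd.sub (hc.comp continuous_fst)).mul
      (continuous_fst.sub (hc'.comp continuous_snd))).continuousAt).mul h1.cexp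
  · have h1 := sheet hφ.lip hφ.he hφ.cvx hφ.bdd h.toTh
      (fun s h1 h2 h3 => hφ.hol s (h.cover s h1 h3) h2) hz.1 hz.2
    have h2 := h.toTh.sharp.differentiableAt_Ex hc' (swap_mem_WW hz.1)
    have h3 := h1.mul ((differentiableAt_id.sub_const (sharp φ z.2)).mul h2.cexp)
    refine h3.congr_of_eventuallyEq (Eventually.of_forall fun ξ => ?_)
    simp only [ff, core_EE hφ, Complex.exp_add, Pi.mul_apply, id]
    ring
  · have h1 := sheet (R := R) (core_lip hφ.lip) hφ.he
      (by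
        rw [core_cs_sharp hφ.he]
        exact hφ.cvx.linear_preimage conjLIE.toLinearEquiv.toLinearMap)
      (by
        rw [core_cs_sharp hφ.he]
        exact conjLIE.isometry.antilipschitz.isBounded_preimage hφ.bdd) h.toTh.sharp
      (fun s h1 h2 h3 => by
        have h4 := hφ.hol (conj s) (h.cover (conj s) (by rwa [norm_conj]) h3)
          fun h5 => h2 ((core_mem_sharp hφ.he φ s).2 h5)
        have h5 := h4.conj_conj
        rwa [conj_conj] at h5) (swap_mem_WW hz.1) (core_ctc hφ hz.2)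
    have h2 := h.toTh.differentiableAt_Ex hc hz.1
    have h3 := h1.mul ((differentiableAt_id.sub_const (φ z.1)).mul h2.cexp)
    refine h3.congr_of_eventuallyEq (Eventually.of_forall fun ζ => ?_)
    simp only [ff, core_EE hφ, Complex.exp_add, Pi.mul_apply, id, core_swap hφ hev]
    ring

theorem ff_ext (hφ : Cur b d φ e) (h : Adm b c d R φ θ) (hev : e = -1 → Ev θ) :
    ∃ F : ℂ × ℂ → ℂ, DifferentiableOn ℂ F (WW b c R) ∧
      ∀ z ∈ WW b c R, z ∉ ctc φ e → F z = ff b φ θ z := by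
  have h1 := ff_hol hφ h hev
  obtain ⟨F, hF, hE⟩ := hartogs hφ.he (isOpen_WW b c R)
    (h1.mono fun z hz => ⟨hz.1, fun h2 => hz.2 h2.2⟩)
  refine ⟨F, hF, fun z hz hz' => core_dense (isOpen_WW b c R) hz ?_ ?_ hE⟩
  · exact hF.continuousOn.continuousAt ((isOpen_WW b c R).mem_nhds hz)
  · exact h1.continuousOn.continuousAt ((core_open hφ).mem_nhds ⟨hz, hz'⟩)

theorem EE_combo {θ' : J → ℂ → ℂ} (hφ : Cur b d φ e) (h : Th b c φ θ) (h' : Th b c φ θ')
    {z : ℂ × ℂ} (hz : z ∈ WW b c R) (hz' : z ∉ ctc φ e) (r : ℝ) :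
    EE b φ (fun j s => θ j s + r * (θ' j s - θ j s)) z =
      EE b φ θ z + r * (EE b φ θ' z - EE b φ θ z) := by
  have hc := hφ.lip.continuous
  have hc' := (core_lip hφ.lip).continuous
  have e1 := Ex_combo h h' hc hz r
  have e2 := Ex_combo h.sharp h'.sharp hc' (swap_mem_WW hz) r
  obtain ⟨M, R₁, hB⟩ := core_bd hφ h
  obtain ⟨M', R₂, hB'⟩ := core_bd hφ h'
  obtain ⟨δ, hδ, hs⟩ := exists_sep_ctc hc hz'
  have e3 := Ct_combo hφ.he hB hB' hδ (fun s hs' => hs s (hs'.elim core_om_ne core_om_ne)) r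
  have e4 : om φ (fun j s => θ j s + r * (θ' j s - θ j s)) e =
      fun s => om φ θ e s + r * (om φ θ' e s - om φ θ e s) := by
    funext s
    by_cases hs : s ∈ cs φ e
    · simp only [om, indicator_of_mem hs, Finset.sum_add_distrib, ← Finset.mul_sum,
        Finset.sum_sub_distrib]
      ring
    · simp only [om, indicator_of_notMem hs]
      ring
  rw [core_EE hφ, core_EE hφ, core_EE hφ, e1, e4, e3]
  simp only at e2
  rw [e2]
  ring

/-- independence of the cut-off functions -/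
theorem ZZ_indep {θ' : J → ℂ → ℂ} (hφ : Cur b d φ e) (h : Adm b c d R φ θ) (h' : Adm b c d R φ θ')
    (hev : e = -1 → Ev θ) (hev' : e = -1 → Ev θ') {K : Set (ℂ × ℂ)} (hK : IsCompact K)
    (hKW : K ⊆ WW b c R \ ctc φ e)
    (hz : ZZ (WW b c R) K (ff b φ θ)) : ZZ (WW b c R) K (ff b φ θ') := by
  have hΔ : ContinuousOn (fun z => EE b φ θ' z - EE b φ θ z) K := fun z hz =>
    ((continuousAt_EE hφ h'.toTh (hKW hz).1 (hKW hz).2).sub
      (continuousAt_EE hφ h.toTh (hKW hz).1 (hKW hz).2)).continuousWithinAt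
  obtain ⟨M, hM⟩ := hK.exists_bound_of_continuousOn hΔ
  refine ZZ.chain hK (fun z hz => (hKW hz).1) hM (fun r _ => ?_) hz fun z _ => ?_
  · obtain ⟨F, hF, hE⟩ := ff_ext hφ (h.combo h' r) fun he s => by
      simp only [Finset.sum_add_distrib, ← Finset.mul_sum, Finset.sum_sub_distrib]
      rw [hev he s, hev' he s]
    refine ⟨F, hF, fun z hz => ?_⟩
    rw [hE z (hKW hz).1 (hKW hz).2, ff, ff, EE_combo hφ h.toTh h'.toTh (hKW hz).1 (hKW hz).2,
      Complex.exp_add]
    ring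
  · rw [ff, ff, mul_assoc _ (exp _), ← Complex.exp_add, add_sub_cancel]

/-- no zeros off the plane -/
theorem ZZ_of_ne (hφ : Cur b d φ e) (h : Adm b c d R φ θ) (hev : e = -1 → Ev θ)
    {K : Set (ℂ × ℂ)} (hKW : K ⊆ WW b c R \ ctc φ e)
    (hne : ∀ z ∈ WW b c R, z.2 ≠ e * conj z.1 → ff b φ θ z ≠ 0) :
    ZZ (WW b c R) K (ff b φ θ) := by
  have h1 := ff_hol hφ h hev
  obtain ⟨G, hG, hE⟩ := hartogs (f := fun z => (ff b φ θ z)⁻¹) hφ.he (isOpen_WW b c R)
    ((h1.mono fun z hz => ⟨hz.1, fun h2 => hz.2 h2.2⟩).inv fun z hz => hne z hz.1 hz.2)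
  refine ⟨G, hG, fun z hz => ?_⟩
  have h2 : ff b φ θ z * G z = 1 := by
    refine core_dense (e := e) (F := fun w => ff b φ θ w * G w) (G := fun _ => 1)
      (isOpen_WW b c R) (hKW hz).1 ?_ continuousAt_const fun w hw hw' => ?_
    · exact (h1.continuousOn.continuousAt ((core_open hφ).mem_nhds (hKW hz))).mul
        (hG.continuousOn.continuousAt ((isOpen_WW b c R).mem_nhds (hKW hz).1))
    · rw [hE w hw hw', mul_inv_cancel₀ (hne w hw hw')]
  rw [h2, sub_self, norm_zero]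
  exact one_pos

/-- the extension vanishes at the boundary of the contact set -/
theorem ext_eq_zero (hφ : Continuous φ) {F : ℂ × ℂ → ℂ} (hF : DifferentiableOn ℂ F (WW b c R))
    (hE : ∀ z ∈ WW b c R, z ∉ ctc φ e → F z = ff b φ θ z) {s : ℂ} (hs : s ∈ frontier (cs φ e))
    (hW : (s, e * conj s) ∈ WW b c R) : F (s, e * conj s) = 0 := by
  have h1 : φ s = e * conj s := (isClosed_cs hφ e).frontier_subset hs
  rw [← h1] at hW ⊢
  have h2 : Continuous fun t => (t, φ t) := continuous_id.prodMk hφ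
  have h3 : ContinuousAt (fun t => F (t, φ t)) s :=
    ContinuousAt.comp (f := fun t => (t, φ t))
      (hF.continuousOn.continuousAt ((isOpen_WW b c R).mem_nhds hW)) h2.continuousAt
  have h4 : s ∈ closure (cs φ e)ᶜ := by
    rw [frontier_eq_closure_inter_closure] at hs
    exact hs.2
  refine tendsto_nhds_unique_of_frequently_eq h3 (tendsto_const_nhds (x := (0 : ℂ))) ?_
  refine ((mem_closure_iff_frequently.1 h4).and_eventually
    (h2.continuousAt.eventually ((isOpen_WW b c R).mem_nhds hW))).mono fun t ht => ?_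
  rw [hE _ ht.2 fun h => ht.1 h.1, ff, sub_self, zero_mul, zero_mul]

end Pool.Agent.NapOT
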