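import Pool.Agent.Lib.MP_b71113_an.Defs

/-!
The planar case: convex potentials that transport the area of `Ω` to the area of a rectangle
and a point mass at the origin.
-/

namespace Pool.Agent.NapOT

open MeasureTheory Set

/-- The gradient of `u` (zero where `u` is not differentiable). -/
noncomputable def grad (u : (Fin 2 → ℝ) → ℝ) (x : Fin 2 → ℝ) : Fin 2 → ℝ :=
  fun j => fderiv ℝ u x (Pi.single j 1)

/-- The rectangle `[-c₂, c₂] × [-c₁, c₁]`. -/
def rect (c : Fin 2 → ℝ) : Set (Fin 2 → ℝ) := {p | |p 0| ≤ c 1 ∧ |p 1| ≤ c 0}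

/-- `u` is convex on `Ω` and its gradient pushes the area measure of `Ω` to the area measure of
the rectangle plus the mass `|Ω| - 4 c₁ c₂` at the origin. -/
def Brenier (Ω : Set (Fin 2 → ℝ)) (c : Fin 2 → ℝ) (u : (Fin 2 → ℝ) → ℝ) : Prop :=
  ConvexOn ℝ Ω u ∧ (volume.restrict Ω).map (grad u) =
    volume.restrict (rect c) + ENNReal.ofReal (volume.real Ω - 4 * c 0 * c 1) • Measure.dirac 0

/-- The points of `Ω` at which `u` takes its minimum over `Ω`. -/
def argmin (Ω : Set (Fin 2 → ℝ)) (u : (Fin 2 → ℝ) → ℝ) : Set (Fin 2 → ℝ) :=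
  {x | x ∈ Ω ∧ ∀ y ∈ Ω, u x ≤ u y}

end Pool.Agent.NapOT
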