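import Pool.Agent.Lib.MP_b71113_an.OT.Conj

/-! Existence of minimisers of the dual functional. -/

namespace Pool.Agent.NapOT

open MeasureTheory Set Metric Complex ComplexConjugate Filter Topology
open scoped NNReal ENNReal Pointwise

variable {A B : Set ℂ} {α β : ℝ} {v w : ℂ → ℝ}

theorem exist_cB (h : Dat A B α β) (hv : Continuous v) : Continuous (cj (closure B) v) :=
  cj_continuous h.hB.isCompact h.hB.ne.closure hv

theorem exist_mono (h : Dat A B α β) (hv : Continuous v) (hw : Continuous w)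
    (e : ∀ x ∈ closure A, v x ≤ w x) : ∫ x, v x ∂(wt A α) ≤ ∫ x, w x ∂(wt A α) :=
  integral_mono_ae (h.hA.integrable_wt α hv) (h.hA.integrable_wt α hw)
    ((h.hA.ae_wt h.zA).mono e)

theorem exist_congr (h : Dat A B α β) (e : ∀ x ∈ closure A, v x = w x) :
    ∫ x, v x ∂(wt A α) = ∫ x, w x ∂(wt A α) :=
  integral_congr_ae ((h.hA.ae_wt h.zA).mono e)

theorem exist_const (h : Dat A B α β) (hv : Continuous v) (t : ℝ) :
    ∫ x, v x + t ∂(wt A α) = ∫ x, v x ∂(wt A α) + (volume.real A + α) * t := by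
  have := h.hA.finite_wt α
  rw [integral_add (h.hA.integrable_wt α hv) (integrable_const t), integral_const,
    h.hA.wt_univ h.ha, smul_eq_mul]

theorem exist_lin (h : Dat A B α β) (hv : Continuous v) (hw : Continuous w) (a b : ℝ) :
    ∫ x, a * v x + b * w x ∂(wt A α) = a * ∫ x, v x ∂(wt A α) + b * ∫ x, w x ∂(wt A α) := by
  rw [integral_add ((h.hA.integrable_wt α hv).const_mul a) ((h.hA.integrable_wt α hw).const_mul b),
    integral_const_mul, integral_const_mul]

theorem exist_neg (h : Dat A B α β) (hA : ∀ x ∈ A, -x ∈ A) (hv : Continuous v) :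
    ∫ x, v (-x) ∂(wt A α) = ∫ x, v x ∂(wt A α) := by
  have hm := h.hA.op.measurableSet
  rw [h.hA.integral_wt (v := fun x => v (-x)) h.ha (hv.comp continuous_neg),
    h.hA.integral_wt h.ha hv, neg_zero, ← integral_indicator hm, ← integral_indicator hm,
    ← integral_neg_eq_self (A.indicator v)]
  congr 2
  funext x
  by_cases hx : x ∈ A
  · rw [indicator_of_mem hx, indicator_of_mem (hA x hx)]
  · rw [indicator_of_notMem hx, indicator_of_notMem fun h1 => hx (neg_neg x ▸ hA _ h1)]

theorem exist_abs (h : Dat A B α β) (hv : Continuous v) (hw : Continuous w) {η : ℝ}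
    (e : ∀ x ∈ closure A, |v x - w x| ≤ η) :
    |∫ x, v x ∂(wt A α) - ∫ x, w x ∂(wt A α)| ≤ η * (volume.real A + α) := by
  have := h.hA.finite_wt α
  rw [← integral_sub (h.hA.integrable_wt α hv) (h.hA.integrable_wt α hw), ← h.hA.wt_univ h.ha]
  exact norm_integral_le_of_norm_le_const (f := fun x => v x - w x) ((h.hA.ae_wt h.zA).mono e)

theorem JJ_add_const (h : Dat A B α β) (hv : Continuous v) (t : ℝ) :
    JJ A B α β (fun q => v q + t) = JJ A B α β v := by
  have e : ∀ x, cj (closure B) (fun q => v q + t) x = cj (closure B) v x + -t := fun x =>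
    cj_add_const h.hB.isCompact h.hB.ne.closure hv t x
  simp only [JJ, e]
  rw [exist_const h (exist_cB h hv), exist_const h.swap hv, h.mass]
  ring

theorem exist_tri (h : Dat A B α β) (hv : Continuous v) :
    ∫ x, cj (closure B) (cj (closure A) (cj (closure B) v)) x ∂(wt A α) =
      ∫ x, cj (closure B) v x ∂(wt A α) :=
  exist_congr h fun _ hx => tricj h.hB.isCompact h.hB.ne.closure h.hA.isCompact hv hx

theorem JJ_bicj_le (h : Dat A B α β) (hv : Continuous v) :
    JJ A B α β (cj (closure A) (cj (closure B) v)) ≤ JJ A B α β v := by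
  rw [JJ, JJ, exist_tri h hv]
  exact add_le_add_right (exist_mono h.swap (exist_cB h.swap (exist_cB h hv)) hv
    fun _ hq => bicj_le h.hB.isCompact h.hA.ne.closure hv hq) _

theorem JJ_combo (h : Dat A B α β) (hv : Continuous v) (hw : Continuous w) {a b : ℝ} (ha : 0 ≤ a)
    (hb : 0 ≤ b) (hab : a + b = 1) :
    JJ A B α β (fun q => a * v q + b * w q) ≤ a * JJ A B α β v + b * JJ A B α β w := by
  have h1 := exist_mono h (v := cj (closure B) fun q => a * v q + b * w q)
    (w := fun x => a * cj (closure B) v x + b * cj (closure B) w x)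
    (exist_cB h ((continuous_const.mul hv).add (continuous_const.mul hw)))
    ((continuous_const.mul (exist_cB h hv)).add (continuous_const.mul (exist_cB h hw)))
    fun x _ => cj_combo h.hB.isCompact h.hB.ne.closure hv hw ha hb hab x
  rw [exist_lin h (exist_cB h hv) (exist_cB h hw)] at h1
  simp only [JJ]
  rw [exist_lin h.swap hv hw]
  linarith

theorem JJ_neg (h : Dat A B α β) (hA : ∀ x ∈ A, -x ∈ A) (hB : ∀ x ∈ B, -x ∈ B)
    (hv : Continuous v) : JJ A B α β (fun q => v (-q)) = JJ A B α β v := by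
  have e : ∀ x, cj (closure B) (fun q => v (-q)) x = cj (closure B) v (-x) := fun x =>
    cj_neg (fun q hq => map_mem_closure continuous_neg hq hB) x
  simp only [JJ, e]
  rw [exist_neg h hA (exist_cB h hv), exist_neg h.swap hB hv]

theorem JJ_sub_le (h : Dat A B α β) (hv : Continuous v) (hw : Continuous w) {η : ℝ}
    (e : ∀ q ∈ closure B, |v q - w q| ≤ η) :
    |JJ A B α β v - JJ A B α β w| ≤ 2 * (volume.real B + β) * η := by
  have h1 := abs_le.1 (exist_abs h (exist_cB h hv) (exist_cB h hw)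
    fun x _ => cj_sub_le h.hB.isCompact h.hB.ne.closure hv hw e x)
  have h2 := abs_le.1 (exist_abs h.swap hv hw e)
  rw [h.mass] at h1
  simp only [JJ]
  exact abs_le.2 ⟨by linarith [h1.1, h2.1], by linarith [h1.2, h2.2]⟩

/-- Arzela-Ascoli -/
theorem isCompact_lip (L : ℝ≥0) : IsCompact {v : C(ℂ, ℝ) | LipschitzWith L v ∧ v 0 = 0} := by
  refine ArzelaAscoli.isCompact_of_equicontinuous _ ?_
    (LipschitzWith.uniformEquicontinuous _ L fun c => c.2.1).equicontinuous
  have e : ContinuousMap.toFun '' {v : C(ℂ, ℝ) | LipschitzWith L v ∧ v 0 = 0} =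
      {f : ℂ → ℝ | LipschitzWith L f} ∩ {f | f 0 = 0} := by
    ext f
    constructor
    · rintro ⟨u, hu, rfl⟩
      exact hu
    · exact fun hf => ⟨⟨f, LipschitzWith.continuous hf.1⟩, hf, rfl⟩
  rw [e]
  refine (isCompact_univ_pi fun x : ℂ =>
    isCompact_closedBall (0 : ℝ) (L * dist x 0)).of_isClosed_subset ((isClosed_setOfPred_lipschitzWith L).inter
      (isClosed_eq (continuous_apply 0) continuous_const)) fun f hf x _ => ?_
  have h1 := LipschitzWith.dist_le_mul hf.1 x 0
  rwa [show f 0 = 0 from hf.2] at h1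

theorem exist_cont (h : Dat A B α β) : Continuous fun u : C(ℂ, ℝ) => JJ A B α β u := by
  refine continuous_iff_continuousAt.2 fun u => Metric.tendsto_nhds.2 fun ε hε => ?_
  have hm : 0 < volume.real B + β := add_pos_of_pos_of_nonneg h.hB.vol_pos h.hb
  have h1 := Metric.tendstoUniformlyOn_iff.1
    (ContinuousMap.tendsto_iff_forall_isCompact_tendstoUniformlyOn.1
      (tendsto_id (x := 𝓝 u)) _ h.hB.isCompact) (ε / (4 * (volume.real B + β))) (by positivity)
  filter_upwards [h1] with u' hu'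
  have h2 := JJ_sub_le h u'.continuous u.continuous (η := ε / (4 * (volume.real B + β)))
    fun q hq => by
      rw [abs_sub_comm]
      exact (hu' q hq).le
  have h3 : 2 * (volume.real B + β) * (ε / (4 * (volume.real B + β))) = ε / 2 := by
    field_simp
    ring
  rw [Real.dist_eq]
  linarith

theorem exists_min (h : Dat A B α β) {L : ℝ≥0} (hL : ∀ x ∈ closure A, ‖x‖ ≤ L) :
    ∃ v, Min A B α β v ∧ LipschitzWith L v ∧ v 0 = 0 := by
  obtain ⟨u, hu, hm⟩ := (isCompact_lip L).exists_isMinOn
    ⟨0, (LipschitzWith.const (0 : ℝ)).weaken zero_le, rfl⟩ (exist_cont h).continuousOn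
  refine ⟨u, ⟨u.continuous, fun w hw => ?_⟩, hu.1, hu.2⟩
  have h1 := cj_lip h.hA.isCompact h.hA.ne.closure (exist_cB h hw) hL
  have h2 : LipschitzWith L fun q => cj (closure A) (cj (closure B) w) q +
      -cj (closure A) (cj (closure B) w) 0 :=
    LipschitzWith.of_dist_le_mul fun x y => by
      rw [dist_add_right]
      exact h1.dist_le_mul x y
  have h3 := hm (a := ⟨_, h2.continuous⟩) ⟨h2, add_neg_cancel _⟩
  exact le_trans h3 ((JJ_add_const h h1.continuous _).le.trans (JJ_bicj_le h hw))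

theorem Min.combo (h : Dat A B α β) (hv : Min A B α β v) (hw : Min A B α β w) {a b : ℝ}
    (ha : 0 ≤ a) (hb : 0 ≤ b) (hab : a + b = 1) : Min A B α β fun q => a * v q + b * w q := by
  refine ⟨(continuous_const.mul hv.1).add (continuous_const.mul hw.1), fun u hu => ?_⟩
  have h1 := mul_le_mul_of_nonneg_left (hv.2 u hu) ha
  have h2 := mul_le_mul_of_nonneg_left (hw.2 u hu) hb
  have h3 : a * JJ A B α β u + b * JJ A B α β u = JJ A B α β u := by
    rw [← add_mul, hab, one_mul]
  linarith [JJ_combo h hv.1 hw.1 ha hb hab]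

theorem exists_min_even (h : Dat A B α β) (hA : ∀ x ∈ A, -x ∈ A) (hB : ∀ x ∈ B, -x ∈ B)
    {L : ℝ≥0} (hL : ∀ x ∈ closure A, ‖x‖ ≤ L) :
    ∃ v, Min A B α β v ∧ LipschitzWith L v ∧ v 0 = 0 ∧ ∀ q, v (-q) = v q := by
  obtain ⟨v, hv, hl, h0⟩ := exists_min h hL
  have h1 : Min A B α β fun q => v (-q) :=
    ⟨hv.1.comp continuous_neg, fun u hu => (JJ_neg h hA hB hv.1).le.trans (hv.2 u hu)⟩
  refine ⟨_, Min.combo h hv h1 (a := 1 / 2) (b := 1 / 2) (by norm_num) (by norm_num) (by norm_num),
    LipschitzWith.of_dist_le_mul fun x y => ?_, by simp only [neg_zero, h0, mul_zero, add_zero],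
    fun q => by simp only [neg_neg, add_comm]⟩
  have h2 := hl.dist_le_mul x y
  have h3 := hl.dist_le_mul (-x) (-y)
  rw [dist_neg_neg] at h3
  rw [Real.dist_eq, abs_le] at h2 h3 ⊢
  constructor <;> linarith [h2.1, h2.2, h3.1, h3.2]

theorem Min.eq_bicj (h : Dat A B α β) (hv : Min A B α β v) :
    ∀ q ∈ closure B, v q = cj (closure A) (cj (closure B) v) q := by
  have hu := exist_cB h.swap (exist_cB h hv.1)
  have h1 := hv.2 _ hu
  rw [JJ, JJ, exist_tri h hv.1] at h1
  have h2 : ∀ q ∈ closure B, cj (closure A) (cj (closure B) v) q ≤ v q :=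
    fun _ hq => bicj_le h.hB.isCompact h.hA.ne.closure hv.1 hq
  have h3 := exist_mono h.swap hu hv.1 h2
  have h4 : (fun q => v q - cj (closure A) (cj (closure B) v) q) =ᵐ[wt B β] 0 := by
    refine (integral_eq_zero_iff_of_nonneg_ae ((h.hB.ae_wt h.zB).mono fun q hq =>
      sub_nonneg.2 (h2 q hq)) (h.hB.integrable_wt β (hv.1.sub hu))).1 ?_
    rw [integral_sub (h.hB.integrable_wt β hv.1) (h.hB.integrable_wt β hu)]
    linarith
  have h5 : v =ᵐ[volume.restrict B] cj (closure A) (cj (closure B) v) :=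
    (Eventually.filter_mono (ae_mono (Measure.le_add_right le_rfl)) h4).mono
      fun q hq => sub_eq_zero.1 hq
  exact (Measure.eqOn_open_of_ae_eq h5 h.hB.op hv.1.continuousOn hu.continuousOn).closure hv.1 hu

theorem Min.convexOn (h : Dat A B α β) (hv : Min A B α β v) : ConvexOn ℝ (closure B) v :=
  ((cj_convex h.hA.isCompact h.hA.ne.closure (exist_cB h hv.1)).subset (subset_univ _)
    h.hB.cv.closure).congr fun q hq => (Min.eq_bicj h hv q hq).symm

theorem Min.swap (h : Dat A B α β) (hv : Min A B α β v) :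
    Min B A β α (cj (closure B) v) := by
  refine ⟨exist_cB h hv.1, fun u hu => ?_⟩
  have h1 := hv.2 _ (exist_cB h.swap hu)
  have h2 := exist_mono h (exist_cB h (exist_cB h.swap hu)) hu
    fun _ hx => bicj_le h.hA.isCompact h.hB.ne.closure hu hx
  have h3 := exist_congr h.swap (Min.eq_bicj h hv)
  simp only [JJ] at h1 ⊢
  linarith

end Pool.Agent.NapOT
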