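import Pool.Agent.Lib.MP_b71113_an.OT.Var

/-! The connected family of minimisers. -/

namespace Pool.Agent.NapOT

open MeasureTheory Set Metric Complex ComplexConjugate Filter Topology
open scoped NNReal ENNReal Pointwise

variable {Ω B : Set ℂ} {L : ℝ≥0} {t s s₂ s₁ : ℝ}

theorem fam_body (hΩ : Body Ω) (h0 : (0 : ℂ) ∈ Ω) : Body (Ω ∩ -Ω) :=
  ⟨hΩ.op.inter hΩ.op.neg, hΩ.cv.inter hΩ.cv.neg, hΩ.bd.subset inter_subset_left,
    ⟨0, h0, by simpa using h0⟩⟩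

theorem fam_mono {C : Set ℂ} (hC : Convex ℝ C) (h0 : (0 : ℂ) ∈ C) {s' : ℝ} (hs : 0 < s)
    (hss : s ≤ s') : s • C ⊆ s' • C := by
  rintro _ ⟨c, hc, rfl⟩
  have h1 : 0 < s' := hs.trans_le hss
  refine ⟨(s / s') • c, hC.smul_mem_of_zero_mem h0 hc
    ⟨(div_pos hs h1).le, (div_le_one h1).2 hss⟩, ?_⟩
  simp only [smul_smul]
  rw [mul_div_cancel₀ _ h1.ne']

theorem fam_eta {K : Set ℂ} (hK : IsCompact K) (v : C(ℂ, ℝ)) : ∃ η : C(ℂ, ℝ) → ℝ,
    Continuous η ∧ η v = 0 ∧ ∀ w : C(ℂ, ℝ), ∀ q ∈ K, |w q - v q| ≤ η w := by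
  have := isCompact_iff_compactSpace.1 hK
  refine ⟨fun w => dist (w.restrict K) (v.restrict K),
    (ContinuousMap.continuous_restrict K).dist continuous_const, dist_self _, fun w q hq => ?_⟩
  exact ContinuousMap.dist_apply_le_dist (f := w.restrict K) (g := v.restrict K) ⟨q, hq⟩

theorem fam_conn {X : Type} [TopologicalSpace X] {P : Set (ℝ × X)} {S : Set ℝ} (hP : IsCompact P)
    (hS : IsPreconnected S) (h1 : ∀ τ ∈ P, τ.1 ∈ S) (h2 : ∀ s ∈ S, ∃ v, (s, v) ∈ P)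
    (h3 : ∀ s, IsPreconnected {v | (s, v) ∈ P}) : IsPreconnected P := by
  rw [isPreconnected_iff_subset_of_disjoint_closed] at hS ⊢
  intro u v hu hv hc hd
  have hdis : ∀ s, s ∈ Prod.fst '' (P ∩ u) → s ∈ Prod.fst '' (P ∩ v) → False := by
    rintro s ⟨⟨_, x⟩, ⟨hx, hxu⟩, rfl⟩ ⟨⟨_, y⟩, ⟨hy, hyv⟩, rfl⟩
    rename_i s
    have h4 := isPreconnected_iff_subset_of_disjoint_closed.1
      ((h3 s).image (Prod.mk s) (Continuous.prodMk_right s).continuousOn) u v hu hv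
      (by rintro _ ⟨z, hz, rfl⟩; exact hc hz)
      (eq_empty_of_subset_empty (hd ▸ inter_subset_inter_left _ (by
        rintro _ ⟨z, hz, rfl⟩; exact hz)))
    rcases h4 with h4 | h4
    · exact (eq_empty_iff_forall_notMem.1 hd) _ ⟨hy, h4 ⟨y, hy, rfl⟩, hyv⟩
    · exact (eq_empty_iff_forall_notMem.1 hd) _ ⟨hx, hxu, h4 ⟨x, hx, rfl⟩⟩
  have h5 := hS _ _ ((hP.inter_right hu).image continuous_fst).isClosed
    ((hP.inter_right hv).image continuous_fst).isClosed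
    (fun s hs => by
      obtain ⟨z, hz⟩ := h2 s hs
      exact (hc hz).imp (fun h => ⟨_, ⟨hz, h⟩, rfl⟩) fun h => ⟨_, ⟨hz, h⟩, rfl⟩)
    (eq_empty_iff_forall_notMem.2 fun s hs => hdis s hs.2.1 hs.2.2)
  refine h5.imp (fun h τ hτ => ?_) fun h τ hτ => ?_
  · exact (hc hτ).resolve_right fun h' => hdis _ (h (h1 τ hτ)) ⟨τ, ⟨hτ, h'⟩, rfl⟩
  · exact (hc hτ).resolve_left fun h' => hdis _ ⟨τ, ⟨hτ, h'⟩, rfl⟩ (h (h1 τ hτ))

theorem body_AA (hΩ : Body Ω) (h0 : (0 : ℂ) ∈ Ω) (ht : 0 < t) (hs : 0 < s) :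
    Body (AA Ω t s) :=
  ⟨(hΩ.smul ht.ne').op.inter ((fam_body hΩ h0).smul hs.ne').op,
    (hΩ.smul ht.ne').cv.inter ((fam_body hΩ h0).smul hs.ne').cv,
    (hΩ.smul ht.ne').bd.subset inter_subset_left,
    ⟨0, ⟨0, h0, smul_zero _⟩, ⟨0, ⟨h0, by simpa using h0⟩, smul_zero _⟩⟩⟩
theorem zero_mem_AA (h0 : (0 : ℂ) ∈ Ω) (t s : ℝ) : (0 : ℂ) ∈ AA Ω t s :=
  ⟨⟨0, h0, smul_zero _⟩, ⟨0, ⟨h0, by simpa using h0⟩, smul_zero _⟩⟩
theorem AA_subset (Ω : Set ℂ) (t s : ℝ) : AA Ω t s ⊆ t • Ω := inter_subset_left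
theorem AA_of_le (hΩ : Body Ω) (h0 : (0 : ℂ) ∈ Ω) (hs : 0 < s) (hst : s ≤ t) :
    AA Ω t s = s • (Ω ∩ -Ω) :=
  inter_eq_right.2 ((smul_set_mono inter_subset_left).trans (fam_mono hΩ.cv h0 hs hst))
theorem AA_mono (hΩ : Body Ω) (h0 : (0 : ℂ) ∈ Ω) {s' : ℝ} (hs : 0 < s) (hss : s ≤ s') :
    AA Ω t s ⊆ AA Ω t s' :=
  inter_subset_inter_right _ (fam_mono (fam_body hΩ h0).cv ⟨h0, by simpa using h0⟩ hs hss)
theorem AA_neg (hΩ : Body Ω) (h0 : (0 : ℂ) ∈ Ω) (hs : 0 < s) (hst : s ≤ t) :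
    ∀ x ∈ AA Ω t s, -x ∈ AA Ω t s := by
  rw [AA_of_le hΩ h0 hs hst]
  rintro _ ⟨c, ⟨h1, h2⟩, rfl⟩
  exact ⟨-c, ⟨h2, by simpa using h1⟩, smul_neg _ _⟩
theorem exists_AA_eq (hΩ : Body Ω) (h0 : (0 : ℂ) ∈ Ω) (ht : 0 < t) :
    ∃ s, t ≤ s ∧ AA Ω t s = t • Ω := by
  obtain ⟨r, hr, hb⟩ := Metric.isOpen_iff.1 hΩ.op 0 h0
  obtain ⟨R, hR, hΩR⟩ := hΩ.bd.exists_pos_norm_le
  have h1 : 0 < t * R / r := by positivity
  refine ⟨t + t * R / r, by linarith, inter_eq_left.2 ?_⟩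
  rintro _ ⟨c, hc, rfl⟩
  have hs : 0 < t + t * R / r := by linarith
  have hn : ‖(t / (t + t * R / r)) • c‖ < r := by
    rw [norm_smul, Real.norm_eq_abs, abs_of_pos (div_pos ht hs), div_mul_eq_mul_div,
      div_lt_iff₀ hs]
    have h2 : r * (t + t * R / r) = r * t + t * R := by field_simp
    have h3 := mul_le_mul_of_nonneg_left (hΩR c hc) ht.le
    have h4 := mul_pos hr ht
    linarith
  refine ⟨(t / (t + t * R / r)) • c, ⟨hb (mem_ball_zero_iff.2 hn), ?_⟩, ?_⟩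
  · exact mem_neg.2 (hb (mem_ball_zero_iff.2 (by rwa [norm_neg])))
  · simp only [smul_smul]
    rw [mul_div_cancel₀ _ hs.ne']
theorem dat_of_body {A : Set ℂ} (hA : Body A) (hB : Body B) (h0 : (0 : ℂ) ∈ A)
    (h0' : (0 : ℂ) ∈ B) : Dat A B (al A B) (be A B) := by
  refine ⟨hA, hB, le_max_right _ _, le_max_right _ _, ?_, Or.inr (subset_closure h0),
    Or.inr (subset_closure h0')⟩
  unfold al be
  rcases le_total (volume.real A) (volume.real B) with h | h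
  · rw [max_eq_left (sub_nonneg.2 h), max_eq_right (sub_nonpos.2 h)]; ring
  · rw [max_eq_right (sub_nonpos.2 h), max_eq_left (sub_nonneg.2 h)]; ring
theorem al_or_be (A B : Set ℂ) : al A B = 0 ∨ be A B = 0 := by
  unfold al be
  rcases le_total (volume.real A) (volume.real B) with h | h
  · exact Or.inr (max_eq_right (sub_nonpos.2 h))
  · exact Or.inl (max_eq_right (sub_nonpos.2 h))
theorem ae_mem_AA (hΩ : Body Ω) (hs : 0 < s) (t : ℝ) :
    ∀ᵐ x : ℂ, ∀ᶠ s' in 𝓝 s, (x ∈ AA Ω t s' ↔ x ∈ AA Ω t s) := by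
  have ho : IsOpen (Ω ∩ -Ω) := hΩ.op.inter hΩ.op.neg
  have hc : Convex ℝ (s • (Ω ∩ -Ω)) := (hΩ.cv.inter hΩ.cv.neg).smul s
  have hn : ∀ᵐ x : ℂ, x ∉ frontier (s • (Ω ∩ -Ω)) :=
    measure_eq_zero_iff_ae_notMem.1 (hc.addHaar_frontier volume)
  filter_upwards [hn] with x hx
  rw [(ho.smul₀ hs.ne').frontier_eq, closure_smul₀, Set.mem_sdiff,
    mem_smul_set_iff_inv_smul_mem₀ hs.ne', mem_smul_set_iff_inv_smul_mem₀ hs.ne'] at hx
  have hcont : ContinuousAt (fun s' : ℝ => s'⁻¹ • x) s :=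
    (continuousAt_inv₀ hs.ne').smul continuousAt_const
  have key : ∀ᶠ s' in 𝓝 s, (s'⁻¹ • x ∈ Ω ∩ -Ω ↔ s⁻¹ • x ∈ Ω ∩ -Ω) := by
    by_cases h : s⁻¹ • x ∈ Ω ∩ -Ω
    · filter_upwards [hcont.eventually (ho.mem_nhds h)] with s' h'
      exact iff_of_true h' h
    · have h2 : s⁻¹ • x ∈ (closure (Ω ∩ -Ω))ᶜ := fun h1 => hx ⟨h1, h⟩
      filter_upwards [hcont.eventually (isClosed_closure.isOpen_compl.mem_nhds h2)] with s' h'
      exact iff_of_false (fun h1 => h' (subset_closure h1)) h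
  filter_upwards [key, eventually_ne_nhds hs.ne'] with s' h1 h2
  unfold AA
  rw [mem_inter_iff, mem_inter_iff, mem_smul_set_iff_inv_smul_mem₀ h2,
    mem_smul_set_iff_inv_smul_mem₀ hs.ne', h1]

theorem fam_int (hΩ : Body Ω) (hs : 0 < s) (t : ℝ) {g : ℂ → ℝ} (hg : Continuous g) :
    ContinuousAt (fun s' => ∫ x in AA Ω t s', g x) s := by
  have hm : ∀ s', MeasurableSet (AA Ω t s') := fun s' =>
    (hΩ.op.measurableSet.const_smul₀ t).inter
      ((hΩ.op.inter hΩ.op.neg).measurableSet.const_smul₀ s')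
  have hK : IsCompact (closure (t • Ω)) := (hΩ.bd.smul₀ t).isCompact_closure
  simp only [← integral_indicator (hm _)]
  refine continuousAt_of_dominated (bound := (closure (t • Ω)).indicator fun x => ‖g x‖)
    (Eventually.of_forall fun s' => hg.aestronglyMeasurable.indicator (hm s'))
    (Eventually.of_forall fun s' => Eventually.of_forall fun x => ?_)
    ((integrable_indicator_iff hK.measurableSet).2 (hg.norm.continuousOn.integrableOn_compact hK))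
    ?_
  · rw [norm_indicator_eq_indicator_norm]
    exact indicator_le_indicator_of_subset ((AA_subset Ω t s').trans subset_closure)
      (fun _ => norm_nonneg _) x
  · filter_upwards [ae_mem_AA hΩ hs t] with x hx
    refine ContinuousAt.congr (continuousAt_const (y := (AA Ω t s).indicator g x)) ?_
    filter_upwards [hx] with s' h
    by_cases h1 : x ∈ AA Ω t s
    · rw [indicator_of_mem h1, indicator_of_mem (h.2 h1)]
    · rw [indicator_of_notMem h1, indicator_of_notMem fun h2 => h1 (h.1 h2)]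

theorem continuousAt_vol_AA (hΩ : Body Ω) (hs : 0 < s) (t : ℝ) :
    ContinuousAt (fun s' => volume.real (AA Ω t s')) s := by
  simpa using fam_int hΩ hs t (g := fun _ => 1) continuous_const
theorem continuousOn_JJ (hΩ : Body Ω) (hB : Body B) (h0 : (0 : ℂ) ∈ Ω) (h0' : (0 : ℂ) ∈ B)
    (ht : 0 < t) :
    ContinuousOn (fun τ : ℝ × C(ℂ, ℝ) =>
      JJ (AA Ω t τ.1) B (al (AA Ω t τ.1) B) (be (AA Ω t τ.1) B) τ.2) (Ioi 0 ×ˢ univ) := by
  rintro ⟨s, v⟩ ⟨hs, -⟩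
  have hs : 0 < s := hs
  refine ContinuousAt.continuousWithinAt ?_
  have hpos : ∀ᶠ τ : ℝ × C(ℂ, ℝ) in 𝓝 (s, v), 0 < τ.1 :=
    continuousAt_fst.eventually (lt_mem_nhds hs)
  have hd := fun {s' : ℝ} (h : 0 < s') =>
    dat_of_body (body_AA hΩ h0 ht h) hB (zero_mem_AA h0 t s') h0'
  have hV := continuousAt_vol_AA hΩ hs t
  have hal : ContinuousAt (fun s' => al (AA Ω t s') B) s :=
    (continuousAt_const.sub hV).max continuousAt_const
  have hbe : ContinuousAt (fun s' => be (AA Ω t s') B) s :=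
    (hV.sub continuousAt_const).max continuousAt_const
  have hcj := cj_continuous hB.isCompact hB.ne.closure v.continuous
  have h1 : ContinuousAt
      (fun s' => JJ (AA Ω t s') B (al (AA Ω t s') B) (be (AA Ω t s') B) v) s := by
    refine ContinuousAt.congr (((fam_int hΩ hs t hcj).add
      (hal.mul (continuousAt_const (y := cj (closure B) v 0)))).add
      ((continuousAt_const (y := ∫ q in B, v q)).add
        (hbe.mul (continuousAt_const (y := v 0))))) ?_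
    filter_upwards [lt_mem_nhds hs] with s' h
    unfold JJ
    rw [(hd h).hA.integral_wt (hd h).ha hcj, hB.integral_wt (hd h).hb v.continuous]
    rfl
  obtain ⟨η, hη, hη0, hle⟩ := fam_eta hB.isCompact v
  have h2 : Tendsto (fun τ : ℝ × C(ℂ, ℝ) =>
      JJ (AA Ω t τ.1) B (al (AA Ω t τ.1) B) (be (AA Ω t τ.1) B) τ.2 -
        JJ (AA Ω t τ.1) B (al (AA Ω t τ.1) B) (be (AA Ω t τ.1) B) v) (𝓝 (s, v)) (𝓝 0) := by
    refine squeeze_zero_norm' (a := fun τ => 2 * (volume.real B + be (AA Ω t τ.1) B) * η τ.2)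
      ?_ ?_
    · filter_upwards [hpos] with τ h
      exact JJ_sub_le (hd h) τ.2.continuous v.continuous (hle τ.2)
    · have h5 : ContinuousAt (fun τ : ℝ × C(ℂ, ℝ) => be (AA Ω t τ.1) B) (s, v) :=
        ContinuousAt.comp (f := Prod.fst) (x := (s, v)) hbe continuousAt_fst
      have h6 : ContinuousAt (fun τ : ℝ × C(ℂ, ℝ) => η τ.2) (s, v) :=
        (hη.comp continuous_snd).continuousAt
      have h3 : ContinuousAt (fun τ : ℝ × C(ℂ, ℝ) =>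
          2 * (volume.real B + be (AA Ω t τ.1) B) * η τ.2) (s, v) := by fun_prop
      simpa [ContinuousAt, hη0] using h3
  have h4 := h2.add (ContinuousAt.comp (f := Prod.fst) (x := (s, v)) h1 continuousAt_fst)
  simpa [ContinuousAt] using h4
theorem exists_mem_PP (hΩ : Body Ω) (hB : Body B) (h0 : (0 : ℂ) ∈ Ω) (hsB : ∀ x ∈ B, -x ∈ B)
    (hL : ∀ x ∈ closure Ω, ‖x‖ ≤ L) (ht : 0 < t) (ht1 : t ≤ 1) (h2 : 0 < s₂)
    (hs : s ∈ Icc s₂ s₁) : ∃ v, (s, v) ∈ PP Ω B L t s₂ s₁ := by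
  have hs0 : 0 < s := h2.trans_le hs.1
  have hd := dat_of_body (body_AA hΩ h0 ht hs0) hB (zero_mem_AA h0 t s) (hB.zero_mem hsB)
  have hsub : AA Ω t s ⊆ Ω := by
    simpa using (AA_subset Ω t s).trans (fam_mono hΩ.cv h0 ht ht1)
  have hL' : ∀ x ∈ closure (AA Ω t s), ‖x‖ ≤ L := fun x hx => hL x (closure_mono hsub hx)
  by_cases h : s < t
  · obtain ⟨v, h1, h3, h4, h5⟩ := exists_min_even hd (AA_neg hΩ h0 hs0 h.le) hsB hL'
    exact ⟨⟨v, h1.1⟩, hs, h3, h4, fun _ => h5, h1⟩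
  · obtain ⟨v, h1, h3, h4⟩ := exists_min hd hL'
    exact ⟨⟨v, h1.1⟩, hs, h3, h4, fun h' => absurd h' h, h1⟩

theorem fam_compact (hΩ : Body Ω) (hB : Body B) (h0 : (0 : ℂ) ∈ Ω) (h0' : (0 : ℂ) ∈ B)
    (ht : 0 < t) (h2 : 0 < s₂) : IsCompact (PP Ω B L t s₂ s₁) := by
  have hJ := (continuousOn_JJ hΩ hB h0 h0' ht).mono
    (prod_mono (fun s hs => h2.trans_le hs.1) subset_rfl : Icc s₂ s₁ ×ˢ univ ⊆ _)
  have hcl : IsClosed (Icc s₂ s₁ ×ˢ (univ : Set C(ℂ, ℝ))) := isClosed_Icc.prod isClosed_univ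
  have hE : IsClosed ({τ : ℝ × C(ℂ, ℝ) | t ≤ τ.1} ∪ ⋂ q, {τ | τ.2 (-q) = τ.2 q}) :=
    (isClosed_le continuous_const continuous_fst).union (isClosed_iInter fun q =>
      isClosed_eq ((continuous_eval_const _).comp continuous_snd)
        ((continuous_eval_const _).comp continuous_snd))
  have hM := isClosed_iInter fun w : C(ℂ, ℝ) => hcl.isClosed_le hJ
    (hJ.comp (f := fun τ : ℝ × C(ℂ, ℝ) => (τ.1, w)) (by fun_prop) fun τ h => ⟨h.1, trivial⟩)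
  have := ((isCompact_Icc (a := s₂) (b := s₁)).prod (isCompact_lip L)).inter_right (hE.inter hM)
  refine (congrArg IsCompact (Set.ext fun τ => ?_)).mp this
  simp only [mem_inter_iff, mem_prod, mem_union, mem_iInter, mem_ofPred_eq, mem_univ, and_true]
  constructor
  · rintro ⟨⟨h3, h4, h5⟩, h6, h7⟩
    exact ⟨h3, h4, h5, fun h => h6.resolve_left h.not_ge, τ.2.continuous,
      fun w hw => (h7 ⟨w, hw⟩).2⟩
  · rintro ⟨h3, h4, h5, h6, h7⟩
    exact ⟨⟨h3, h4, h5⟩, (lt_or_ge τ.1 t).symm.imp id h6, fun w => ⟨h3, h7.2 w w.continuous⟩⟩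

theorem fam_convex (hΩ : Body Ω) (hB : Body B) (h0 : (0 : ℂ) ∈ Ω) (h0' : (0 : ℂ) ∈ B)
    (ht : 0 < t) (h2 : 0 < s₂) (s : ℝ) : Convex ℝ {v | (s, v) ∈ PP Ω B L t s₂ s₁} := by
  rintro v ⟨h3, h4, h5, h6, h7⟩ w ⟨-, h4', h5', h6', h7'⟩ a b ha hb hab
  dsimp only at h3 h4 h5 h6 h7 h4' h5' h6' h7'
  refine ⟨h3, LipschitzWith.of_dist_le_mul fun x y => ?_, by simp [h5, h5'], fun h q => ?_, ?_⟩
  · have e1 := h4.dist_le_mul x y
    have e2 := h4'.dist_le_mul x y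
    rw [Real.dist_eq, abs_le] at e1 e2 ⊢
    simp only [ContinuousMap.add_apply, ContinuousMap.smul_apply, smul_eq_mul]
    have e3 : (L : ℝ) * dist x y = a * (L * dist x y) + b * (L * dist x y) := by
      rw [← add_mul, hab, one_mul]
    constructor <;> nlinarith [e1.1, e1.2, e2.1, e2.2]
  · simp [h6 h q, h6' h q]
  · exact Min.combo (dat_of_body (body_AA hΩ h0 ht (h2.trans_le h3.1)) hB (zero_mem_AA h0 t _) h0')
      h7 h7' ha hb hab

theorem isPreconnected_PP (hΩ : Body Ω) (hB : Body B) (h0 : (0 : ℂ) ∈ Ω) (hsB : ∀ x ∈ B, -x ∈ B)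
    (hL : ∀ x ∈ closure Ω, ‖x‖ ≤ L) (ht : 0 < t) (ht1 : t ≤ 1) (h2 : 0 < s₂) :
    IsPreconnected (PP Ω B L t s₂ s₁) :=
  fam_conn (fam_compact hΩ hB h0 (hB.zero_mem hsB) ht h2) isPreconnected_Icc
    (fun _ h => h.1) (fun _ hs => exists_mem_PP hΩ hB h0 hsB hL ht ht1 h2 hs)
    fun s => (fam_convex hΩ hB h0 (hB.zero_mem hsB) ht h2 s).isPreconnected
theorem tendsto_prox (hΩ : Body Ω) (hB : Body B) (h0 : (0 : ℂ) ∈ Ω) (h0' : (0 : ℂ) ∈ B)
    (ht : 0 < t) (h2 : 0 < s₂) {τ₀ : ℝ × C(ℂ, ℝ)} (hτ : τ₀ ∈ PP Ω B L t s₂ s₁) :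
    TendstoUniformly (fun τ : ℝ × C(ℂ, ℝ) => prox (closure B) τ.2) (prox (closure B) τ₀.2)
      (𝓝[PP Ω B L t s₂ s₁] τ₀) := by
  have hcv : ∀ τ ∈ PP Ω B L t s₂ s₁, ConvexOn ℝ (closure B) τ.2 := fun τ h =>
    Min.convexOn (dat_of_body (body_AA hΩ h0 ht (h2.trans_le h.1.1)) hB (zero_mem_AA h0 t _) h0')
      h.2.2.2.2
  obtain ⟨η, hη, hη0, hle⟩ := fam_eta hB.isCompact τ₀.2
  rw [Metric.tendstoUniformly_iff]
  intro ε hε
  have h1 : ∀ᶠ τ : ℝ × C(ℂ, ℝ) in 𝓝 τ₀, η τ.2 < ε ^ 2 / 2 :=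
    (hη.comp continuous_snd).continuousAt.eventually (gt_mem_nhds (by
      simp only [Function.comp, hη0]; positivity))
  filter_upwards [self_mem_nhdsWithin, mem_nhdsWithin_of_mem_nhds h1] with τ h3 h4 a
  have h5 := prox_stab hB.isCompact hB.ne.closure τ.2.continuous (hcv τ h3) τ₀.2.continuous
    (hcv τ₀ hτ) (hle τ.2) a
  rw [dist_comm, dist_eq_norm]
  exact lt_of_pow_lt_pow_left₀ 2 hε.le (by linarith)

end Pool.Agent.NapOT
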