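import Pool.Agent.Lib.MP_b71113_an.OT.Mem
import Pool.Agent.Lib.MP_b71113_an.OT.Core

/-! Approximate invertibility along the family. -/

namespace Pool.Agent.NapOT

open MeasureTheory Set Metric Complex ComplexConjugate Filter Topology
open scoped NNReal ENNReal Pointwise

variable {Ω : Set ℂ} {L : ℝ≥0} {t s₂ s₁ d₁ d₂ c₁ c₂ r₁ r₂ R : ℝ} {τ : ℝ × C(ℂ, ℝ)}

open Classical in
/-- the sign of the contact set -/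
noncomputable def low1e (Ω : Set ℂ) (d₁ d₂ t : ℝ) (τ : ℝ × C(ℂ, ℝ)) : ℂ :=
  if al (AA Ω t τ.1) (box d₁ d₂) = 0 then 1 else -1

theorem low1_cur (h : Std Ω d₁ d₂ t s₂) (hτ : τ ∈ PP Ω (box d₁ d₂) L t s₂ s₁) :
    Cur bb (cc d₁ d₂) (gp d₁ d₂ τ) (low1e Ω d₁ d₂ t τ) := by
  unfold low1e
  split_ifs with ha
  · exact h.cur_one hτ ha
  · exact h.cur_neg hτ ha

theorem low1_ne (he : low1e Ω d₁ d₂ t τ = -1) : al (AA Ω t τ.1) (box d₁ d₂) ≠ 0 := by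
  intro ha
  rw [low1e, if_pos ha] at he
  norm_num at he

theorem low1_KW (h : Std Ω d₁ d₂ t s₂) (hτ : τ ∈ PP Ω (box d₁ d₂) L t s₂ s₁) {B₀ : Set ℂ}
    {W : Set (ℂ × ℂ)} (hW : KK Ω B₀ ⊆ W) {e : ℂ} (he : e = 1 ∨ e = -1) :
    KK Ω B₀ ⊆ W \ ctc (gp d₁ d₂ τ) e := by
  obtain ⟨δ, R', hδ, H⟩ := h.exists_sep (L := L) (s₁ := s₁)
  refine fun z hz => ⟨hW hz, fun hc => ?_⟩
  have := (H τ hτ e he).2 B₀ z hz z.1 hc.1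
  rw [hc.2] at this
  simp only [sub_self, norm_zero, add_zero] at this
  exact absurd this hδ.not_ge

/-- cut-off functions that are admissible near a member of the family -/
theorem low1_adm (h : Std Ω d₁ d₂ t s₂) (hτ : τ ∈ PP Ω (box d₁ d₂) L t s₂ s₁) (h1 : c₁ < d₁)
    (h2 : c₂ < d₂) (R : ℝ) : ∃ θ : Fin 4 → ℂ → ℂ, ∀ᶠ τ' in 𝓝[PP Ω (box d₁ d₂) L t s₂ s₁] τ,
      Adm bb (cc c₁ c₂) (cc d₁ d₂) R (gp d₁ d₂ τ') θ ∧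
        (al (AA Ω t τ'.1) (box d₁ d₂) ≠ 0 → Ev θ) := by
  have hcd : ∀ j, cc c₁ c₂ j < cc d₁ d₂ j := fun j => by fin_cases j <;> simp [cc, h1, h2]
  have hφ := (h.lip hτ).continuous
  have hu := Metric.tendstoUniformly_iff.1 (h.tendsto_gp hτ)
  obtain ⟨θ, η, hη, H⟩ := exists_adm (b := bb) hφ hcd R
  refine ⟨θ, ?_⟩
  filter_upwards [hu η hη, self_mem_nhdsWithin] with τ' e1 e2
  refine ⟨H _ fun s _ => ?_, fun ha => absurd (h.al_zero e2) ha⟩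
  rw [← dist_eq_norm, dist_comm]
  exact (e1 s).le

/-- uniform closeness on the compact set -/
theorem low1_close (h : Std Ω d₁ d₂ t s₂) (hτ : τ ∈ PP Ω (box d₁ d₂) L t s₂ s₁) {B₀ : Set ℂ}
    (hB : Body B₀) (hB₀ : closure B₀ ⊆ box d₁ d₂) (hW : KK Ω B₀ ⊆ WW bb (cc c₁ c₂) R)
    {θ : Fin 4 → ℂ → ℂ} (hθ : Th bb (cc c₁ c₂) (gp d₁ d₂ τ) θ) :
    ∀ᶠ τ' in 𝓝[PP Ω (box d₁ d₂) L t s₂ s₁] τ, ∀ z ∈ KK Ω B₀,
      ‖ff bb (gp d₁ d₂ τ') θ z - ff bb (gp d₁ d₂ τ) θ z‖ ≤ ‖ff bb (gp d₁ d₂ τ) θ z‖ / 3 := by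
  refine eventually_close (k := fun τ' z => ff bb (gp d₁ d₂ τ') θ z) (isCompact_KK h.hΩ hB)
    (fun z hz => ?_) hτ fun z hz => ?_
  · obtain ⟨e1, e2⟩ := h.ne_on_KK hτ hB₀ hz
    exact mul_ne_zero (mul_ne_zero (sub_ne_zero.2 e1) (sub_ne_zero.2 e2)) (exp_ne_zero _)
  · obtain ⟨δ, R', hδ, H⟩ := h.exists_sep (L := L) (s₁ := s₁)
    have hP : ∀ᶠ x : (ℝ × C(ℂ, ℝ)) × (ℂ × ℂ) in
        𝓝[PP Ω (box d₁ d₂) L t s₂ s₁] τ ×ˢ 𝓝[KK Ω B₀] z,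
        x.1 ∈ PP Ω (box d₁ d₂) L t s₂ s₁ ∧ x.2 ∈ KK Ω B₀ :=
      (tendsto_fst.eventually self_mem_nhdsWithin).and (tendsto_snd.eventually self_mem_nhdsWithin)
    refine tendsto_ff (Φ := fun x : (ℝ × C(ℂ, ℝ)) × (ℂ × ℂ) => gp d₁ d₂ x.1) (z := fun x => x.2)
      (R' := R') (δ := δ) hθ (h.lip hτ).continuous
      (hP.mono fun x hx => (h.lip hx.1).continuous) ?_
      (tendsto_snd.mono_right nhdsWithin_le_nhds) (hW hz) hδ fun e he => ⟨?_, ?_, ?_⟩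
    · exact TendstoUniformly.tendstoLocallyUniformly fun u hu =>
        tendsto_fst.eventually (h.tendsto_gp hτ u hu)
    · exact ⟨(H τ hτ e he).1, (H τ hτ e he).2 B₀ z hz⟩
    · exact hP.mono fun x hx => ⟨(H _ hx.1 e he).1, (H _ hx.1 e he).2 B₀ _ hx.2⟩
    · exact (h.ae_cs hτ he).mono fun s hs => tendsto_fst.eventually hs

/-- the property that is transported along the family -/
def low1Z (Ω B₀ : Set ℂ) (d₁ d₂ c₁ c₂ t R : ℝ) (τ : ℝ × C(ℂ, ℝ)) : Prop :=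
  ∀ θ : Fin 4 → ℂ → ℂ, Adm bb (cc c₁ c₂) (cc d₁ d₂) R (gp d₁ d₂ τ) θ →
    (al (AA Ω t τ.1) (box d₁ d₂) ≠ 0 → Ev θ) →
      ZZ (WW bb (cc c₁ c₂) R) (KK Ω B₀) (ff bb (gp d₁ d₂ τ) θ)

theorem low1_loc (h : Std Ω d₁ d₂ t s₂) (hτ : τ ∈ PP Ω (box d₁ d₂) L t s₂ s₁) {B₀ : Set ℂ}
    (hB : Body B₀) (hB₀ : closure B₀ ⊆ box d₁ d₂) (hW : KK Ω B₀ ⊆ WW bb (cc c₁ c₂) R)
    (h1 : c₁ < d₁) (h2 : c₂ < d₂) : ∀ᶠ τ' in 𝓝[PP Ω (box d₁ d₂) L t s₂ s₁] τ,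
      (low1Z Ω B₀ d₁ d₂ c₁ c₂ t R τ' ↔ low1Z Ω B₀ d₁ d₂ c₁ c₂ t R τ) := by
  obtain ⟨θ, hθ⟩ := low1_adm h hτ h1 h2 R
  have hK := isCompact_KK h.hΩ hB
  have h0 := hθ.self_of_nhdsWithin hτ
  have key : ∀ τ' ∈ PP Ω (box d₁ d₂) L t s₂ s₁,
      (Adm bb (cc c₁ c₂) (cc d₁ d₂) R (gp d₁ d₂ τ') θ ∧
        (al (AA Ω t τ'.1) (box d₁ d₂) ≠ 0 → Ev θ)) →
      (low1Z Ω B₀ d₁ d₂ c₁ c₂ t R τ' ↔
        ZZ (WW bb (cc c₁ c₂) R) (KK Ω B₀) (ff bb (gp d₁ d₂ τ') θ)) ∧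
      ∃ F : ℂ × ℂ → ℂ, DifferentiableOn ℂ F (WW bb (cc c₁ c₂) R) ∧
        ∀ z ∈ KK Ω B₀, F z = ff bb (gp d₁ d₂ τ') θ z := by
    intro τ' hτ' ha
    have hc := low1_cur h hτ'
    have hKW := low1_KW h hτ' hW hc.he
    refine ⟨⟨fun hz => hz θ ha.1 ha.2, fun hz θ' a1 a2 => ?_⟩, ?_⟩
    · exact ZZ_indep hc ha.1 a1 (fun e => ha.2 (low1_ne e)) (fun e => a2 (low1_ne e)) hK hKW hz
    · obtain ⟨F, hF, hE⟩ := ff_ext hc ha.1 fun e => ha.2 (low1_ne e)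
      exact ⟨F, hF, fun z hz => hE z (hKW hz).1 (hKW hz).2⟩
  filter_upwards [hθ, low1_close h hτ hB hB₀ hW h0.1.toTh, self_mem_nhdsWithin] with τ' e1 e2 e3
  obtain ⟨i1, F1, hF1, hE1⟩ := key τ' e3 e1
  obtain ⟨i0, F0, hF0, hE0⟩ := key τ hτ h0
  rw [i1, i0]
  refine ⟨fun hz => hz.perturb hK hW hF1 hE1 fun z hz => ?_,
    fun hz => hz.perturb hK hW hF0 hE0 fun z hz => ?_⟩
  · have a := e2 z hz
    have b := norm_sub_norm_le (ff bb (gp d₁ d₂ τ) θ z) (ff bb (gp d₁ d₂ τ') θ z)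
    rw [norm_sub_rev] at a
    linarith
  · have a := e2 z hz
    have b := norm_nonneg (ff bb (gp d₁ d₂ τ) θ z)
    linarith

theorem low1_TT (hL : ∀ x ∈ closure Ω, ‖x‖ ≤ L) (h1 : 0 < r₁) (h2 : 0 < r₂) (hc1 : r₁ < c₁)
    (hc2 : r₂ < c₂) : TT Ω (box r₁ r₂) ⊆ WW bb (cc c₁ c₂) (L + r₁ + r₂ + 1) := by
  rintro z ⟨hz1, hz2⟩
  rw [closure_box h1 h2] at hz2
  have a := hL _ hz1
  have b : ‖(conj z.1 - z.2) / 2‖ ≤ r₁ + r₂ :=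
    (norm_le_abs_re_add_abs_im _).trans (add_le_add hz2.1 hz2.2)
  refine ⟨?_, ?_, (abs_lf_bb_lt _ _ _ _).2 ⟨hz2.1.trans_lt hc1, hz2.2.trans_lt hc2⟩⟩
  · have e : conj z.1 = (conj z.1 + z.2) / 2 + (conj z.1 - z.2) / 2 := by ring
    have := norm_add_le ((conj z.1 + z.2) / 2) ((conj z.1 - z.2) / 2)
    rw [← e, norm_conj] at this
    linarith
  · have e : z.2 = (conj z.1 + z.2) / 2 - (conj z.1 - z.2) / 2 := by ring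
    have := norm_sub_le ((conj z.1 + z.2) / 2) ((conj z.1 - z.2) / 2)
    rw [← e] at this
    linarith

theorem low1_frontier (h : Std Ω d₁ d₂ t s₂) (hτ : τ ∈ PP Ω (box d₁ d₂) L t s₂ s₁) (s : ℂ) :
    s ∈ frontier (cs (gp d₁ d₂ τ) 1) ↔ conj s ∈ frontier (cz (closure (box d₁ d₂)) τ.2) := by
  have e : cs (gp d₁ d₂ τ) 1 = conjCLE.toHomeomorph ⁻¹' cz (closure (box d₁ d₂)) τ.2 :=
    Set.ext (h.cs_one hτ).2.2.2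
  rw [e, ← Homeomorph.preimage_frontier]
  rfl

theorem low1_mem (h : Std Ω d₁ d₂ t s₂) (hτ : τ ∈ PP Ω (box d₁ d₂) L t s₂ s₁) {x : ℂ}
    (hx : x ∈ frontier (cz (closure (box d₁ d₂)) τ.2)) : x ∈ Ω := by
  have h1 : x ∈ cz (closure (box d₁ d₂)) τ.2 := (isClosed_cz _ _).frontier_subset hx
  have h2 := (h.cs_one hτ).2.1 (conj x) (((h.cs_one hτ).2.2.2 _).2 (by simpa using h1))
  rw [conj_conj] at h2
  exact h.hΩ.closure_smul_subset h.h0 h.t0.le h.t1 h2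

end Pool.Agent.NapOT
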