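import Pool.Agent.Lib.MP_b71113_an.OT.ExC
import Pool.Agent.Lib.MP_b71113_an.OT.CtC

/-! One sheet: the corrected defining function is holomorphic in the first variable. -/

namespace Pool.Agent.NapOT

open MeasureTheory Set Metric Complex ComplexConjugate Filter Topology
open scoped NNReal ENNReal Pointwise

variable {J : Type} [Fintype J] {b : J → ℂ} {c : J → ℝ} {R : ℝ} {φ : ℂ → ℂ} {θ : J → ℂ → ℂ}

theorem sheet_lf (b t w ζ : ℂ) : lf b t w - lf b t ζ = b * (w - ζ) := by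
  unfold lf; ring

theorem sheet_Lg (b : ℂ) (φ : ℂ → ℂ) (t ζ : ℂ) : Lg b φ t ζ t = log (b * (φ t - ζ)) := by
  rw [Lg, sheet_lf]

omit [Fintype J] in
theorem sheet_slit (h : Th b c φ θ) {ξ ζ s : ℂ} (hz : (ξ, ζ) ∈ WW b c R) {j : J}
    (hs : s ∈ tsupport (θ j)) : lf (b j) s (φ s) - lf (b j) ξ ζ ∈ slitPlane := by
  have h1 := h.pos j s hs
  have h2 := (abs_lt.1 (hz.2.2 j)).2
  refine mem_slitPlane_iff.2 (Or.inl ?_)
  rw [sub_re]
  exact sub_pos.2 (h2.trans h1)

theorem sheet_bd {f : ℂ → ℂ} {ξ₀ : ℂ} {ρ M : ℝ} (hf : AEStronglyMeasurable f volume) (hM : 0 ≤ M)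
    (h : ∀ s ∈ ball ξ₀ ρ, ‖f s‖ ≤ M) : Bd M (‖ξ₀‖ + ρ) ((ball ξ₀ ρ).indicator f) where
  meas := hf.indicator measurableSet_ball
  le s := by
    by_cases hs : s ∈ ball ξ₀ ρ
    · rw [indicator_of_mem hs]; exact h s hs
    · rw [indicator_of_notMem hs, norm_zero]; exact hM
  out s hs := by
    refine indicator_of_notMem (fun h1 => ?_) _
    rw [mem_ball_iff_norm] at h1
    have := norm_le_norm_add_norm_sub' s ξ₀
    linarith

theorem sheet_meas (hφ : Continuous φ) (θ : J → ℂ → ℂ) (b : J → ℂ) (ζ : ℂ) :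
    AEStronglyMeasurable (fun s => ∑ j, db (θ j) s * Lg (b j) φ s ζ s) volume := by
  refine (Finset.measurable_sum _ fun j _ => (measurable_db _).mul ?_).aestronglyMeasurable
  simp only [sheet_Lg]
  exact measurable_log.comp (continuous_const.mul (hφ.sub continuous_const)).measurable

/-- the outer correction, up to the transform of its diagonal part -/
theorem sheet_outer (h : Th b c φ θ) (hφ : Continuous φ) {ξ₀ ζ : ℂ} (h₀ : (ξ₀, ζ) ∈ WW b c R) :
    ∃ r > 0, ∃ M, 0 ≤ M ∧ (∀ ξ ∈ ball ξ₀ r, (ξ, ζ) ∈ WW b c R ∧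
      ‖∑ j, db (θ j) ξ * Lg (b j) φ ξ ζ ξ‖ ≤ M) ∧ ∀ ρ, 0 < ρ → 2 * ρ ≤ r →
      DifferentiableAt ℂ (fun ξ => CT (fun s => ∑ j, db (θ j) s * Lg (b j) φ ξ ζ s) ξ -
        CT ((ball ξ₀ ρ).indicator fun s => ∑ j, db (θ j) s * Lg (b j) φ s ζ s) ξ) ξ₀ := by
  have hz : Tendsto (fun ξ : ℂ => (ξ, ζ)) (𝓝 ξ₀) (𝓝 (ξ₀, ζ)) :=
    (Continuous.prodMk_left ζ).tendsto ξ₀
  have hl : TendstoLocallyUniformly (fun _ : ℂ => φ) φ (𝓝 ξ₀) := fun u hu x =>
    ⟨univ, univ_mem, Eventually.of_forall fun _ _ _ => refl_mem_uniformity hu⟩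
  obtain ⟨M, R', h1, h2⟩ := h.bd (Φ := fun _ : ℂ => φ) (z := fun ξ : ℂ => (ξ, ζ)) hφ
    (Eventually.of_forall fun _ => hφ) hl hz h₀
  obtain ⟨r, hr, h3⟩ := Metric.eventually_nhds_iff_ball.1
    (h2.and (hz.eventually ((isOpen_WW b c R).mem_nhds h₀)))
  refine ⟨r, hr, M, (norm_nonneg _).trans (h1.le 0), fun ξ hξ => ⟨(h3 ξ hξ).2, (h3 ξ hξ).1.le ξ⟩,
    fun ρ hρ hρr => ?_⟩
  have hsub : ball ξ₀ (2 * ρ) ⊆ ball ξ₀ r := ball_subset_ball hρr
  have h4 := hol_diag (ξ₀ := ξ₀) (r := 2 * ρ) (by linarith)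
    (k := fun ξ s => ∑ j, db (θ j) s * Lg (b j) φ ξ ζ s) (fun ξ hξ => (h3 ξ (hsub hξ)).1)
    (fun s => ?_) ((sheet_meas hφ θ b ζ).indicator measurableSet_ball)
  · rw [show 2 * ρ / 2 = ρ by ring] at h4
    exact h4.differentiableAt (ball_mem_nhds _ (by linarith))
  · refine DifferentiableOn.fun_sum fun j _ => ?_
    by_cases hs : s ∈ tsupport (θ j)
    · refine (differentiableOn_const _).mul fun ξ hξ => DifferentiableAt.differentiableWithinAt ?_
      refine DifferentiableAt.clog ?_ (sheet_slit h (h3 ξ (hsub hξ)).2 hs)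
      unfold lf
      fun_prop
    · simp only [db_eq_zero_of_notMem hs, zero_mul]
      exact differentiableOn_const _

/-- the contact term, up to the transform of its part near the point -/
theorem sheet_contact {e ξ₀ ζ : ℂ} {ω : ℂ → ℂ} {M R' ρ : ℝ} (he : e = 1 ∨ e = -1) (hω : Bd M R' ω)
    (hφ : Continuous φ) (hs : ∀ s, ω s ≠ 0 → s ∈ cs φ e) (hz : (ξ₀, ζ) ∉ ctc φ e) (hρ : 0 < ρ) :
    DifferentiableAt ℂ (fun ξ => Ct ω e ξ ζ -
      CT ((ball ξ₀ ρ).indicator fun s => e * ω s / (ζ - e * conj s)) ξ) ξ₀ := by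
  obtain ⟨δ, hδ, h1⟩ := exists_sep_ctc hφ hz
  refine ((Ct_near (ζ := ζ) he hω hρ).differentiableAt (ball_mem_nhds _ hρ)).congr_of_eventuallyEq ?_
  filter_upwards [ball_mem_nhds ξ₀ (half_pos hδ)] with ξ hξ
  have h2 := Ct_integrable (ξ := ξ) (ζ := ζ) he hω (half_pos hδ) fun s hs' => by
    have h3 := h1 s (hs s hs')
    have h4 := norm_sub_le_norm_sub_add_norm_sub ξ₀ ξ s
    rw [mem_ball_iff_norm'] at hξ
    dsimp only at h3
    linarith
  have h5 : ∀ A : Set ℂ, MeasurableSet A → Integrable fun s =>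
      A.indicator (fun s => e * ω s / (ζ - e * conj s)) s / (ξ - s) := fun A hA =>
    (h2.indicator hA).congr (Eventually.of_forall fun s => by
      by_cases hsA : s ∈ A <;> simp [hsA])
  have h6 := CT_add (h5 (ball ξ₀ ρ) measurableSet_ball) (h5 _ (measurableSet_ball (x := ξ₀)
    (ε := ρ)).compl)
  simp only [indicator_self_add_compl_apply] at h6
  rw [Ct, h6, add_sub_cancel_left]

omit [Fintype J] in
theorem sheet_term (h : Th b c φ θ) {s ζ : ℂ} (hz : (s, ζ) ∈ WW b c R)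
    (hd : DifferentiableAt ℝ φ s) (j : J) :
    DifferentiableAt ℝ (fun t => θ j t * Lg (b j) φ t ζ t) s ∧
      db (fun t => θ j t * Lg (b j) φ t ζ t) s =
        db (θ j) s * Lg (b j) φ s ζ s - θ j s * (db φ s / (ζ - φ s)) := by
  by_cases hs : s ∈ tsupport (θ j)
  · have h1 := sheet_slit h hz hs
    rw [sheet_lf] at h1
    have h0 := slitPlane_ne_zero h1
    have h2 : HasDerivAt (fun w => log (b j * (w - ζ))) (b j * 1 / (b j * (φ s - ζ))) (φ s) :=
      (((hasDerivAt_id (φ s)).sub_const ζ).const_mul (b j)).clog h1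
    have h3 : DifferentiableAt ℝ (fun t => log (b j * (φ t - ζ))) s :=
      (h2.differentiableAt.restrictScalars ℝ).comp s hd
    have h4 : DifferentiableAt ℝ (θ j) s := (h.smooth j).differentiable one_ne_zero s
    simp only [sheet_Lg]
    refine ⟨h4.mul h3, ?_⟩
    rw [db_mul h4 h3, db_comp (F := fun w => log (b j * (w - ζ))) h2 hd]
    have h5 := left_ne_zero_of_mul h0
    have h6 := right_ne_zero_of_mul h0
    have h7 : ζ - φ s ≠ 0 := fun h8 => h6 (by linear_combination -h8)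
    field_simp
    ring
  · have h1 : (fun t => θ j t * Lg (b j) φ t ζ t) =ᶠ[𝓝 s] fun _ => 0 := by
      filter_upwards [notMem_tsupport_iff_eventuallyEq.1 hs] with t ht
      rw [ht, Pi.zero_apply, zero_mul]
    refine ⟨(differentiableAt_const _).congr_of_eventuallyEq h1, ?_⟩
    rw [db_congr h1, db_eq_zero (differentiableAt_const _), db_eq_zero_of_notMem hs,
      image_eq_zero_of_notMem_tsupport hs]
    ring

theorem sheet_log {f : ℂ × ℂ → ℂ} {p : ℂ × ℂ} (hf : ContDiffAt ℝ 1 f p) (h : f p ∈ slitPlane) :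
    ContDiffAt ℝ 1 (fun q => log (f q)) p :=
  ((contDiffAt_log h).restrict_scalars ℝ).comp p hf

theorem sheet_lip {L : ℝ≥0} (hφ : LipschitzWith L φ) (h : Th b c φ θ) {ξ₀ ζ : ℂ}
    (hz : (ξ₀, ζ) ∈ WW b c R) (h0 : ζ - φ ξ₀ ≠ 0) : ∃ K, ∃ t ∈ 𝓝 ξ₀, LipschitzOnWith K
      (fun ξ => ∑ j, θ j ξ * Lg (b j) φ ξ ζ ξ - log ((ζ - φ ξ) / (ζ - φ ξ₀))) t := by
  obtain ⟨H, hH⟩ : ∃ H : ℂ × ℂ → ℂ, ∀ p, H p = ∑ j, θ j p.1 * log (b j * (p.2 - ζ)) -
    log ((ζ - p.2) / (ζ - φ ξ₀)) := ⟨_, fun _ => rfl⟩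
  have h1 : ContDiffAt ℝ 1 H (ξ₀, φ ξ₀) := by
    rw [funext hH]
    refine ContDiffAt.sub (ContDiffAt.sum fun j _ => ?_) ?_
    · by_cases hs : ξ₀ ∈ tsupport (θ j)
      · have h2 := sheet_slit h hz hs
        rw [sheet_lf] at h2
        have h3 : ContDiff ℝ 1 fun p : ℂ × ℂ => θ j p.1 := (h.smooth j).comp contDiff_fst
        exact h3.contDiffAt.mul (sheet_log (f := fun p : ℂ × ℂ => b j * (p.2 - ζ))
          (contDiffAt_const.mul (contDiffAt_snd.sub contDiffAt_const)) h2)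
      · refine (contDiffAt_const (c := (0 : ℂ))).congr_of_eventuallyEq ?_
        filter_upwards [(continuous_fst.tendsto (ξ₀, φ ξ₀)).eventually
          (notMem_tsupport_iff_eventuallyEq.1 hs)] with p hp
        rw [hp, Pi.zero_apply, zero_mul]
    · refine sheet_log (f := fun p : ℂ × ℂ => (ζ - p.2) / (ζ - φ ξ₀))
        ((contDiffAt_const.sub contDiffAt_snd).div_const _) ?_
      dsimp only
      rw [div_self h0]
      exact one_mem_slitPlane
  obtain ⟨K, t, ht, h2⟩ := h1.exists_lipschitzOnWith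
  have h3 : LipschitzWith (max 1 L) fun ξ => (ξ, φ ξ) := LipschitzWith.id.prodMk hφ
  refine ⟨K * max 1 L, (fun ξ => (ξ, φ ξ)) ⁻¹' t, h3.continuous.continuousAt.preimage_mem_nhds ht,
    ?_⟩
  have h4 : (fun ξ => ∑ j, θ j ξ * Lg (b j) φ ξ ζ ξ - log ((ζ - φ ξ) / (ζ - φ ξ₀))) =
      H ∘ fun ξ => (ξ, φ ξ) := funext fun ξ => by
    simp only [sheet_Lg, Function.comp_apply, hH]
  rw [h4]
  exact h2.comp h3.lipschitzOnWith (mapsTo_preimage _ _)

theorem sheet {L : ℝ≥0} {e : ℂ} (hφ : LipschitzWith L φ) (he : e = 1 ∨ e = -1)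
    (hcv : Convex ℝ (cs φ e)) (hbd : Bornology.IsBounded (cs φ e)) (h : Th b c φ θ)
    (hol : ∀ s, ‖s‖ < R → s ∉ cs φ e → ∑ j, θ j s ≠ 1 → DifferentiableAt ℂ φ s)
    {z₀ : ℂ × ℂ} (h₀ : z₀ ∈ WW b c R) (hz : z₀ ∉ ctc φ e) :
    DifferentiableAt ℂ
      (fun ξ => (z₀.2 - φ ξ) * exp (Ex b φ θ ξ z₀.2 + Ct (om φ θ e) e ξ z₀.2)) z₀.1 := by
  obtain ⟨ξ₀, ζ⟩ := z₀
  dsimp only
  have hc := hφ.continuous
  obtain ⟨r, hr, M, hM, h1, h2⟩ := sheet_outer h hc h₀
  obtain ⟨M', h3⟩ := bd_om (fun j => (h.smooth j).continuous) h.supp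
  obtain ⟨R', hR'⟩ := hbd.subset_closedBall 0
  have hω := h3 φ e R' hc hR'
  have hs : ∀ s, om φ θ e s ≠ 0 → s ∈ cs φ e := fun s hs => mem_of_indicator_ne_zero hs
  have h4 := fun ρ hρ => sheet_contact (ρ := ρ) he hω hc hs hz hρ
  by_cases h0 : ζ - φ ξ₀ = 0
  · have a1 : ∀ j, ξ₀ ∉ tsupport (θ j) := fun j hj => by
      have := slitPlane_ne_zero (sheet_slit h h₀ hj)
      rw [sheet_lf] at this
      exact right_ne_zero_of_mul this (by linear_combination -h0)
    have a2 : ξ₀ ∉ cs φ e := fun hh => hz ⟨hh, (sub_eq_zero.1 h0).trans hh⟩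
    have a3 : ∀ᶠ s in 𝓝 ξ₀, (∀ j, s ∉ tsupport (θ j)) ∧ s ∉ cs φ e :=
      (eventually_all.2 fun j => (isClosed_tsupport _).isOpen_compl.mem_nhds (a1 j)).and
        ((isClosed_cs hc e).isOpen_compl.mem_nhds a2)
    obtain ⟨r', hr', a4⟩ := Metric.eventually_nhds_iff_ball.1 a3
    have hρ : 0 < min (r / 2) r' := lt_min (half_pos hr) hr'
    have hsub : ball ξ₀ (min (r / 2) r') ⊆ ball ξ₀ r' := ball_subset_ball (min_le_right _ _)
    have b1 := h2 _ hρ (by linarith [min_le_left (r / 2) r'])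
    have b2 := h4 _ hρ
    have c1 : ((ball ξ₀ (min (r / 2) r')).indicator fun s =>
        ∑ j, db (θ j) s * Lg (b j) φ s ζ s) = fun _ => 0 :=
      funext fun s => indicator_apply_eq_zero.2 fun hs1 => Finset.sum_eq_zero fun j _ => by
        rw [db_eq_zero_of_notMem ((a4 s (hsub hs1)).1 j), zero_mul]
    have c2 : ((ball ξ₀ (min (r / 2) r')).indicator fun s =>
        e * om φ θ e s / (ζ - e * conj s)) = fun _ => 0 :=
      funext fun s => indicator_apply_eq_zero.2 fun hs1 => by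
        rw [not_not.1 fun hh => (a4 s (hsub hs1)).2 (hs s hh), mul_zero, zero_div]
    have c3 : ∀ ξ, CT (fun _ => 0) ξ = 0 := fun ξ => by simp [CT]
    rw [c1] at b1
    rw [c2] at b2
    simp only [c3, sub_zero] at b1 b2
    have d1 : DifferentiableAt ℂ φ ξ₀ := hol ξ₀ h₀.1 a2 (by
      rw [Finset.sum_eq_zero fun j _ => image_eq_zero_of_notMem_tsupport (a1 j)]
      exact zero_ne_one)
    refine ((differentiableAt_const _).sub d1).mul (DifferentiableAt.cexp ?_)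
    refine (b1.add b2).congr_of_eventuallyEq ?_
    filter_upwards [a3] with ξ hξ
    rw [Ex, Finset.sum_eq_zero fun j _ => by
      rw [image_eq_zero_of_notMem_tsupport (hξ.1 j), zero_mul]]
    simp
  · obtain ⟨K, t, ht, a1⟩ := sheet_lip hφ h h₀ h0
    have hq : Continuous fun ξ => (ζ - φ ξ) / (ζ - φ ξ₀) := (continuous_const.sub hc).div_const _
    have a2 : ∀ᶠ ξ in 𝓝 ξ₀, 1 / 2 < ((ζ - φ ξ) / (ζ - φ ξ₀)).re :=
      (continuous_re.comp hq).continuousAt.eventually (lt_mem_nhds (by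
        simp only [Function.comp_apply, div_self h0, one_re]; norm_num))
    obtain ⟨r', hr', a4⟩ := Metric.eventually_nhds_iff_ball.1 (a2.and ht)
    have hρ : 0 < min (r / 2) r' := lt_min (half_pos hr) hr'
    have hsub : ball ξ₀ (min (r / 2) r') ⊆ ball ξ₀ r' := ball_subset_ball (min_le_right _ _)
    have hsub' : ball ξ₀ (min (r / 2) r') ⊆ ball ξ₀ r :=
      ball_subset_ball ((min_le_left _ _).trans (half_le_self hr.le))
    have b1 := h2 _ hρ (by linarith [min_le_left (r / 2) r'])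
    have b2 := h4 _ hρ
    generalize min (r / 2) r' = ρ at hρ hsub hsub' b1 b2
    have n0 : 0 < ‖ζ - φ ξ₀‖ := norm_pos_iff.2 h0
    have n1 : ∀ s ∈ ball ξ₀ ρ, ‖ζ - φ ξ₀‖ / 2 ≤ ‖ζ - φ s‖ := fun s hs1 => by
      have := (a4 s (hsub hs1)).1.le.trans (re_le_norm _)
      rw [norm_div, le_div_iff₀ n0] at this
      linarith
    have n2 : ∀ s ∈ ball ξ₀ ρ, ζ - φ s ≠ 0 := fun s hs1 =>
      norm_pos_iff.1 ((half_pos n0).trans_le (n1 s hs1))
    have hM' : 0 ≤ M' := (norm_nonneg _).trans (hω.le 0)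
    have g1 := sheet_bd (sheet_meas hc θ b ζ) hM fun s hs1 => (h1 s (hsub' hs1)).2
    have g2 : Bd (M' / (‖ζ - φ ξ₀‖ / 2)) (‖ξ₀‖ + ρ)
        ((ball ξ₀ ρ).indicator fun s => e * om φ θ e s / (ζ - e * conj s)) := by
      refine sheet_bd ?_ (by positivity) fun s hs1 => ?_
      · exact ((hω.meas.aemeasurable.const_mul e).div (continuous_const.sub
          (continuous_const.mul continuous_conj)).aemeasurable).aestronglyMeasurable
      · by_cases hs2 : om φ θ e s = 0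
        · rw [hs2, mul_zero, zero_div, norm_zero]; positivity
        · have e1 : ‖e‖ = 1 := by rcases he with rfl | rfl <;> simp
          rw [← show φ s = e * conj s from hs s hs2, norm_div, norm_mul, e1, one_mul]
          exact div_le_div₀ hM' (hω.le s) (half_pos n0) (n1 s hs1)
    have g3 : Bd (M + M' / (‖ζ - φ ξ₀‖ / 2)) (‖ξ₀‖ + ρ) fun s =>
        (ball ξ₀ ρ).indicator (fun s => ∑ j, db (θ j) s * Lg (b j) φ s ζ s) s +
          (ball ξ₀ ρ).indicator (fun s => e * om φ θ e s / (ζ - e * conj s)) s :=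
      ⟨g1.meas.add g2.meas, fun s => (norm_add_le _ _).trans (add_le_add (g1.le s) (g2.le s)),
        fun s hs1 => by rw [g1.out s hs1, g2.out s hs1, add_zero]⟩
    have b3 := (loc_cp (a1.mono fun s hs1 => (a4 s (hsub hs1)).2) g3 ?_).differentiableAt
      (ball_mem_nhds _ hρ)
    · refine ((((b1.add b2).sub b3).cexp).const_mul (ζ - φ ξ₀)).congr_of_eventuallyEq ?_
      filter_upwards [ball_mem_nhds ξ₀ hρ] with ξ hξ
      have e1 : ζ - φ ξ = (ζ - φ ξ₀) * exp (log ((ζ - φ ξ) / (ζ - φ ξ₀))) := by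
        rw [exp_log (div_ne_zero (n2 ξ hξ) h0), mul_div_cancel₀ _ h0]
      conv_lhs => rw [e1, mul_assoc, ← exp_add]
      congr 2
      simp only [Pi.add_apply, Pi.sub_apply]
      rw [CT_add (g1.integrable ξ) (g2.integrable ξ), Ex]
      ring
    · have f1 : ∀ᵐ s, s ∉ frontier (cs φ e) :=
        measure_eq_zero_iff_ae_notMem.1 (hcv.addHaar_frontier volume)
      filter_upwards [hφ.ae_differentiableAt (μ := volume), f1] with s hd hf hs1
      have hW := (h1 s (hsub' hs1)).1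
      have t1 := sheet_term h hW hd
      have hsl : (ζ - φ s) / (ζ - φ ξ₀) ∈ slitPlane :=
        mem_slitPlane_iff.2 (Or.inl (lt_trans (by norm_num) (a4 s (hsub hs1)).1))
      have t2 : HasDerivAt (fun w => log ((ζ - w) / (ζ - φ ξ₀)))
          (-1 / (ζ - φ ξ₀) / ((ζ - φ s) / (ζ - φ ξ₀))) (φ s) :=
        (((hasDerivAt_id (φ s)).const_sub ζ).div_const _).clog hsl
      have t3 : DifferentiableAt ℝ (fun t => log ((ζ - φ t) / (ζ - φ ξ₀))) s :=
        (t2.differentiableAt.restrictScalars ℝ).comp s hd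
      rw [db_sub (DifferentiableAt.fun_sum fun j _ => (t1 j).1) t3, db_sum fun j => (t1 j).1,
        db_comp (F := fun w => log ((ζ - w) / (ζ - φ ξ₀))) t2 hd, indicator_of_mem hs1,
        indicator_of_mem hs1, Finset.sum_congr rfl fun j _ => (t1 j).2, Finset.sum_sub_distrib,
        ← Finset.sum_mul]
      have n3 := n2 s hs1
      have t4 : e * om φ θ e s / (ζ - e * conj s) = (1 - ∑ j, θ j s) * (db φ s / (ζ - φ s)) := by
        by_cases hs2 : s ∈ cs φ e
        · have t5 : s ∈ interior (cs φ e) := by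
            by_contra t6
            exact hf ⟨subset_closure hs2, t6⟩
          have t7 : φ =ᶠ[𝓝 s] fun t => e * conj t := mem_interior_iff_mem_nhds.1 t5
          rw [db_congr t7, db_conj, om, indicator_of_mem hs2, ← show φ s = e * conj s from hs2]
          ring
        · rw [om, indicator_of_notMem hs2, mul_zero, zero_div]
          by_cases t8 : ∑ j, θ j s = 1
          · rw [t8, sub_self, zero_mul]
          · rw [db_eq_zero (hol s hW.1 hs2 t8), zero_div, mul_zero]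
      rw [t4]
      field_simp
      ring

end Pool.Agent.NapOT
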