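import Pool.Agent.Lib.MP_b71113_an.OT.Bridge

/-! Unbounded convex sets: definitions and geometry. -/

namespace Pool.Agent.NapOT

open MeasureTheory Set Metric Complex ComplexConjugate Filter Topology
open scoped NNReal ENNReal Pointwise

/-- the directions in which `A` is bounded -/
def bar (A : Set ℂ) : Set ℂ := {q | ∃ M : ℝ, ∀ x ∈ A, inner ℝ x q ≤ M}

/-- the points of `A` at which `u` is minimal -/
def amin (A : Set ℂ) (u : ℂ → ℝ) : Set ℂ := {x | x ∈ A ∧ ∀ y ∈ A, u x ≤ u y}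

/-- a convex potential -/
structure Bre (A B : Set ℂ) (u : ℂ → ℝ) : Prop where
  cvx : ConvexOn ℝ A u
  map : ((volume.restrict A).map (gradient u)).restrict {0}ᶜ =
    volume.restrict (closure B ∩ bar A)

/-- truncation -/
def cut (A : Set ℂ) (n : ℕ) : Set ℂ := A ∩ ball 0 n

variable {A : Set ℂ}

theorem convex_bar (A : Set ℂ) : Convex ℝ (bar A) := by
  rintro q ⟨M, hM⟩ q' ⟨M', hM'⟩ a b ha hb -
  refine ⟨a * M + b * M', fun x hx => ?_⟩
  rw [inner_add_right, real_inner_smul_right, real_inner_smul_right]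
  exact add_le_add (mul_le_mul_of_nonneg_left (hM x hx) ha)
    (mul_le_mul_of_nonneg_left (hM' x hx) hb)

theorem measurableSet_bar (A : Set ℂ) : MeasurableSet (bar A) := by
  have e : bar A = ⋃ M : ℕ, ⋂ x ∈ A, {q : ℂ | inner ℝ x q ≤ (M : ℝ)} := by
    ext q
    simp only [bar, mem_ofPred_eq, mem_iUnion, mem_iInter]
    exact ⟨fun ⟨M, hM⟩ => ⟨⌈M⌉₊, fun x hx => (hM x hx).trans (Nat.le_ceil M)⟩,
      fun ⟨M, hM⟩ => ⟨M, hM⟩⟩
  rw [e]
  exact MeasurableSet.iUnion fun M => (isClosed_biInter fun x _ =>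
    isClosed_le (continuous_const.inner continuous_id) continuous_const).measurableSet

theorem bar_of_bounded (h : Bornology.IsBounded A) : bar A = univ := by
  obtain ⟨R, hR⟩ := h.exists_norm_le
  exact eq_univ_of_forall fun q => ⟨R * ‖q‖, fun x hx => (real_inner_le_norm x q).trans
    (mul_le_mul_of_nonneg_right (hR x hx) (norm_nonneg q))⟩

theorem cut_mono (A : Set ℂ) : Monotone (cut A) := fun _ _ h =>
  inter_subset_inter_right _ (ball_subset_ball (Nat.cast_le.2 h))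

theorem cut_subset (A : Set ℂ) (n : ℕ) : cut A n ⊆ A := inter_subset_left

theorem eventually_mem_cut {x : ℂ} (hx : x ∈ A) : ∀ᶠ n in atTop, x ∈ cut A n := by
  filter_upwards [tendsto_natCast_atTop_atTop.eventually_gt_atTop ‖x‖] with n hn
  exact ⟨hx, mem_ball_zero_iff.2 hn⟩

theorem body_cut (hA : IsOpen A) (hc : Convex ℝ A) (hne : A.Nonempty) :
    ∀ᶠ n in atTop, Body (cut A n) := by
  obtain ⟨x, hx⟩ := hne
  filter_upwards [eventually_mem_cut hx] with n hn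
  exact ⟨hA.inter isOpen_ball, hc.inter (convex_ball _ _), isBounded_ball.subset inter_subset_right,
    x, hn⟩

/-- a long rectangle inside the convex hull of a disc and a point -/
theorem sausage (hc : Convex ℝ A) {x y : ℂ} {ρ : ℝ} (hρ : 0 < ρ) (hx : ball x ρ ⊆ A) (hy : y ∈ A)
    (hxy : x ≠ y) : ∃ S : Set ℂ, S ⊆ A ∧ IsOpen S ∧ S ⊆ ball x (‖y - x‖ + ρ) ∧
      volume.real S = ρ * ‖y - x‖ / 4 ∧
      (∀ z ∈ S, 2 * (x + (3 / 8 : ℂ) * (y - x)) - z ∈ S) ∧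
      ∀ z ∈ S, ∃ s ∈ Icc (1 / 4 : ℝ) (1 / 2), ‖z - (x + s * (y - x))‖ ≤ ρ := by
  set d := y - x with hd
  have hd0 : d ≠ 0 := sub_ne_zero.2 hxy.symm
  have hn : 0 < ‖d‖ := norm_pos_iff.2 hd0
  have ha : 0 < ρ / (2 * ‖d‖) := by positivity
  have key : ∀ w ∈ box (1 / 8) (ρ / (2 * ‖d‖)), ∃ s ∈ Icc (1 / 4 : ℝ) (1 / 2), ∃ e : ℂ,
      ‖e‖ < ρ / 2 ∧ x + 3 / 8 * d + d * w = x + s * d + e := by
    intro w hw
    obtain ⟨h1, h2⟩ := abs_lt.1 hw.1
    refine ⟨3 / 8 + w.re, ⟨by linarith, by linarith⟩, d * (w.im * I), ?_, ?_⟩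
    · have h3 := mul_lt_mul_of_pos_left hw.2 hn
      rw [norm_mul, norm_mul, norm_I, mul_one, norm_real, Real.norm_eq_abs]
      refine h3.trans_eq ?_
      field_simp
    · conv_lhs => rw [← re_add_im w]
      push_cast
      ring
  refine ⟨(fun w => x + 3 / 8 * d + d * w) '' box (1 / 8) (ρ / (2 * ‖d‖)), ?_, ?_, ?_, ?_, ?_, ?_⟩
  · rintro _ ⟨w, hw, rfl⟩
    obtain ⟨s, hs, e, he, h⟩ := key w hw
    have h1 : 0 < 1 - s := by linarith [hs.2]
    have h2 : x + ((1 - s)⁻¹ : ℝ) * e ∈ A := by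
      refine hx ?_
      rw [mem_ball_iff_norm, add_sub_cancel_left, norm_mul, norm_real,
        Real.norm_of_nonneg (inv_pos.2 h1).le, inv_mul_lt_iff₀ h1]
      nlinarith [hs.2]
    have h3 := hc h2 hy h1.le (by linarith [hs.1] : 0 ≤ s) (by ring)
    have h4 : (1 - s : ℂ) ≠ 0 := by exact_mod_cast h1.ne'
    change x + 3 / 8 * d + d * w ∈ A
    rw [h]
    convert h3 using 1
    simp only [real_smul, hd]
    push_cast
    field_simp
    ring
  · exact ((isOpenMap_add_left (x + 3 / 8 * d)).comp (Homeomorph.mulLeft₀ d hd0).isOpenMap) _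
      (body_box (by norm_num) ha).op
  · rintro _ ⟨w, hw, rfl⟩
    obtain ⟨s, hs, e, he, h⟩ := key w hw
    simp only
    rw [mem_ball_iff_norm, h, add_assoc, add_sub_cancel_left]
    refine (norm_add_le _ _).trans_lt ?_
    rw [norm_mul, norm_real, Real.norm_of_nonneg (by linarith [hs.1])]
    nlinarith [hs.2]
  · have e : (fun w => x + 3 / 8 * d + d * w) '' box (1 / 8) (ρ / (2 * ‖d‖)) =
        (fun z => x + 3 / 8 * d + z) '' (Algebra.lmul ℝ ℂ d '' box (1 / 8) (ρ / (2 * ‖d‖))) := by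
      rw [image_image]
      rfl
    have h1 := vol_box (r₁ := 1 / 8) (by norm_num) ha.le
    rw [Measure.real] at h1
    rw [Measure.real, e, image_add_left, measure_preimage_add, Measure.addHaar_image_linearMap,
      ← Algebra.norm_apply, Algebra.norm_complex_apply, ENNReal.toReal_mul, h1,
      ENNReal.toReal_ofReal (abs_nonneg _), abs_of_nonneg (normSq_nonneg _), normSq_eq_norm_sq]
    field_simp
    norm_num
  · rintro _ ⟨w, hw, rfl⟩
    exact ⟨-w, by simpa [box] using hw, by ring⟩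
  · rintro _ ⟨w, hw, rfl⟩
    obtain ⟨s, hs, e, he, h⟩ := key w hw
    refine ⟨s, hs, ?_⟩
    simp only
    rw [h, add_sub_cancel_left]
    linarith

theorem un0_le {S E : Set ℂ} {n : ℕ} (h : S ⊆ cut A n ∩ E) :
    volume.real S ≤ volume.real (cut A n ∩ E) :=
  measureReal_mono h ((isBounded_ball.subset
    (inter_subset_left.trans inter_subset_right)).measure_lt_top.ne)

theorem un0_cut {S : Set ℂ} {x : ℂ} {r : ℝ} (h : S ⊆ A) (h' : S ⊆ ball x r) :
    ∀ᶠ n in atTop, S ⊆ cut A n := by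
  obtain ⟨R, hR⟩ := (isBounded_ball.subset h').exists_norm_le
  filter_upwards [tendsto_natCast_atTop_atTop.eventually_gt_atTop R] with n hn z hz
  exact ⟨h hz, mem_ball_zero_iff.2 ((hR z hz).trans_lt hn)⟩

theorem exists_sym (hA : IsOpen A) (hc : Convex ℝ A) (hub : ¬Bornology.IsBounded A) (M : ℝ) :
    ∃ x₀ : ℂ, ∀ᶠ n in atTop, M < volume.real (cut A n ∩ {x | 2 * x₀ - x ∈ cut A n}) := by
  obtain ⟨x, hx⟩ : A.Nonempty := nonempty_iff_ne_empty.2 fun h => hub (h ▸ Bornology.isBounded_empty)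
  obtain ⟨ρ, hρ, hb⟩ := Metric.isOpen_iff.1 hA x hx
  obtain ⟨y, hy, h⟩ : ∃ y ∈ A, 4 * |M| / ρ < ‖y - x‖ := by
    by_contra h
    push Not at h
    exact hub (isBounded_closedBall.subset fun y hy => mem_closedBall_iff_norm.2 (h y hy))
  have hxy : x ≠ y := by
    rintro rfl
    rw [sub_self, norm_zero] at h
    exact h.not_ge (by positivity)
  obtain ⟨S, h1, -, h3, h4, h5, -⟩ := sausage hc hρ hb hy hxy
  refine ⟨x + 3 / 8 * (y - x), ?_⟩
  filter_upwards [un0_cut h1 h3] with n hn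
  refine lt_of_lt_of_le ?_ (un0_le (S := S) fun z hz => ⟨hn hz, hn (h5 z hz)⟩)
  rw [div_lt_iff₀ hρ] at h
  linarith [le_abs_self M]

theorem vol_eq_top (hA : IsOpen A) (hc : Convex ℝ A) (hub : ¬Bornology.IsBounded A) :
    volume A = ⊤ := by
  by_contra h
  obtain ⟨x₀, h1⟩ := exists_sym hA hc hub (volume.real A)
  obtain ⟨n, hn⟩ := h1.exists
  exact hn.not_ge (measureReal_mono (inter_subset_left.trans inter_subset_left) h)

theorem half_big (hA : IsOpen A) (hc : Convex ℝ A) {q₀ : ℂ} (hq : q₀ ∉ bar A) (M m : ℝ) :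
    ∀ᶠ p : ℂ × ℕ in 𝓝 q₀ ×ˢ atTop, ∀ x : ℂ, ‖x‖ ≤ m →
      M < volume.real (cut A p.2 ∩ {y | 0 < inner ℝ (y - x) p.1}) := by
  have hq' : ∀ K : ℝ, ∃ y ∈ A, K < inner ℝ y q₀ := fun K => by
    by_contra h
    push Not at h
    exact hq ⟨K, h⟩
  obtain ⟨x₁, hx, -⟩ := hq' 0
  obtain ⟨ρ, hρ, hb⟩ := Metric.isOpen_iff.1 hA x₁ hx
  obtain ⟨y, hy, h⟩ := hq' (inner ℝ x₁ q₀ + (4 * |M| / ρ + 4 * (‖x₁‖ + |m| + ρ)) * ‖q₀‖)
  rw [← lt_sub_iff_add_lt', ← inner_sub_left, add_mul] at h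
  have p1 : 0 ≤ 4 * |M| / ρ * ‖q₀‖ := by positivity
  have p2 : 0 ≤ 4 * (‖x₁‖ + |m| + ρ) * ‖q₀‖ := by positivity
  have hxy : x₁ ≠ y := by
    rintro rfl
    rw [sub_self, inner_zero_left] at h
    linarith
  have h0 : 4 * |M| / ρ < ‖y - x₁‖ :=
    lt_of_mul_lt_mul_right (by linarith [real_inner_le_norm (y - x₁) q₀]) (norm_nonneg q₀)
  obtain ⟨S, h1, -, h3, h4, -, h6⟩ := sausage hc hρ hb hy hxy
  have h7 : ∀ᶠ q in 𝓝 q₀, 4 * (‖x₁‖ + |m| + ρ) * ‖q‖ < inner ℝ (y - x₁) q :=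
    ContinuousAt.eventually_lt (by fun_prop) (continuous_const.inner continuous_id).continuousAt
      (by linarith)
  filter_upwards [h7.prod_mk (un0_cut h1 h3)] with p hp x hxm
  refine lt_of_lt_of_le ?_ (un0_le (S := S) fun z hz => ⟨hp.2 hz, ?_⟩)
  · rw [div_lt_iff₀ hρ] at h0
    linarith [le_abs_self M]
  · obtain ⟨s, hs, he⟩ := h6 z hz
    have e : z - x = s • (y - x₁) - (x - x₁ - (z - (x₁ + s * (y - x₁)))) := by
      rw [real_smul]
      ring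
    have h8 : ‖x - x₁ - (z - (x₁ + s * (y - x₁)))‖ ≤ ‖x₁‖ + |m| + ρ := by
      linarith [norm_sub_le (x - x₁) (z - (x₁ + s * (y - x₁))), norm_sub_le x x₁, le_abs_self m]
    have h9 := (real_inner_le_norm _ p.1).trans (mul_le_mul_of_nonneg_right h8 (norm_nonneg _))
    have p3 : 0 ≤ 4 * (‖x₁‖ + |m| + ρ) * ‖p.1‖ := by positivity
    rw [mem_ofPred_eq, e, inner_sub_left, real_inner_smul_left]
    nlinarith [hp.1, hs.1]

theorem un0_loc {q₀ : ℂ} (hq : q₀ ∈ interior (bar A)) (y₀ : ℂ) : ∃ R : ℝ, ∀ᶠ q in 𝓝 q₀,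
    ∀ x ∈ A, 0 ≤ inner ℝ (x - y₀) q → ‖x‖ ≤ R := by
  obtain ⟨r, hr, hb⟩ := Metric.mem_nhds_iff.1 (mem_interior_iff_mem_nhds.1 hq)
  have h : ∀ u : ℂ, ‖u‖ = 1 → ∃ M : ℝ, ∀ x ∈ A, inner ℝ x q₀ + r / 2 * inner ℝ x u ≤ M := by
    intro u hu
    obtain ⟨M, hM⟩ := hb (show q₀ + (r / 2) • u ∈ ball q₀ r by
      rw [mem_ball_iff_norm, add_sub_cancel_left, norm_smul, hu, Real.norm_of_nonneg (by linarith)]
      linarith)
    exact ⟨M, fun x hx => by simpa only [inner_add_right, real_inner_smul_right] using hM x hx⟩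
  obtain ⟨M1, h1⟩ := h 1 norm_one
  obtain ⟨M2, h2⟩ := h (-1) (by simp)
  obtain ⟨M3, h3⟩ := h I norm_I
  obtain ⟨M4, h4⟩ := h (-I) (by simp)
  refine ⟨(max M1 M2 + max M3 M4 + 2 * (‖y₀‖ * (‖q₀‖ + r))) / (r / 4), ?_⟩
  filter_upwards [ball_mem_nhds q₀ (show 0 < r / 8 by linarith)] with q hq x hx h0
  have e1 : inner ℝ x (1 : ℂ) = x.re := by simp
  have e2 : inner ℝ x I = x.im := by simp
  have a1 := (h1 x hx).trans (le_max_left M1 M2)
  have a2 := (h2 x hx).trans (le_max_right M1 M2)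
  have a3 := (h3 x hx).trans (le_max_left M3 M4)
  have a4 := (h4 x hx).trans (le_max_right M3 M4)
  rw [inner_neg_right] at a2 a4
  rw [e1] at a1 a2
  rw [e2] at a3 a4
  have b1 : inner ℝ x q₀ + r / 2 * |x.re| ≤ max M1 M2 := by
    rcases abs_choice x.re with e | e <;> rwa [e]
  have b2 : inner ℝ x q₀ + r / 2 * |x.im| ≤ max M3 M4 := by
    rcases abs_choice x.im with e | e <;> rwa [e]
  have b3 := mul_le_mul_of_nonneg_left (norm_le_abs_re_add_abs_im x) hr.le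
  rw [mem_ball_iff_norm] at hq
  have b4 := (real_inner_le_norm x (q - q₀)).trans
    (mul_le_mul_of_nonneg_left hq.le (norm_nonneg x))
  have b5 : ‖q‖ ≤ ‖q₀‖ + r := by linarith [norm_sub_norm_le q q₀]
  have b6 := (real_inner_le_norm (-y₀) q).trans (mul_le_mul_of_nonneg_left b5 (norm_nonneg _))
  rw [inner_neg_left, norm_neg] at b6
  rw [inner_sub_right] at b4
  rw [inner_sub_left] at h0
  rw [le_div_iff₀ (by linarith)]
  linarith

theorem bdd_of_interior_bar {D : Set ℂ} (hD : IsCompact D) (hs : D ⊆ interior (bar A)) (y₀ : ℂ) :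
    ∃ R : ℝ, ∀ x ∈ A, ∀ q ∈ D, 0 ≤ inner ℝ (x - y₀) q → ‖x‖ ≤ R := by
  refine hD.induction_on (p := fun s => ∃ R : ℝ, ∀ x ∈ A, ∀ q ∈ s,
    0 ≤ inner ℝ (x - y₀) q → ‖x‖ ≤ R) ⟨0, by simp⟩ ?_ ?_ ?_
  · rintro s t hst ⟨R, hR⟩
    exact ⟨R, fun x hx q hq => hR x hx q (hst hq)⟩
  · rintro s t ⟨R, hR⟩ ⟨R', hR'⟩
    exact ⟨max R R', fun x hx q hq h => hq.elim (fun hq => (hR x hx q hq h).trans (le_max_left _ _))
      fun hq => (hR' x hx q hq h).trans (le_max_right _ _)⟩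
  · intro q₀ hq
    obtain ⟨R, hR⟩ := un0_loc (hs hq) y₀
    exact ⟨_, mem_nhdsWithin_of_mem_nhds hR, R, fun x hx q hq => hq x hx⟩

end Pool.Agent.NapOT
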