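import Pool.Agent.Lib.MP_b71113_an.OT.Un0
import Pool.Agent.Lib.MP_b71113_an.OT.Hol

/-! Potentials on unbounded sets: area and comparison. -/

namespace Pool.Agent.NapOT

open MeasureTheory Set Metric Complex ComplexConjugate Filter Topology
open scoped NNReal ENNReal Pointwise

variable {A B : Set ℂ} {u : ℂ → ℝ}

theorem un1_meas (u : ℂ → ℝ) : Measurable (gradient u) :=
  (InnerProductSpace.toDual ℝ ℂ).symm.continuous.measurable.comp (measurable_fderiv ℝ u)

/-- the mass of a preimage away from the origin -/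
theorem un1_pre (h : Bre A B u) {S : Set ℂ} (hS : MeasurableSet S) (h0 : (0 : ℂ) ∉ S) :
    volume.restrict A (gradient u ⁻¹' S) = volume (S ∩ (closure B ∩ bar A)) := by
  have e : S ∩ {0}ᶜ = S := inter_eq_left.2 fun q hq hq' => h0 (mem_singleton_iff.1 hq' ▸ hq)
  rw [← Measure.map_apply (un1_meas u) hS, ← Measure.restrict_apply hS, ← h.map,
    Measure.restrict_apply hS, e]

theorem convex_amin (h : ConvexOn ℝ A u) : Convex ℝ (amin A u) := by
  intro x hx y hy a b ha hb hab
  refine ⟨h.1 hx.1 hy.1 ha hb hab, fun z hz => (h.2 hx.1 hy.1 ha hb hab).trans ?_⟩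
  have h1 := mul_le_mul_of_nonneg_left (hx.2 z hz) ha
  have h2 := mul_le_mul_of_nonneg_left (hy.2 z hz) hb
  have h3 : u z = a * u z + b * u z := by rw [← add_mul, hab, one_mul]
  rw [smul_eq_mul, smul_eq_mul]
  linarith

theorem ae_mem_amin (hA : IsOpen A) (h : ConvexOn ℝ A u) :
    ∀ᵐ x, x ∈ A → (x ∈ amin A u ↔ gradient u x = 0) := by
  filter_upwards [bridge_ae_diff hA h] with x hd hx
  refine ⟨fun hm => ?_, fun hg => ⟨hx, fun y hy => ?_⟩⟩
  · have h1 : IsLocalMin u x := (eventually_of_mem (hA.mem_nhds hx) fun y hy => hm.2 y hy)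
    rw [gradient, h1.fderiv_eq_zero, map_zero]
  · have h1 := bridge_subgrad h hx hy (hd hx)
    rw [hg, inner_zero_left, inner_zero_left] at h1
    linarith

theorem Bre.vol (hA : IsOpen A) (h : Bre A B u) :
    volume (A \ interior (amin A u)) = volume (closure B ∩ bar A) := by
  have hm : MeasurableSet ({0}ᶜ : Set ℂ) := (measurableSet_singleton 0).compl
  have h1 := un1_pre h hm fun h0 => h0 rfl
  have h2 : volume (({0}ᶜ : Set ℂ) ∩ (closure B ∩ bar A)) = volume (closure B ∩ bar A) := by
    rw [inter_comm, ← sdiff_eq]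
    exact measure_sdiff_null (measure_singleton 0)
  rw [← h2, ← h1, Measure.restrict_apply (un1_meas u hm)]
  refine measure_congr ?_
  have h3 : ∀ᵐ x : ℂ, x ∉ frontier (amin A u) :=
    measure_eq_zero_iff_ae_notMem.1 ((convex_amin h.cvx).addHaar_frontier volume)
  filter_upwards [ae_mem_amin hA h.cvx, h3] with x a b
  refine propext ⟨fun hx => ⟨fun hg => hx.2 ?_, hx.1⟩, fun hx => ⟨hx.2, fun hi => hx.1 ?_⟩⟩
  · by_contra hn
    exact b ⟨subset_closure ((a hx.1).2 hg), hn⟩
  · exact (a hx.2).1 (interior_subset hi)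

theorem Bre.amin_nonempty (hA : IsOpen A) (hB : Body B) (h : Bre A B u) (hv : volume A = ⊤) :
    (amin A u).Nonempty := by
  by_contra hn
  have h1 := h.vol hA
  rw [not_nonempty_iff_eq_empty.1 hn, interior_empty, sdiff_empty, hv] at h1
  exact ((measure_mono inter_subset_left).trans_lt hB.isCompact.measure_lt_top).ne h1.symm

/-- comparison with a bounded problem -/
theorem Bre.cmp (hA : IsOpen A) (hB : Body B) (h0 : (0 : ℂ) ∈ B) (h : Bre A B u)
    (hne : (amin A u).Nonempty) {A₁ B₁ : Set ℂ} {β : ℝ} {v : ℂ → ℝ} {T : ℂ → ℂ}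
    (h₁ : Tr A₁ B₁ β v T) (hA₁ : A₁ ⊆ A) {t : ℝ} (ht : 1 < t) (hB₁ : ∀ q ∈ B, t • q ∈ B₁) :
    cz (closure B₁) v ∩ A ⊆ amin A u := by
  obtain ⟨x₀, hx₀⟩ := hne
  have ht0 : 0 < t := by linarith
  have hw : Continuous fun p : ℂ => v (t • p) := h₁.cont.comp (continuous_const_smul t)
  set G : Set ℂ := B ∩ ⋃ k : ℕ, ⋂ y ∈ A,
    {q | t * (inner ℝ q y - u y + u x₀) ≤ v (t • q) - v 0 - 1 / ((k : ℝ) + 1)} with hG
  have hmem : ∀ q, q ∈ G ↔ q ∈ B ∧ ∃ k : ℕ, ∀ y ∈ A,
      t * (inner ℝ q y - u y + u x₀) ≤ v (t • q) - v 0 - 1 / ((k : ℝ) + 1) := by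
    intro q
    simp only [hG, mem_inter_iff, mem_iUnion, mem_iInter, mem_ofPred_eq]
  have hGm : MeasurableSet G := by
    refine hB.op.measurableSet.inter (MeasurableSet.iUnion fun k => IsClosed.measurableSet ?_)
    refine isClosed_biInter fun y _ => isClosed_le ?_ ((hw.sub continuous_const).sub continuous_const)
    exact continuous_const.mul (((continuous_id.inner continuous_const).sub
      continuous_const).add continuous_const)
  have hG0 : (0 : ℂ) ∉ G := fun hh => by
    obtain ⟨k, hk⟩ := ((hmem 0).1 hh).2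
    have a1 := hk x₀ hx₀.1
    have a2 : (0 : ℝ) < 1 / ((k : ℝ) + 1) := Nat.one_div_pos_of_nat
    rw [inner_zero_left, smul_zero] at a1
    linarith
  have hGt : MeasurableSet (t • G) := hGm.const_smul₀ t
  have hfin : volume G < ⊤ := (measure_mono inter_subset_left).trans_lt hB.vol_lt_top
  have hsub : t • G ⊆ B₁ := by
    rintro _ ⟨g, hg, rfl⟩
    exact hB₁ g hg.1
  have e1 : volume (t • G) ≤ volume.restrict A₁ (T ⁻¹' (t • G)) := by
    rw [← Measure.map_apply h₁.meas hGt, h₁.map, wt, Measure.add_apply,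
      Measure.restrict_apply hGt, inter_eq_left.2 hsub]
    exact le_self_add
  have e2 : volume.restrict A (gradient u ⁻¹' G) ≤ volume G := by
    rw [un1_pre h hGm hG0]
    exact measure_mono inter_subset_left
  have e3 : ∀ᵐ x ∂(volume.restrict A), gradient u x ∈ B := by
    have hh : volume.restrict A (gradient u ⁻¹' Bᶜ) = 0 := by
      rw [un1_pre h hB.op.measurableSet.compl (not_not.2 h0)]
      exact measure_mono_null (t := closure B \ B) (fun q hq => ⟨hq.2.1, hq.1⟩) hB.vol_closure
    exact hh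
  have e3' : ∀ᵐ x ∂(volume.restrict A), x ∈ A ∧ DifferentiableAt ℝ u x := by
    rw [ae_restrict_iff' hA.measurableSet]
    filter_upwards [bridge_ae_diff hA h.cvx] with x hx hxA using ⟨hxA, hx hxA⟩
  have e4 : volume.restrict A₁ (T ⁻¹' (t • G)) ≤ volume.restrict A₁ (gradient u ⁻¹' G) := by
    refine measure_mono_ae ?_
    filter_upwards [h₁.gam, ae_restrict_of_ae_restrict_of_subset hA₁ e3,
      ae_restrict_of_ae_restrict_of_subset hA₁ e3'] with x g1 g2 g3 hx
    obtain ⟨g, hg, hg'⟩ : T x ∈ t • G := hx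
    obtain ⟨k, hk⟩ := ((hmem g).1 hg).2
    have a1 := g1.2 _ (subset_closure (hB₁ _ g2))
    rw [← hg', real_inner_smul_right, real_inner_smul_right] at a1
    refine (hmem _).2 ⟨g2, k, fun y hy => ?_⟩
    have a2 := mul_le_mul_of_nonneg_left (bridge_subgrad h.cvx g3.1 hy g3.2) ht0.le
    have a3 := hk x g3.1
    rw [real_inner_comm x] at a3
    rw [real_inner_comm x] at a2
    linarith
  have e5 : volume (t • G) ≤ volume G :=
    ((e1.trans e4).trans (Measure.restrict_mono hA₁ le_rfl _)).trans e2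
  have e6 : volume.real (t • G) ≤ volume.real G := ENNReal.toReal_mono hfin.ne e5
  have e7 : volume G = 0 := by
    by_contra hn
    have a1 : 0 < volume.real G := ENNReal.toReal_pos hn hfin.ne
    rw [vol_smul] at e6
    nlinarith [mul_pos a1 (show 0 < t ^ 2 - 1 by nlinarith)]
  have e8 : ∀ᵐ x ∂(volume.restrict A), gradient u x ∉ G := by
    have hh : volume.restrict A (gradient u ⁻¹' G) = 0 := le_zero_iff.1 (e7 ▸ e2)
    exact measure_eq_zero_iff_ae_notMem.1 hh
  obtain ⟨L, hL0, hL⟩ := hB.bd.exists_pos_norm_le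
  rintro x ⟨hx, hxA⟩
  have h2 : ∀ᵐ z, z ∈ A → u z - ‖z - x‖ * L ≤ u x₀ := by
    rw [← ae_restrict_iff' hA.measurableSet]
    filter_upwards [e3, e3', e8] with z g1 g2 g3
    have a1 := hx.2 _ (subset_closure (hB₁ _ g1))
    rw [real_inner_smul_right, inner_zero_right] at a1
    have a2 : v (t • gradient u z) - v 0 ≤ t * (inner ℝ (gradient u z) z - u z + u x₀) := by
      refine le_of_forall_pos_le_add fun ε hε => ?_
      obtain ⟨k, hk⟩ := exists_nat_one_div_lt hε
      by_contra hn
      refine g3 ((hmem _).2 ⟨g1, k, fun y hy => ?_⟩)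
      have b := mul_le_mul_of_nonneg_left (bridge_subgrad h.cvx g2.1 hy g2.2) ht0.le
      linarith
    have a3 : inner ℝ x (gradient u z) ≤ inner ℝ (gradient u z) z - u z + u x₀ :=
      le_of_mul_le_mul_left (by linarith) ht0
    have a4 := (real_inner_le_norm (z - x) (gradient u z)).trans
      (mul_le_mul_of_nonneg_left (hL _ g1) (norm_nonneg _))
    rw [inner_sub_left] at a4
    rw [real_inner_comm z] at a3
    linarith
  have h3 := (Measure.dense_of_ae h2).open_subset_closure_inter hA
  have hc : ContinuousAt (fun z => u z - ‖z - x‖ * L) x :=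
    ((h.cvx.continuousOn hA).continuousAt (hA.mem_nhds hxA)).sub (by fun_prop)
  have h4 := ContinuousWithinAt.closure_le (h3 hxA) hc.continuousWithinAt
    (continuousWithinAt_const (b := u x₀)) fun z hz => hz.2 hz.1
  refine ⟨hxA, fun y hy => le_trans ?_ (hx₀.2 y hy)⟩
  simpa using h4

/-- bounded sets: the mass at the origin is determined -/
theorem bre_iff (hA : Body A) (hB : Body B) (hm : volume.real B ≤ volume.real A) :
    Bre A B u ↔ ConvexOn ℝ A u ∧
      (volume.restrict A).map (gradient u) = wt B (volume.real A - volume.real B) := by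
  have hz : MeasurableSet ({0} : Set ℂ) := measurableSet_singleton 0
  have e0 : (closure B : Set ℂ) =ᵐ[volume] B :=
    ae_eq_set.2 ⟨hB.vol_closure, by rw [sdiff_eq_empty.2 subset_closure, measure_empty]⟩
  have e1 : volume.restrict (closure B ∩ bar A) = volume.restrict B := by
    rw [bar_of_bounded hA.bd, inter_univ, Measure.restrict_congr_set e0]
  refine ⟨fun h => ⟨h.cvx, ?_⟩, fun h => ⟨h.1, ?_⟩⟩
  · set μ := (volume.restrict A).map (gradient u) with hμ
    have h1 : μ.restrict {0}ᶜ = volume.restrict B := h.map.trans e1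
    have h2 : μ = volume.restrict B + μ {0} • Measure.dirac 0 := by
      rw [← h1, ← Measure.restrict_singleton, add_comm]
      exact (Measure.restrict_add_restrict_compl hz).symm
    have h3 : volume A = volume B + μ {0} := by
      have a := congrArg (fun ν : Measure ℂ => ν univ) h2
      simp only [Measure.add_apply, Measure.restrict_apply_univ, Measure.smul_apply, measure_univ,
        smul_eq_mul, mul_one] at a
      rw [← a, hμ, Measure.map_apply (un1_meas u) MeasurableSet.univ, preimage_univ,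
        Measure.restrict_apply_univ]
    have h4 : μ {0} ≠ ⊤ := ne_top_of_le_ne_top hA.vol_lt_top.ne (h3 ▸ le_add_self)
    have h5 : ENNReal.ofReal (volume.real A - volume.real B) = μ {0} := by
      rw [Measure.real, Measure.real, h3, ENNReal.toReal_add hB.vol_lt_top.ne h4,
        add_sub_cancel_left, ENNReal.ofReal_toReal h4]
    rw [wt, h5]
    exact h2
  · have a1 : (volume.restrict B).restrict {0}ᶜ = volume.restrict B := by
      refine Measure.restrict_eq_self_of_ae_mem (ae_restrict_of_ae ?_)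
      exact measure_eq_zero_iff_ae_notMem.1 (measure_singleton (0 : ℂ))
    have a2 : (Measure.dirac (0 : ℂ)).restrict {0}ᶜ = 0 := by
      rw [Measure.restrict_eq_zero, Measure.dirac_apply,
        indicator_of_notMem (s := ({0}ᶜ : Set ℂ)) fun h0 => h0 rfl]
    rw [h.2, e1, wt, Measure.restrict_add, Measure.restrict_smul, a1, a2, smul_zero, add_zero]

end Pool.Agent.NapOT
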