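import Pool.Agent.Lib.MP_b71113_an.OT.Un0
import Pool.Agent.Lib.MP_b71113_an.OT.Hol
import Pool.Agent.Lib.MP_b71113_an.OT.Up

/-! Limits of the truncated problems. -/

namespace Pool.Agent.NapOT

open MeasureTheory Set Metric Complex ComplexConjugate Filter Topology
open scoped NNReal ENNReal Pointwise

variable {A B : Set ℂ} {v : ℕ → ℂ → ℝ} {T : ℕ → ℂ → ℂ}

theorem un2_vol {Ω : Set ℂ} {w : ℂ → ℝ} {S : ℂ → ℂ} (hΩ : Body Ω) (hB : Body B)
    (h0 : (0 : ℂ) ∈ B) (hm : volume.real B ≤ volume.real Ω)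
    (h : Tr Ω B (volume.real Ω - volume.real B) w S) :
    volume.real (Ω \ cz (closure B) w) = volume.real B := by
  have hD := up_dat hΩ hB h0 hm
  have h1 : volume (Ω ∩ cz (closure B) w) = volume (cz (closure B) w) := by
    refine le_antisymm (measure_mono inter_subset_right) ?_
    have hs : cz (closure B) w ⊆ (Ω ∩ cz (closure B) w) ∪ (closure Ω \ Ω) := fun x hx => by
      by_cases hx' : x ∈ Ω
      · exact Or.inl ⟨hx', hx⟩
      · exact Or.inr ⟨h.cz_subset hD h0 hx, hx'⟩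
    refine (measure_mono hs).trans ((measure_union_le _ _).trans ?_)
    rw [hΩ.vol_closure, add_zero]
  have h2 : volume.real (Ω ∩ cz (closure B) w) = volume.real Ω - volume.real B := by
    rw [Measure.real, h1, h.vol_cz hD h0, ENNReal.toReal_ofReal (sub_nonneg.2 hm)]
  have h3 := measureReal_inter_add_sdiff (μ := volume) (s := Ω)
    (isClosed_cz (closure B) w).measurableSet hΩ.vol_lt_top.ne
  linarith

theorem un2_one {Ω D F : Set ℂ} {w : ℂ → ℝ} {S : ℂ → ℂ} (hΩ : Body Ω) (hB : Body B)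
    (h0 : (0 : ℂ) ∈ B) (hm : volume.real B ≤ volume.real Ω)
    (h : Tr Ω B (volume.real Ω - volume.real B) w S) (hD : MeasurableSet D)
    (hF : MeasurableSet F) (hFΩ : F ⊆ Ω) (hn : ∀ x ∈ F, x ∉ cz (closure B) w)
    (hb : ∀ q ∈ D, ∀ x ∈ F, volume.real B < volume.real (Ω ∩ {y | 0 < inner ℝ (y - x) q})) :
    volume F ≤ volume (B \ D) := by
  have hG : MeasurableSet (Dᶜ \ {0}) := hD.compl.diff (measurableSet_singleton 0)
  have e1 : volume F = volume.restrict Ω F := by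
    rw [Measure.restrict_apply hF, inter_eq_left.2 hFΩ]
  have e2 : volume.restrict Ω F ≤ volume.restrict Ω (S ⁻¹' (Dᶜ \ {0})) := by
    refine measure_mono_ae ?_
    filter_upwards [h.gam] with x g hx
    refine ⟨fun hq => ?_, fun hq => hn x hx ?_⟩
    · have a1 : Ω ∩ {y | 0 < inner ℝ (y - x) (S x)} ⊆ Ω \ cz (closure B) w := by
        rintro y ⟨hy, hy'⟩
        refine ⟨hy, fun hz => ?_⟩
        have a2 := g.mono hz
        rw [sub_zero, ← neg_sub, inner_neg_left] at a2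
        have a3 : 0 < inner ℝ (y - x) (S x) := hy'
        linarith
      have a4 := measureReal_mono (μ := volume) a1
        ((measure_mono sdiff_subset).trans_lt hΩ.vol_lt_top).ne
      rw [un2_vol hΩ hB h0 hm h] at a4
      exact (hb _ hq x hx).not_ge a4
    · have a5 : S x = 0 := hq
      rwa [a5] at g
  rw [← Measure.map_apply h.meas hG, h.map, area_wt B hG fun x hx => Or.inr hx.2] at e2
  exact e1.le.trans (e2.trans (measure_mono fun x hx => ⟨hx.2, hx.1.1⟩))

/-- the area that is never covered by a contact set -/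
theorem vol_uncovered (hA : IsOpen A) (hc : Convex ℝ A) (hB : Body B) (h0 : (0 : ℂ) ∈ B)
    (h : ∀ᶠ n in atTop, volume.real B ≤ volume.real (cut A n) ∧
      Tr (cut A n) B (volume.real (cut A n) - volume.real B) (v n) (T n))
    {E : Set ℂ} (hE : MeasurableSet E) (hEA : E ⊆ A)
    (hn : ∀ᶠ n in atTop, ∀ x ∈ E, x ∉ cz (closure B) (v n)) :
    volume E ≤ volume (closure B ∩ bar A) := by
  rcases A.eq_empty_or_nonempty with rfl | hne
  · rw [subset_empty_iff.1 hEA, measure_empty]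
    exact zero_le
  have key : ∀ (m : ℕ) (D : Set ℂ), IsCompact D → D ⊆ B \ bar A →
      volume (E ∩ ball 0 m) ≤ volume (B \ D) := by
    intro m D hD hs
    obtain ⟨U, hU, V, hV, hUV⟩ := mem_prod_iff.1 (hD.mem_nhdsSet_prod_of_forall
      fun q hq => half_big hA hc (hs hq).2 (volume.real B) m)
    obtain ⟨n, ⟨a1, a2⟩, a3, a4, a5, a6⟩ := (h.and (hn.and ((body_cut hA hc hne).and
      ((eventually_ge_atTop m).and (show ∀ᶠ n in atTop, n ∈ V from hV))))).exists
    refine un2_one a4 hB h0 a1 a2 hD.measurableSet (hE.inter measurableSet_ball)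
      (fun x hx => cut_mono A a5 ⟨hEA hx.1, hx.2⟩) (fun x hx => a3 x hx.1) fun q hq x hx => ?_
    exact hUV (mk_mem_prod (subset_of_mem_nhdsSet hU hq) a6) x (mem_ball_zero_iff.1 hx.2).le
  have key2 : ∀ m : ℕ, volume (E ∩ ball 0 m) ≤ volume (closure B ∩ bar A) := by
    intro m
    refine ENNReal.le_of_forall_pos_le_add fun ε hε _ => ?_
    obtain ⟨D, hs, hD, hlt⟩ := (hB.op.measurableSet.diff (measurableSet_bar A)).exists_isCompact_sdiff_lt
      (μ := volume) ((measure_mono sdiff_subset).trans_lt hB.vol_lt_top).ne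
      (ε := ε) (by exact_mod_cast hε.ne')
    have hsub : B \ D ⊆ (closure B ∩ bar A) ∪ ((B \ bar A) \ D) := fun q hq => by
      by_cases hq' : q ∈ bar A
      · exact Or.inl ⟨subset_closure hq.1, hq'⟩
      · exact Or.inr ⟨⟨hq.1, hq'⟩, hq.2⟩
    exact (key m D hD hs).trans ((measure_mono hsub).trans ((measure_union_le _ _).trans
      (add_le_add le_rfl hlt.le)))
  have hmono : Monotone fun m : ℕ => E ∩ ball (0 : ℂ) m := fun a b hab =>
    inter_subset_inter_right _ (ball_subset_ball (Nat.cast_le.2 hab))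
  have e : E = ⋃ m : ℕ, E ∩ ball (0 : ℂ) m := by rw [← inter_iUnion, iUnion_ball_nat, inter_univ]
  rw [e, hmono.measure_iUnion]
  exact iSup_le key2

/-- the contact set of a slightly larger target exhausts the interior of the contact set -/
theorem interior_cz_subset {Ω : Set ℂ} (hΩ : Body Ω) {r₁ r₂ : ℝ} (h1 : 0 < r₁) (h2 : 0 < r₂)
    (hm : 4 * r₁ * r₂ < volume.real Ω) {w : ℂ → ℝ} {S : ℂ → ℂ}
    (h : Tr Ω (box r₁ r₂) (volume.real Ω - 4 * r₁ * r₂) w S) {x : ℂ}
    (hx : x ∈ interior (cz (closure (box r₁ r₂)) w)) :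
    ∃ (t β : ℝ) (w' : ℂ → ℝ) (S' : ℂ → ℂ), 1 < t ∧ Tr Ω (box (t * r₁) (t * r₂)) β w' S' ∧
      x ∈ cz (closure (box (t * r₁) (t * r₂))) w' := by
  obtain ⟨ρ, hρ, hb⟩ := Metric.mem_nhds_iff.1 (mem_interior_iff_mem_nhds.1 hx)
  have hV : 0 < volume.real (ball (0 : ℂ) (ρ / 4)) :=
    Body.vol_pos ⟨isOpen_ball, convex_ball _ _, isBounded_ball, nonempty_ball.2 (by positivity)⟩
  obtain ⟨t, a1, a2, ht⟩ : ∃ t : ℝ, 4 * (t * r₁) * (t * r₂) < volume.real Ω ∧
      volume.real Ω - 4 * r₁ * r₂ <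
        volume.real Ω - 4 * (t * r₁) * (t * r₂) + volume.real (ball (0 : ℂ) (ρ / 4)) ∧ 1 < t := by
    have c1 : ∀ᶠ t : ℝ in 𝓝 1, 4 * (t * r₁) * (t * r₂) < volume.real Ω :=
      ContinuousAt.eventually_lt (by fun_prop) (by fun_prop) (by simpa using hm)
    have c2 : ∀ᶠ t : ℝ in 𝓝 1, volume.real Ω - 4 * r₁ * r₂ <
        volume.real Ω - 4 * (t * r₁) * (t * r₂) + volume.real (ball (0 : ℂ) (ρ / 4)) :=
      ContinuousAt.eventually_lt (by fun_prop) (by fun_prop) (by simpa using hV)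
    exact ((c1.filter_mono nhdsWithin_le_nhds).and ((c2.filter_mono nhdsWithin_le_nhds).and
      (self_mem_nhdsWithin : ∀ᶠ t : ℝ in 𝓝[>] 1, 1 < t))).exists
  have ht0 : 0 < t := by linarith
  have d1 : 0 < t * r₁ := by positivity
  have d2 : 0 < t * r₂ := by positivity
  have hQ := body_box h1 h2
  have hQ0 : (0 : ℂ) ∈ box r₁ r₂ := by simp [box, h1, h2]
  have hQ' := body_box d1 d2
  have hQ0' : (0 : ℂ) ∈ box (t * r₁) (t * r₂) := by
    simp only [box, mem_ofPred_eq, zero_re, zero_im, abs_zero]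
    exact ⟨d1, d2⟩
  have m1 : volume.real (box r₁ r₂) ≤ volume.real Ω := by
    rw [vol_box h1.le h2.le]
    exact hm.le
  have m2 : volume.real (box (t * r₁) (t * r₂)) ≤ volume.real Ω := by
    rw [vol_box d1.le d2.le]
    exact a1.le
  obtain ⟨w', hS⟩ := exists_tr hΩ hQ' hQ0' m2
  refine ⟨t, _, w', _, ht, hS, interior_subset (interior_of_area (convex_cz _ _)
    (cmp hS h hQ hQ0 subset_rfl ht fun q hq => ?_) hρ hb ?_)⟩
  · simp only [box, mem_ofPred_eq, smul_re, smul_im, smul_eq_mul, abs_mul, abs_of_pos ht0]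
    exact ⟨mul_lt_mul_of_pos_left hq.1 ht0, mul_lt_mul_of_pos_left hq.2 ht0⟩
  · have hD := up_dat hΩ hQ hQ0 m1
    rw [vol_box h1.le h2.le] at hD
    rw [h.vol_cz hD hQ0, hS.vol_cz (up_dat hΩ hQ' hQ0' m2) hQ0', vol_box d1.le d2.le,
      ← ENNReal.ofReal_toReal (measure_ball_lt_top (x := (0 : ℂ)) (r := ρ / 4)).ne,
      ← ENNReal.ofReal_add (sub_nonneg.2 a1.le) ENNReal.toReal_nonneg,
      ENNReal.ofReal_lt_ofReal_iff_of_nonneg (sub_nonneg.2 hm.le)]
    exact a2

end Pool.Agent.NapOT
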